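import Pool.Agent.Lib.CMT.Iface
import Pool.Agent.Lib.CMT.B.Br
import Pool.Agent.Lib.CMT.D.Cpt
import Pool.Agent.Lib.CMT.D.Wex

/-!
PROJECT CMT, part J4 (helper45): groups acting properly discontinuously and cocompactly on the ball
are finitely generated.
-/

namespace CMT.J

open Set

/-- The abstract statement. -/
theorem fg_abs {G X : Type*} [Group G] [TopologicalSpace X] [LocallyCompactSpace X] {B : Set X}
    (a : G → X → X) (hB : IsPreconnected B) (hBo : IsOpen B) (hne : B.Nonempty)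
    (hmem : ∀ g, ∀ z ∈ B, a g z ∈ B) (hone : ∀ z ∈ B, a 1 z = z)
    (hmul : ∀ g h, ∀ z ∈ B, a (g * h) z = a g (a h z)) (hcont : ∀ g, ContinuousOn (a g) B)
    {C : Set X} (hC : IsCompact C) (hCB : C ⊆ B) (hcov : ∀ z ∈ B, ∃ g, a g z ∈ C)
    (hpd : ∀ K : Set X, IsCompact K → K ⊆ B → {g : G | ∃ z ∈ K, a g z ∈ K}.Finite) :
    Group.FG G := by
  obtain ⟨K, hK, hCK, hKB⟩ := exists_compact_between hC hBo hCB
  rw [Group.fg_iff]
  refine ⟨{g : G | ∃ z ∈ K, a g z ∈ K}, ?_, hpd K hK hKB⟩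
  by_contra hne'
  set H := Subgroup.closure {g : G | ∃ z ∈ K, a g z ∈ K} with hH
  obtain ⟨g0, hg0⟩ : ∃ g0, g0 ∉ H := by
    by_contra hcon
    push Not at hcon
    exact hne' ((Subgroup.eq_top_iff' H).2 hcon)
  let V1 : Set X := ⋃ h ∈ (H : Set G), (B ∩ a h ⁻¹' interior K)
  let V2 : Set X := ⋃ h ∈ ((H : Set G)ᶜ), (B ∩ a h ⁻¹' interior K)
  have hV1 : IsOpen V1 := isOpen_biUnion fun h _ => (hcont h).isOpen_inter_preimage hBo isOpen_interior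
  have hV2 : IsOpen V2 := isOpen_biUnion fun h _ => (hcont h).isOpen_inter_preimage hBo isOpen_interior
  have hcover : B ⊆ V1 ∪ V2 := by
    intro z hz
    obtain ⟨g, hg⟩ := hcov z hz
    by_cases h : g ∈ H
    · exact Or.inl (mem_iUnion₂.2 ⟨g, h, hz, hCK hg⟩)
    · exact Or.inr (mem_iUnion₂.2 ⟨g, h, hz, hCK hg⟩)
  obtain ⟨z0, hz0⟩ := hne
  obtain ⟨g1, hg1⟩ := hcov z0 hz0
  set w := a g1 z0 with hw
  have hwB : w ∈ B := hmem _ _ hz0
  have hn1 : (B ∩ V1).Nonempty :=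
    ⟨w, hwB, mem_iUnion₂.2 ⟨1, H.one_mem, hwB, by
      show a 1 w ∈ interior K
      rw [hone w hwB]; exact hCK hg1⟩⟩
  have hn2 : (B ∩ V2).Nonempty := by
    refine ⟨a g0⁻¹ w, hmem _ _ hwB, mem_iUnion₂.2 ⟨g0, hg0, hmem _ _ hwB, ?_⟩⟩
    show a g0 (a g0⁻¹ w) ∈ interior K
    rw [← hmul _ _ _ hwB, mul_inv_cancel, hone w hwB]
    exact hCK hg1
  obtain ⟨z, hz, hz1, hz2⟩ := hB V1 V2 hV1 hV2 hcover hn1 hn2
  obtain ⟨h, hh, -, hh'⟩ := mem_iUnion₂.1 hz1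
  obtain ⟨g, hg, -, hg'⟩ := mem_iUnion₂.1 hz2
  apply hg
  have h1 : g * h⁻¹ ∈ H := by
    apply Subgroup.subset_closure
    refine ⟨a h z, interior_subset hh', ?_⟩
    have h2 : a (g * h⁻¹) (a h z) = a g z := by
      rw [← hmul _ _ _ hz, inv_mul_cancel_right]
    rw [h2]
    exact interior_subset hg'
  have h3 := H.mul_mem h1 hh
  rwa [inv_mul_cancel_right] at h3

variable {F : Type} [Field F] [NumberField F]

lemma convex_Ball (D : Dat F) : Convex ℝ (Ball D) := by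
  have h : ConvexOn ℝ Set.univ (fun z : ℂ × ℂ => ‖z.1‖ ^ 2 + ‖z.2‖ ^ 2) := by
    apply ConvexOn.add
    · have h1 : ConvexOn ℝ Set.univ (fun z : ℂ × ℂ => ‖z.1‖) :=
        (convexOn_univ_norm (E := ℂ)).comp_linearMap (LinearMap.fst ℝ ℂ ℂ)
      exact h1.pow (fun _ _ => norm_nonneg _) 2
    · have h1 : ConvexOn ℝ Set.univ (fun z : ℂ × ℂ => ‖z.2‖) :=
        (convexOn_univ_norm (E := ℂ)).comp_linearMap (LinearMap.snd ℝ ℂ ℂ)
      exact h1.pow (fun _ _ => norm_nonneg _) 2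
  have h2 := h.convex_lt (D.t0 D.bet)
  have h3 : Ball D = {z : ℂ × ℂ | z ∈ Set.univ ∧ ‖z.1‖ ^ 2 + ‖z.2‖ ^ 2 < D.t0 D.bet} := by
    ext z; simp [Ball]
  rw [h3]; exact h2

lemma zero_mem_Ball (D : Dat F) : (0 : ℂ × ℂ) ∈ Ball D := by
  show ‖(0 : ℂ × ℂ).1‖ ^ 2 + ‖(0 : ℂ × ℂ).2‖ ^ 2 < D.t0 D.bet
  simpa using D.bet_pos

/-- Finite generation. -/
theorem fg [NumberField.IsTotallyReal F] (D : Dat F) (G : Subgroup (SG D)) (hG : G ≤ Gam D 1)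
    (hC : ∃ C : Set (ℂ × ℂ), IsCompact C ∧ C ⊆ Ball D ∧ ∀ z ∈ Ball D, ∃ g ∈ G, CMT.act D g z ∈ C) :
    Group.FG G := by
  obtain ⟨C, hC, hCB, hcov⟩ := hC
  refine fg_abs (B := Ball D) (fun (g : G) z => CMT.act D g.1 z) (convex_Ball D).isPreconnected
    (CMT.D.isOpen_Ball D) ⟨0, zero_mem_Ball D⟩ ?_ ?_ ?_ ?_ hC hCB ?_ ?_
  · intro g z hz
    exact CMT.B.act_mem_Ball D (hG g.2).1 hz
  · intro z _
    exact CMT.B.act_one_Ball D z
  · intro g h z hz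
    exact CMT.B.act_mul_Ball D g.1 (hG h.2).1 hz
  · intro g
    exact CMT.D.continuousOn_act D (hG g.2).1
  · intro z hz
    obtain ⟨g, hg, h⟩ := hcov z hz
    exact ⟨⟨g, hg⟩, h⟩
  · intro K hK hKB
    have h1 := CMT.thmPd F D K hK hKB
    refine Set.Finite.of_finite_image (f := Subtype.val) (h1.subset ?_) Subtype.val_injective.injOn
    rintro _ ⟨g, ⟨z, hz, hgz⟩, rfl⟩
    exact ⟨hG g.2, z, hz, hgz⟩

/-- Arithmetic groups are finitely generated. -/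
theorem fg_arith [NumberField.IsTotallyReal F] (hF : 2 ≤ Module.finrank ℚ F) (D : Dat F)
    (G : Subgroup (SG D)) (hG : IsArith D G) : Group.FG G := by
  have h1 : G ≤ Gam D 1 := hG.1.trans (CMT.D.Gam_le_one D 3)
  exact fg D G h1 (CMT.s_Cpt F hF D G h1 hG.2)

end CMT.J
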