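import Pool.Agent.Lib.CMT.J.Spec
import Pool.Agent.Lib.CMT.J.Fg

/-!
PROJECT CMT, part J5 (helper45, task 22932): `S_CP` (THEOREM C') from the parts.
-/

namespace CMT.J

open Matrix ComplexConjugate NumberField CMT.B

variable {F : Type} [Field F] [NumberField F]

/-- Chain rule. -/
lemma hasFDerivAt_comp_act (D : Dat F) {g : SG D} (hg : IsIso D g) {z : ℂ × ℂ} (hz : z ∈ Ball D)
    {w : ℂ × ℂ → ℂ} {p : ℂ × ℂ}
    (hw : HasFDerivAt w (p.1 • ContinuousLinearMap.fst ℂ ℂ ℂ + p.2 • ContinuousLinearMap.snd ℂ ℂ ℂ)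
      (CMT.act D g z)) :
    HasFDerivAt (fun z => w (CMT.act D g z))
      ((pull1 D g z p).1 • ContinuousLinearMap.fst ℂ ℂ ℂ +
        (pull1 D g z p).2 • ContinuousLinearMap.snd ℂ ℂ ℂ) z := by
  refine (hw.comp z (hasFDerivAt_act_Ball D hg hz)).congr_fderiv ?_
  rw [pull1_eq D g z (num_two_ne_zero D hg hz)]
  refine ContinuousLinearMap.ext fun u => ?_
  simp [dact]
  ring

/-- A function with derivative zero on the ball is constant. -/
lemma const_Ball (D : Dat F) {f : ℂ × ℂ → ℂ}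
    (hf : ∀ z ∈ Ball D, HasFDerivAt f (0 : ℂ × ℂ →L[ℂ] ℂ) z) {z z' : ℂ × ℂ} (hz : z ∈ Ball D)
    (hz' : z' ∈ Ball D) : f z = f z' :=
  (CMT.D.isOpen_Ball D).is_const_of_fderiv_eq_zero (𝕜 := ℂ) (convex_Ball D).isPreconnected
    (fun x hx => (hf x hx).differentiableAt.differentiableWithinAt)
    (fun x hx => (hf x hx).fderiv) hz hz'

lemma Rt_eq_rT (D : Dat F) (a : F) (t : F →+* ℝ) (g : SG D) : Rt D a t g = rT D a t g := by
  unfold Rt rT
  split_ifs <;> rfl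

lemma Rt_mul (D : Dat F) (a : F) (t : F →+* ℝ) (g g' : SG D) :
    Rt D a t (g * g') = Rt D a t g * Rt D a t g' := by
  unfold Rt
  split_ifs
  · rw [mt_mul, Matrix.map_mul]
  · exact mt_mul D t g g'

/-- The period cocycle of a vector valued primitive. -/
lemma exists_cocycle (D : Dat F) (a : F) (t : F →+* ℝ) (ψ : (Fin 3 → F) → ℂ)
    {G : Subgroup (SG D)} (hG : G ≤ Gam D 1) (hinv : ∀ g ∈ G, ∀ z ∈ Ball D, ∀ i,
        pull1 D g z (vf D a t ψ (CMT.act D g z) i) =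
          (∑ l, Rt D a t g i l * (vf D a t ψ z l).1, ∑ l, Rt D a t g i l * (vf D a t ψ z l).2))
    {f : ℂ × ℂ → Fin 3 → ℂ} (hf : ∀ z ∈ Ball D, ∀ i,
        HasFDerivAt (fun z => f z i) ((vf D a t ψ z i).1 • ContinuousLinearMap.fst ℂ ℂ ℂ +
          (vf D a t ψ z i).2 • ContinuousLinearMap.snd ℂ ℂ ℂ) z) :
    ∃ c : SG D → Fin 3 → ℂ, (∀ g ∈ G, ∀ z ∈ Ball D,
      f (CMT.act D g z) = Rt D a t g *ᵥ f z + c g) ∧
      ∀ g ∈ G, ∀ g' ∈ G, c (g * g') = c g + Rt D a t g *ᵥ c g' := by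
  have h1 : ∀ g ∈ G, ∀ z ∈ Ball D, ∀ i,
      f (CMT.act D g z) i - (Rt D a t g *ᵥ f z) i =
        f (CMT.act D g 0) i - (Rt D a t g *ᵥ f 0) i := by
    intro g hg z hz i
    refine const_Ball D (f := fun z => f (CMT.act D g z) i - (Rt D a t g *ᵥ f z) i)
      (fun z hz => ?_) hz (zero_mem_Ball D)
    have hgi := (hG hg).1
    have e1 := hasFDerivAt_comp_act D hgi hz (hf _ (act_mem_Ball D hgi hz) i)
    have e2 : HasFDerivAt (fun z => (Rt D a t g *ᵥ f z) i)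
        (∑ l, Rt D a t g i l • ((vf D a t ψ z l).1 • ContinuousLinearMap.fst ℂ ℂ ℂ +
          (vf D a t ψ z l).2 • ContinuousLinearMap.snd ℂ ℂ ℂ)) z := by
      have := HasFDerivAt.fun_sum (u := Finset.univ)
        (fun l _ => (hf z hz l).const_mul (Rt D a t g i l))
      exact this
    refine (e1.sub e2).congr_fderiv ?_
    rw [hinv g hg z hz i]
    refine ContinuousLinearMap.ext fun u => ?_
    simp [Fin.sum_univ_three]
    ring
  refine ⟨fun g i => f (CMT.act D g 0) i - (Rt D a t g *ᵥ f 0) i, ?_, ?_⟩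
  · intro g hg z hz
    funext i
    have := h1 g hg z hz i
    simp only [Pi.add_apply]
    rw [← this]
    ring
  · intro g hg g' hg'
    have hz0 := zero_mem_Ball D
    have hgi := (hG hg').1
    have h2 : f (CMT.act D g (CMT.act D g' 0)) = Rt D a t g *ᵥ f (CMT.act D g' 0) +
        (f (CMT.act D g 0) - Rt D a t g *ᵥ f 0) := by
      funext i
      have := h1 g hg _ (act_mem_Ball D hgi hz0) i
      simp only [Pi.add_apply, Pi.sub_apply]
      rw [← this]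
      ring
    show f (CMT.act D (g * g') 0) - Rt D a t (g * g') *ᵥ f 0 =
      (f (CMT.act D g 0) - Rt D a t g *ᵥ f 0) +
        Rt D a t g *ᵥ (f (CMT.act D g' 0) - Rt D a t g' *ᵥ f 0)
    rw [act_mul_Ball D g hgi hz0, h2, Rt_mul, Matrix.mulVec_sub, ← Matrix.mulVec_mulVec]
    abel

/-- The curve is not empty. -/
lemma Cv_nonempty (D : Dat F) (k : Fin 2) (ρ : F) (hρ : (D.t0 ρ) ^ 2 < D.t0 D.bet) :
    ∃ z, z ∈ Cv D k ρ := by
  by_cases hk : k = 0
  · refine ⟨(((D.t0 ρ : ℝ) : ℂ), 0), ?_, ?_⟩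
    · show ‖((D.t0 ρ : ℝ) : ℂ)‖ ^ 2 + ‖(0 : ℂ)‖ ^ 2 < D.t0 D.bet
      simpa using hρ
    · simp [pk, hk]
  · refine ⟨(0, ((D.t0 ρ : ℝ) : ℂ)), ?_, ?_⟩
    · show ‖(0 : ℂ)‖ ^ 2 + ‖((D.t0 ρ : ℝ) : ℂ)‖ ^ 2 < D.t0 D.bet
      simpa using hρ
    · simp [pk, hk]

/-- The pairing with `v` at the place `t`. -/
noncomputable def pv (D : Dat F) (t : F →+* ℝ) (k : Fin 2) (ρ : F) (x : Fin 3 → ℂ) : ℂ :=
  ∑ i, ((ht D t i * t (vv D k ρ i) : ℝ) : ℂ) * x i

lemma pv_add (D : Dat F) (t : F →+* ℝ) (k : Fin 2) (ρ : F) (x y : Fin 3 → ℂ) :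
    pv D t k ρ (x + y) = pv D t k ρ x + pv D t k ρ y := by
  unfold pv
  rw [← Finset.sum_add_distrib]
  refine Finset.sum_congr rfl fun i _ => ?_
  rw [Pi.add_apply, mul_add]

lemma pv_mulVec (D : Dat F) (t : F →+* ℝ) (k : Fin 2) (ρ : F) (M : Matrix (Fin 3) (Fin 3) ℂ)
    (hM : ∀ l, ∑ i, ((ht D t i * t (vv D k ρ i) : ℝ) : ℂ) * M i l =
      ((ht D t l * t (vv D k ρ l) : ℝ) : ℂ)) (x : Fin 3 → ℂ) :
    pv D t k ρ (M *ᵥ x) = pv D t k ρ x := by
  have h0 := hM 0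
  have h1 := hM 1
  have h2 := hM 2
  unfold pv
  simp only [mulVec, dotProduct, Fin.sum_univ_three] at h0 h1 h2 ⊢
  linear_combination x 0 * h0 + x 1 * h1 + x 2 * h2

/-- THEOREM (C') from the parts. -/
theorem tCP_red : S_Act ∧ S_VInv ∧ S_VPrim ∧ S_Curve ∧ S_H1 ∧ S_H2 ∧ S_StabCpt ∧ S_Inter ∧
    S_FixR ∧ S_LineC ∧ S_MaxC ∧ S_DensC ∧ S_SemiL → S_CP := by
  rintro ⟨-, hVInv, hVPrim, hCurve, hH1, hH2, hStab, hInter, hFixR, hLineC, hMaxC, hDensC, hSemiL⟩
  intro F _ _ _ hF D a ha φ hφ G hG P hP p hp t l hl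
  have hG1 : G ≤ Gam D 1 := hG.1.trans (CMT.D.Gam_le_one D 3)
  -- the periods are additive
  have hpadd : ∀ g g' : G, p (g * g') = p g + p g' := by
    intro g g'
    have h0 := zero_mem_Ball D
    have e1 := hp (g * g') 0 h0
    have e2 : CMT.act D (g * g').1 0 = CMT.act D g.1 (CMT.act D g'.1 0) :=
      act_mul_Ball D g.1 (hG1 g'.2).1 h0
    rw [e2, hp g _ (act_mem_Ball D (hG1 g'.2).1 h0), hp g' 0 h0] at e1
    linear_combination -e1
  obtain ⟨p1, q, hp1, hq, hpq⟩ := hH1 F hF D G hG (fun g => l (p g)) (fun g g' => by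
    rw [hpadd, map_add])
  obtain ⟨hl1, hl2⟩ := hSemiL F D a t l hl
  -- the claim
  have claim : ∀ (k : Fin 2) (ρ : F), (D.t0 ρ) ^ 2 < D.t0 D.bet →
      ∀ z ∈ Cv D k ρ, ∀ z' ∈ Cv D k ρ, q z = q z' := by
    intro k ρ hρ
    obtain ⟨ψ, hψ, hψc⟩ := hCurve F D a ha t φ hφ k ρ hρ
    obtain ⟨G', hG', hinv⟩ := hVInv F D a ha t ψ hψ
    obtain ⟨f, hf⟩ := hVPrim F D a ha t ψ hψ
    have hG'1 : G' ≤ Gam D 1 := hG'.1.trans (CMT.D.Gam_le_one D 3)
    obtain ⟨c, hc1, hc2⟩ := exists_cocycle D a t ψ hG'1 hinv hf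
    have hGG : IsArith D (G ⊓ G') := hInter F D G G' hG hG'
    obtain ⟨hst1, hst2⟩ := hStab F hF D (G ⊓ G') hGG k ρ hρ
    obtain ⟨z0, hz0⟩ := Cv_nonempty D k ρ hρ
    -- `P` and `(f, v)` differ by a constant on the curve
    have hline : ∀ z ∈ Cv D k ρ, ∀ z' ∈ Cv D k ρ,
        P z - pv D t k ρ (f z) = P z' - pv D t k ρ (f z') := by
      refine hLineC F D k ρ P (fun z => pv D t k ρ (f z)) (fun z => (om D a φ z).1)
        (fun z => (om D a φ z).2)
        (fun z => ∑ i, ((ht D t i * t (vv D k ρ i) : ℝ) : ℂ) * (vf D a t ψ z i).1)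
        (fun z => ∑ i, ((ht D t i * t (vv D k ρ i) : ℝ) : ℂ) * (vf D a t ψ z i).2) hP ?_ ?_
      · intro z hz
        have := HasFDerivAt.fun_sum (u := Finset.univ)
          (fun i _ => (hf z hz i).const_mul ((ht D t i * t (vv D k ρ i) : ℝ) : ℂ))
        refine HasFDerivAt.congr_fderiv this ?_
        refine ContinuousLinearMap.ext fun u => ?_
        simp [Fin.sum_univ_three]
        ring
      · intro z hz
        have := hψc z hz
        by_cases hk : k = 0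
        · simp only [hk, if_true] at this ⊢
          exact this
        · simp only [hk, if_false] at this ⊢
          exact this
    -- the period on the stabiliser
    have hper : ∀ g (hg : g ∈ G ⊓ G'), Fixv D k ρ g → p ⟨g, hg.1⟩ = pv D t k ρ (c g) := by
      intro g hg hgv
      have hgz := hst1 g hg hgv z0 hz0
      have e1 := hline _ hgz _ hz0
      have e2 := hp ⟨g, hg.1⟩ z0 hz0.1
      have e3 := hc1 g hg.2 z0 hz0.1
      have e4 : pv D t k ρ (Rt D a t g *ᵥ f z0) = pv D t k ρ (f z0) := by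
        refine pv_mulVec D t k ρ _ (fun i => ?_) _
        have := hFixR F D k ρ g (hG'1 hg.2).1 hgv t i
        unfold Rt
        split_ifs
        · exact this.2
        · exact this.1
      have e5 : P (CMT.act D g z0) = P z0 + p ⟨g, hg.1⟩ := e2
      rw [e3, pv_add, e4, e5] at e1
      linear_combination e1
    -- the new cocycle
    obtain ⟨f2, hf2, hf2c⟩ := hH2 F hF D (G ⊓ G') hGG (fun g i => l (c g.1 i)) (fun g g' => by
      funext i
      have e1 : c (g * g').1 = c g.1 + Rt D a t g.1 *ᵥ c g'.1 := hc2 g.1 g.2.2 g'.1 g'.2.2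
      rw [e1]
      have e2 := hl1 g.1 (c g'.1) i
      rw [← Rt_eq_rT] at e2
      simp only [Pi.add_apply, map_add]
      rw [← e2])
    have hlc : ∀ x : Fin 3 → ℂ, l (pv D t k ρ x) = pv D D.t0 k ρ fun i => l (x i) := by
      intro x
      unfold pv
      rw [map_sum]
      exact Finset.sum_congr rfl fun i _ => hl2 k ρ i (x i)
    refine hMaxC F D k ρ {g : SG D | g ∈ G ⊓ G' ∧ Fixv D k ρ g}
      (fun z => p1 z - pv D D.t0 k ρ (f2 z)) q ?_ hq ?_ ?_
    · refine hp1.sub ?_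
      unfold pv
      exact DifferentiableOn.fun_sum fun i _ => (hf2 i).const_mul _
    · rintro g ⟨hg, hgv⟩ z hz
      refine ⟨hst1 g hg hgv z hz, ?_⟩
      have e1 := hpq ⟨g, hg.1⟩ z hz.1
      have e2 := hf2c ⟨g, hg⟩ z hz.1
      have e3 := hper g hg hgv
      have e4 : pv D D.t0 k ρ ((mt D D.t0 g).map conj *ᵥ f2 z) = pv D D.t0 k ρ (f2 z) := by
        refine pv_mulVec D D.t0 k ρ _ (fun i => ?_) _
        exact (hFixR F D k ρ g (hG'1 hg.2).1 hgv D.t0 i).2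
      have e5 : f2 (CMT.act D g z) = (mt D D.t0 g).map conj *ᵥ f2 z + fun i => l (c g i) := e2
      have e6 : p1 (CMT.act D g z) + conj (q (CMT.act D g z)) = p1 z + conj (q z) +
          l (p ⟨g, hg.1⟩) := e1
      show p1 (CMT.act D g z) - pv D D.t0 k ρ (f2 (CMT.act D g z)) +
        conj (q (CMT.act D g z)) = p1 z - pv D D.t0 k ρ (f2 z) + conj (q z)
      rw [e5, pv_add, e4]
      rw [e3, hlc] at e6
      linear_combination e6
    · obtain ⟨C, hC, hCC, H⟩ := hst2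
      refine ⟨C, hC, hCC, fun z hz => ?_⟩
      obtain ⟨g, hg, hgv, hgz⟩ := H z hz
      exact ⟨g, ⟨hg, hgv⟩, hgz⟩
  have hconst := hDensC F D q hq claim
  refine ⟨p1, hp1, fun g z hz => ?_⟩
  have e1 := hpq g z hz
  rw [hconst _ (act_mem_Ball D (hG1 g.2).1 hz) z hz] at e1
  linear_combination e1

end CMT.J
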