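import Pool.Agent.Lib.CMT.J.Spec
import Pool.Agent.Lib.CMT.B.Br

/-!
# PROJECT CMT, part J : invariant holomorphic functions are constant, invariance of differentials
-/

open scoped BigOperators ComplexConjugate Topology
open MeasureTheory Matrix

noncomputable section

namespace CMT
namespace J

variable {F : Type} [Field F] [NumberField F]

theorem isOpen_BallJ (D : Dat F) : IsOpen (Ball D) := by
  have h : Continuous fun z : ℂ × ℂ => ‖z.1‖ ^ 2 + ‖z.2‖ ^ 2 := by fun_prop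
  exact h.isOpen_preimage _ isOpen_Iio

theorem convex_BallJ (D : Dat F) : Convex ℝ (Ball D) := by
  have h0 : ConvexOn ℝ Set.univ (fun z : ℂ => ‖z‖ ^ 2) :=
    (convexOn_norm convex_univ).pow (fun _ _ => norm_nonneg _) 2
  have h1 := h0.comp_linearMap (LinearMap.fst ℝ ℂ ℂ)
  have h2 := h0.comp_linearMap (LinearMap.snd ℝ ℂ ℂ)
  rw [Set.preimage_univ] at h1 h2
  have h3 := (h1.add h2).convex_lt (D.t0 D.bet)
  refine (congrArg (Convex ℝ) ?_).mp h3
  ext z
  simp [Ball]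

theorem tConst : S_Const := by
  intro F _ _ D G Q hQ hinv ⟨C, hC, hCB, hcov⟩ z hz z' hz'
  obtain ⟨g, hg, hgC⟩ := hcov z hz
  have hcont : ContinuousOn (fun x => ‖Q x‖) C := (hQ.continuousOn.mono hCB).norm
  obtain ⟨m, hm, hmax⟩ := hC.exists_isMaxOn ⟨_, hgC⟩ hcont
  have hM : IsMaxOn (norm ∘ Q) (Ball D) m := by
    intro x hx
    obtain ⟨k, hk, hkC⟩ := hcov x hx
    have h1 : ‖Q (CMT.act D k x)‖ ≤ ‖Q m‖ := hmax hkC
    rw [hinv k hk x hx] at h1
    exact h1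
  have h2 := Complex.eqOn_of_isPreconnected_of_isMaxOn_norm (convex_BallJ D).isPreconnected
    (isOpen_BallJ D) hQ (hCB hm) hM
  exact (h2 hz).trans (h2 hz').symm

/-- A linear form on `ℂ × ℂ` in coordinates. -/
theorem clm_apply (L : ℂ × ℂ →L[ℂ] ℂ) (v : ℂ × ℂ) : L v = L (1, 0) * v.1 + L (0, 1) * v.2 := by
  have h : v = v.1 • ((1 : ℂ), (0 : ℂ)) + v.2 • ((0 : ℂ), (1 : ℂ)) := by
    ext <;> simp
  conv_lhs => rw [h]
  rw [map_add, map_smul, map_smul, smul_eq_mul, smul_eq_mul]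
  ring

theorem tGradInv : S_GradInv := by
  intro F _ _ D g hg w c hw hper z hz
  have hz' := CMT.B.act_mem_Ball D hg hz
  have hw1 : HasFDerivAt w (fderiv ℂ w (CMT.act D g z)) (CMT.act D g z) :=
    (hw.differentiableAt ((isOpen_BallJ D).mem_nhds hz')).hasFDerivAt
  have hcomp := hw1.comp z (CMT.B.hasFDerivAt_act_Ball D hg hz)
  have hev : (w ∘ CMT.act D g) =ᶠ[𝓝 z] fun x => w x + c := by
    filter_upwards [(isOpen_BallJ D).mem_nhds hz] with x hx
    exact hper x hx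
  have h2 := hcomp.congr_of_eventuallyEq hev.symm
  have h3 : HasFDerivAt (fun x => w x + c) (fderiv ℂ w z) z :=
    ((hw.differentiableAt ((isOpen_BallJ D).mem_nhds hz)).hasFDerivAt).add_const c
  have h4 := h3.unique h2
  have hj := CMT.B.num_two_ne_zero D hg hz
  rw [CMT.B.pull1_eq D g z hj]
  have e1 : fderiv ℂ w z (1, 0) = fderiv ℂ w (CMT.act D g z)
      (CMT.B.dact (mt D D.t0 g) z (1, 0)) := by rw [h4]; rfl
  have e2 : fderiv ℂ w z (0, 1) = fderiv ℂ w (CMT.act D g z)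
      (CMT.B.dact (mt D D.t0 g) z (0, 1)) := by rw [h4]; rfl
  have d1 : CMT.B.dact (mt D D.t0 g) z (1, 0) =
      (CMT.B.MM (mt D D.t0 g) z 0 0 / CMT.B.jj (mt D D.t0 g) z,
        CMT.B.MM (mt D D.t0 g) z 1 0 / CMT.B.jj (mt D D.t0 g) z) := by
    simp [CMT.B.dact]
  have d2 : CMT.B.dact (mt D D.t0 g) z (0, 1) =
      (CMT.B.MM (mt D D.t0 g) z 0 1 / CMT.B.jj (mt D D.t0 g) z,
        CMT.B.MM (mt D D.t0 g) z 1 1 / CMT.B.jj (mt D D.t0 g) z) := by
    simp [CMT.B.dact]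
  refine Prod.ext ?_ ?_
  · show _ = fderiv ℂ w z (1, 0)
    rw [e1, d1, clm_apply]
    simp only [grad]
    ring
  · show _ = fderiv ℂ w z (0, 1)
    rw [e2, d2, clm_apply]
    simp only [grad]
    ring

end J
end CMT
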