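import Pool.Agent.Lib.CMT.Iface
import Pool.Agent.Lib.CMT.B.Br
import Pool.Agent.Lib.CMT.D.Cpt
import Pool.Agent.Lib.CMT.D.Wex

/-!
PROJECT CMT, part J4 (helper45): the stabiliser of a vector `v` of `K³` acts cocompactly on
`C_v = {z : (v, ẑ) = 0}`.
-/

namespace CMT.J

open Matrix ComplexConjugate NumberField CMT.B CMT.Cpt

variable {F : Type} [Field F] [NumberField F]

/-- The components of a vector at the place `t`. -/
noncomputable def evv (D : Dat F) (t : F →+* ℝ) (v : Fin 3 → KD D) : Fin 3 → ℂ :=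
  fun i => ev D t (v i)

lemma evv_mulVec (D : Dat F) (t : F →+* ℝ) (g : SG D) (v : Fin 3 → KD D) :
    evv D t (g.1 *ᵥ v) = mt D t g *ᵥ evv D t v := by
  funext i
  show ev D t ((g.1 *ᵥ v) i) = _
  rw [mulVec, dotProduct, map_sum, mulVec, dotProduct]
  refine Finset.sum_congr rfl fun j _ => ?_
  rw [map_mul]; rfl

lemma hv_mulVec (D : Dat F) (t : F →+* ℝ) {g : SG D} (hg : IsIso D g) (v : Fin 3 → KD D) :
    hv (t D.bet) (evv D t (g.1 *ᵥ v)) = hv (t D.bet) (evv D t v) := by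
  have h := isU_norm (mt_isU D t hg) (evv D t v)
  rw [evv_mulVec, ← sum_hb', ← sum_hb']
  exact h

lemma zv_mulVec (D : Dat F) {g : SG D} (hg : IsIso D g) {z : ℂ × ℂ} (hz : z ∈ Ball D)
    (v : Fin 3 → KD D) :
    zv (D.t0 D.bet) (CMT.act D g z) (evv D D.t0 (g.1 *ᵥ v)) =
      (num D g z 2)⁻¹ * zv (D.t0 D.bet) z (evv D D.t0 v) := by
  have h := pz_act_snd (mt_isU D D.t0 hg) (num_two_ne_zero D hg hz) (evv D D.t0 v)
  rw [evv_mulVec, ← zv_eq, ← zv_eq]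
  exact h

/-- Multiples in the order. -/
lemma exists_mul_RR (D : Dat F) (v : Fin 3 → KD D) :
    ∃ N : ℕ, 0 < N ∧ ∀ i, (N : KD D) * v i ∈ RR D := by
  classical
  obtain ⟨N, hN, H⟩ := exists_mul_integral
    ((Finset.univ.image fun i => (v i).re) ∪ Finset.univ.image fun i => (v i).im)
  refine ⟨N, hN, fun i => ?_⟩
  have h1 : IsIntegral ℤ ((N : F) * (v i).re) := H _ (by
    rw [Finset.mem_union, Finset.mem_image]; exact Or.inl ⟨i, Finset.mem_univ _, rfl⟩)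
  have h2 : IsIntegral ℤ ((N : F) * (v i).im) := H _ (by
    rw [Finset.mem_union, Finset.mem_image, Finset.mem_image]
    exact Or.inr ⟨i, Finset.mem_univ _, rfl⟩)
  have e1 : ((N : KD D) * v i).re = (N : F) * (v i).re := by simp
  have e2 : ((N : KD D) * v i).im = (N : F) * (v i).im := by simp
  exact ⟨by rw [e1]; exact h1, by rw [e2]; exact h2⟩

/-- Finitely many vectors of the orbit meet a compact set. -/
theorem finite_orbit [IsTotallyReal F] (D : Dat F) (v : Fin 3 → KD D) {C : Set (ℂ × ℂ)}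
    (hC : IsCompact C) (hCB : C ⊆ Ball D) :
    {w : Fin 3 → KD D | (∃ g ∈ Gam D 1, g.1 *ᵥ v = w) ∧
      ∃ z ∈ C, zv (D.t0 D.bet) z (evv D D.t0 w) = 0}.Finite := by
  classical
  rcases C.eq_empty_or_nonempty with hCe | hCne
  · refine Set.Finite.subset Set.finite_empty ?_
    rintro w ⟨-, z, hz, -⟩
    rw [hCe] at hz
    exact hz.elim
  obtain ⟨z0, hz0, hmin⟩ := hC.exists_isMinOn hCne
    (f := fun z => D.t0 D.bet - ‖z.1‖ ^ 2 - ‖z.2‖ ^ 2) (by fun_prop)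
  obtain ⟨ε, hε⟩ : ∃ ε, D.t0 D.bet - ‖z0.1‖ ^ 2 - ‖z0.2‖ ^ 2 = ε := ⟨_, rfl⟩
  have hε0 : 0 < ε := by
    have h1 : ‖z0.1‖ ^ 2 + ‖z0.2‖ ^ 2 < D.t0 D.bet := hCB hz0
    linarith
  have hCε : ∀ z ∈ C, ε ≤ Nz ![1, 1, -(D.t0 D.bet)] z := by
    intro z hz
    have h1 := hmin hz
    have h2 : Nz ![1, 1, -(D.t0 D.bet)] z = D.t0 D.bet - ‖z.1‖ ^ 2 - ‖z.2‖ ^ 2 := by
      unfold Nz
      show -((1 : ℝ) * ‖z.1‖ ^ 2 + 1 * ‖z.2‖ ^ 2 + -(D.t0 D.bet)) = _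
      ring
    rw [h2, ← hε]
    exact h1
  -- the bound at every place
  have hbd : ∀ t : F →+* ℝ, ∃ c : ℝ, ∀ g : SG D, IsIso D g →
      (∃ z ∈ C, zv (D.t0 D.bet) z (evv D D.t0 (g.1 *ᵥ v)) = 0) →
      ∀ i, ‖ev D t ((g.1 *ᵥ v) i)‖ ^ 2 ≤ c := by
    intro t
    by_cases ht : t = D.t0
    · subst ht
      refine ⟨2 * hv (D.t0 D.bet) (evv D D.t0 v) +
        4 * (D.t0 D.bet) * hv (D.t0 D.bet) (evv D D.t0 v) / ε +
        2 * hv (D.t0 D.bet) (evv D D.t0 v) / ε, ?_⟩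
      rintro g hg ⟨z, hz, hz'⟩ i
      refine CMT.D.maj_bd D.bet_pos hε0 z (hCε z hz) (evv D D.t0 (g.1 *ᵥ v)) ?_ i
      have h1 : z.1 * conj (evv D D.t0 (g.1 *ᵥ v) 0) + z.2 * conj (evv D D.t0 (g.1 *ᵥ v) 1) -
          ((D.t0 D.bet : ℝ) : ℂ) * conj (evv D D.t0 (g.1 *ᵥ v) 2) = 0 := hz'
      have h2 := hv_mulVec D D.t0 hg v
      rw [h1, norm_zero]
      unfold hv at h2
      rw [h2]
      simp [hv]
    · have hneg := D.bet_neg t ht
      refine ⟨hv (t D.bet) (evv D t v) + hv (t D.bet) (evv D t v) / (-(t D.bet)), ?_⟩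
      rintro g hg - i
      have h1 := hv_mulVec D t hg v
      have h0 : 0 ≤ hv (t D.bet) (evv D t v) := by
        unfold hv
        have : 0 ≤ -(t D.bet) * ‖evv D t v 2‖ ^ 2 := mul_nonneg (by linarith) (sq_nonneg _)
        nlinarith [sq_nonneg ‖evv D t v 0‖, sq_nonneg ‖evv D t v 1‖]
      have h7 : 0 ≤ hv (t D.bet) (evv D t v) / (-(t D.bet)) := div_nonneg h0 (by linarith)
      obtain ⟨Q, hQ⟩ : ∃ Q, hv (t D.bet) (evv D t v) = Q := ⟨_, rfl⟩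
      rw [hQ] at h1 h0 h7 ⊢
      unfold hv at h1
      have h3 : 0 ≤ ‖evv D t (g.1 *ᵥ v) 0‖ ^ 2 := sq_nonneg _
      have h4 : 0 ≤ ‖evv D t (g.1 *ᵥ v) 1‖ ^ 2 := sq_nonneg _
      have h5 : 0 ≤ ‖evv D t (g.1 *ᵥ v) 2‖ ^ 2 := sq_nonneg _
      have h6 : 0 ≤ (-(t D.bet)) * ‖evv D t (g.1 *ᵥ v) 2‖ ^ 2 := mul_nonneg (by linarith) h5
      fin_cases i
      · show ‖evv D t (g.1 *ᵥ v) 0‖ ^ 2 ≤ _
        linarith
      · show ‖evv D t (g.1 *ᵥ v) 1‖ ^ 2 ≤ _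
        linarith
      · show ‖evv D t (g.1 *ᵥ v) 2‖ ^ 2 ≤ _
        have h8 : ‖evv D t (g.1 *ᵥ v) 2‖ ^ 2 ≤ Q / (-(t D.bet)) := by
          rw [le_div_iff₀ (by linarith)]
          linarith
        linarith
  choose c hc using hbd
  obtain ⟨N, hN, HN⟩ := exists_mul_RR D v
  obtain ⟨B, hB⟩ : ∃ B : ℝ, ∀ t : F →+* ℝ, (N : ℝ) * Real.sqrt (c t) ≤ B := by
    obtain ⟨B, hB⟩ := (Set.finite_range fun t : F →+* ℝ => (N : ℝ) * Real.sqrt (c t)).bddAbove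
    exact ⟨B, fun t => hB ⟨t, rfl⟩⟩
  have hfin : (Set.pi Set.univ fun _ : Fin 3 =>
      {x : KD D | x ∈ RR D ∧ ∀ t : F →+* ℝ, ‖ev D t x‖ ≤ B}).Finite :=
    Set.Finite.pi fun _ => CMT.D.finite_RR D B
  refine Set.Finite.of_injOn (f := fun (w : Fin 3 → KD D) i => (N : KD D) * w i) ?_ ?_ hfin
  · rintro w ⟨⟨g, hg, rfl⟩, hz⟩ i _
    refine ⟨?_, fun t => ?_⟩
    · show (N : KD D) * (g.1 *ᵥ v) i ∈ RR D
      rw [mulVec, dotProduct, Finset.mul_sum]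
      refine (RR D).sum_mem fun j _ => ?_
      have : (N : KD D) * (g.1 i j * v j) = g.1 i j * ((N : KD D) * v j) := by ring
      rw [this]
      exact (RR D).mul_mem (isCong_entry D hg.2 i j) (HN j)
    · show ‖ev D t ((N : KD D) * (g.1 *ᵥ v) i)‖ ≤ B
      rw [map_mul, map_natCast, norm_mul, Complex.norm_natCast]
      refine le_trans ?_ (hB t)
      exact mul_le_mul_of_nonneg_left (Real.le_sqrt_of_sq_le (hc t g hg.1 hz i))
        (Nat.cast_nonneg _)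
  · intro w _ w' _ h
    funext i
    have h1 := congrFun h i
    have hN' : (N : F) ≠ 0 := by exact_mod_cast hN.ne'
    have e1 : ∀ x : KD D, ((N : KD D) * x).re = (N : F) * x.re := fun x => by simp
    have e2 : ∀ x : KD D, ((N : KD D) * x).im = (N : F) * x.im := fun x => by simp
    apply QuadraticAlgebra.ext
    · have := congrArg QuadraticAlgebra.re h1
      simp only [e1] at this
      exact mul_left_cancel₀ hN' this
    · have := congrArg QuadraticAlgebra.im h1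
      simp only [e2] at this
      exact mul_left_cancel₀ hN' this

/-- The stabiliser of `v` acts cocompactly on `C_v`. -/
theorem cpv [IsTotallyReal F] (D : Dat F) (G : Subgroup (SG D)) (hG : G ≤ Gam D 1)
    (hC : ∃ C : Set (ℂ × ℂ), IsCompact C ∧ C ⊆ Ball D ∧ ∀ z ∈ Ball D, ∃ g ∈ G, CMT.act D g z ∈ C)
    (v : Fin 3 → KD D) :
    ∃ C : Set (ℂ × ℂ), IsCompact C ∧ C ⊆ Ball D ∧
      ∀ z ∈ Ball D, zv (D.t0 D.bet) z (evv D D.t0 v) = 0 →
        ∃ g ∈ G, g.1 *ᵥ v = v ∧ CMT.act D g z ∈ C := by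
  classical
  obtain ⟨C, hC, hCB, hcov⟩ := hC
  let W : Set (Fin 3 → KD D) := {w | (∃ g ∈ G, g.1 *ᵥ v = w) ∧
      ∃ z ∈ C, zv (D.t0 D.bet) z (evv D D.t0 w) = 0}
  have hW : W.Finite := (finite_orbit D v hC hCB).subset fun w hw =>
    ⟨hw.1.imp fun g hg => ⟨hG hg.1, hg.2⟩, hw.2⟩
  have hch : ∀ w : Fin 3 → KD D, ∃ g ∈ G, w ∈ W → g.1 *ᵥ v = w := by
    intro w
    by_cases hw : w ∈ W
    · obtain ⟨⟨g, hg, h⟩, -⟩ := hw
      exact ⟨g, hg, fun _ => h⟩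
    · exact ⟨1, G.one_mem, fun h => absurd h hw⟩
  choose r hrG hr using hch
  refine ⟨⋃ w ∈ W, CMT.act D (r w)⁻¹ '' C, hW.isCompact_biUnion fun w _ => ?_, ?_, ?_⟩
  · exact hC.image_of_continuousOn
      ((CMT.D.continuousOn_act D (hG (G.inv_mem (hrG w))).1).mono hCB)
  · refine Set.iUnion₂_subset fun w _ => ?_
    rintro _ ⟨z, hz, rfl⟩
    exact act_mem_Ball D (hG (G.inv_mem (hrG w))).1 (hCB hz)
  · intro z hz hzv
    obtain ⟨g, hg, hgC⟩ := hcov z hz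
    have hgi := (hG hg).1
    set w := g.1 *ᵥ v with hw
    have hwW : w ∈ W := ⟨⟨g, hg, rfl⟩, CMT.act D g z, hgC, by
      rw [hw, zv_mulVec D hgi hz, hzv, mul_zero]⟩
    have hrw := hr w hwW
    refine ⟨(r w)⁻¹ * g, G.mul_mem (G.inv_mem (hrG w)) hg, ?_, ?_⟩
    · have h1 : ((r w)⁻¹ * g).1 = ((r w)⁻¹).1 * g.1 := rfl
      have h2 : ((r w)⁻¹).1 * (r w).1 = 1 := congrArg Subtype.val (inv_mul_cancel (r w))
      rw [h1, ← mulVec_mulVec, ← hw]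
      calc ((r w)⁻¹).1 *ᵥ w = ((r w)⁻¹).1 *ᵥ ((r w).1 *ᵥ v) := by rw [hrw]
        _ = (((r w)⁻¹).1 * (r w).1) *ᵥ v := mulVec_mulVec _ _ _
        _ = v := by rw [h2, one_mulVec]
    · refine Set.mem_iUnion₂.2 ⟨w, hwW, CMT.act D g z, hgC, ?_⟩
      exact (act_mul_Ball D _ hgi hz).symm

end CMT.J
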