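import Pool.Agent.Lib.CMT.J.Iface

/-!
# PROJECT CMT, part J2 : restriction to the curves `z_k = t0 ρ`, algebra

`x = y v + x'`, `x' ⊥ v`: `x = par D k ρ y r s = (β y + ρ s, r, ρ y + s)` (`k = 0`).
-/

set_option autoImplicit false

open scoped BigOperators ComplexConjugate
open MeasureTheory Matrix

noncomputable section

namespace CMT
namespace J

variable {F : Type} [Field F] [NumberField F]

/-- `y v + x'`, `x' = (ρ s, r, s)` for `k = 0`, `x' = (r, ρ s, s)` for `k = 1`. -/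
def par (D : Dat F) (k : Fin 2) (ρ y r s : F) : Fin 3 → F :=
  if k = 0 then ![D.bet * y + ρ * s, r, ρ * y + s] else ![r, D.bet * y + ρ * s, ρ * y + s]

/-- The coordinate `y`. -/
def ya (D : Dat F) (k : Fin 2) (ρ : F) (x : Fin 3 → F) : F :=
  ((if k = 0 then x 0 else x 1) - ρ * x 2) * (D.bet - ρ ^ 2)⁻¹

/-- The coordinate `r`. -/
def ra (k : Fin 2) (x : Fin 3 → F) : F := if k = 0 then x 1 else x 0

/-- The coordinate `s`. -/
def sa (D : Dat F) (k : Fin 2) (ρ : F) (x : Fin 3 → F) : F := x 2 - ρ * ya D k ρ x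

theorem cur_ne (D : Dat F) {ρ : F} (hρ : (D.t0 ρ) ^ 2 < D.t0 D.bet) : D.bet - ρ ^ 2 ≠ 0 := by
  intro h
  have h1 : D.t0 (D.bet - ρ ^ 2) = 0 := by rw [h, map_zero]
  rw [map_sub, map_pow] at h1
  linarith

theorem k_cases (k : Fin 2) : k = 0 ∨ k = 1 := by
  fin_cases k
  · exact Or.inl rfl
  · exact Or.inr rfl

theorem ya_par (D : Dat F) (k : Fin 2) {ρ : F} (h : D.bet - ρ ^ 2 ≠ 0) (y r s : F) :
    ya D k ρ (par D k ρ y r s) = y := by
  have e : (D.bet * y + ρ * s - ρ * (ρ * y + s)) * (D.bet - ρ ^ 2)⁻¹ = y := by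
    have e1 : D.bet * y + ρ * s - ρ * (ρ * y + s) = y * (D.bet - ρ ^ 2) := by ring
    rw [e1, mul_assoc, mul_inv_cancel₀ h, mul_one]
  rcases k_cases k with rfl | rfl
  · exact e
  · exact e

theorem ra_par (D : Dat F) (k : Fin 2) (ρ y r s : F) : ra k (par D k ρ y r s) = r := by
  rcases k_cases k with rfl | rfl
  · rfl
  · rfl

theorem par_two (D : Dat F) (k : Fin 2) (ρ y r s : F) : par D k ρ y r s 2 = ρ * y + s := by
  rcases k_cases k with rfl | rfl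
  · rfl
  · rfl

theorem sa_par (D : Dat F) (k : Fin 2) {ρ : F} (h : D.bet - ρ ^ 2 ≠ 0) (y r s : F) :
    sa D k ρ (par D k ρ y r s) = s := by
  unfold sa
  rw [ya_par D k h, par_two]
  ring

theorem par_sa (D : Dat F) (k : Fin 2) {ρ : F} (h : D.bet - ρ ^ 2 ≠ 0) (x : Fin 3 → F) :
    par D k ρ (ya D k ρ x) (ra k x) (sa D k ρ x) = x := by
  have e : ∀ u w : F, D.bet * ((u - ρ * w) * (D.bet - ρ ^ 2)⁻¹) +
      ρ * (w - ρ * ((u - ρ * w) * (D.bet - ρ ^ 2)⁻¹)) = u := by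
    intro u w
    have e1 : D.bet * ((u - ρ * w) * (D.bet - ρ ^ 2)⁻¹) +
        ρ * (w - ρ * ((u - ρ * w) * (D.bet - ρ ^ 2)⁻¹)) =
        (u - ρ * w) * ((D.bet - ρ ^ 2) * (D.bet - ρ ^ 2)⁻¹) + ρ * w := by ring
    rw [e1, mul_inv_cancel₀ h]
    ring
  have e2 : ∀ u w : F, ρ * u + (w - ρ * u) = w := fun u w => by ring
  rcases k_cases k with rfl | rfl
  · funext i
    fin_cases i
    · exact e (x 0) (x 2)
    · rfl
    · exact e2 _ (x 2)
  · funext i
    fin_cases i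
    · rfl
    · exact e (x 1) (x 2)
    · exact e2 _ (x 2)

/-- The parametrisation as an equivalence. -/
def parE (D : Dat F) (k : Fin 2) {ρ : F} (h : D.bet - ρ ^ 2 ≠ 0) : (F × F) × F ≃ (Fin 3 → F) where
  toFun p := par D k ρ p.2 p.1.1 p.1.2
  invFun x := ((ra k x, sa D k ρ x), ya D k ρ x)
  left_inv p := by
    simp only [ra_par, sa_par D k h, ya_par D k h]
  right_inv x := par_sa D k h x

theorem par_add (D : Dat F) (k : Fin 2) (ρ y r s y' r' s' : F) :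
    par D k ρ (y + y') (r + r') (s + s') = par D k ρ y r s + par D k ρ y' r' s' := by
  rcases k_cases k with rfl | rfl
  · funext i
    fin_cases i
    · change D.bet * (y + y') + ρ * (s + s') = (D.bet * y + ρ * s) + (D.bet * y' + ρ * s')
      ring
    · rfl
    · change ρ * (y + y') + (s + s') = (ρ * y + s) + (ρ * y' + s')
      ring
  · funext i
    fin_cases i
    · rfl
    · change D.bet * (y + y') + ρ * (s + s') = (D.bet * y + ρ * s) + (D.bet * y' + ρ * s')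
      ring
    · change ρ * (y + y') + (s + s') = (ρ * y + s) + (ρ * y' + s')
      ring

/-- `(v,v) = β (β - ρ²)`. -/
def qv (D : Dat F) (ρ : F) : F := D.bet * (D.bet - ρ ^ 2)

theorem qv_pos (D : Dat F) {ρ : F} (hρ : (D.t0 ρ) ^ 2 < D.t0 D.bet) (t : F →+* ℝ) :
    0 < t (qv D ρ) := by
  unfold qv
  rw [map_mul, map_sub, map_pow]
  by_cases h : t = D.t0
  · subst h
    exact mul_pos D.bet_pos (by linarith)
  · have h1 := D.bet_neg t h
    have h2 : t D.bet - (t ρ) ^ 2 < 0 := by nlinarith [sq_nonneg (t ρ)]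
    exact mul_pos_of_neg_of_neg h1 h2

theorem qf_par (D : Dat F) (k : Fin 2) (ρ y r s : F) (t : F →+* ℝ) :
    qf (t D.bet) (rx t (par D k ρ y r s)) (rx t (par D k ρ y r s)) =
      t (qv D ρ) * (t y) ^ 2 +
        qf (t D.bet) (rx t (par D k ρ 0 r s)) (rx t (par D k ρ 0 r s)) := by
  rcases k_cases k with rfl | rfl
  · change t (D.bet * y + ρ * s) * t (D.bet * y + ρ * s) + t r * t r -
        t D.bet * (t (ρ * y + s) * t (ρ * y + s)) =
      t (D.bet * (D.bet - ρ ^ 2)) * (t y) ^ 2 +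
        (t (D.bet * 0 + ρ * s) * t (D.bet * 0 + ρ * s) + t r * t r -
          t D.bet * (t (ρ * 0 + s) * t (ρ * 0 + s)))
    simp only [map_add, map_mul, map_sub, map_pow, map_zero]
    ring
  · change t r * t r + t (D.bet * y + ρ * s) * t (D.bet * y + ρ * s) -
        t D.bet * (t (ρ * y + s) * t (ρ * y + s)) =
      t (D.bet * (D.bet - ρ ^ 2)) * (t y) ^ 2 +
        (t r * t r + t (D.bet * 0 + ρ * s) * t (D.bet * 0 + ρ * s) -
          t D.bet * (t (ρ * 0 + s) * t (ρ * 0 + s)))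
    simp only [map_add, map_mul, map_sub, map_pow, map_zero]
    ring

theorem ll_par (D : Dat F) (k : Fin 2) (ρ y r s : F) {z : ℂ × ℂ} (hz : pk k z = ((D.t0 ρ : ℝ) : ℂ)) :
    ll (D.t0 D.bet) (rx D.t0 (par D k ρ y r s)) z =
      ll (D.t0 D.bet) (rx D.t0 (par D k ρ 0 r s)) z := by
  rcases k_cases k with rfl | rfl
  · have hz' : z.1 = ((D.t0 ρ : ℝ) : ℂ) := hz
    change ((D.t0 (D.bet * y + ρ * s) : ℝ) : ℂ) * z.1 + ((D.t0 r : ℝ) : ℂ) * z.2 -
        ((D.t0 D.bet : ℝ) : ℂ) * ((D.t0 (ρ * y + s) : ℝ) : ℂ) =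
      ((D.t0 (D.bet * 0 + ρ * s) : ℝ) : ℂ) * z.1 + ((D.t0 r : ℝ) : ℂ) * z.2 -
        ((D.t0 D.bet : ℝ) : ℂ) * ((D.t0 (ρ * 0 + s) : ℝ) : ℂ)
    rw [hz']
    simp only [map_add, map_mul, map_zero, Complex.ofReal_add, Complex.ofReal_mul,
      Complex.ofReal_zero]
    ring
  · have hz' : z.2 = ((D.t0 ρ : ℝ) : ℂ) := hz
    change ((D.t0 r : ℝ) : ℂ) * z.1 + ((D.t0 (D.bet * y + ρ * s) : ℝ) : ℂ) * z.2 -
        ((D.t0 D.bet : ℝ) : ℂ) * ((D.t0 (ρ * y + s) : ℝ) : ℂ) =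
      ((D.t0 r : ℝ) : ℂ) * z.1 + ((D.t0 (D.bet * 0 + ρ * s) : ℝ) : ℂ) * z.2 -
        ((D.t0 D.bet : ℝ) : ℂ) * ((D.t0 (ρ * 0 + s) : ℝ) : ℂ)
    rw [hz']
    simp only [map_add, map_mul, map_zero, Complex.ofReal_add, Complex.ofReal_mul,
      Complex.ofReal_zero]
    ring

/-- The coefficient of the other variable. -/
def pj (k : Fin 2) (p : ℂ × ℂ) : ℂ := if k = 0 then p.2 else p.1

theorem du_par (D : Dat F) (k : Fin 2) (ρ y r s : F) {z : ℂ × ℂ} (hz : pk k z = ((D.t0 ρ : ℝ) : ℂ)) :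
    pj k (du (D.t0 D.bet) (rx D.t0 (par D k ρ y r s)) z) =
      pj k (du (D.t0 D.bet) (rx D.t0 (par D k ρ 0 r s)) z) := by
  have h := ll_par D k ρ y r s hz
  rcases k_cases k with rfl | rfl
  · change (((D.t0 r : ℝ) : ℂ) * mm (D.t0 D.bet) z +
        ll (D.t0 D.bet) (rx D.t0 (par D 0 ρ y r s)) z * z.2) / _ =
      (((D.t0 r : ℝ) : ℂ) * mm (D.t0 D.bet) z +
        ll (D.t0 D.bet) (rx D.t0 (par D 0 ρ 0 r s)) z * z.2) / _
    rw [h]
  · change (((D.t0 r : ℝ) : ℂ) * mm (D.t0 D.bet) z +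
        ll (D.t0 D.bet) (rx D.t0 (par D 1 ρ y r s)) z * z.1) / _ =
      (((D.t0 r : ℝ) : ℂ) * mm (D.t0 D.bet) z +
        ll (D.t0 D.bet) (rx D.t0 (par D 1 ρ 0 r s)) z * z.1) / _
    rw [h]

/-- The constants of the one variable Gaussian. -/
def cv (D : Dat F) (a ρ : F) (t : F →+* ℝ) : ℝ := kap D t * |t a| * t (qv D ρ)

/-- The one variable Gaussian. -/
def EE (D : Dat F) (a ρ y : F) : ℝ := Real.exp (-(∑ t : F →+* ℝ, cv D a ρ t * (t y) ^ 2))

theorem tm1_par (D : Dat F) (a : F) (k : Fin 2) (ρ y r s : F) {z : ℂ × ℂ}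
    (hz : pk k z = ((D.t0 ρ : ℝ) : ℂ)) :
    tm1 D a (par D k ρ y r s) z = ((EE D a ρ y : ℝ) : ℂ) * tm1 D a (par D k ρ 0 r s) z := by
  unfold tm1 EE
  rw [Complex.ofReal_exp, ← Complex.exp_add]
  congr 1
  have h1 : e1 D a (par D k ρ y r s) = ∑ t ∈ Finset.univ.erase D.t0, cv D a ρ t * (t y) ^ 2 +
      e1 D a (par D k ρ 0 r s) := by
    unfold e1
    rw [← Finset.sum_add_distrib]
    refine Finset.sum_congr rfl fun t _ => ?_
    rw [qf_par]
    unfold cv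
    ring
  have h2 : e0 D a (par D k ρ y r s) z = ((cv D a ρ D.t0 * (D.t0 y) ^ 2 : ℝ) : ℂ) +
      e0 D a (par D k ρ 0 r s) z := by
    unfold e0 uu
    rw [qf_par, ll_par D k ρ y r s hz]
    unfold cv
    simp only [Complex.ofReal_add, Complex.ofReal_mul, Complex.ofReal_pow]
    ring
  have h3 : ∑ t : F →+* ℝ, cv D a ρ t * (t y) ^ 2 =
      cv D a ρ D.t0 * (D.t0 y) ^ 2 + ∑ t ∈ Finset.univ.erase D.t0, cv D a ρ t * (t y) ^ 2 :=
    (Finset.add_sum_erase Finset.univ (fun t => cv D a ρ t * (t y) ^ 2) (Finset.mem_univ D.t0)).symm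
  rw [h1, h2, h3]
  simp only [Complex.ofReal_add, Complex.ofReal_neg]
  ring

theorem pair_par (D : Dat F) (k : Fin 2) (ρ y r s : F) (t : F →+* ℝ) :
    ∑ i, ht D t i * t (vv D k ρ i) * t (par D k ρ y r s i) = t (qv D ρ) * t y := by
  rcases k_cases k with rfl | rfl
  · rw [Fin.sum_univ_three]
    change 1 * t D.bet * t (D.bet * y + ρ * s) + 1 * t 0 * t r +
      -(t D.bet) * t ρ * t (ρ * y + s) = t (D.bet * (D.bet - ρ ^ 2)) * t y
    simp only [map_add, map_mul, map_sub, map_pow, map_zero]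
    ring
  · rw [Fin.sum_univ_three]
    change 1 * t 0 * t r + 1 * t D.bet * t (D.bet * y + ρ * s) +
      -(t D.bet) * t ρ * t (ρ * y + s) = t (D.bet * (D.bet - ρ ^ 2)) * t y
    simp only [map_add, map_mul, map_sub, map_pow, map_zero]
    ring

end J
end CMT
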