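import Pool.Agent.Lib.CMT.J.CurA

/-!
# PROJECT CMT, part J2 : the function `ψ(x) = ψ'(y) Φ(x')` is Schwartz-Bruhat
-/

set_option autoImplicit false

open scoped BigOperators ComplexConjugate
open MeasureTheory Matrix

noncomputable section

namespace CMT
namespace J

variable {F : Type} [Field F] [NumberField F]

/-- The sum over the line. -/
def Phi (D : Dat F) (a : F) (k : Fin 2) (ρ : F) (φ : (Fin 3 → F) → ℂ) (r s : F) : ℂ :=
  ∑' y : F, φ (par D k ρ y r s) * ((EE D a ρ y : ℝ) : ℂ)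

/-- `ψ(x) = c ψ'(y) Φ(x')`. -/
def psi (D : Dat F) (a : F) (k : Fin 2) (ρ : F) (φ : (Fin 3 → F) → ℂ) (ψ' : F → ℂ) (c : ℂ)
    (x : Fin 3 → F) : ℂ :=
  c * (ψ' (ya D k ρ x) * Phi D a k ρ φ (ra k x) (sa D k ρ x))

/-- Every element has an integral multiple. -/
theorem exists_nat_int (x : F) : ∃ n : ℕ, 0 < n ∧ IsIntegral ℤ ((n : F) * x) := by
  have : Algebra.IsAlgebraic ℤ F :=
    (IsFractionRing.comap_isAlgebraic_iff (A := ℤ) (K := ℚ) (C := F)).2 inferInstance
  obtain ⟨y, hy, h⟩ := Algebra.IsAlgebraic.exists_integral_multiples ℤ ({x} : Finset F)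
  refine ⟨y.natAbs, Int.natAbs_pos.2 hy, ?_⟩
  have h1 := h x (Finset.mem_singleton_self x)
  rw [zsmul_eq_mul] at h1
  rcases Int.natAbs_eq y with h2 | h2
  · rw [h2, Int.cast_natCast] at h1
    exact h1
  · rw [h2, Int.cast_neg, Int.cast_natCast, neg_mul] at h1
    simpa using h1.neg

omit [NumberField F] in
theorem int_nat (n : ℕ) : IsIntegral ℤ ((n : ℕ) : F) := by
  have h := isIntegral_algebraMap (R := ℤ) (A := F) (x := (n : ℤ))
  simpa using h

theorem par_int (D : Dat F) (k : Fin 2) (ρ : F) (c : F) (y r s : F) :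
    (∀ i, IsIntegral ℤ (c * par D k ρ y r s i)) ↔ IsIntegral ℤ (c * (D.bet * y + ρ * s)) ∧
      IsIntegral ℤ (c * r) ∧ IsIntegral ℤ (c * (ρ * y + s)) := by
  rcases k_cases k with rfl | rfl
  · rw [Fin.forall_fin_succ, Fin.forall_fin_two]
    exact Iff.rfl
  · rw [Fin.forall_fin_succ, Fin.forall_fin_two]
    constructor
    · rintro ⟨h1, h2, h3⟩
      exact ⟨h2, h1, h3⟩
    · rintro ⟨h1, h2, h3⟩
      exact ⟨h2, h1, h3⟩

theorem isSB_psi (D : Dat F) (a : F) (k : Fin 2) {ρ : F} (hne : D.bet - ρ ^ 2 ≠ 0)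
    {φ : (Fin 3 → F) → ℂ} (hφ : IsSB φ) {m : ℕ} (hm : 0 < m) {ψ' : F → ℂ}
    (hs : ∀ y, ψ' y ≠ 0 → IsIntegral ℤ ((m : F) * y))
    (hp : ∀ y w, IsIntegral ℤ w → ψ' (y + m * w) = ψ' y) (c : ℂ) :
    IsSB (psi D a k ρ φ ψ' c) := by
  obtain ⟨n, hn, hsupp, hper⟩ := hφ
  obtain ⟨e, he0, he⟩ := exists_nat_int ρ
  obtain ⟨d, hd0, hd⟩ := exists_nat_int (D.bet - ρ ^ 2)⁻¹
  set ε : F := (D.bet - ρ ^ 2)⁻¹ with hε
  have hβ := D.bet_int
  have hN : 0 < n * m * d * e ^ 3 := by positivity
  refine ⟨n * m * d * e ^ 3, hN, ?_, ?_⟩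
  · -- support
    intro x hx
    rw [← par_sa D k hne x]
    set y := ya D k ρ x with hy
    set r := ra k x with hr
    set s := sa D k ρ x with hs'
    have h1 : ψ' y ≠ 0 := by
      intro h0
      apply hx
      unfold psi
      rw [← hy, h0]
      ring
    have h2 : Phi D a k ρ φ r s ≠ 0 := by
      intro h0
      apply hx
      unfold psi
      rw [← hr, ← hs', h0]
      ring
    have h3 : ∃ y0, φ (par D k ρ y0 r s) ≠ 0 := by
      by_contra hcon
      push Not at hcon
      apply h2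
      unfold Phi
      simp [hcon]
    obtain ⟨y0, hy0⟩ := h3
    obtain ⟨iX0, iR, iX2⟩ := (par_int D k ρ n y0 r s).1 (hsupp _ hy0)
    have iY := hs y h1
    set X0 := (n : F) * (D.bet * y0 + ρ * s) with hX0
    set X2 := (n : F) * (ρ * y0 + s) with hX2
    have hy0e : y0 = ε * ((D.bet * y0 + ρ * s) - ρ * (ρ * y0 + s)) := by
      have e1 : (D.bet * y0 + ρ * s) - ρ * (ρ * y0 + s) = (D.bet - ρ ^ 2) * y0 := by ring
      rw [e1, ← mul_assoc, hε, inv_mul_cancel₀ hne, one_mul]
    -- `n s = X2 - ρ ε (X0 - ρ X2)`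
    have hns : (n : F) * s = X2 - ρ * (ε * (X0 - ρ * X2)) := by
      have e1 : (n : F) * y0 = ε * (X0 - ρ * X2) := by
        rw [hX0, hX2]
        calc (n : F) * y0 = n * (ε * ((D.bet * y0 + ρ * s) - ρ * (ρ * y0 + s))) := by rw [← hy0e]
          _ = _ := by ring
      rw [← e1, hX2]
      ring
    have iS : IsIntegral ℤ ((m : F) * d * e ^ 2 * X2 - m * (e * ρ) * (d * ε) * (e * X0 - (e * ρ) * X2)) :=
      ((((int_nat m).mul (int_nat d)).mul ((int_nat e).pow 2)).mul iX2).sub
        ((((int_nat m).mul he).mul hd).mul (((int_nat e).mul iX0).sub (he.mul iX2)))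
    rw [par_int]
    push_cast
    refine ⟨?_, ?_, ?_⟩
    · have e1 : ((n : F) * m * d * e ^ 3) * (D.bet * y + ρ * s) =
          D.bet * (n * d * e ^ 3) * (m * y) +
            (e * ρ) * (m * d * e ^ 2 * X2 - m * (e * ρ) * (d * ε) * (e * X0 - (e * ρ) * X2)) := by
        calc ((n : F) * m * d * e ^ 3) * (D.bet * y + ρ * s) =
            D.bet * (n * d * e ^ 3) * (m * y) + m * d * e ^ 3 * ρ * (n * s) := by ring
          _ = _ := by rw [hns]; ring
      rw [e1]
      exact ((hβ.mul (((int_nat n).mul (int_nat d)).mul ((int_nat e).pow 3))).mul iY).add (he.mul iS)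
    · have e1 : ((n : F) * m * d * e ^ 3) * r = m * d * e ^ 3 * (n * r) := by ring
      rw [e1]
      exact (((int_nat m).mul (int_nat d)).mul ((int_nat e).pow 3)).mul iR
    · have e1 : ((n : F) * m * d * e ^ 3) * (ρ * y + s) = (e * ρ) * (n * d * e ^ 2) * (m * y) +
          e * (m * d * e ^ 2 * X2 - m * (e * ρ) * (d * ε) * (e * X0 - (e * ρ) * X2)) := by
        calc ((n : F) * m * d * e ^ 3) * (ρ * y + s) =
            (e * ρ) * (n * d * e ^ 2) * (m * y) + m * d * e ^ 3 * (n * s) := by ring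
          _ = _ := by rw [hns]; ring
      rw [e1]
      exact ((he.mul (((int_nat n).mul (int_nat d)).mul ((int_nat e).pow 2))).mul iY).add
        ((int_nat e).mul iS)
  · -- periodicity
    intro x w hw
    push_cast
    -- the coordinates of `w`
    set w0 : F := if k = 0 then w 0 else w 1 with hw0
    set w1 : F := ra k w with hw1
    have iw0 : IsIntegral ℤ w0 := by
      rw [hw0]
      split_ifs
      · exact hw 0
      · exact hw 1
    have iw1 : IsIntegral ℤ w1 := by
      rw [hw1]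
      unfold ra
      split_ifs
      · exact hw 1
      · exact hw 0
    have iw2 := hw 2
    set N : F := (n : F) * m * d * e ^ 3 with hNdef
    set y1 : F := (n : F) * (d * ε) * e ^ 2 * (e * w0 - (e * ρ) * w 2) with hy1
    have iy1 : IsIntegral ℤ y1 :=
      ((((int_nat n).mul hd).mul ((int_nat e).pow 2))).mul (((int_nat e).mul iw0).sub (he.mul iw2))
    have hya : ya D k ρ (fun i => x i + N * w i) = ya D k ρ x + m * y1 := by
      have e1 : ∀ u v : F, (u + N * w0 - ρ * (v + N * w 2)) * ε = (u - ρ * v) * ε + m * y1 := by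
        intro u v
        rw [hNdef, hy1]
        ring
      rcases k_cases k with rfl | rfl
      · exact e1 (x 0) (x 2)
      · exact e1 (x 1) (x 2)
    have hra : ra k (fun i => x i + N * w i) = ra k x + N * w1 := by
      rcases k_cases k with rfl | rfl
      · rfl
      · rfl
    have hsa : sa D k ρ (fun i => x i + N * w i) = sa D k ρ x + (N * w 2 - ρ * (m * y1)) := by
      unfold sa
      rw [hya]
      ring
    unfold psi
    rw [hya, hra, hsa, hp _ _ iy1]
    congr 2
    -- `Φ` is periodic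
    set s1 : F := N * w 2 - ρ * (m * y1) with hs1
    have ha2 : IsIntegral ℤ ((m : F) * d * e ^ 3 * w 2 - (e * ρ) * m * (d * ε) * e * (e * w0 - (e * ρ) * w 2)) :=
      ((((int_nat m).mul (int_nat d)).mul ((int_nat e).pow 3)).mul iw2).sub
        ((((he.mul (int_nat m)).mul hd).mul (int_nat e)).mul (((int_nat e).mul iw0).sub (he.mul iw2)))
    have ha0 : IsIntegral ℤ ((e * ρ) * (m * d * e ^ 2) * w 2 - (e * ρ) ^ 2 * m * (d * ε) * (e * w0 - (e * ρ) * w 2)) :=
      ((he.mul (((int_nat m).mul (int_nat d)).mul ((int_nat e).pow 2))).mul iw2).sub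
        (((((he.pow 2).mul (int_nat m)).mul hd)).mul (((int_nat e).mul iw0).sub (he.mul iw2)))
    have ha1 : IsIntegral ℤ ((m : F) * d * e ^ 3 * w1) :=
      (((int_nat m).mul (int_nat d)).mul ((int_nat e).pow 3)).mul iw1
    have hs1e : s1 = n * ((m : F) * d * e ^ 3 * w 2 - (e * ρ) * m * (d * ε) * e * (e * w0 - (e * ρ) * w 2)) := by
      rw [hs1, hy1, hNdef]
      ring
    have hρs1 : D.bet * 0 + ρ * s1 = n * ((e * ρ) * (m * d * e ^ 2) * w 2 - (e * ρ) ^ 2 * m * (d * ε) * (e * w0 - (e * ρ) * w 2)) := by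
      rw [hs1e]
      ring
    have hr1e : N * w1 = n * ((m : F) * d * e ^ 3 * w1) := by
      rw [hNdef]
      ring
    have hs1e' : ρ * 0 + s1 = n * ((m : F) * d * e ^ 3 * w 2 - (e * ρ) * m * (d * ε) * e * (e * w0 - (e * ρ) * w 2)) := by
      rw [mul_zero, zero_add]
      exact hs1e
    have hex : ∃ v : Fin 3 → F, (∀ i, IsIntegral ℤ (v i)) ∧ par D k ρ 0 (N * w1) s1 = fun i => n * v i := by
      generalize (e * ρ) * (m * d * e ^ 2) * w 2 - (e * ρ) ^ 2 * m * (d * ε) * (e * w0 - (e * ρ) * w 2) = A0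
        at ha0 hρs1
      generalize (m : F) * d * e ^ 3 * w 2 - (e * ρ) * m * (d * ε) * e * (e * w0 - (e * ρ) * w 2) = A2
        at ha2 hs1e'
      generalize (m : F) * d * e ^ 3 * w1 = A1 at ha1 hr1e
      rcases k_cases k with rfl | rfl
      · refine ⟨![A0, A1, A2], ?_, ?_⟩
        · intro i
          fin_cases i
          · exact ha0
          · exact ha1
          · exact ha2
        · funext i
          fin_cases i
          · exact hρs1
          · exact hr1e
          · exact hs1e'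
      · refine ⟨![A1, A0, A2], ?_, ?_⟩
        · intro i
          fin_cases i
          · exact ha1
          · exact ha0
          · exact ha2
        · funext i
          fin_cases i
          · exact hr1e
          · exact hρs1
          · exact hs1e'
    obtain ⟨v, hv, hpar⟩ := hex
    unfold Phi
    refine tsum_congr fun y => ?_
    have e1 := par_add D k ρ y (ra k x) (sa D k ρ x) 0 (N * w1) s1
    rw [add_zero] at e1
    rw [e1, hpar]
    congr 1
    exact hper (par D k ρ y (ra k x) (sa D k ρ x)) v hv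

end J
end CMT
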