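import Pool.Agent.Lib.CMT.C.Bd
import Pool.Agent.Lib.CMT.D.Emb

/-!
# PROJECT CMT, part J2 : a Gaussian sum which is not zero
-/

set_option autoImplicit false

open scoped BigOperators
open Filter Topology NumberField

noncomputable section

namespace CMT
namespace J

variable {F : Type} [Field F] [NumberField F]

open Classical in
/-- The characteristic function of `1 + N O`. -/
def chN (F : Type) [Field F] (N : ℕ) (y : F) : ℂ :=
  if ∃ u : F, IsIntegral ℤ u ∧ y = 1 + (N : F) * u then 1 else 0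

omit [NumberField F] in
theorem chN_per (N : ℕ) (y w : F) (hw : IsIntegral ℤ w) : chN F N (y + N * w) = chN F N y := by
  have h : (∃ u : F, IsIntegral ℤ u ∧ y + N * w = 1 + (N : F) * u) ↔
      ∃ u : F, IsIntegral ℤ u ∧ y = 1 + (N : F) * u := by
    constructor
    · rintro ⟨u, hu, h⟩
      exact ⟨u - w, hu.sub hw, by linear_combination h⟩
    · rintro ⟨u, hu, h⟩
      exact ⟨u + w, hu.add hw, by linear_combination h⟩
  unfold chN
  by_cases h1 : ∃ u : F, IsIntegral ℤ u ∧ y = 1 + (N : F) * u
  · rw [if_pos (h.2 h1), if_pos h1]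
  · rw [if_neg (fun h2 => h1 (h.1 h2)), if_neg h1]

omit [NumberField F] in
theorem chN_supp (N : ℕ) (y : F) (h : chN F N y ≠ 0) : IsIntegral ℤ y := by
  have h1 : ∃ u : F, IsIntegral ℤ u ∧ y = 1 + (N : F) * u := by
    by_contra hcon
    apply h
    unfold chN
    rw [if_neg hcon]
  obtain ⟨u, hu, rfl⟩ := h1
  exact isIntegral_one.add ((isIntegral_natCast N).mul hu)

theorem exists_gauss [IsTotallyReal F] (c : (F →+* ℝ) → ℝ) (hc : ∀ s, 0 < c s) (t : F →+* ℝ) :
    ∃ (m : ℕ) (ψ : F → ℂ), 0 < m ∧ (∀ y, ψ y ≠ 0 → IsIntegral ℤ ((m : F) * y)) ∧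
      (∀ y w, IsIntegral ℤ w → ψ (y + m * w) = ψ y) ∧
      ∑' y : F, ψ y * ((t y * Real.exp (-(∑ s : F →+* ℝ, c s * (s y) ^ 2)) : ℝ) : ℂ) ≠ 0 := by
  classical
  set h : F → ℂ := fun y => ((t y * Real.exp (-(∑ s : F →+* ℝ, c s * (s y) ^ 2)) : ℝ) : ℂ) with hh
  -- a lower bound of the constants
  obtain ⟨c0, hc0, hle⟩ : ∃ c0 : ℝ, 0 < c0 ∧ ∀ s, c0 ≤ c s := by
    have : Nonempty (F →+* ℝ) := ⟨t⟩
    obtain ⟨i, hi⟩ := Finite.exists_min c
    exact ⟨c i, hc i, hi⟩
  -- the dominating function
  let φ : (Unit → F) → ℂ := fun x => if IsIntegral ℤ (x ()) then 1 else 0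
  have hφ : SBg 1 φ := by
    refine ⟨?_, ?_⟩
    · intro x hx i
      have h1 : IsIntegral ℤ (x ()) := by
        by_contra hcon
        apply hx
        change (if IsIntegral ℤ (x ()) then (1 : ℂ) else 0) = 0
        rw [if_neg hcon]
      rw [Nat.cast_one, one_mul]
      exact h1
    · intro x y hy
      have h1 : IsIntegral ℤ (x () + ((1 : ℕ) : F) * y ()) ↔ IsIntegral ℤ (x ()) := by
        rw [Nat.cast_one, one_mul]
        constructor
        · intro h2
          have h3 := h2.sub (hy ())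
          rwa [add_sub_cancel_right] at h3
        · intro h2
          exact h2.add (hy ())
      change (if IsIntegral ℤ (x () + ((1 : ℕ) : F) * y ()) then (1 : ℂ) else 0) =
        if IsIntegral ℤ (x ()) then (1 : ℂ) else 0
      simp only [h1]
  have hsum := hφ.summable one_pos 1 c0 hc0
  let e : F ≃ (Unit → F) := (Equiv.funUnique Unit F).symm
  have hsum' := (e.summable_iff (f := fun x => ‖φ x‖ * ((1 + nrm x) ^ 1 * Real.exp (-c0 * nrm x)))).2 hsum
  set B : F → ℝ := fun y => ‖φ (e y)‖ * ((1 + nrm (e y)) ^ 1 * Real.exp (-c0 * nrm (e y))) with hB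
  have hnrm : ∀ y : F, nrm (e y) = ∑ s : F →+* ℝ, (s y) ^ 2 := by
    intro y
    unfold nrm
    rw [Fintype.sum_unique]
    rfl
  have hbound : ∀ y : F, IsIntegral ℤ y → ‖h y‖ ≤ B y := by
    intro y hy
    have h1 : φ (e y) = 1 := by
      change (if IsIntegral ℤ y then (1 : ℂ) else 0) = 1
      rw [if_pos hy]
    rw [hh, hB]
    simp only
    rw [h1, norm_one, one_mul, pow_one, hnrm, Complex.norm_real, Real.norm_eq_abs, abs_mul,
      abs_of_pos (Real.exp_pos _)]
    refine mul_le_mul ?_ ?_ (Real.exp_pos _).le ?_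
    · have h2 : (t y) ^ 2 ≤ ∑ s : F →+* ℝ, (s y) ^ 2 :=
        Finset.single_le_sum (f := fun s : F →+* ℝ => (s y) ^ 2) (fun _ _ => sq_nonneg _)
          (Finset.mem_univ t)
      have h3 : |t y| ≤ 1 + (t y) ^ 2 := by
        rw [← sq_abs (t y)]
        nlinarith [sq_nonneg (|t y| - 1 / 2)]
      linarith
    · refine Real.exp_le_exp.2 ?_
      have h2 : c0 * ∑ s : F →+* ℝ, (s y) ^ 2 ≤ ∑ s : F →+* ℝ, c s * (s y) ^ 2 := by
        rw [Finset.mul_sum]
        exact Finset.sum_le_sum fun s _ => mul_le_mul_of_nonneg_right (hle s) (sq_nonneg _)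
      linarith
    · have : 0 ≤ ∑ s : F →+* ℝ, (s y) ^ 2 := Finset.sum_nonneg fun _ _ => sq_nonneg _
      linarith
  -- the limit
  have hlim : Tendsto (fun N : ℕ => ∑' y : F, chN F N y * h y) atTop
      (𝓝 (∑' y : F, if y = 1 then h 1 else 0)) := by
    refine tendsto_tsum_of_dominated_convergence (bound := B) hsum' ?_ ?_
    · intro y
      by_cases hy : y = 1
      · subst hy
        have h1 : ∀ N : ℕ, chN F N 1 = 1 := by
          intro N
          unfold chN
          rw [if_pos ⟨0, isIntegral_zero, by ring⟩]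
        simp only [h1, one_mul, if_true]
        exact tendsto_const_nhds
      · rw [if_neg hy]
        refine tendsto_const_nhds.congr' ?_
        obtain ⟨N0, hN0⟩ := exists_nat_gt (∑ s : F →+* ℝ, |s (y - 1)|)
        filter_upwards [eventually_ge_atTop N0] with N hN
        have h1 : chN F N y = 0 := by
          unfold chN
          rw [if_neg]
          rintro ⟨u, hu, hyu⟩
          have hu0 : u ≠ 0 := by
            rintro rfl
            apply hy
            rw [hyu]
            ring
          obtain ⟨s, hs⟩ := CMT.Cpt.exists_one_le hu hu0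
          have h2 : s (y - 1) = N * s u := by
            rw [hyu]
            simp
          have h3 : |s (y - 1)| ≤ ∑ s : F →+* ℝ, |s (y - 1)| :=
            Finset.single_le_sum (f := fun s : F →+* ℝ => |s (y - 1)|) (fun _ _ => abs_nonneg _)
              (Finset.mem_univ s)
          rw [h2, abs_mul, Nat.abs_cast] at h3
          have h4 : (N0 : ℝ) ≤ N := by exact_mod_cast hN
          have h5 : (N : ℝ) * 1 ≤ N * |s u| := mul_le_mul_of_nonneg_left hs (Nat.cast_nonneg N)
          linarith
        rw [h1, zero_mul]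
    · filter_upwards with N y
      by_cases hy : chN F N y = 0
      · rw [hy, zero_mul, norm_zero]
        rw [hB]
        have : 0 ≤ nrm (e y) := nrm_nonneg _
        positivity
      · have h1 : ‖chN F N y‖ ≤ 1 := by
          unfold chN
          split_ifs <;> simp
        rw [norm_mul]
        calc ‖chN F N y‖ * ‖h y‖ ≤ 1 * ‖h y‖ := mul_le_mul_of_nonneg_right h1 (norm_nonneg _)
          _ = ‖h y‖ := one_mul _
          _ ≤ B y := hbound y (chN_supp N y hy)
  rw [tsum_ite_eq] at hlim
  have hne : h 1 ≠ 0 := by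
    rw [hh]
    simp only [map_one, one_mul]
    exact_mod_cast (Real.exp_pos _).ne'
  obtain ⟨N, hN1, hN2⟩ := ((hlim.eventually_ne hne).and (eventually_ge_atTop 1)).exists
  refine ⟨N, chN F N, hN2, ?_, fun y w hw => chN_per N y w hw, hN1⟩
  intro y hy
  exact (isIntegral_natCast N).mul (chN_supp N y hy)

end J
end CMT
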