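import Pool.Agent.Lib.CMT.J.Spec
import Pool.Agent.Lib.CMT.J.CurB
import Pool.Agent.Lib.CMT.J.CurG
import Pool.Agent.Lib.CMT.C.Om

/-!
# PROJECT CMT, part J2 : the theta forms on the curves `z_k = t0 ρ`

`pNSum : S_NSum`, `curveN : S_CurveN`.
-/

set_option autoImplicit false

open scoped BigOperators ComplexConjugate
open MeasureTheory Matrix

noncomputable section

namespace CMT
namespace J

variable {F : Type} [Field F] [NumberField F]

theorem abs_le_nrm (x : Fin 3 → F) (t : F →+* ℝ) (i : Fin 3) : |t (x i)| ≤ 1 + nrm x := by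
  have h1 := sq_le_nrm x t i
  rw [← sq_abs] at h1
  nlinarith [sq_nonneg (|t (x i)| - 1 / 2)]

/-- Absolute convergence of the naive vector valued forms. -/
theorem pNSum : S_NSum := by
  intro F _ _ _ D a ha t ψ hψ z hz i
  obtain ⟨n, hn, hSB⟩ := hψ
  obtain ⟨ρ, hρ0, hρ1, hzρ⟩ := exists_rho_of_mem D.bet_pos hz
  obtain ⟨C, c, hC, hc, hb⟩ := norm_omterm_le D ha hρ0.le hρ1
  have hs := (hSB.summable hn 2 c hc).mul_left C
  have key : ∀ (x : Fin 3 → F) (w : ℂ),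
      ‖ψ x * tm1 D a x z * w‖ ≤ C * (‖ψ x‖ * ((1 + nrm x) ^ 1 * Real.exp (-c * nrm x))) →
      ‖ψ x * tm1 D a x z * ((t (x i) : ℝ) : ℂ) * w‖ ≤
        C * (‖ψ x‖ * ((1 + nrm x) ^ 2 * Real.exp (-c * nrm x))) := by
    intro x w hw
    have e1 : ψ x * tm1 D a x z * ((t (x i) : ℝ) : ℂ) * w =
        ((t (x i) : ℝ) : ℂ) * (ψ x * tm1 D a x z * w) := by ring
    rw [e1, norm_mul, Complex.norm_real, Real.norm_eq_abs]
    calc |t (x i)| * ‖ψ x * tm1 D a x z * w‖ ≤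
          (1 + nrm x) * (C * (‖ψ x‖ * ((1 + nrm x) ^ 1 * Real.exp (-c * nrm x)))) :=
          mul_le_mul (abs_le_nrm x t i) hw (norm_nonneg _) (by linarith [nrm_nonneg x])
      _ = _ := by ring
  exact ⟨hs.of_nonneg_of_le (fun _ => norm_nonneg _) fun x => key x _ (hb ψ z hzρ x).1,
    hs.of_nonneg_of_le (fun _ => norm_nonneg _) fun x => key x _ (hb ψ z hzρ x).2⟩

theorem cv_pos (D : Dat F) {a : F} (ha : a ≠ 0) {ρ : F} (hρ : (D.t0 ρ) ^ 2 < D.t0 D.bet)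
    (s : F →+* ℝ) : 0 < cv D a ρ s := by
  unfold cv kap
  have h1 := Real.sqrt_pos.2 (D.del_pos s)
  have h2 : 0 < |s a| := abs_pos.2 ((map_ne_zero s).2 ha)
  have h3 := qv_pos D hρ s
  have h4 := Real.pi_pos
  positivity

/-- The terms on the curve. -/
def AA (D : Dat F) (a : F) (k : Fin 2) (ρ : F) (z : ℂ × ℂ) (q : F × F) : ℂ :=
  tm1 D a (par D k ρ 0 q.1 q.2) z * pj k (du (D.t0 D.bet) (rx D.t0 (par D k ρ 0 q.1 q.2)) z)

theorem term_par (D : Dat F) (a : F) (k : Fin 2) (ρ : F) {z : ℂ × ℂ}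
    (hz : pk k z = ((D.t0 ρ : ℝ) : ℂ)) (y : F) (q : F × F) :
    tm1 D a (par D k ρ y q.1 q.2) z * pj k (du (D.t0 D.bet) (rx D.t0 (par D k ρ y q.1 q.2)) z) =
      ((EE D a ρ y : ℝ) : ℂ) * AA D a k ρ z q := by
  unfold AA
  rw [tm1_par D a k ρ y q.1 q.2 hz, du_par D k ρ y q.1 q.2 hz]
  ring

/-- The scalar form on the curve. -/
theorem om_par (D : Dat F) (a : F) (k : Fin 2) {ρ : F} (hne : D.bet - ρ ^ 2 ≠ 0)
    (φ : (Fin 3 → F) → ℂ) {z : ℂ × ℂ} (hz : pk k z = ((D.t0 ρ : ℝ) : ℂ))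
    (hS : Summable fun x => φ x * tm1 D a x z * pj k (du (D.t0 D.bet) (rx D.t0 x) z)) :
    ∑' x : Fin 3 → F, φ x * tm1 D a x z * pj k (du (D.t0 D.bet) (rx D.t0 x) z) =
      ∑' q : F × F, Phi D a k ρ φ q.1 q.2 * AA D a k ρ z q := by
  rw [← (parE D k hne).tsum_eq]
  have hS' := ((parE D k hne).summable_iff
    (f := fun x => φ x * tm1 D a x z * pj k (du (D.t0 D.bet) (rx D.t0 x) z))).2 hS
  refine (Summable.tsum_prod hS').trans ?_
  refine tsum_congr fun q => ?_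
  unfold Phi
  rw [← tsum_mul_right]
  refine tsum_congr fun y => ?_
  change φ (par D k ρ y q.1 q.2) * tm1 D a (par D k ρ y q.1 q.2) z *
    pj k (du (D.t0 D.bet) (rx D.t0 (par D k ρ y q.1 q.2)) z) = _
  rw [mul_assoc, term_par D a k ρ hz y q]
  ring

/-- The paired vector valued form on the curve. -/
theorem omN_par (D : Dat F) (a : F) (k : Fin 2) {ρ : F} (hne : D.bet - ρ ^ 2 ≠ 0)
    (φ : (Fin 3 → F) → ℂ) (ψ' : F → ℂ) (c : ℂ) (t : F →+* ℝ) {z : ℂ × ℂ}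
    (hz : pk k z = ((D.t0 ρ : ℝ) : ℂ))
    (hS : Summable fun x => psi D a k ρ φ ψ' c x * tm1 D a x z *
      ((∑ i, ht D t i * t (vv D k ρ i) * t (x i) : ℝ) : ℂ) *
      pj k (du (D.t0 D.bet) (rx D.t0 x) z)) :
    ∑' x : Fin 3 → F, psi D a k ρ φ ψ' c x * tm1 D a x z *
      ((∑ i, ht D t i * t (vv D k ρ i) * t (x i) : ℝ) : ℂ) *
      pj k (du (D.t0 D.bet) (rx D.t0 x) z) =
      (((t (qv D ρ) : ℝ) : ℂ) * (∑' y : F, ψ' y * ((t y * EE D a ρ y : ℝ) : ℂ)) * c) *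
        ∑' q : F × F, Phi D a k ρ φ q.1 q.2 * AA D a k ρ z q := by
  rw [← (parE D k hne).tsum_eq]
  have hS' := ((parE D k hne).summable_iff
    (f := fun x => psi D a k ρ φ ψ' c x * tm1 D a x z *
      ((∑ i, ht D t i * t (vv D k ρ i) * t (x i) : ℝ) : ℂ) *
      pj k (du (D.t0 D.bet) (rx D.t0 x) z))).2 hS
  rw [← tsum_mul_left]
  refine (Summable.tsum_prod hS').trans ?_
  refine tsum_congr fun q => ?_
  have e0 : (((t (qv D ρ) : ℝ) : ℂ) * (∑' y : F, ψ' y * ((t y * EE D a ρ y : ℝ) : ℂ)) * c) *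
      (Phi D a k ρ φ q.1 q.2 * AA D a k ρ z q) =
      (∑' y : F, ψ' y * ((t y * EE D a ρ y : ℝ) : ℂ)) *
        (((t (qv D ρ) : ℝ) : ℂ) * c * (Phi D a k ρ φ q.1 q.2 * AA D a k ρ z q)) := by ring
  rw [e0, ← tsum_mul_right]
  refine tsum_congr fun y => ?_
  change psi D a k ρ φ ψ' c (par D k ρ y q.1 q.2) * tm1 D a (par D k ρ y q.1 q.2) z *
      ((∑ i, ht D t i * t (vv D k ρ i) * t (par D k ρ y q.1 q.2 i) : ℝ) : ℂ) *
      pj k (du (D.t0 D.bet) (rx D.t0 (par D k ρ y q.1 q.2)) z) = _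
  rw [pair_par]
  have e1 : psi D a k ρ φ ψ' c (par D k ρ y q.1 q.2) = c * (ψ' y * Phi D a k ρ φ q.1 q.2) := by
    unfold psi
    rw [ya_par D k hne, ra_par, sa_par D k hne]
  have e2 := term_par D a k ρ hz y q
  rw [e1]
  calc c * (ψ' y * Phi D a k ρ φ q.1 q.2) * tm1 D a (par D k ρ y q.1 q.2) z *
        ((t (qv D ρ) * t y : ℝ) : ℂ) * pj k (du (D.t0 D.bet) (rx D.t0 (par D k ρ y q.1 q.2)) z)
      = c * (ψ' y * Phi D a k ρ φ q.1 q.2) * ((t (qv D ρ) * t y : ℝ) : ℂ) *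
        (tm1 D a (par D k ρ y q.1 q.2) z *
          pj k (du (D.t0 D.bet) (rx D.t0 (par D k ρ y q.1 q.2)) z)) := by ring
    _ = _ := by
      rw [e2]
      push_cast
      ring

theorem curveN : S_CurveN := by
  intro F _ _ _ D a ha t φ hφ k ρ hρ
  have ha0 : a ≠ 0 := by
    rintro rfl
    rw [map_zero] at ha
    exact lt_irrefl _ ha
  have hne := cur_ne D hρ
  obtain ⟨m, ψ', hm, hs, hp, hG⟩ := exists_gauss (cv D a ρ) (fun s => cv_pos D ha0 hρ s) t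
  set G : ℂ := ∑' y : F, ψ' y * ((t y * EE D a ρ y : ℝ) : ℂ) with hGdef
  have hG' : G ≠ 0 := hG
  have hq : ((t (qv D ρ) : ℝ) : ℂ) ≠ 0 := by exact_mod_cast (qv_pos D hρ t).ne'
  set c : ℂ := (((t (qv D ρ) : ℝ) : ℂ) * G)⁻¹ with hc
  have hψ := isSB_psi D a k hne hφ hm hs hp c
  refine ⟨psi D a k ρ φ ψ' c, hψ, fun z hz => ?_⟩
  obtain ⟨hzB, hzk⟩ := hz
  -- the scalar form
  have hSφ : Summable fun x => φ x * tm1 D a x z * pj k (du (D.t0 D.bet) (rx D.t0 x) z) := by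
    have h1 := pSumOm F D a ha0 φ hφ z hzB
    rcases k_cases k with rfl | rfl
    · exact h1.2.of_norm
    · exact h1.1.of_norm
  have hL : (if k = 0 then (om D a φ z).2 else (om D a φ z).1) =
      ∑' x : Fin 3 → F, φ x * tm1 D a x z * pj k (du (D.t0 D.bet) (rx D.t0 x) z) := by
    rcases k_cases k with rfl | rfl
    · rfl
    · rfl
  rw [hL, om_par D a k hne φ hzk hSφ]
  -- the vector valued form
  have hSi : ∀ i : Fin 3, Summable fun x => psi D a k ρ φ ψ' c x * tm1 D a x z *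
      ((t (x i) : ℝ) : ℂ) * pj k (du (D.t0 D.bet) (rx D.t0 x) z) := by
    intro i
    have h1 := pNSum F D a ha0 t _ hψ z hzB i
    rcases k_cases k with rfl | rfl
    · exact h1.2.of_norm
    · exact h1.1.of_norm
  have hRi : ∀ i : Fin 3, (if k = 0 then (omN D a t (psi D a k ρ φ ψ' c) z i).2
      else (omN D a t (psi D a k ρ φ ψ' c) z i).1) =
      ∑' x : Fin 3 → F, psi D a k ρ φ ψ' c x * tm1 D a x z *
        ((t (x i) : ℝ) : ℂ) * pj k (du (D.t0 D.bet) (rx D.t0 x) z) := by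
    intro i
    rcases k_cases k with rfl | rfl
    · rfl
    · rfl
  have hterm : ∀ x : Fin 3 → F, ∑ i, ((ht D t i * t (vv D k ρ i) : ℝ) : ℂ) *
      (psi D a k ρ φ ψ' c x * tm1 D a x z *
        ((t (x i) : ℝ) : ℂ) * pj k (du (D.t0 D.bet) (rx D.t0 x) z)) =
      psi D a k ρ φ ψ' c x * tm1 D a x z *
        ((∑ i, ht D t i * t (vv D k ρ i) * t (x i) : ℝ) : ℂ) *
        pj k (du (D.t0 D.bet) (rx D.t0 x) z) := by
    intro x
    rw [Complex.ofReal_sum, Finset.mul_sum, Finset.sum_mul]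
    refine Finset.sum_congr rfl fun i _ => ?_
    push_cast
    ring
  have hSum : ∀ i ∈ (Finset.univ : Finset (Fin 3)), Summable fun x : Fin 3 → F =>
      ((ht D t i * t (vv D k ρ i) : ℝ) : ℂ) * (psi D a k ρ φ ψ' c x * tm1 D a x z *
        ((t (x i) : ℝ) : ℂ) * pj k (du (D.t0 D.bet) (rx D.t0 x) z)) :=
    fun i _ => (hSi i).mul_left _
  have hR : ∑ i, ((ht D t i * t (vv D k ρ i) : ℝ) : ℂ) *
      (if k = 0 then (omN D a t (psi D a k ρ φ ψ' c) z i).2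
        else (omN D a t (psi D a k ρ φ ψ' c) z i).1) =
      ∑' x : Fin 3 → F, psi D a k ρ φ ψ' c x * tm1 D a x z *
        ((∑ i, ht D t i * t (vv D k ρ i) * t (x i) : ℝ) : ℂ) *
        pj k (du (D.t0 D.bet) (rx D.t0 x) z) := by
    rw [← tsum_congr hterm, Summable.tsum_finsetSum hSum]
    refine Finset.sum_congr rfl fun i _ => ?_
    rw [hRi, tsum_mul_left]
  have hSR : Summable fun x => psi D a k ρ φ ψ' c x * tm1 D a x z *
      ((∑ i, ht D t i * t (vv D k ρ i) * t (x i) : ℝ) : ℂ) *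
      pj k (du (D.t0 D.bet) (rx D.t0 x) z) := (summable_sum hSum).congr hterm
  rw [hR, omN_par D a k hne φ ψ' c t hzk hSR, ← hGdef]
  have hone : ((t (qv D ρ) : ℝ) : ℂ) * G * c = 1 := by
    rw [hc]
    exact mul_inv_cancel₀ (mul_ne_zero hq hG')
  rw [hone, one_mul]

end J
end CMT
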