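import Pool.Agent.Lib.CMT.J.VI3

/-!
# PROJECT CMT, part J1: `S_VI3` is proved
-/

set_option autoImplicit false

open scoped BigOperators ComplexConjugate
open Matrix NumberField

noncomputable section

namespace CMT.J

open CMT.B

theorem isU_inv {h : Fin 3 → ℝ} (hh : ∀ i, h i ≠ 0) {g : Matrix (Fin 3) (Fin 3) ℂ}
    (hg : IsU h g) (m l : Fin 3) :
    ∑ i, g m i * ((h i : ℝ) : ℂ)⁻¹ * conj (g l i) * ((h l : ℝ) : ℂ) = if m = l then 1 else 0 := by
  have hh' : ∀ i, ((h i : ℝ) : ℂ) ≠ 0 := fun i => by exact_mod_cast hh i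
  have e0 : (diagonal fun i => ((h i : ℝ) : ℂ)⁻¹) * HM h = 1 := by
    unfold HM
    rw [diagonal_mul_diagonal, ← diagonal_one]
    congr 1
    funext i
    exact inv_mul_cancel₀ (hh' i)
  have e1 : ((diagonal fun i => ((h i : ℝ) : ℂ)⁻¹) * gᴴ * HM h) * g = 1 := by
    rw [Matrix.mul_assoc, Matrix.mul_assoc, ← Matrix.mul_assoc gᴴ, hg, e0]
  have e2 := _root_.mul_eq_one_comm.1 e1
  have e3 := congrFun (congrFun e2 m) l
  rw [Matrix.one_apply] at e3
  rw [← e3, Matrix.mul_apply]
  refine Finset.sum_congr rfl fun i _ => ?_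
  unfold HM
  rw [Matrix.mul_diagonal, Matrix.diagonal_mul, conjTranspose_apply, Complex.star_def]
  ring

variable {F : Type} [Field F] [NumberField F]

theorem Rt_inv (D : Dat F) (a : F) (t : F →+* ℝ) {g : SG D} (hg : IsIso D g) (m l : Fin 3) :
    ∑ i, Rt D a t g m i * ((CMT.B.ht D t i : ℝ) : ℂ)⁻¹ * SS D a t g l i *
      ((CMT.B.ht D t l : ℝ) : ℂ) = if m = l then 1 else 0 := by
  have h := isU_inv (h := CMT.B.ht D t) (ht_ne D t) (mt_isU D t hg) m l
  unfold Rt SS
  split_ifs with h1 h2 h2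
  · rw [if_pos h2] at h
    have h3 := congrArg conj h
    rw [map_sum, map_one] at h3
    rw [← h3]
    refine Finset.sum_congr rfl fun i _ => ?_
    simp only [map_mul, map_inv₀, Complex.conj_conj, Complex.conj_ofReal, Matrix.map_apply]
  · rw [if_neg h2] at h
    have h3 := congrArg conj h
    rw [map_sum, map_zero] at h3
    rw [← h3]
    refine Finset.sum_congr rfl fun i _ => ?_
    simp only [map_mul, map_inv₀, Complex.conj_conj, Complex.conj_ofReal, Matrix.map_apply]
  · rw [if_pos h2] at h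
    rw [← h]
    rfl
  · rw [if_neg h2] at h
    rw [← h]
    rfl

theorem invert (D : Dat F) (a : F) (t : F →+* ℝ) {g : SG D} (hg : IsIso D g)
    {Y V : Fin 3 → ℂ} {c : ℂ}
    (h : ∀ i, ∑ l, ((CMT.B.ht D t l : ℂ) * SS D a t g l i * ((CMT.B.ht D t i : ℝ) : ℂ)⁻¹) * Y l =
      c * V i) (m : Fin 3) : Y m = c * ∑ i, Rt D a t g m i * V i := by
  have e1 : c * ∑ i, Rt D a t g m i * V i = ∑ i, Rt D a t g m i * (c * V i) := by
    rw [Finset.mul_sum]
    exact Finset.sum_congr rfl fun i _ => by ring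
  rw [e1]
  simp_rw [← h, Finset.mul_sum]
  rw [Finset.sum_comm]
  have e2 : ∀ l, ∑ i, Rt D a t g m i * ((CMT.B.ht D t l : ℂ) * SS D a t g l i *
      ((CMT.B.ht D t i : ℝ) : ℂ)⁻¹ * Y l) = if m = l then Y l else 0 := by
    intro l
    have e3 := congrArg (fun x => x * Y l) (Rt_inv D a t hg m l)
    simp only [ite_mul, one_mul, zero_mul] at e3
    rw [← e3, Finset.sum_mul]
    exact Finset.sum_congr rfl fun i _ => by ring
  rw [Finset.sum_congr rfl fun l _ => e2 l, Finset.sum_ite_eq, if_pos (Finset.mem_univ m)]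

/-- **`S_VI3`.** -/
theorem pVI3 : S_VI3 := by
  intro F _ _ _ D a ha N hN t
  have ha0 : a ≠ 0 := by
    rintro rfl
    simp at ha
  obtain ⟨n, k, hn, hk, hQ⟩ := quad F D a ha N hN
  refine ⟨n, 2 * k, hn, by positivity, fun g hg z hz => ?_⟩
  obtain ⟨c, d, hc, hd, hφs⟩ := hQ g hg z hz
  have hgz : CMT.act D g z ∈ Ball D := act_mem_Ball D hg.1 hz
  have hj : num D g z 2 ≠ 0 := num_two_ne_zero D hg.1 hz
  have hjj : jj (mt D D.t0 g) z ≠ 0 := hj
  have hjn : jj (mt D D.t0 g) z = num D g z 2 := rfl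
  have hms := IThreeAux.mm_ne D hz
  have hmg := IThreeAux.mm_ne D hgz
  have hss := IThreeAux.ss_ne D hz
  have hsg := IThreeAux.ss_ne D hgz
  have hka : ka D a ≠ 0 := ka_ne D ha
  refine ⟨c * ss (D.t0 D.bet) z / (ss (D.t0 D.bet) (CMT.act D g z) * num D g z 2), ?_, ?_⟩
  · rw [pow_mul, div_pow, mul_pow, mul_pow, IThreeAux.ss_sq, IThreeAux.ss_sq]
    have e : c ^ 2 * mm (D.t0 D.bet) z / (mm (D.t0 D.bet) (CMT.act D g z) * num D g z 2 ^ 2)
        = c ^ 2 * d := by
      rw [← hd]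
      field_simp
    rw [e]
    exact hc
  intro φ hφ
  obtain ⟨hzero, key, hsec⟩ := hφs φ hφ
  constructor
  · have hS := pSumOm F D a ha0 φ ⟨N, hN, hφ⟩
    have S0 := (hS _ hgz).1.of_norm
    have S1 := (hS _ hgz).2.of_norm
    have T0 := (hS _ hz).1.of_norm
    have T1' := (hS _ hz).2.of_norm
    have hNt : NNt D a g z D.t0 = NNm (ka D a) (hh D) (mt D D.t0 g) z := by
      simp [NNt]
    have hhp : (hh D 0 * hh D 1 * hh D 2 : ℝ) ≠ 0 := by
      rw [hh_zero, hh_one, hh_two]
      have := D.bet_pos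
      simp only [one_mul]
      exact neg_ne_zero.2 this.ne'
    have hs2 : s2 (hh D) z ≠ 0 := s2_ne D hz
    have hmul := NNm_mul hka hhp (mt D D.t0 g) hs2
    have col : ∀ l : Fin 3, NNt D a g z D.t0 *ᵥ (fun i => Nm (ka D a) (hh D) z i l)
        = fun i => (Nm (ka D a) (hh D) (CMT.act D g z) * Rm (mt D D.t0 g) z) i l := by
      intro l
      rw [hNt, act_eq, ← hmul]
      rfl
    have c0 : NNt D a g z D.t0 *ᵥ (fun i => Nm (ka D a) (hh D) z i 0)
        = fun i => Nm (ka D a) (hh D) (CMT.act D g z) i 0 * MM (mt D D.t0 g) z 0 0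
          + Nm (ka D a) (hh D) (CMT.act D g z) i 1 * MM (mt D D.t0 g) z 1 0 := by
      rw [col]
      funext i
      simp [Matrix.mul_apply, Fin.sum_univ_three, Rm]
    have c1 : NNt D a g z D.t0 *ᵥ (fun i => Nm (ka D a) (hh D) z i 1)
        = fun i => Nm (ka D a) (hh D) (CMT.act D g z) i 0 * MM (mt D D.t0 g) z 0 1
          + Nm (ka D a) (hh D) (CMT.act D g z) i 1 * MM (mt D D.t0 g) z 1 1 := by
      rw [col]
      funext i
      simp [Matrix.mul_apply, Fin.sum_univ_three, Rm]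
    have k0 := key (fun i => Nm (ka D a) (hh D) z i 0)
    have k1 := key (fun i => Nm (ka D a) (hh D) z i 1)
    rw [c0, IThreeAux.Du_comb D a φ hgz S0 S1] at k0
    rw [c1, IThreeAux.Du_comb D a φ hgz S0 S1] at k1
    have b0 : Du D a φ z (fun i => Nm (ka D a) (hh D) z i 0)
        = (ka D a * ss (D.t0 D.bet) z) * (om D a φ z).1 := by
      have := IThreeAux.Du_comb D a φ hz T0 T1' 1 0
      simpa using this
    have b1 : Du D a φ z (fun i => Nm (ka D a) (hh D) z i 1)
        = (ka D a * ss (D.t0 D.bet) z) * (om D a φ z).2 := by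
      have := IThreeAux.Du_comb D a φ hz T0 T1' 0 1
      simpa using this
    rw [b0] at k0
    rw [b1] at k1
    rw [pull1_eq D g z hjj, hjn]
    ext
    · show _ / _ = _
      rw [div_eq_iff hj]
      have h3 : ka D a * ss (D.t0 D.bet) (CMT.act D g z) ≠ 0 := mul_ne_zero hka hsg
      apply mul_left_cancel₀ h3
      rw [show ka D a * ss (D.t0 D.bet) (CMT.act D g z) *
          ((om D a φ (CMT.act D g z)).1 * MM (mt D D.t0 g) z 0 0
            + (om D a φ (CMT.act D g z)).2 * MM (mt D D.t0 g) z 1 0)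
          = ka D a * ss (D.t0 D.bet) (CMT.act D g z) *
          (MM (mt D D.t0 g) z 0 0 * (om D a φ (CMT.act D g z)).1
            + MM (mt D D.t0 g) z 1 0 * (om D a φ (CMT.act D g z)).2) by ring, k0]
      field_simp
    · show _ / _ = _
      rw [div_eq_iff hj]
      have h3 : ka D a * ss (D.t0 D.bet) (CMT.act D g z) ≠ 0 := mul_ne_zero hka hsg
      apply mul_left_cancel₀ h3
      rw [show ka D a * ss (D.t0 D.bet) (CMT.act D g z) *
          ((om D a φ (CMT.act D g z)).1 * MM (mt D D.t0 g) z 0 1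
            + (om D a φ (CMT.act D g z)).2 * MM (mt D D.t0 g) z 1 1)
          = ka D a * ss (D.t0 D.bet) (CMT.act D g z) *
          (MM (mt D D.t0 g) z 0 1 * (om D a φ (CMT.act D g z)).1
            + MM (mt D D.t0 g) z 1 1 * (om D a φ (CMT.act D g z)).2) by ring, k1]
      field_simp
  · -- the vector form
    have htr := Pf_tr D ha hN hφ hg.1 hz hzero hsec t
    have hv1 := Pf_vf D ha hN hφ hz t
    have hv2 := Pf_vf D ha hN hφ hgz t
    have hpi : (2 * Real.pi * Complex.I : ℂ) ^ 2 ≠ 0 := pow_ne_zero _ Complex.two_pi_I_ne_zero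
    have hkq := kq_ne D ha t
    have hK : (2 * Real.pi * Complex.I) ^ 2 * kq D a t * ss (D.t0 D.bet) (CMT.act D g z) *
        num D g z 2 ≠ 0 := mul_ne_zero (mul_ne_zero (mul_ne_zero hpi hkq) hsg) hj
    have r1 : ∀ i, ∑ l, ((CMT.B.ht D t l : ℂ) * SS D a t g l i *
        ((CMT.B.ht D t i : ℝ) : ℂ)⁻¹) * (pull1 D g z (vf D a t φ (CMT.act D g z) l)).1 =
        (c * ss (D.t0 D.bet) z / (ss (D.t0 D.bet) (CMT.act D g z) * num D g z 2)) *
          (vf D a t φ z i).1 := by
      intro i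
      have e := (htr i).1
      simp_rw [(hv2 _).1, (hv2 _).2] at e
      rw [(hv1 i).1] at e
      apply mul_left_cancel₀ hK
      simp_rw [pull1_eq D g z hjj, hjn]
      rw [Finset.mul_sum]
      have e2 : (2 * Real.pi * Complex.I) ^ 2 * kq D a t * ss (D.t0 D.bet) (CMT.act D g z) *
          num D g z 2 * (c * ss (D.t0 D.bet) z / (ss (D.t0 D.bet) (CMT.act D g z) *
          num D g z 2) * (vf D a t φ z i).1) =
          c * ((2 * Real.pi * Complex.I) ^ 2 * kq D a t * ss (D.t0 D.bet) z *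
            (vf D a t φ z i).1) := by
        field_simp
      rw [e2, ← e]
      refine Finset.sum_congr rfl fun l _ => ?_
      field_simp
    have r2 : ∀ i, ∑ l, ((CMT.B.ht D t l : ℂ) * SS D a t g l i *
        ((CMT.B.ht D t i : ℝ) : ℂ)⁻¹) * (pull1 D g z (vf D a t φ (CMT.act D g z) l)).2 =
        (c * ss (D.t0 D.bet) z / (ss (D.t0 D.bet) (CMT.act D g z) * num D g z 2)) *
          (vf D a t φ z i).2 := by
      intro i
      have e := (htr i).2
      simp_rw [(hv2 _).1, (hv2 _).2] at e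
      rw [(hv1 i).2] at e
      apply mul_left_cancel₀ hK
      simp_rw [pull1_eq D g z hjj, hjn]
      rw [Finset.mul_sum]
      have e2 : (2 * Real.pi * Complex.I) ^ 2 * kq D a t * ss (D.t0 D.bet) (CMT.act D g z) *
          num D g z 2 * (c * ss (D.t0 D.bet) z / (ss (D.t0 D.bet) (CMT.act D g z) *
          num D g z 2) * (vf D a t φ z i).2) =
          c * ((2 * Real.pi * Complex.I) ^ 2 * kq D a t * ss (D.t0 D.bet) z *
            (vf D a t φ z i).2) := by
        field_simp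
      rw [e2, ← e]
      refine Finset.sum_congr rfl fun l _ => ?_
      field_simp
    intro i
    have q1 := invert D a t hg.1 (Y := fun l => (pull1 D g z (vf D a t φ (CMT.act D g z) l)).1)
      (V := fun i => (vf D a t φ z i).1) r1 i
    have q2 := invert D a t hg.1 (Y := fun l => (pull1 D g z (vf D a t φ (CMT.act D g z) l)).2)
      (V := fun i => (vf D a t φ z i).2) r2 i
    exact Prod.ext q1 q2

end CMT.J
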