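import Pool.Agent.Lib.CMT.J.Iface
import Pool.Agent.Lib.CMT.C.Om

/-!
PROJECT CMT, part J1 (helper38): `S_VSum`, `S_VPrim` for the vector valued theta 1-forms, and
holomorphy (continuity) of their coefficients.

Uniform bound on the smaller ball: `norm_vt_le`.  Primitives of the terms: for `t ≠ t0` as for the
scalar forms, with the weight `t (x_i)`; for `t = t0`, with `N = ẑ/ss`, `X = x + u N`,
`d (exp (-2 c u²) N) = exp (-2 c u²) (dN - 4 c u N du)`, `dN_i/dz_k = Me_ik/ss`, so that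
`x_i exp(..) G(u) - (1/(4c)) exp(-E) N_i` is a primitive of `exp(-E) (X_i du - (1/(4c)) Me_ik/ss)`.
-/

open scoped BigOperators ComplexConjugate
open NumberField

noncomputable section

namespace CMT
namespace J

namespace VP

/-- Bounds on the smaller ball. -/
theorem bd {b ρ : ℝ} (hb : 0 < b) (hρ0 : 0 ≤ ρ) (hρ1 : ρ < 1) :
    ∃ C : ℝ, 1 ≤ C ∧ ∀ z ∈ sball b ρ, ‖(mm b z)⁻¹‖ ≤ C ∧ ‖(ss b z)⁻¹‖ ≤ C ∧
      (∀ i, ‖hat z i‖ ≤ C) ∧ ∀ x : Fin 3 → ℝ, ‖ll b x z‖ ≤ C * (1 + sq3 x) := by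
  have h1ρ : 0 < 1 - ρ := by linarith
  set μ : ℝ := (1 - ρ) * b with hμ
  have hμ0 : 0 < μ := by positivity
  have hmin : 0 < min 1 μ := lt_min one_pos hμ0
  have hi1 : 0 < μ⁻¹ := inv_pos.2 hμ0
  have hi2 : 0 < (min 1 μ)⁻¹ := inv_pos.2 hmin
  refine ⟨1 + μ⁻¹ + (min 1 μ)⁻¹ + (1 + b) + (2 * (1 + b) + b), by linarith, fun z hz => ?_⟩
  have hzb : z ∈ ball b := sball_subset hb hρ0 hρ1.le hz
  have hz2 : ‖z.1‖ ^ 2 + ‖z.2‖ ^ 2 < b := hzb
  have hz1' : ‖z.1‖ ≤ 1 + b := by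
    nlinarith [sq_nonneg (‖z.1‖ - 1), sq_nonneg ‖z.2‖, norm_nonneg z.1]
  have hz2' : ‖z.2‖ ≤ 1 + b := by
    nlinarith [sq_nonneg (‖z.2‖ - 1), sq_nonneg ‖z.1‖, norm_nonneg z.2]
  have hmm : μ ≤ ‖mm b z‖ := by
    have h1 : μ ≤ (mm b z).re := by
      rw [mm_re]
      have h : ‖z.1‖ ^ 2 + ‖z.2‖ ^ 2 < ρ ^ 2 * b := hz
      rw [normsq_eq, normsq_eq] at h
      have h2 : ρ ^ 2 * b ≤ ρ * b :=
        mul_le_mul_of_nonneg_right (pow_le_of_le_one hρ0 hρ1.le two_ne_zero) hb.le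
      have h3 := sq_nonneg z.1.im
      have h4 := sq_nonneg z.2.im
      rw [hμ]
      linarith
    exact h1.trans ((le_abs_self _).trans (Complex.abs_re_le_norm _))
  have hss : min 1 μ ≤ ‖ss b z‖ := by
    have h1 : ‖ss b z‖ ^ 2 = ‖mm b z‖ := by rw [← norm_pow, ss_sq hzb]
    by_contra hlt
    push Not at hlt
    have h2 : ‖ss b z‖ ^ 2 < min 1 μ * min 1 μ := by
      have h0 := norm_nonneg (ss b z)
      rw [pow_two]
      exact mul_lt_mul'' hlt hlt h0 h0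
    have h3 : min 1 μ * min 1 μ ≤ 1 * μ :=
      mul_le_mul (min_le_left _ _) (min_le_right _ _) hmin.le zero_le_one
    rw [h1] at h2
    linarith
  have em : ‖(mm b z)⁻¹‖ ≤ μ⁻¹ := by
    rw [norm_inv]
    exact inv_anti₀ hμ0 hmm
  have es : ‖(ss b z)⁻¹‖ ≤ (min 1 μ)⁻¹ := by
    rw [norm_inv]
    exact inv_anti₀ hmin hss
  refine ⟨by linarith, by linarith, fun i => ?_, fun x => ?_⟩
  · have h1 : ‖hat z i‖ ≤ 1 + b := by
      fin_cases i
      · exact hz1'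
      · exact hz2'
      · change ‖(1 : ℂ)‖ ≤ 1 + b
        rw [norm_one]
        linarith
    linarith
  · have hx0 : |x 0| ≤ 1 + sq3 x := by
      unfold sq3
      nlinarith [sq_nonneg (|x 0| - 1), sq_abs (x 0), sq_nonneg (x 1), sq_nonneg (x 2),
        abs_nonneg (x 0)]
    have hx1 : |x 1| ≤ 1 + sq3 x := by
      unfold sq3
      nlinarith [sq_nonneg (|x 1| - 1), sq_abs (x 1), sq_nonneg (x 0), sq_nonneg (x 2),
        abs_nonneg (x 1)]
    have hx2 : |x 2| ≤ 1 + sq3 x := by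
      unfold sq3
      nlinarith [sq_nonneg (|x 2| - 1), sq_abs (x 2), sq_nonneg (x 1), sq_nonneg (x 0),
        abs_nonneg (x 2)]
    have hS := sq3_nonneg x
    have hll : ‖ll b x z‖ ≤ (2 * (1 + b) + b) * (1 + sq3 x) := by
      unfold ll
      calc ‖(x 0 : ℂ) * z.1 + (x 1 : ℂ) * z.2 - (b : ℂ) * (x 2 : ℂ)‖
          ≤ ‖(x 0 : ℂ) * z.1‖ + ‖(x 1 : ℂ) * z.2‖ + ‖(b : ℂ) * (x 2 : ℂ)‖ := by
            refine (norm_sub_le _ _).trans ?_
            gcongr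
            exact norm_add_le _ _
        _ = |x 0| * ‖z.1‖ + |x 1| * ‖z.2‖ + b * |x 2| := by
            rw [norm_mul, norm_mul, norm_mul, Complex.norm_real, Complex.norm_real,
              Complex.norm_real, Complex.norm_real, Real.norm_eq_abs, Real.norm_eq_abs,
              Real.norm_eq_abs, Real.norm_eq_abs, abs_of_pos hb]
        _ ≤ (1 + sq3 x) * (1 + b) + (1 + sq3 x) * (1 + b) + b * (1 + sq3 x) := by
            gcongr
        _ = _ := by ring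
    refine hll.trans (mul_le_mul_of_nonneg_right ?_ (by linarith))
    linarith

variable {F : Type} [Field F] [NumberField F]

theorem sq3_le_nrm (t : F →+* ℝ) (x : Fin 3 → F) : sq3 (rx t x) ≤ nrm x := by
  rw [nrm_eq]
  exact Finset.single_le_sum (f := fun t : F →+* ℝ => sq3 (rx t x)) (fun _ _ => sq3_nonneg _)
    (Finset.mem_univ t)

theorem abs_le_nrm (t : F →+* ℝ) (x : Fin 3 → F) (i : Fin 3) : |t (x i)| ≤ 1 + nrm x := by
  have h := sq_le_nrm x t i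
  nlinarith [sq_nonneg (|t (x i)| - 1), sq_abs (t (x i)), abs_nonneg (t (x i))]

theorem norm_Me_le {b : ℝ} {z : ℂ × ℂ} {C : ℝ} (hC : 1 ≤ C) (hm : ‖(mm b z)⁻¹‖ ≤ C)
    (hh : ∀ i, ‖hat z i‖ ≤ C) (i k : Fin 3) : ‖Me b z i k‖ ≤ 2 * C ^ 3 := by
  unfold Me
  rw [div_eq_mul_inv]
  have h0 : 0 ≤ C := by linarith
  have h1 : ‖hat z i * hat z k * (mm b z)⁻¹‖ ≤ C * C * C := by
    rw [norm_mul, norm_mul]
    gcongr
    · exact hh i
    · exact hh k
  have h2 : ‖(if i = k then (1 : ℂ) else 0)‖ ≤ 1 := by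
    split_ifs <;> simp
  have h3 : 1 ≤ C ^ 3 := one_le_pow₀ hC
  calc ‖(if i = k then (1 : ℂ) else 0) + hat z i * hat z k * (mm b z)⁻¹‖
      ≤ 1 + C * C * C := (norm_add_le _ _).trans (add_le_add h2 h1)
    _ = 1 + C ^ 3 := by ring
    _ ≤ 2 * C ^ 3 := by linarith

/-- **The uniform bound** of the terms of the vector valued forms. -/
theorem norm_vt_le (D : Dat F) {a : F} (ha : a ≠ 0) (t : F →+* ℝ) {ρ : ℝ} (hρ0 : 0 ≤ ρ)
    (hρ1 : ρ < 1) :
    ∃ C c : ℝ, 0 < C ∧ 0 < c ∧ ∀ z ∈ sball (D.t0 D.bet) ρ, ∀ (x : Fin 3 → F) (i : Fin 3),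
      ‖vt1 D a t x z i‖ ≤ C * ((1 + nrm x) ^ 2 * Real.exp (-c * nrm x)) ∧
      ‖vt2 D a t x z i‖ ≤ C * ((1 + nrm x) ^ 2 * Real.exp (-c * nrm x)) := by
  obtain ⟨c, hc, htm⟩ := norm_tm1_le D ha hρ0 hρ1
  obtain ⟨C1, hC1, hdu⟩ := norm_du_le D.bet_pos hρ0 hρ1
  obtain ⟨C2, hC2, hbd⟩ := bd D.bet_pos hρ0 hρ1
  have hC20 : 0 < C2 := by linarith
  set K : ℝ := ‖((4 * cc D a : ℝ) : ℂ)⁻¹‖ with hK
  have hK0 : 0 ≤ K := norm_nonneg _
  refine ⟨C1 + (1 + C2 ^ 3) * C1 + K * (2 * C2 ^ 3 * C2), c, by positivity, hc,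
    fun z hz x i => ?_⟩
  have hN := nrm_nonneg x
  have hs3 := sq3_le_nrm D.t0 x
  have hs30 := sq3_nonneg (rx D.t0 x)
  have ht := htm z hz x
  obtain ⟨d1, d2⟩ := hdu z hz (rx D.t0 x)
  obtain ⟨bm, bs, bh, bl⟩ := hbd z hz
  have hexp := Real.exp_pos (-c * nrm x)
  -- the common estimates
  have du1 : ‖(du (D.t0 D.bet) (rx D.t0 x) z).1‖ ≤ C1 * (1 + nrm x) :=
    d1.trans (mul_le_mul_of_nonneg_left (by linarith) hC1.le)
  have du2 : ‖(du (D.t0 D.bet) (rx D.t0 x) z).2‖ ≤ C1 * (1 + nrm x) :=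
    d2.trans (mul_le_mul_of_nonneg_left (by linarith) hC1.le)
  have hX : ‖Xv (D.t0 D.bet) (rx D.t0 x) z i‖ ≤ (1 + C2 ^ 3) * (1 + nrm x) := by
    unfold Xv
    rw [div_eq_mul_inv]
    have h1 : ‖((rx D.t0 x i : ℝ) : ℂ)‖ ≤ 1 + nrm x := by
      rw [Complex.norm_real, Real.norm_eq_abs]
      exact abs_le_nrm D.t0 x i
    have h2 : ‖hat z i * ll (D.t0 D.bet) (rx D.t0 x) z * (mm (D.t0 D.bet) z)⁻¹‖
        ≤ C2 * (C2 * (1 + nrm x)) * C2 := by
      rw [norm_mul, norm_mul]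
      gcongr
      · exact bh i
      · exact (bl _).trans (mul_le_mul_of_nonneg_left (by linarith) hC20.le)
    calc _ ≤ (1 + nrm x) + C2 * (C2 * (1 + nrm x)) * C2 :=
          (norm_add_le _ _).trans (add_le_add h1 h2)
      _ = _ := by ring
  have hMs : ∀ k, ‖((4 * cc D a : ℝ) : ℂ)⁻¹ * (Me (D.t0 D.bet) z i k / ss (D.t0 D.bet) z)‖
      ≤ K * (2 * C2 ^ 3 * C2) := by
    intro k
    rw [div_eq_mul_inv, norm_mul, norm_mul]
    gcongr
    exact norm_Me_le hC2 bm bh i k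
  have one : 1 ≤ (1 + nrm x) ^ 2 := one_le_pow₀ (by linarith)
  -- the two cases
  have main : ∀ (d : ℂ) (k : Fin 3), ‖d‖ ≤ C1 * (1 + nrm x) →
      ‖tm1 D a x z * (Xv (D.t0 D.bet) (rx D.t0 x) z i * d
        - ((4 * cc D a : ℝ) : ℂ)⁻¹ * (Me (D.t0 D.bet) z i k / ss (D.t0 D.bet) z))‖
      ≤ (C1 + (1 + C2 ^ 3) * C1 + K * (2 * C2 ^ 3 * C2)) *
        ((1 + nrm x) ^ 2 * Real.exp (-c * nrm x)) ∧
      ‖tm1 D a x z * (((t (x i) : ℝ) : ℂ) * d)‖
      ≤ (C1 + (1 + C2 ^ 3) * C1 + K * (2 * C2 ^ 3 * C2)) *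
        ((1 + nrm x) ^ 2 * Real.exp (-c * nrm x)) := by
    intro d k hd
    constructor
    · rw [norm_mul]
      have h1 : ‖Xv (D.t0 D.bet) (rx D.t0 x) z i * d
          - ((4 * cc D a : ℝ) : ℂ)⁻¹ * (Me (D.t0 D.bet) z i k / ss (D.t0 D.bet) z)‖
          ≤ (1 + C2 ^ 3) * (1 + nrm x) * (C1 * (1 + nrm x)) + K * (2 * C2 ^ 3 * C2) := by
        refine (norm_sub_le _ _).trans (add_le_add ?_ (hMs k))
        rw [norm_mul]
        gcongr
      have h2 : (1 + C2 ^ 3) * (1 + nrm x) * (C1 * (1 + nrm x)) + K * (2 * C2 ^ 3 * C2)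
          ≤ (C1 + (1 + C2 ^ 3) * C1 + K * (2 * C2 ^ 3 * C2)) * (1 + nrm x) ^ 2 := by
        have h3 : K * (2 * C2 ^ 3 * C2) * 1 ≤ K * (2 * C2 ^ 3 * C2) * (1 + nrm x) ^ 2 :=
          mul_le_mul_of_nonneg_left one (by positivity)
        have h4 : 0 ≤ C1 * (1 + nrm x) ^ 2 := by positivity
        nlinarith
      calc _ ≤ Real.exp (-c * nrm x) *
            ((C1 + (1 + C2 ^ 3) * C1 + K * (2 * C2 ^ 3 * C2)) * (1 + nrm x) ^ 2) :=
            mul_le_mul ht (h1.trans h2) (norm_nonneg _) hexp.le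
        _ = _ := by ring
    · rw [norm_mul, norm_mul, Complex.norm_real, Real.norm_eq_abs]
      have h1 : |t (x i)| * ‖d‖ ≤ (1 + nrm x) * (C1 * (1 + nrm x)) :=
        mul_le_mul (abs_le_nrm t x i) hd (norm_nonneg _) (by linarith)
      have h2 : (1 + nrm x) * (C1 * (1 + nrm x))
          ≤ (C1 + (1 + C2 ^ 3) * C1 + K * (2 * C2 ^ 3 * C2)) * (1 + nrm x) ^ 2 := by
        have h3 : 0 ≤ ((1 + C2 ^ 3) * C1 + K * (2 * C2 ^ 3 * C2)) * (1 + nrm x) ^ 2 := by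
          positivity
        nlinarith
      calc _ ≤ Real.exp (-c * nrm x) *
            ((C1 + (1 + C2 ^ 3) * C1 + K * (2 * C2 ^ 3 * C2)) * (1 + nrm x) ^ 2) :=
            mul_le_mul ht (h1.trans h2) (mul_nonneg (abs_nonneg _) (norm_nonneg _)) hexp.le
        _ = _ := by ring
  constructor
  · unfold vt1
    split_ifs
    · exact (main _ 0 du1).1
    · exact (main _ 0 du1).2
  · unfold vt2
    split_ifs
    · exact (main _ 1 du2).1
    · exact (main _ 1 du2).2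

/-- Summable majorant on the smaller ball. -/
theorem exists_maj [IsTotallyReal F] (D : Dat F) {a : F} (ha : a ≠ 0) (t : F →+* ℝ)
    {ψ : (Fin 3 → F) → ℂ} (hψ : IsSB ψ) {ρ : ℝ} (hρ0 : 0 ≤ ρ) (hρ1 : ρ < 1) :
    ∃ u : (Fin 3 → F) → ℝ, Summable u ∧ ∀ z ∈ sball (D.t0 D.bet) ρ, ∀ (x : Fin 3 → F)
      (i : Fin 3), ‖ψ x * vt1 D a t x z i‖ ≤ u x ∧ ‖ψ x * vt2 D a t x z i‖ ≤ u x := by
  obtain ⟨n, hn, hSB⟩ := hψ
  obtain ⟨C, c, hC, hc, hb⟩ := norm_vt_le D ha t hρ0 hρ1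
  refine ⟨_, (hSB.summable hn 2 c hc).mul_left C, fun z hz x i => ?_⟩
  obtain ⟨b1, b2⟩ := hb z hz x i
  have h0 := norm_nonneg (ψ x)
  constructor
  · rw [norm_mul]
    calc _ ≤ ‖ψ x‖ * (C * ((1 + nrm x) ^ 2 * Real.exp (-c * nrm x))) :=
          mul_le_mul_of_nonneg_left b1 h0
      _ = _ := by ring
  · rw [norm_mul]
    calc _ ≤ ‖ψ x‖ * (C * ((1 + nrm x) ^ 2 * Real.exp (-c * nrm x))) :=
          mul_le_mul_of_nonneg_left b2 h0
      _ = _ := by ring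

/-! ### derivatives -/

theorem hasFDerivAt_hat (z : ℂ × ℂ) (i : Fin 3) :
    HasFDerivAt (fun z => hat z i) ((if i = 0 then (1 : ℂ) else 0) •
      ContinuousLinearMap.fst ℂ ℂ ℂ + (if i = 1 then (1 : ℂ) else 0) •
      ContinuousLinearMap.snd ℂ ℂ ℂ) z := by
  fin_cases i
  · refine (hasFDerivAt_fst (𝕜 := ℂ) (E := ℂ) (F := ℂ) (p := z)).congr_fderiv ?_
    ext <;> simp
  · refine (hasFDerivAt_snd (𝕜 := ℂ) (E := ℂ) (F := ℂ) (p := z)).congr_fderiv ?_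
    ext <;> simp
  · refine (hasFDerivAt_const (𝕜 := ℂ) (1 : ℂ) z).congr_fderiv ?_
    ext <;> simp

theorem hasFDerivAt_N {b : ℝ} {z : ℂ × ℂ} (hz : z ∈ ball b) (i : Fin 3) :
    HasFDerivAt (fun z => hat z i / ss b z) ((Me b z i 0 / ss b z) •
      ContinuousLinearMap.fst ℂ ℂ ℂ + (Me b z i 1 / ss b z) •
      ContinuousLinearMap.snd ℂ ℂ ℂ) z := by
  have hm := mm_ne hz
  have hs := ss_ne hz
  have h1 := (hasDerivAt_inv hs).comp_hasFDerivAt z (hasFDerivAt_ss hz)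
  have h2 := (hasFDerivAt_hat z i).mul h1
  have h3 : (fun z => hat z i / ss b z) = (fun z => hat z i) * (Inv.inv ∘ ss b) := by
    funext w
    simp [div_eq_mul_inv]
  rw [h3]
  refine h2.congr_fderiv ?_
  have e0 : hat z 0 = z.1 := rfl
  have e1 : hat z 1 = z.2 := rfl
  simp only [Me, e0, e1]
  generalize (if i = 0 then (1 : ℂ) else 0) = p
  generalize (if i = 1 then (1 : ℂ) else 0) = q
  ext
  · simp
    field_simp
    ring
  · simp
    field_simp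
    ring

variable (D : Dat F) (a : F)

theorem hasFDerivAt_tm1 (x : Fin 3 → F) {z : ℂ × ℂ} (hz : z ∈ Ball D) :
    HasFDerivAt (tm1 D a x)
      ((-(4 * (CMT.cc D a : ℂ)) * uu (D.t0 D.bet) (rx D.t0 x) z * tm1 D a x z) •
        ((du (D.t0 D.bet) (rx D.t0 x) z).1 • ContinuousLinearMap.fst ℂ ℂ ℂ
        + (du (D.t0 D.bet) (rx D.t0 x) z).2 • ContinuousLinearMap.snd ℂ ℂ ℂ)) z := by
  have h1 := hasFDerivAt_uu (b := D.t0 D.bet) hz (rx D.t0 x)
  have h2 : HasDerivAt (fun u : ℂ => Complex.exp (-(ec D a x : ℂ)) *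
      Complex.exp (-(2 * (CMT.cc D a : ℂ)) * u ^ 2))
      (Complex.exp (-(ec D a x : ℂ)) *
        (Complex.exp (-(2 * (CMT.cc D a : ℂ)) * (uu (D.t0 D.bet) (rx D.t0 x) z) ^ 2) *
          (-(2 * (CMT.cc D a : ℂ)) * (2 * uu (D.t0 D.bet) (rx D.t0 x) z))))
      (uu (D.t0 D.bet) (rx D.t0 x) z) := by
    have h3 := (hasDerivAt_pow 2 (uu (D.t0 D.bet) (rx D.t0 x) z)).const_mul
      (-(2 * (CMT.cc D a : ℂ)))
    have h4 := (h3.cexp).const_mul (Complex.exp (-(ec D a x : ℂ)))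
    refine h4.congr_deriv ?_
    simp
  have h5 := h2.comp_hasFDerivAt z h1
  have h6 : tm1 D a x = (fun u : ℂ => Complex.exp (-(ec D a x : ℂ)) *
      Complex.exp (-(2 * (CMT.cc D a : ℂ)) * u ^ 2)) ∘ uu (D.t0 D.bet) (rx D.t0 x) := by
    funext w
    exact tm1_eq D a x w
  have h7 : tm1 D a x z = Complex.exp (-(ec D a x : ℂ)) *
      Complex.exp (-(2 * (CMT.cc D a : ℂ)) * (uu (D.t0 D.bet) (rx D.t0 x) z) ^ 2) :=
    tm1_eq D a x z
  rw [h6]
  refine h5.congr_fderiv ?_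
  rw [← h6, h7]
  congr 1
  ring

/-- The primitive of one term at the place `t`. -/
def prm (t : F →+* ℝ) (G : ℂ → ℂ) (k : ℂ) (x : Fin 3 → F) (i : Fin 3) (z : ℂ × ℂ) : ℂ :=
  k * ((t (x i) : ℝ) : ℂ) * Complex.exp (-(ec D a x : ℂ)) *
      (G (uu (D.t0 D.bet) (rx D.t0 x) z) - G (uu (D.t0 D.bet) (rx D.t0 x) 0))
    - (if t = D.t0 then k * ((4 * cc D a : ℝ) : ℂ)⁻¹ *
        (tm1 D a x z * (hat z i / ss (D.t0 D.bet) z)) else 0)

theorem hasFDerivAt_prm (ha : a ≠ 0) (t : F →+* ℝ) {G : ℂ → ℂ}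
    (hG : ∀ w, HasDerivAt G (Complex.exp (-(2 * (CMT.cc D a : ℂ)) * w ^ 2)) w) (k : ℂ)
    (x : Fin 3 → F) (i : Fin 3) {z : ℂ × ℂ} (hz : z ∈ Ball D) :
    HasFDerivAt (prm D a t G k x i) ((k * vt1 D a t x z i) • ContinuousLinearMap.fst ℂ ℂ ℂ +
        (k * vt2 D a t x z i) • ContinuousLinearMap.snd ℂ ℂ ℂ) z := by
  have h1 := hasFDerivAt_term D a hG (k * ((t (x i) : ℝ) : ℂ))
    (G (uu (D.t0 D.bet) (rx D.t0 x) 0)) x hz
  unfold prm vt1 vt2
  split_ifs with h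
  · subst h
    have h2 := ((hasFDerivAt_tm1 D a x hz).mul
      (hasFDerivAt_N (b := D.t0 D.bet) hz i)).const_mul (k * ((4 * cc D a : ℝ) : ℂ)⁻¹)
    have h3 := h1.sub h2
    refine h3.congr_fderiv ?_
    have hc : ((cc D a : ℝ) : ℂ) ≠ 0 := by
      have h4 : cc D a ≠ 0 := by
        unfold cc
        exact mul_ne_zero (kap_pos D D.t0).ne' (abs_pos.2 ((map_ne_zero D.t0).2 ha)).ne'
      exact_mod_cast h4
    have hcc : CMT.cc D a = cc D a := rfl
    have hs := ss_ne (b := D.t0 D.bet) hz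
    have hm := mm_ne (b := D.t0 D.bet) hz
    have hss := ss_sq (b := D.t0 D.bet) hz
    have hX : Xv (D.t0 D.bet) (rx D.t0 x) z i = ((D.t0 (x i) : ℝ) : ℂ)
        + uu (D.t0 D.bet) (rx D.t0 x) z * (hat z i / ss (D.t0 D.bet) z) := by
      unfold Xv uu
      rw [div_mul_div_comm, ← pow_two, hss]
      change ((D.t0 (x i) : ℝ) : ℂ) + _ = _
      ring
    rw [hX, hcc]
    push_cast
    ext
    · simp
      field_simp
      ring
    · simp
      field_simp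
      ring
  · have h2 : (fun z => k * ((t (x i) : ℝ) : ℂ) * Complex.exp (-(ec D a x : ℂ)) *
      (G (uu (D.t0 D.bet) (rx D.t0 x) z) - G (uu (D.t0 D.bet) (rx D.t0 x) 0)) - 0)
      = fun z => k * ((t (x i) : ℝ) : ℂ) * Complex.exp (-(ec D a x : ℂ)) *
      (G (uu (D.t0 D.bet) (rx D.t0 x) z) - G (uu (D.t0 D.bet) (rx D.t0 x) 0)) := by
      funext z
      ring
    refine HasFDerivAt.congr_fderiv (h1.sub (hasFDerivAt_const (𝕜 := ℂ) (0 : ℂ) z)) ?_
    ext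
    · simp
      ring
    · simp
      ring

theorem differentiableAt_Me {b : ℝ} {z : ℂ × ℂ} (hz : z ∈ ball b) (i k : Fin 3) :
    DifferentiableAt ℂ (fun z => Me b z i k / ss b z) z := by
  have h1 := (hasFDerivAt_mm b z).differentiableAt
  have h2 := (hasFDerivAt_ss hz).differentiableAt
  have hi := (hasFDerivAt_hat z i).differentiableAt
  have hk := (hasFDerivAt_hat z k).differentiableAt
  unfold Me
  simp only [div_eq_mul_inv]
  exact DifferentiableAt.fun_mul ((differentiableAt_const _).add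
    (DifferentiableAt.fun_mul (DifferentiableAt.fun_mul hi hk)
      (DifferentiableAt.fun_inv h1 (mm_ne hz)))) (DifferentiableAt.fun_inv h2 (ss_ne hz))

theorem differentiableAt_Xv {b : ℝ} {z : ℂ × ℂ} (hz : z ∈ ball b) (x : Fin 3 → ℝ) (i : Fin 3) :
    DifferentiableAt ℂ (fun z => Xv b x z i) z := by
  have h1 := (hasFDerivAt_mm b z).differentiableAt
  have h3 := (hasFDerivAt_ll b x z).differentiableAt
  have hi := (hasFDerivAt_hat z i).differentiableAt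
  unfold Xv
  simp only [div_eq_mul_inv]
  exact (differentiableAt_const _).add (DifferentiableAt.fun_mul
    (DifferentiableAt.fun_mul hi h3) (DifferentiableAt.fun_inv h1 (mm_ne hz)))

theorem differentiableAt_vt (t : F →+* ℝ) (x : Fin 3 → F) (i : Fin 3) {z : ℂ × ℂ}
    (hz : z ∈ Ball D) : DifferentiableAt ℂ (fun z => vt1 D a t x z i) z ∧
      DifferentiableAt ℂ (fun z => vt2 D a t x z i) z := by
  have h1 := differentiableAt_tm1 D a x hz
  obtain ⟨d1, d2⟩ := differentiableAt_du (b := D.t0 D.bet) hz (rx D.t0 x)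
  have hX := differentiableAt_Xv (b := D.t0 D.bet) hz (rx D.t0 x) i
  have m0 := differentiableAt_Me (b := D.t0 D.bet) hz i 0
  have m1 := differentiableAt_Me (b := D.t0 D.bet) hz i 1
  constructor
  · unfold vt1
    split_ifs
    · exact DifferentiableAt.fun_mul h1 ((DifferentiableAt.fun_mul hX d1).sub
        (DifferentiableAt.const_mul m0 _))
    · exact DifferentiableAt.fun_mul h1 (DifferentiableAt.const_mul d1 _)
  · unfold vt2
    split_ifs
    · exact DifferentiableAt.fun_mul h1 ((DifferentiableAt.fun_mul hX d2).sub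
        (DifferentiableAt.const_mul m1 _))
    · exact DifferentiableAt.fun_mul h1 (DifferentiableAt.const_mul d2 _)

end VP

variable {F : Type} [Field F] [NumberField F]

/-- Absolute convergence of the vector valued forms. -/
theorem pVSum : S_VSum := by
  intro F _ _ _ D a ha t ψ hψ z hz i
  have ha' : a ≠ 0 := by
    rintro rfl
    simp at ha
  obtain ⟨ρ, hρ0, hρ1, hzρ⟩ := exists_rho_of_mem D.bet_pos hz
  obtain ⟨u, hu, hb⟩ := VP.exists_maj D ha' t hψ hρ0.le hρ1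
  exact ⟨hu.of_nonneg_of_le (fun _ => norm_nonneg _) fun x => (hb z hzρ x i).1,
    hu.of_nonneg_of_le (fun _ => norm_nonneg _) fun x => (hb z hzρ x i).2⟩

/-- The coefficients of the vector valued forms are holomorphic. -/
theorem differentiableAt_vf [IsTotallyReal F] (D : Dat F) {a : F} (ha : 0 < D.t0 a)
    (t : F →+* ℝ) {ψ : (Fin 3 → F) → ℂ} (hψ : IsSB ψ) (i : Fin 3) {z : ℂ × ℂ}
    (hz : z ∈ Ball D) :
    DifferentiableAt ℂ (fun z => (vf D a t ψ z i).1) z ∧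
      DifferentiableAt ℂ (fun z => (vf D a t ψ z i).2) z := by
  have ha' : a ≠ 0 := by
    rintro rfl
    simp at ha
  obtain ⟨ρ, hρ0, hρ1, hzρ⟩ := exists_rho_of_mem D.bet_pos hz
  obtain ⟨u, hu, hb⟩ := VP.exists_maj D ha' t hψ hρ0.le hρ1
  obtain ⟨r, hr, hball⟩ := Metric.isOpen_iff.1 (isOpen_sball (D.t0 D.bet) ρ) z hzρ
  have hsub : sball (D.t0 D.bet) ρ ⊆ Ball D := sball_subset D.bet_pos hρ0.le hρ1.le
  constructor
  · refine differentiableAt_tsum_of_bound hu hr (fun x w hw => ?_)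
      (fun x w hw => (hb w (hball hw) x i).1)
    exact ((VP.differentiableAt_vt D a t x i (hsub (hball hw))).1.const_mul
      (ψ x)).differentiableWithinAt
  · refine differentiableAt_tsum_of_bound hu hr (fun x w hw => ?_)
      (fun x w hw => (hb w (hball hw) x i).2)
    exact ((VP.differentiableAt_vt D a t x i (hsub (hball hw))).2.const_mul
      (ψ x)).differentiableWithinAt

/-- The coefficients of the vector valued forms are continuous on the ball. -/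
theorem vf_cont [IsTotallyReal F] (D : Dat F) {a : F} (ha : 0 < D.t0 a) (t : F →+* ℝ)
    {ψ : (Fin 3 → F) → ℂ} (hψ : IsSB ψ) (i : Fin 3) :
    ContinuousOn (fun z => (vf D a t ψ z i).1) (Ball D) ∧
      ContinuousOn (fun z => (vf D a t ψ z i).2) (Ball D) :=
  ⟨fun _ hz => (differentiableAt_vf D ha t hψ i hz).1.continuousAt.continuousWithinAt,
    fun _ hz => (differentiableAt_vf D ha t hψ i hz).2.continuousAt.continuousWithinAt⟩

/-- The vector valued forms have primitives. -/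
theorem pVPrim : S_VPrim := by
  intro F _ _ _ D a ha t ψ hψ
  have ha' : a ≠ 0 := by
    rintro rfl
    simp at ha
  obtain ⟨G, hG⟩ := exists_prim (CMT.cc D a : ℂ)
  refine ⟨fun z i => ∑' x, VP.prm D a t G (ψ x) x i z, fun z hz i => ?_⟩
  obtain ⟨ρ, hρ0, hρ1, hzρ⟩ := exists_rho_of_mem D.bet_pos hz
  obtain ⟨u, hu, hb⟩ := VP.exists_maj D ha' t hψ hρ0.le hρ1
  have hs2 := hu.mul_left 2
  have hsub : sball (D.t0 D.bet) ρ ⊆ Ball D := sball_subset D.bet_pos hρ0.le hρ1.le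
  have h := hasFDerivAt_tsum_of_isPreconnected (𝕜 := ℂ)
    (f := fun x => VP.prm D a t G (ψ x) x i)
    (f' := fun x z => (ψ x * vt1 D a t x z i) • ContinuousLinearMap.fst ℂ ℂ ℂ +
        (ψ x * vt2 D a t x z i) • ContinuousLinearMap.snd ℂ ℂ ℂ) hs2 (isOpen_sball _ ρ)
    (isPreconnected_sball D.bet_pos hρ0)
    (fun x w hw => VP.hasFDerivAt_prm D a ha' t hG (ψ x) x i (hsub hw))
    (fun x w hw => ?_) (zero_mem_sball D.bet_pos hρ0) ?_ hzρ
  · refine h.congr_fderiv ?_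
    obtain ⟨s1, s2⟩ := pVSum F D a ha t ψ hψ z hz i
    exact ((s1.of_norm.hasSum.smul_const (ContinuousLinearMap.fst ℂ ℂ ℂ)).add
      (s2.of_norm.hasSum.smul_const (ContinuousLinearMap.snd ℂ ℂ ℂ))).tsum_eq
  · obtain ⟨b1, b2⟩ := hb w hw x i
    refine (norm_add_le _ _).trans ?_
    rw [norm_smul, norm_smul]
    have n1 : ‖ContinuousLinearMap.fst ℂ ℂ ℂ‖ ≤ 1 := ContinuousLinearMap.norm_fst_le ℂ ℂ ℂ
    have n2 : ‖ContinuousLinearMap.snd ℂ ℂ ℂ‖ ≤ 1 := ContinuousLinearMap.norm_snd_le ℂ ℂ ℂ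
    have t1 := mul_le_mul b1 n1 (norm_nonneg _) ((norm_nonneg _).trans b1)
    have t2 := mul_le_mul b2 n2 (norm_nonneg _) ((norm_nonneg _).trans b2)
    linarith
  · -- summability at the centre
    obtain ⟨n, hn, hSB⟩ := hψ
    obtain ⟨c, hc, htm⟩ := norm_tm1_le D ha' hρ0.le hρ1
    have hsum := (hSB.summable hn 0 c hc).mul_left
      (‖((4 * cc D a : ℝ) : ℂ)⁻¹‖ * ‖hat 0 i / ss (D.t0 D.bet) 0‖)
    refine Summable.of_norm_bounded hsum fun x => ?_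
    have h0 := htm 0 (zero_mem_sball D.bet_pos hρ0) x
    simp only [VP.prm, sub_self, mul_zero, zero_sub, norm_neg]
    split_ifs
    · rw [norm_mul, norm_mul, norm_mul, pow_zero, one_mul]
      calc _ = ‖((4 * cc D a : ℝ) : ℂ)⁻¹‖ * ‖hat 0 i / ss (D.t0 D.bet) 0‖ *
            (‖ψ x‖ * ‖tm1 D a x 0‖) := by ring
        _ ≤ _ := by gcongr
    · rw [norm_zero]
      positivity

end J
end CMT
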