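import Pool.Agent.Lib.CMT.J.VInv
import Pool.Agent.Lib.CMT.J.VI3M
import Pool.Agent.Lib.CMT.J.VPrim

/-!
# PROJECT CMT, part J1 complete: the vector valued theta forms (helper1, helper38, helper91)
-/

set_option autoImplicit false

namespace CMT.J

/-- Absolute convergence of the vector valued theta forms. -/
theorem vSum : S_VSum := pVSum

/-- Equivariance of the vector valued theta forms under an arithmetic group. -/
theorem vInv : S_VInv := pVInv pVI3

/-- The vector valued theta forms have primitives. -/
theorem vPrim : S_VPrim := pVPrim

end CMT.J
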