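import Pool.Agent.Lib.CMT.J.CurC
import Pool.Agent.Lib.CMT.J.J1

/-!
# PROJECT CMT, part J2: `S_Curve` from `S_CurveN`

On the curve `(v, ẑ) = 0`, so `∑ h_i v_i X_x,i = ∑ h_i v_i x_i`, and the correction term has
coefficient `∑ h_i v_i M_ij = h_j v_j = 0`, `j` the other index.
-/

set_option autoImplicit false

open scoped BigOperators ComplexConjugate
open MeasureTheory Matrix

noncomputable section

namespace CMT
namespace J

variable {F : Type} [Field F] [NumberField F]

omit [Field F] [NumberField F] in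
/-- Interchange of the sums. -/
theorem sum_tsum {w : Fin 3 → ℂ} {f g : Fin 3 → (Fin 3 → F) → ℂ}
    (hf : ∀ i, Summable fun x => ‖f i x‖) (hg : ∀ i, Summable fun x => ‖g i x‖)
    (h : ∀ x, ∑ i, w i * f i x = ∑ i, w i * g i x) :
    ∑ i, w i * ∑' x, f i x = ∑ i, w i * ∑' x, g i x := by
  have e : ∀ {u : Fin 3 → (Fin 3 → F) → ℂ}, (∀ i, Summable fun x => ‖u i x‖) →
      ∑ i, w i * ∑' x, u i x = ∑' x, ∑ i, w i * u i x := by
    intro u hu
    rw [Summable.tsum_finsetSum fun i _ => (hu i).of_norm.mul_left (w i)]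
    exact Finset.sum_congr rfl fun i _ => (tsum_mul_left).symm
  rw [e hf, e hg]
  exact tsum_congr h

theorem curve : S_Curve := by
  intro F _ _ _ D a ha t φ hφ k ρ hρ
  obtain ⟨ψ, hψ, h⟩ := curveN F D a ha t φ hφ k ρ hρ
  refine ⟨ψ, hψ, fun z hz => ?_⟩
  rw [h z hz]
  have hzB : z ∈ Ball D := hz.1
  have ha' : a ≠ 0 := by
    rintro rfl
    simp at ha
  have hN := pNSum F D a ha' t ψ hψ z hzB
  have hV := vSum F D a ha t ψ hψ z hzB
  have hk := hz.2
  have hk2 : k = 0 ∨ k = 1 := by
    fin_cases k
    · exact Or.inl rfl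
    · exact Or.inr rfl
  rcases hk2 with rfl | rfl
  · simp only [if_true]
    refine sum_tsum (fun i => (hN i).2) (fun i => (hV i).2) fun x => ?_
    by_cases ht : t = D.t0
    · subst ht
      have hz1 : z.1 = ((D.t0 ρ : ℝ) : ℂ) := hk
      simp only [vt2, if_true, Fin.sum_univ_three, ht, vv, hat, Me, Xv, rx]
      simp only [Matrix.cons_val_zero, Matrix.cons_val_one, Matrix.cons_val_two,
        Matrix.tail_cons, Matrix.head_cons, map_zero, hz1]
      push_cast
      simp
      ring
    · refine Finset.sum_congr rfl fun i _ => ?_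
      simp only [vt2, if_neg ht]
      ring
  · simp only [one_ne_zero, if_false]
    refine sum_tsum (fun i => (hN i).1) (fun i => (hV i).1) fun x => ?_
    by_cases ht : t = D.t0
    · subst ht
      have hz1 : z.2 = ((D.t0 ρ : ℝ) : ℂ) := hk
      simp only [vt1, if_true, Fin.sum_univ_three, ht, vv, hat, Me, Xv, rx, one_ne_zero, if_false]
      simp only [Matrix.cons_val_zero, Matrix.cons_val_one, Matrix.cons_val_two,
        Matrix.tail_cons, Matrix.head_cons, map_zero, hz1]
      push_cast
      simp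
      ring
    · refine Finset.sum_congr rfl fun i _ => ?_
      simp only [vt1, if_neg ht]
      ring

end J
end CMT
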