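import Pool.Agent.Lib.CMT.J.Spec

/-!
# PROJECT CMT, part J, S_DensC (helper39)

A holomorphic function on the ball which is constant on the curves `z_k = t0 ρ` is constant.
-/

open scoped BigOperators ComplexConjugate Topology
open MeasureTheory Matrix Filter

noncomputable section

namespace CMT
namespace J

variable {F : Type} [Field F] [NumberField F]

/-- A holomorphic function on a disc which vanishes at the points `1/(n+1)` vanishes. -/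
private theorem id1 {R : ℝ} (hR : 0 < R) (h : ℂ → ℂ) (hd : DifferentiableOn ℂ h (Metric.ball 0 R))
    (h0 : ∀ m : ℕ, (((m : ℝ) + 1)⁻¹ : ℝ) < R → h ((((m : ℝ) + 1)⁻¹ : ℝ) : ℂ) = 0) :
    ∀ w ∈ Metric.ball (0 : ℂ) R, h w = 0 := by
  have ha : AnalyticOnNhd ℂ h (Metric.ball 0 R) := hd.analyticOnNhd Metric.isOpen_ball
  have hpre : IsPreconnected (Metric.ball (0 : ℂ) R) := (convex_ball 0 R).isPreconnected
  have hlim : Tendsto (fun m : ℕ => (((m : ℝ) + 1)⁻¹ : ℝ)) atTop (𝓝 0) := by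
    have := tendsto_one_div_add_atTop_nhds_zero_nat (𝕜 := ℝ)
    simpa using this
  have hlimC : Tendsto (fun m : ℕ => ((((m : ℝ) + 1)⁻¹ : ℝ) : ℂ)) atTop (𝓝[≠] 0) := by
    refine tendsto_nhdsWithin_iff.2 ⟨?_, Eventually.of_forall fun m => ?_⟩
    · have h1 := (Complex.continuous_ofReal.tendsto 0).comp hlim
      rw [Complex.ofReal_zero] at h1
      exact h1
    · have h1 : (0 : ℝ) < ((m : ℝ) + 1)⁻¹ := by positivity
      have h2 : ((((m : ℝ) + 1)⁻¹ : ℝ) : ℂ) ≠ 0 := Complex.ofReal_ne_zero.2 h1.ne'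
      exact h2
  have hev : ∀ᶠ m : ℕ in atTop, h ((((m : ℝ) + 1)⁻¹ : ℝ) : ℂ) = 0 := by
    have h1 := hlim.eventually (gt_mem_nhds hR)
    exact h1.mono fun m hm => h0 m hm
  have hfr : ∃ᶠ z in 𝓝[≠] (0 : ℂ), h z = 0 := hlimC.frequently hev.frequently
  exact ha.eqOn_zero_of_preconnected_of_frequently_eq_zero hpre (Metric.mem_ball_self hR) hfr

theorem pDensC : S_DensC := by
  intro F _ _ D q hq hc
  have hb := D.bet_pos
  have hpt : ∀ (m : ℕ), D.t0 (((m : F) + 1)⁻¹) = ((m : ℝ) + 1)⁻¹ := by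
    intro m
    rw [map_inv₀, map_add, map_natCast, map_one]
  -- the disc
  have hdisc : ∀ (c w : ℂ), ‖c‖ ^ 2 < D.t0 D.bet → (w ∈ Metric.ball (0 : ℂ) (Real.sqrt (D.t0 D.bet - ‖c‖ ^ 2)) ↔
      ‖c‖ ^ 2 + ‖w‖ ^ 2 < D.t0 D.bet) := by
    intro c w hcb
    rw [mem_ball_zero_iff, Real.lt_sqrt (norm_nonneg w)]
    constructor <;> intro h <;> linarith
  -- first direction
  have h1 : ∀ z1 z2 : ℂ, ‖z1‖ ^ 2 + ‖z2‖ ^ 2 < D.t0 D.bet → q (z1, z2) = q (0, z2) := by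
    intro z1 z2 hz
    have hz1 : ‖z1‖ ^ 2 < D.t0 D.bet := by nlinarith [sq_nonneg ‖z2‖]
    have hR : 0 < Real.sqrt (D.t0 D.bet - ‖z1‖ ^ 2) := Real.sqrt_pos.2 (by linarith)
    have hd : DifferentiableOn ℂ (fun w : ℂ => q (z1, w) - q (0, w))
        (Metric.ball 0 (Real.sqrt (D.t0 D.bet - ‖z1‖ ^ 2))) := by
      refine DifferentiableOn.sub ?_ ?_
      · refine hq.comp (g := q) (f := fun w : ℂ => (z1, w)) (by fun_prop) fun w hw => ?_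
        exact (hdisc z1 w hz1).1 hw
      · refine hq.comp (g := q) (f := fun w : ℂ => ((0 : ℂ), w)) (by fun_prop) fun w hw => ?_
        have h3 := (hdisc z1 w hz1).1 hw
        change ‖(0 : ℂ)‖ ^ 2 + ‖w‖ ^ 2 < D.t0 D.bet
        rw [norm_zero]
        nlinarith [sq_nonneg ‖z1‖]
    have h2 := id1 hR (fun w : ℂ => q (z1, w) - q (0, w)) hd (fun m hm => by
      have h3 : ((((m : ℝ) + 1)⁻¹ : ℝ) : ℂ) ∈ Metric.ball (0 : ℂ) (Real.sqrt (D.t0 D.bet - ‖z1‖ ^ 2)) := by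
        rw [mem_ball_zero_iff, Complex.norm_real, Real.norm_of_nonneg (by positivity)]
        exact hm
      have h4 := (hdisc z1 _ hz1).1 h3
      have h6 : ‖((((m : ℝ) + 1)⁻¹ : ℝ) : ℂ)‖ ^ 2 = (((m : ℝ) + 1)⁻¹) ^ 2 := by
        rw [Complex.norm_real, Real.norm_eq_abs, sq_abs]
      have h5 := hc 1 (((m : F) + 1)⁻¹) (by
        rw [hpt, ← h6]
        nlinarith [sq_nonneg ‖z1‖]) (z1, ((((m : ℝ) + 1)⁻¹ : ℝ) : ℂ)) ⟨h4, by rw [hpt]; rfl⟩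
        (0, ((((m : ℝ) + 1)⁻¹ : ℝ) : ℂ)) ⟨by
          change ‖(0 : ℂ)‖ ^ 2 + ‖((((m : ℝ) + 1)⁻¹ : ℝ) : ℂ)‖ ^ 2 < D.t0 D.bet
          rw [norm_zero]
          nlinarith [sq_nonneg ‖z1‖], by rw [hpt]; rfl⟩
      change q (z1, _) - q (0, _) = 0
      rw [h5, sub_self]) z2 ((hdisc z1 z2 hz1).2 hz)
    exact sub_eq_zero.1 h2
  -- second direction
  have h2 : ∀ z1 z2 : ℂ, ‖z1‖ ^ 2 + ‖z2‖ ^ 2 < D.t0 D.bet → q (z1, z2) = q (z1, 0) := by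
    intro z1 z2 hz
    have hz2 : ‖z2‖ ^ 2 < D.t0 D.bet := by nlinarith [sq_nonneg ‖z1‖]
    have hR : 0 < Real.sqrt (D.t0 D.bet - ‖z2‖ ^ 2) := Real.sqrt_pos.2 (by linarith)
    have hd : DifferentiableOn ℂ (fun w : ℂ => q (w, z2) - q (w, 0))
        (Metric.ball 0 (Real.sqrt (D.t0 D.bet - ‖z2‖ ^ 2))) := by
      refine DifferentiableOn.sub ?_ ?_
      · refine hq.comp (g := q) (f := fun w : ℂ => (w, z2)) (by fun_prop) fun w hw => ?_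
        have h3 := (hdisc z2 w hz2).1 hw
        change ‖w‖ ^ 2 + ‖z2‖ ^ 2 < D.t0 D.bet
        linarith
      · refine hq.comp (g := q) (f := fun w : ℂ => (w, (0 : ℂ))) (by fun_prop) fun w hw => ?_
        have h3 := (hdisc z2 w hz2).1 hw
        change ‖w‖ ^ 2 + ‖(0 : ℂ)‖ ^ 2 < D.t0 D.bet
        rw [norm_zero]
        nlinarith [sq_nonneg ‖z2‖]
    have h2 := id1 hR (fun w : ℂ => q (w, z2) - q (w, 0)) hd (fun m hm => by
      have h3 : ((((m : ℝ) + 1)⁻¹ : ℝ) : ℂ) ∈ Metric.ball (0 : ℂ) (Real.sqrt (D.t0 D.bet - ‖z2‖ ^ 2)) := by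
        rw [mem_ball_zero_iff, Complex.norm_real, Real.norm_of_nonneg (by positivity)]
        exact hm
      have h4 := (hdisc z2 _ hz2).1 h3
      have h6 : ‖((((m : ℝ) + 1)⁻¹ : ℝ) : ℂ)‖ ^ 2 = (((m : ℝ) + 1)⁻¹) ^ 2 := by
        rw [Complex.norm_real, Real.norm_eq_abs, sq_abs]
      have h5 := hc 0 (((m : F) + 1)⁻¹) (by
        rw [hpt, ← h6]
        nlinarith [sq_nonneg ‖z2‖]) (((((m : ℝ) + 1)⁻¹ : ℝ) : ℂ), z2) ⟨by
          change ‖((((m : ℝ) + 1)⁻¹ : ℝ) : ℂ)‖ ^ 2 + ‖z2‖ ^ 2 < D.t0 D.bet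
          linarith, by rw [hpt]; rfl⟩
        (((((m : ℝ) + 1)⁻¹ : ℝ) : ℂ), 0) ⟨by
          change ‖((((m : ℝ) + 1)⁻¹ : ℝ) : ℂ)‖ ^ 2 + ‖(0 : ℂ)‖ ^ 2 < D.t0 D.bet
          rw [norm_zero]
          nlinarith [sq_nonneg ‖z2‖], by rw [hpt]; rfl⟩
      change q (_, z2) - q (_, 0) = 0
      rw [h5, sub_self]) z1 ((hdisc z2 z1 hz2).2 (by linarith))
    exact sub_eq_zero.1 h2
  have h3 : ∀ z ∈ Ball D, q z = q (0, 0) := by
    rintro ⟨z1, z2⟩ hz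
    have hz' : ‖z1‖ ^ 2 + ‖z2‖ ^ 2 < D.t0 D.bet := hz
    rw [h1 z1 z2 hz', h2 0 z2 (by rw [norm_zero]; nlinarith [sq_nonneg ‖z1‖])]
  intro z hz z' hz'
  rw [h3 z hz, h3 z' hz']

end J
end CMT
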