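import Pool.Agent.Lib.CMT.B.DerTh

/-!
# PROJECT CMT, part J1: second derivatives of the theta series (helper91)

`th2 N φ Z u v = Σ_m φ(m) exp(πi m^T Z m / N²) (2πi m.u/N) (2πi m.v/N)`.
`pG2`: if `th Z' (NN w) = c exp(-πi (NN w).(be w)) th Z w` for all `w`, then
`th2 Z' (NN u) (NN v) = c (th2 Z u v - πi ((NN u).(be v) + (NN v).(be u)) th Z 0)`.
-/

set_option autoImplicit false

open scoped BigOperators ComplexConjugate
open Matrix NumberField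

noncomputable section

namespace CMT.J

open CMT.B

/-- The general term of the theta series. -/
def tw {ι : Type} [Fintype ι] (N : ℕ) (φ : (ι → ZMod (N ^ 2)) → ℂ) (Z : Matrix ι ι ℂ) (w : ι → ℂ)
    (m : ι → ℤ) : ℂ :=
  φ (fun p => (m p : ZMod (N ^ 2))) *
    Complex.exp (Real.pi * Complex.I * (∑ p, ∑ q, (m p : ℂ) * Z p q * (m q : ℂ)) / (N : ℂ) ^ 2
      + 2 * Real.pi * Complex.I * (∑ p, (m p : ℂ) * w p) / N)

/-- The linear factor `2πi m.v / N`. -/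
def lf {ι : Type} [Fintype ι] (N : ℕ) (v : ι → ℂ) (m : ι → ℤ) : ℂ :=
  2 * Real.pi * Complex.I * (∑ p, (m p : ℂ) * v p) / N

/-- First derivative series at the point `w` in the direction `v`. -/
def th1 {ι : Type} [Fintype ι] (N : ℕ) (φ : (ι → ZMod (N ^ 2)) → ℂ) (Z : Matrix ι ι ℂ)
    (w v : ι → ℂ) : ℂ := ∑' m : ι → ℤ, tw N φ Z w m * lf N v m

/-- Second derivative series at `0` in the directions `u`, `v`. -/
def th2 {ι : Type} [Fintype ι] (N : ℕ) (φ : (ι → ZMod (N ^ 2)) → ℂ) (Z : Matrix ι ι ℂ)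
    (u v : ι → ℂ) : ℂ := ∑' m : ι → ℤ, tw N φ Z 0 m * lf N u m * lf N v m

section

variable {ι : Type} [Fintype ι]

theorem th_eq_tw (N : ℕ) (φ : (ι → ZMod (N ^ 2)) → ℂ) (Z : Matrix ι ι ℂ) (w : ι → ℂ) :
    th N φ Z w = ∑' m : ι → ℤ, tw N φ Z w m := rfl

theorem tw_zero (N : ℕ) (φ : (ι → ZMod (N ^ 2)) → ℂ) (Z : Matrix ι ι ℂ) (m : ι → ℤ) :
    tw N φ Z 0 m = φ (fun p => (m p : ZMod (N ^ 2))) *
      Complex.exp (Real.pi * Complex.I * (∑ p, ∑ q, (m p : ℂ) * Z p q * (m q : ℂ)) /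
        (N : ℂ) ^ 2) := by
  unfold tw
  simp

theorem lf_norm {N : ℕ} (v : ι → ℂ) (m : ι → ℤ) :
    ‖lf N v m‖ ≤ Real.exp ((2 * Real.pi * ‖v‖) * ∑ p, |(m p : ℝ)|) := by
  have hpi := Real.pi_pos
  have h0 : (0 : ℝ) ≤ ∑ p, |(m p : ℝ)| := Finset.sum_nonneg fun p _ => abs_nonneg _
  have h1 : ‖∑ p, (m p : ℂ) * v p‖ ≤ ‖v‖ * ∑ p, |(m p : ℝ)| := by
    rw [Finset.mul_sum]
    refine (norm_sum_le _ _).trans (Finset.sum_le_sum fun p _ => ?_)
    rw [norm_mul, Complex.norm_intCast, mul_comm]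
    exact mul_le_mul_of_nonneg_right (norm_le_pi_norm v p) (abs_nonneg _)
  have h2 : ‖lf N v m‖ ≤ (2 * Real.pi * ‖v‖) * ∑ p, |(m p : ℝ)| := by
    unfold lf
    rw [norm_div, norm_mul, norm_mul, norm_mul, Complex.norm_I, Complex.norm_natCast,
      Complex.norm_real, Real.norm_of_nonneg hpi.le, Complex.norm_ofNat, mul_one]
    rcases Nat.eq_zero_or_pos N with hN | hN
    · subst hN
      simp only [Nat.cast_zero, div_zero]
      positivity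
    · have hN1 : (1 : ℝ) ≤ N := by exact_mod_cast hN
      calc 2 * Real.pi * ‖∑ p, (m p : ℂ) * v p‖ / N
          ≤ 2 * Real.pi * ‖∑ p, (m p : ℂ) * v p‖ := div_le_self (by positivity) hN1
        _ ≤ 2 * Real.pi * (‖v‖ * ∑ p, |(m p : ℝ)|) := by gcongr
        _ = (2 * Real.pi * ‖v‖) * ∑ p, |(m p : ℝ)| := by ring
  refine h2.trans ?_
  have := Real.add_one_le_exp ((2 * Real.pi * ‖v‖) * ∑ p, |(m p : ℝ)|)
  linarith

theorem tw_bound [DecidableEq ι] {N : ℕ} (hN : 0 < N) {Z : Matrix ι ι ℂ} (hZ : Zᵀ = Z)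
    (hpos : ∀ v : ι → ℝ, v ≠ 0 → 0 < ∑ p, ∑ q, v p * (Z p q).im * v q)
    (φ : (ι → ZMod (N ^ 2)) → ℂ) (L : ℝ) :
    ∃ (A c' : ℝ), 0 < c' ∧ ∀ (w : ι → ℂ), ‖w‖ ≤ L → ∀ m : ι → ℤ,
      ‖tw N φ Z w m‖ * Real.exp (L * ∑ p, |(m p : ℝ)|) ≤
        A * Real.exp (-c' * ∑ p, (m p : ℝ) ^ 2) := by
  obtain ⟨c, hc, h⟩ := DerThAux.coer hZ hpos
  have hN0 : NeZero (N ^ 2) := ⟨by positivity⟩
  obtain ⟨B, hB⟩ := (Set.finite_range (fun c => ‖φ c‖)).bddAbove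
  have hB' : ∀ c, ‖φ c‖ ≤ B := fun c => hB ⟨c, rfl⟩
  have hNr : (0 : ℝ) < N := by exact_mod_cast hN
  have hN1 : (1 : ℝ) ≤ N := by exact_mod_cast hN
  have hpi := Real.pi_pos
  set d : ℝ := Real.pi * c / N ^ 2 with hd
  have hd0 : 0 < d := by positivity
  set r : ℝ := 2 * Real.pi * L + L with hr
  set K : ℝ := ∑ _p : ι, r ^ 2 / (2 * d) with hK
  refine ⟨B * Real.exp K, d / 2, by positivity, fun w hw m => ?_⟩
  have hL : 0 ≤ L := (norm_nonneg w).trans hw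
  unfold tw
  have e0 : B * Real.exp K * Real.exp (-(d / 2) * ∑ p, (m p : ℝ) ^ 2) =
      B * Real.exp (K + -(d / 2) * ∑ p, (m p : ℝ) ^ 2) := by
    rw [Real.exp_add]; ring
  rw [norm_mul, Complex.norm_exp, e0, mul_assoc, ← Real.exp_add]
  refine mul_le_mul (hB' _) (Real.exp_le_exp.2 ?_) (Real.exp_pos _).le
    ((norm_nonneg _).trans (hB' 0))
  have e1 : (Real.pi * Complex.I * (∑ p, ∑ q, (m p : ℂ) * Z p q * (m q : ℂ)) / (N : ℂ) ^ 2).re =
      -(Real.pi / N ^ 2 * ∑ p, ∑ q, (m p : ℝ) * (Z p q).im * (m q : ℝ)) := by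
    have e : (Real.pi * Complex.I * (∑ p, ∑ q, (m p : ℂ) * Z p q * (m q : ℂ)) / (N : ℂ) ^ 2) =
        ((Real.pi / N ^ 2 : ℝ) : ℂ) *
          (Complex.I * (∑ p, ∑ q, (m p : ℂ) * Z p q * (m q : ℂ))) := by
      push_cast
      ring
    rw [e, Complex.re_ofReal_mul, Complex.I_mul_re, Complex.im_sum, mul_neg]
    congr 2
    refine Finset.sum_congr rfl fun p _ => ?_
    rw [Complex.im_sum]
    refine Finset.sum_congr rfl fun q _ => ?_
    have : ((m p : ℂ) * Z p q * (m q : ℂ)) = (((m p : ℝ) * (m q : ℝ) : ℝ) : ℂ) * Z p q := by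
      push_cast; ring
    rw [this, Complex.im_ofReal_mul]
    ring
  have e2 : (2 * Real.pi * Complex.I * (∑ p, (m p : ℂ) * w p) / (N : ℂ)).re ≤
      (2 * Real.pi * L) * ∑ p, |(m p : ℝ)| := by
    refine (Complex.re_le_norm _).trans ?_
    rw [norm_div, norm_mul, norm_mul, norm_mul, Complex.norm_I, Complex.norm_natCast,
      Complex.norm_real, Real.norm_of_nonneg hpi.le, Complex.norm_ofNat, mul_one]
    have h1 : ‖∑ p, (m p : ℂ) * w p‖ ≤ L * ∑ p, |(m p : ℝ)| := by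
      rw [Finset.mul_sum]
      refine (norm_sum_le _ _).trans (Finset.sum_le_sum fun p _ => ?_)
      rw [norm_mul, Complex.norm_intCast, mul_comm]
      exact mul_le_mul_of_nonneg_right ((norm_le_pi_norm w p).trans hw) (abs_nonneg _)
    calc 2 * Real.pi * ‖∑ p, (m p : ℂ) * w p‖ / N
        ≤ 2 * Real.pi * ‖∑ p, (m p : ℂ) * w p‖ := div_le_self (by positivity) hN1
      _ ≤ 2 * Real.pi * (L * ∑ p, |(m p : ℝ)|) := by gcongr
      _ = (2 * Real.pi * L) * ∑ p, |(m p : ℝ)| := by ring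
  rw [Complex.add_re, e1]
  have e3 : c * ∑ p, (m p : ℝ) ^ 2 ≤ ∑ p, ∑ q, (m p : ℝ) * (Z p q).im * (m q : ℝ) :=
    h fun p => (m p : ℝ)
  have e4 : Real.pi / N ^ 2 * (c * ∑ p, (m p : ℝ) ^ 2) ≤
      Real.pi / N ^ 2 * ∑ p, ∑ q, (m p : ℝ) * (Z p q).im * (m q : ℝ) :=
    mul_le_mul_of_nonneg_left e3 (by positivity)
  have e5 : Real.pi / N ^ 2 * (c * ∑ p, (m p : ℝ) ^ 2) = d * ∑ p, (m p : ℝ) ^ 2 := by
    rw [hd]; ring
  have e6 : r * ∑ p, |(m p : ℝ)| ≤ d / 2 * ∑ p, (m p : ℝ) ^ 2 + K := by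
    rw [hK, Finset.mul_sum, Finset.mul_sum, ← Finset.sum_add_distrib]
    refine Finset.sum_le_sum fun p _ => ?_
    set s : ℝ := |(m p : ℝ)| with hs
    have hs2 : (m p : ℝ) ^ 2 = s ^ 2 := by rw [hs, sq_abs]
    rw [hs2]
    have h3 : d / 2 * s ^ 2 + r ^ 2 / (2 * d) - r * s = (d * s - r) ^ 2 / (2 * d) := by
      field_simp
      ring
    have h4 : 0 ≤ (d * s - r) ^ 2 / (2 * d) := by positivity
    linarith
  have e7 : r * ∑ p, |(m p : ℝ)| = (2 * Real.pi * L) * ∑ p, |(m p : ℝ)|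
      + L * ∑ p, |(m p : ℝ)| := by rw [hr]; ring
  linarith

theorem tw_deriv (N : ℕ) (φ : (ι → ZMod (N ^ 2)) → ℂ) (Z : Matrix ι ι ℂ)
    (w v : ι → ℂ) (m : ι → ℤ) (τ : ℂ) :
    HasDerivAt (fun τ : ℂ => tw N φ Z (w + τ • v) m) (tw N φ Z (w + τ • v) m * lf N v m) τ := by
  unfold tw lf
  have e : ∀ τ : ℂ, (Real.pi * Complex.I * (∑ p, ∑ q, (m p : ℂ) * Z p q * (m q : ℂ)) / (N : ℂ) ^ 2
      + 2 * Real.pi * Complex.I * (∑ p, (m p : ℂ) * (w + τ • v) p) / N) =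
      (Real.pi * Complex.I * (∑ p, ∑ q, (m p : ℂ) * Z p q * (m q : ℂ)) / (N : ℂ) ^ 2 +
        2 * Real.pi * Complex.I * (∑ p, (m p : ℂ) * w p) / N) +
        τ * (2 * Real.pi * Complex.I * (∑ p, (m p : ℂ) * v p) / N) := by
    intro τ
    have : (∑ p, (m p : ℂ) * (w + τ • v) p)
        = (∑ p, (m p : ℂ) * w p) + τ * ∑ p, (m p : ℂ) * v p := by
      rw [Finset.mul_sum, ← Finset.sum_add_distrib]
      refine Finset.sum_congr rfl fun p _ => ?_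
      rw [Pi.add_apply, Pi.smul_apply, smul_eq_mul]
      ring
    rw [this]
    ring
  simp only [e]
  have h := (((hasDerivAt_id τ).mul_const
    (2 * Real.pi * Complex.I * (∑ p, (m p : ℂ) * v p) / (N : ℂ))).const_add
    (Real.pi * Complex.I * (∑ p, ∑ q, (m p : ℂ) * Z p q * (m q : ℂ)) / (N : ℂ) ^ 2 +
      2 * Real.pi * Complex.I * (∑ p, (m p : ℂ) * w p) / N)).cexp.const_mul
      (φ (fun p => (m p : ZMod (N ^ 2))))
  refine h.congr_deriv ?_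
  simp only [id, one_mul]
  ring

variable [DecidableEq ι]

/-- The general differentiation lemma. -/
theorem hasDeriv_gen {N : ℕ} (hN : 0 < N) {Z : Matrix ι ι ℂ} (hZ : Zᵀ = Z)
    (hpos : ∀ v : ι → ℝ, v ≠ 0 → 0 < ∑ p, ∑ q, v p * (Z p q).im * v q)
    (φ : (ι → ZMod (N ^ 2)) → ℂ) (w v : ι → ℂ) (C : (ι → ℤ) → ℂ) (L0 : ℝ)
    (hC : ∀ m, ‖C m‖ ≤ Real.exp (L0 * ∑ p, |(m p : ℝ)|)) :
    HasDerivAt (fun τ : ℂ => ∑' m, tw N φ Z (w + τ • v) m * C m)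
      (∑' m, tw N φ Z w m * lf N v m * C m) 0 := by
  set L : ℝ := max L0 (‖w‖ + ‖v‖) with hL
  obtain ⟨A, c', hc', hb⟩ := tw_bound hN hZ hpos φ L
  have hu : Summable fun m : ι → ℤ => A * Real.exp (-c' * ∑ p, (m p : ℝ) ^ 2) :=
    (summable_exp_neg_sq_pi c' hc').mul_left A
  have hD : ∀ (m : ι → ℤ) (τ : ℂ), HasDerivAt (fun τ : ℂ => tw N φ Z (w + τ • v) m * C m)
      (tw N φ Z (w + τ • v) m * lf N v m * C m) τ := fun m τ =>
    (tw_deriv N φ Z w v m τ).mul_const _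
  have hd : ∀ m : ι → ℤ, DifferentiableOn ℂ (fun τ : ℂ => tw N φ Z (w + τ • v) m * C m)
      (Metric.ball 0 1) := fun m τ _ => (hD m τ).differentiableAt.differentiableWithinAt
  have hle : ∀ (m : ι → ℤ) (τ : ℂ), τ ∈ Metric.ball (0 : ℂ) 1 →
      ‖tw N φ Z (w + τ • v) m * C m‖ ≤ A * Real.exp (-c' * ∑ p, (m p : ℝ) ^ 2) := by
    intro m τ hτ
    have hτ' : ‖τ‖ ≤ 1 := by
      have := Metric.mem_ball.1 hτ
      rw [dist_zero_right] at this
      exact this.le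
    have h1 : ‖w + τ • v‖ ≤ L := by
      refine le_trans ?_ (le_max_right _ _)
      refine (norm_add_le _ _).trans ?_
      rw [norm_smul]
      have := mul_le_mul_of_nonneg_right hτ' (norm_nonneg v)
      linarith
    have h2 := hb _ h1 m
    have h3 : ‖C m‖ ≤ Real.exp (L * ∑ p, |(m p : ℝ)|) := by
      refine (hC m).trans (Real.exp_le_exp.2 ?_)
      exact mul_le_mul_of_nonneg_right (le_max_left _ _)
        (Finset.sum_nonneg fun p _ => abs_nonneg _)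
    rw [norm_mul]
    exact (mul_le_mul_of_nonneg_left h3 (norm_nonneg _)).trans h2
  have h0 : (0 : ℂ) ∈ Metric.ball (0 : ℂ) 1 := Metric.mem_ball_self one_pos
  have k1 := Complex.differentiableOn_tsum_of_summable_norm hu hd Metric.isOpen_ball hle
  have k2 := Complex.hasSum_deriv_of_summable_norm hu hd Metric.isOpen_ball hle h0
  have k3 := (k1.differentiableAt (Metric.isOpen_ball.mem_nhds h0)).hasDerivAt
  rw [← k2.tsum_eq] at k3
  refine k3.congr_deriv (tsum_congr fun m => ?_)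
  rw [(hD m 0).deriv]
  simp

/-- Absolute convergence of the second derivative series. -/
theorem summable_th2 {N : ℕ} (hN : 0 < N) {Z : Matrix ι ι ℂ} (hZ : Zᵀ = Z)
    (hpos : ∀ v : ι → ℝ, v ≠ 0 → 0 < ∑ p, ∑ q, v p * (Z p q).im * v q)
    (φ : (ι → ZMod (N ^ 2)) → ℂ) (u v : ι → ℂ) :
    Summable fun m : ι → ℤ => ‖tw N φ Z 0 m * lf N u m * lf N v m‖ := by
  have hpi := Real.pi_pos
  set L : ℝ := 2 * Real.pi * ‖u‖ + 2 * Real.pi * ‖v‖ with hL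
  have hL0 : 0 ≤ L := by positivity
  obtain ⟨A, c', hc', hb⟩ := tw_bound hN hZ hpos φ L
  have hu : Summable fun m : ι → ℤ => A * Real.exp (-c' * ∑ p, (m p : ℝ) ^ 2) :=
    (summable_exp_neg_sq_pi c' hc').mul_left A
  refine Summable.of_nonneg_of_le (fun m => norm_nonneg _) (fun m => ?_) hu
  have h1 := hb 0 (by rw [norm_zero]; exact hL0) m
  refine le_trans ?_ h1
  rw [mul_assoc, norm_mul]
  refine mul_le_mul_of_nonneg_left ?_ (norm_nonneg _)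
  rw [norm_mul]
  have h2 := mul_le_mul (lf_norm (N := N) u m) (lf_norm (N := N) v m) (norm_nonneg _)
    (Real.exp_pos _).le
  refine h2.trans (le_of_eq ?_)
  rw [← Real.exp_add]
  congr 1
  rw [hL]
  ring

/-- Absolute convergence of the theta series. -/
theorem summable_th {N : ℕ} (hN : 0 < N) {Z : Matrix ι ι ℂ} (hZ : Zᵀ = Z)
    (hpos : ∀ v : ι → ℝ, v ≠ 0 → 0 < ∑ p, ∑ q, v p * (Z p q).im * v q)
    (φ : (ι → ZMod (N ^ 2)) → ℂ) (w : ι → ℂ) :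
    Summable fun m : ι → ℤ => ‖tw N φ Z w m‖ := by
  obtain ⟨A, c', hc', hb⟩ := tw_bound hN hZ hpos φ ‖w‖
  have hu : Summable fun m : ι → ℤ => A * Real.exp (-c' * ∑ p, (m p : ℝ) ^ 2) :=
    (summable_exp_neg_sq_pi c' hc').mul_left A
  refine Summable.of_nonneg_of_le (fun m => norm_nonneg _) (fun m => ?_) hu
  refine le_trans ?_ (hb w le_rfl m)
  refine le_mul_of_one_le_right (norm_nonneg _) (Real.one_le_exp ?_)
  exact mul_nonneg (norm_nonneg _) (Finset.sum_nonneg fun p _ => abs_nonneg _)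

theorem hasDeriv_th {N : ℕ} (hN : 0 < N) {Z : Matrix ι ι ℂ} (hZ : Zᵀ = Z)
    (hpos : ∀ v : ι → ℝ, v ≠ 0 → 0 < ∑ p, ∑ q, v p * (Z p q).im * v q)
    (φ : (ι → ZMod (N ^ 2)) → ℂ) (w v : ι → ℂ) :
    HasDerivAt (fun τ : ℂ => th N φ Z (w + τ • v)) (th1 N φ Z w v) 0 := by
  have h := hasDeriv_gen hN hZ hpos φ w v (fun _ => 1) 0 (fun m => by simp)
  simp only [mul_one] at h
  exact h

theorem hasDeriv_th1 {N : ℕ} (hN : 0 < N) {Z : Matrix ι ι ℂ} (hZ : Zᵀ = Z)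
    (hpos : ∀ v : ι → ℝ, v ≠ 0 → 0 < ∑ p, ∑ q, v p * (Z p q).im * v q)
    (φ : (ι → ZMod (N ^ 2)) → ℂ) (u v : ι → ℂ) :
    HasDerivAt (fun σ : ℂ => th1 N φ Z (σ • u) v) (th2 N φ Z u v) 0 := by
  have h := hasDeriv_gen hN hZ hpos φ 0 u (lf N v) (2 * Real.pi * ‖v‖)
    (fun m => lf_norm v m)
  simp only [zero_add] at h
  exact h

/-- **G2.** -/
theorem pG2 {N : ℕ} (hN : 0 < N) {Z Z' NN BE : Matrix ι ι ℂ} (hZ : Zᵀ = Z) (hZ' : Z'ᵀ = Z')
    (hpos : ∀ v : ι → ℝ, v ≠ 0 → 0 < ∑ p, ∑ q, v p * (Z p q).im * v q)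
    (hpos' : ∀ v : ι → ℝ, v ≠ 0 → 0 < ∑ p, ∑ q, v p * (Z' p q).im * v q)
    (φ : (ι → ZMod (N ^ 2)) → ℂ) (c : ℂ)
    (h : ∀ w : ι → ℂ, th N φ Z' (NN *ᵥ w) =
      c * Complex.exp (-(Real.pi * Complex.I * ((NN *ᵥ w) ⬝ᵥ (BE *ᵥ w)))) * th N φ Z w)
    (u v : ι → ℂ) :
    th2 N φ Z' (NN *ᵥ u) (NN *ᵥ v) = c * (th2 N φ Z u v -
      Real.pi * Complex.I * ((NN *ᵥ u) ⬝ᵥ (BE *ᵥ v) + (NN *ᵥ v) ⬝ᵥ (BE *ᵥ u)) *
        th N φ Z 0) := by
  set qu : ℂ := (NN *ᵥ u) ⬝ᵥ (BE *ᵥ u) with hqu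
  set qv : ℂ := (NN *ᵥ v) ⬝ᵥ (BE *ᵥ v) with hqv
  set B : ℂ := (NN *ᵥ u) ⬝ᵥ (BE *ᵥ v) + (NN *ᵥ v) ⬝ᵥ (BE *ᵥ u) with hB
  have hq : ∀ σ τ : ℂ, (NN *ᵥ (σ • u + τ • v)) ⬝ᵥ (BE *ᵥ (σ • u + τ • v))
      = σ ^ 2 * qu + σ * B * τ + qv * τ ^ 2 := by
    intro σ τ
    simp only [Matrix.mulVec_add, Matrix.mulVec_smul, add_dotProduct, dotProduct_add,
      smul_dotProduct, dotProduct_smul, smul_eq_mul]
    rw [hqu, hqv, hB]
    ring
  -- first derivative, for all `σ`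
  have s1 : ∀ σ : ℂ, th1 N φ Z' (σ • (NN *ᵥ u)) (NN *ᵥ v) =
      c * Complex.exp (-(Real.pi * Complex.I * (σ ^ 2 * qu))) *
        (th1 N φ Z (σ • u) v - Real.pi * Complex.I * (σ * B) * th N φ Z (σ • u)) := by
    intro σ
    have d1 := hasDeriv_th hN hZ' hpos' φ (σ • (NN *ᵥ u)) (NN *ᵥ v)
    have d2 := hasDeriv_th hN hZ hpos φ (σ • u) v
    have e1 : (fun τ : ℂ => th N φ Z' (σ • (NN *ᵥ u) + τ • (NN *ᵥ v)))
        = fun τ : ℂ => c * Complex.exp (-(Real.pi * Complex.I *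
            (σ ^ 2 * qu + σ * B * τ + qv * τ ^ 2))) * th N φ Z (σ • u + τ • v) := by
      funext τ
      have e2 : σ • (NN *ᵥ u) + τ • (NN *ᵥ v) = NN *ᵥ (σ • u + τ • v) := by
        rw [Matrix.mulVec_add, Matrix.mulVec_smul, Matrix.mulVec_smul]
      rw [e2, h, hq]
    rw [e1] at d1
    have d3 : HasDerivAt (fun τ : ℂ => c * Complex.exp (-(Real.pi * Complex.I *
        (σ ^ 2 * qu + σ * B * τ + qv * τ ^ 2))))
        (c * (Complex.exp (-(Real.pi * Complex.I * (σ ^ 2 * qu))) *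
          (-(Real.pi * Complex.I * (σ * B))))) 0 := by
      have f1 : HasDerivAt (fun τ : ℂ => -(Real.pi * Complex.I *
          (σ ^ 2 * qu + σ * B * τ + qv * τ ^ 2))) (-(Real.pi * Complex.I * (σ * B))) 0 := by
        have g1 : HasDerivAt (fun τ : ℂ => σ * B * τ) (σ * B) 0 := by
          simpa using (hasDerivAt_id (0 : ℂ)).const_mul (σ * B)
        have g2 : HasDerivAt (fun τ : ℂ => qv * τ ^ 2) 0 0 := by
          simpa using (hasDerivAt_pow 2 (0 : ℂ)).const_mul qv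
        have g3 := (((g1.const_add (σ ^ 2 * qu)).add g2).const_mul
          ((Real.pi : ℂ) * Complex.I)).neg
        refine g3.congr_deriv ?_
        ring
      have f2 := (f1.cexp).const_mul c
      refine f2.congr_deriv ?_
      simp
    have d5 := d1.unique (d3.mul d2)
    rw [d5]
    simp only [zero_smul, add_zero, mul_zero, ne_eq, OfNat.ofNat_ne_zero, not_false_eq_true,
      zero_pow]
    ring
  -- second derivative
  have d1 := hasDeriv_th1 hN hZ' hpos' φ (NN *ᵥ u) (NN *ᵥ v)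
  rw [funext s1] at d1
  have d2 := hasDeriv_th1 hN hZ hpos φ u v
  have d3 : HasDerivAt (fun σ : ℂ => th N φ Z (σ • u)) (th1 N φ Z 0 u) 0 := by
    simpa using hasDeriv_th hN hZ hpos φ 0 u
  have d4 : HasDerivAt (fun σ : ℂ => Real.pi * Complex.I * (σ * B)) (Real.pi * Complex.I * B)
      0 := by
    simpa using ((hasDerivAt_id (0 : ℂ)).mul_const B).const_mul ((Real.pi : ℂ) * Complex.I)
  have d6 : HasDerivAt (fun σ : ℂ => c * Complex.exp (-(Real.pi * Complex.I * (σ ^ 2 * qu))))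
      0 0 := by
    have g2 : HasDerivAt (fun τ : ℂ => -(Real.pi * Complex.I * (τ ^ 2 * qu))) 0 0 := by
      have g3 := (((hasDerivAt_pow 2 (0 : ℂ)).mul_const qu).const_mul
        ((Real.pi : ℂ) * Complex.I)).neg
      refine g3.congr_deriv ?_
      simp
    simpa using (g2.cexp).const_mul c
  have d7 := d6.mul (d2.sub (d4.mul d3))
  have d8 := d1.unique d7
  rw [d8]
  simp

end

end CMT.J
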