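import Pool.Agent.Lib.CMT.B.DerTh

/-!
# PROJECT CMT, part J1: two derivatives of the theta series
-/

set_option autoImplicit false

open scoped BigOperators ComplexConjugate
open Matrix NumberField

noncomputable section

namespace CMT.J

open CMT.B CMT.B.DerThAux

/-- The linear factor of the derivative. -/
def qq {ι : Type} [Fintype ι] (N : ℕ) (w : ι → ℂ) (m : ι → ℤ) : ℂ :=
  2 * Real.pi * Complex.I * (∑ p, (m p : ℂ) * w p) / N

private theorem qq_le {ι : Type} [Fintype ι] [DecidableEq ι] (N : ℕ) (w : ι → ℂ) {c : ℝ}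
    (hc : 0 < c) :
    ∃ C : ℝ, 0 ≤ C ∧ ∀ m : ι → ℤ, ‖qq N w m‖ ^ 2 ≤ C * Real.exp (c * ∑ p, (m p : ℝ) ^ 2) ∧
      ‖qq N w m‖ ≤ C * Real.exp (c * ∑ p, (m p : ℝ) ^ 2) := by
  set K : ℝ := ‖(2 * Real.pi * Complex.I : ℂ)‖ / N with hK
  have hK0 : 0 ≤ K := by positivity
  set S : ℝ := ∑ p, ‖w p‖ ^ 2 with hS
  have hS0 : 0 ≤ S := Finset.sum_nonneg fun p _ => by positivity
  have h1 : ∀ m : ι → ℤ, ‖qq N w m‖ ^ 2 ≤ K ^ 2 * S * ∑ p, (m p : ℝ) ^ 2 := by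
    intro m
    have e1 : ‖qq N w m‖ = K * ‖∑ p, (m p : ℂ) * w p‖ := by
      unfold qq
      rw [norm_div, norm_mul, Complex.norm_natCast, hK]
      ring
    have e2 : ‖∑ p, (m p : ℂ) * w p‖ ^ 2 ≤ S * ∑ p, (m p : ℝ) ^ 2 := by
      have e3 : ‖∑ p, (m p : ℂ) * w p‖ ≤ ∑ p, ‖w p‖ * |(m p : ℝ)| := by
        refine (norm_sum_le _ _).trans (Finset.sum_le_sum fun p _ => ?_)
        rw [norm_mul, Complex.norm_intCast]
        exact le_of_eq (mul_comm _ _)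
      have e4 : (∑ p, ‖w p‖ * |(m p : ℝ)|) ^ 2 ≤ (∑ p, ‖w p‖ ^ 2) * ∑ p, |(m p : ℝ)| ^ 2 :=
        Finset.sum_mul_sq_le_sq_mul_sq _ _ _
      simp only [sq_abs] at e4
      refine (pow_le_pow_left₀ (norm_nonneg _) e3 2).trans e4
    rw [e1, mul_pow, mul_assoc]
    exact mul_le_mul_of_nonneg_left e2 (by positivity)
  have h2 : ∀ s : ℝ, 0 ≤ s → s ≤ c⁻¹ * Real.exp (c * s) := by
    intro s hs
    have := Real.add_one_le_exp (c * s)
    rw [← div_le_iff₀' (by positivity), div_inv_eq_mul]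
    nlinarith
  refine ⟨K ^ 2 * S * c⁻¹ + 1, by positivity, fun m => ?_⟩
  have hm : (0 : ℝ) ≤ ∑ p, (m p : ℝ) ^ 2 := Finset.sum_nonneg fun p _ => by positivity
  have h3 := h1 m
  have h4 := h2 _ hm
  have h5 : (1 : ℝ) ≤ Real.exp (c * ∑ p, (m p : ℝ) ^ 2) := Real.one_le_exp (by positivity)
  have h6 : ‖qq N w m‖ ^ 2 ≤ K ^ 2 * S * c⁻¹ * Real.exp (c * ∑ p, (m p : ℝ) ^ 2) := by
    refine h3.trans ?_
    have := mul_le_mul_of_nonneg_left h4 (show 0 ≤ K ^ 2 * S by positivity)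
    linarith
  have h7 : ‖qq N w m‖ ≤ ‖qq N w m‖ ^ 2 + 1 := by
    nlinarith [sq_nonneg (‖qq N w m‖ - 1 / 2)]
  constructor
  · nlinarith
  · nlinarith

/-- Two derivatives of the theta series in one direction. -/
theorem derTwo {ι : Type} [Fintype ι] [DecidableEq ι] {N : ℕ} (hN : 0 < N) {Z : Matrix ι ι ℂ}
    (hZ : Zᵀ = Z) (hpos : ∀ v : ι → ℝ, v ≠ 0 → 0 < ∑ p, ∑ q, v p * (Z p q).im * v q)
    (φ : (ι → ZMod (N ^ 2)) → ℂ) (w : ι → ℂ) :
    ∃ f1 : ℂ → ℂ, (∀ τ : ℂ, ‖τ‖ < 1 → HasDerivAt (fun τ : ℂ => th N φ Z (τ • w)) (f1 τ) τ) ∧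
      HasDerivAt f1 (∑' m : ι → ℤ, φ (fun p => (m p : ZMod (N ^ 2))) *
          Complex.exp (Real.pi * Complex.I * (∑ p, ∑ q, (m p : ℂ) * Z p q * (m q : ℂ)) /
            (N : ℂ) ^ 2) * qq N w m ^ 2) 0 := by
  obtain ⟨c, hc, h⟩ := coer hZ hpos
  obtain ⟨A, c', hc', hb⟩ := bound hN hc h φ w
  obtain ⟨C, hC, hq⟩ := qq_le N w (half_pos hc')
  have hA : 0 ≤ A := by
    have := (norm_nonneg _).trans (hb 0 0 (by simp))
    simpa using this
  have hu : Summable fun m : ι → ℤ => A * Real.exp (-c' * ∑ p, (m p : ℝ) ^ 2) :=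
    (summable_exp_neg_sq_pi c' hc').mul_left A
  have hu1 : Summable fun m : ι → ℤ => A * C * Real.exp (-(c' / 2) * ∑ p, (m p : ℝ) ^ 2) :=
    (summable_exp_neg_sq_pi (c' / 2) (half_pos hc')).mul_left (A * C)
  have hee : ∀ s : ℝ, Real.exp (-c' * s) * Real.exp (c' / 2 * s) = Real.exp (-(c' / 2) * s) := by
    intro s
    rw [← Real.exp_add]
    congr 1
    ring
  have hd : ∀ m : ι → ℤ, DifferentiableOn ℂ (tm N φ Z w m) (Metric.ball 0 1) := fun m τ _ =>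
    (tm_deriv N φ Z w m τ).differentiableAt.differentiableWithinAt
  have hd1 : ∀ m : ι → ℤ, DifferentiableOn ℂ (fun τ => tm N φ Z w m τ * qq N w m)
      (Metric.ball 0 1) := fun m τ _ =>
    ((tm_deriv N φ Z w m τ).differentiableAt.mul_const _).differentiableWithinAt
  have hle : ∀ (m : ι → ℤ) (τ : ℂ), τ ∈ Metric.ball (0 : ℂ) 1 →
      ‖tm N φ Z w m τ‖ ≤ A * Real.exp (-c' * ∑ p, (m p : ℝ) ^ 2) := fun m τ hτ =>
    hb m τ (by simpa using hτ)
  have hle1 : ∀ (m : ι → ℤ) (τ : ℂ), τ ∈ Metric.ball (0 : ℂ) 1 →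
      ‖tm N φ Z w m τ * qq N w m‖ ≤ A * C * Real.exp (-(c' / 2) * ∑ p, (m p : ℝ) ^ 2) := by
    intro m τ hτ
    rw [norm_mul]
    have h1 := mul_le_mul (hle m τ hτ) (hq m).2 (norm_nonneg _) (by positivity)
    refine h1.trans (le_of_eq ?_)
    rw [← hee]
    ring
  have h0 : (0 : ℂ) ∈ Metric.ball (0 : ℂ) 1 := Metric.mem_ball_self one_pos
  have k1 := Complex.differentiableOn_tsum_of_summable_norm hu hd Metric.isOpen_ball hle
  have k1' := Complex.differentiableOn_tsum_of_summable_norm hu1 hd1 Metric.isOpen_ball hle1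
  refine ⟨fun τ => ∑' m : ι → ℤ, tm N φ Z w m τ * qq N w m, fun τ hτ => ?_, ?_⟩
  · have hτ' : τ ∈ Metric.ball (0 : ℂ) 1 := by simpa using hτ
    have k2 := Complex.hasSum_deriv_of_summable_norm hu hd Metric.isOpen_ball hle hτ'
    have k3 := (k1.differentiableAt (Metric.isOpen_ball.mem_nhds hτ')).hasDerivAt
    rw [← k2.tsum_eq] at k3
    refine k3.congr_deriv (tsum_congr fun m => ?_)
    exact (tm_deriv N φ Z w m τ).deriv
  · have k2 := Complex.hasSum_deriv_of_summable_norm hu1 hd1 Metric.isOpen_ball hle1 h0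
    have k3 := (k1'.differentiableAt (Metric.isOpen_ball.mem_nhds h0)).hasDerivAt
    rw [← k2.tsum_eq] at k3
    refine k3.congr_deriv (tsum_congr fun m => ?_)
    have k4 : deriv (fun τ => tm N φ Z w m τ * qq N w m) 0 = tm N φ Z w m 0 * qq N w m * qq N w m :=
      ((tm_deriv N φ Z w m 0).mul_const (qq N w m)).deriv
    rw [k4]
    unfold tm
    simp only [zero_smul, Pi.zero_apply, mul_zero, Finset.sum_const_zero, zero_div, add_zero]
    ring

end CMT.J
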