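import Pool.Agent.Lib.CMT.J.Spec
import Pool.Agent.Lib.CMT.J5.Emb

/-!
# PROJECT CMT, part J : `S_Emb` and `S_Signs` (helper36)
-/

open scoped ComplexConjugate

noncomputable section

namespace CMT
namespace J

open J5

theorem thmEmb : S_Emb := by
  intro F _ _ _ D
  refine ⟨emb_cases D, fun τ x => (emb_cj D τ x).symm, fun t t' h => ev_place D h,
    ev_ne_cjt D, fun t => emb_inj D _⟩

variable {F : Type} [Field F] [NumberField F]

/-- the conjugate embedding and conjugation -/
theorem cjt_comp [NumberField.IsTotallyReal F] (D : Dat F) (τ : KD D →+* ℂ) :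
    cjt D τ = τ.comp (cjh D) := by
  refine RingHom.ext fun x => ?_
  show conj (τ x) = τ (cj D x)
  exact (emb_cj D τ x).symm

open Classical in
theorem thmSigns : S_Signs := by
  intro F _ _ _ D hG f hf hf0 hsum
  choose s hs using fun t : F →+* ℝ => hG (ev D t)
  have hs' : ∀ (t : F →+* ℝ) (x : KD D), ev D t x = ev D D.t0 (s t x) := fun t x =>
    RingHom.congr_fun (hs t) x
  -- the embedding attached to the place
  let th : (F →+* ℝ) → (KD D →+* ℂ) := fun t => (ev D D.t0).comp ((s t).symm : KD D →+* KD D)
  have hth : ∀ (t : F →+* ℝ) (x : KD D), th t x = ev D D.t0 ((s t).symm x) := fun _ _ => rfl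
  have hval : ∀ i τ, f i τ = 0 ∨ f i τ = 1 := by
    intro i τ
    have := hf i τ
    omega
  refine ⟨fun i t => if f i (th t) = 1 then 1 else -1, ?_, ?_, ?_, ?_⟩
  · intro i t
    by_cases h : f i (th t) = 1
    · left; exact if_pos h
    · right; exact if_neg h
  · intro i
    have h1 : th D.t0 = ev D D.t0 := by
      refine RingHom.ext fun x => ?_
      rw [hth]
      have h2 : s D.t0 ((s D.t0).symm x) = x := (s D.t0).apply_symm_apply x
      have h3 := hs' D.t0 ((s D.t0).symm x)
      rw [h2] at h3
      exact h3
    show (if f i (th D.t0) = 1 then (1 : ℝ) else -1) = 1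
    rw [h1, if_pos (hf0 i)]
  · intro t
    have h := hsum (th t)
    have key : ∀ i, (if f i (th t) = 1 then (1 : ℝ) else -1) = 2 * (f i (th t) : ℝ) - 1 := by
      intro i
      rcases hval i (th t) with h0 | h1
      · rw [h0, if_neg (by norm_num)]; norm_num
      · rw [h1, if_pos rfl]; norm_num
    show (if f 0 (th t) = 1 then (1 : ℝ) else -1) + (if f 1 (th t) = 1 then (1 : ℝ) else -1) =
      (if f 2 (th t) = 1 then (1 : ℝ) else -1) + (if f 3 (th t) = 1 then (1 : ℝ) else -1)
    rw [key, key, key, key]
    have h' : (f 0 (th t) : ℝ) + f 1 (th t) = f 2 (th t) + f 3 (th t) := by exact_mod_cast h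
    linarith
  · intro i a ha τ hτ
    obtain ⟨g, hg⟩ := hG τ
    have hg' : ∀ x, τ x = ev D D.t0 (g x) := fun x => RingHom.congr_fun hg x
    -- the opposite embedding
    let τ' : KD D →+* ℂ := (ev D D.t0).comp (g.symm : KD D →+* KD D)
    have hτ' : ∀ x, τ' x = ev D D.t0 (g.symm x) := fun _ => rfl
    have key : ∀ L : ℂ →+ KD D, (∀ (x : KD D) (c : ℂ), L (ev D D.t0 x * c) = x * L c) →
        ∀ (x : KD D) (c : ℂ), τ (L (τ' x * c)) = ev D D.t0 x * τ (L c) := by
      intro L hL x c
      rw [hτ', hL, map_mul, hg' (g.symm x), g.apply_symm_apply]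
    obtain ⟨t, ht | ht⟩ := emb_cases D τ'
    · refine ⟨t, fun L hL x c => ?_⟩
      have h1 : th t = τ := by
        refine RingHom.ext fun x => ?_
        rw [hth, hg']
        congr 1
        have h2 : ev D D.t0 (g.symm (g x)) = ev D D.t0 (s t (g x)) := by
          rw [← hτ', ht, hs']
        have h3 := ev_injective D D.t0 h2
        rw [g.symm_apply_apply] at h3
        conv_lhs => rw [h3]
        exact (s t).symm_apply_apply _
      have h4 : 0 < t a := by
        have h5 : 0 < (if f i (th t) = 1 then (1 : ℝ) else -1) * t a := ha t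
        have h6 : (if f i (th t) = 1 then (1 : ℝ) else -1) = 1 := by
          rw [h1, if_pos hτ]
        rw [h6, one_mul] at h5
        exact h5
      rw [if_pos h4, ← ht]
      exact key L hL x c
    · refine ⟨t, fun L hL x c => ?_⟩
      have h1 : th t = cjt D τ := by
        refine RingHom.ext fun x => ?_
        rw [cjt_comp]
        show th t x = τ (cj D x)
        rw [hth, hg']
        congr 1
        have h2 : ev D D.t0 (g.symm (cj D (g (cj D x)))) = ev D D.t0 (s t (g (cj D x))) := by
          rw [← hτ', ht, cjt_apply, ← emb_cj D (ev D t), hs', cj_cj]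
        have h3 := ev_injective D D.t0 h2
        rw [← aut_cj, g.symm_apply_apply, cj_cj] at h3
        conv_lhs => rw [h3]
        exact (s t).symm_apply_apply _
      have h7 : f i (th t) ≠ 1 := by
        rw [h1]
        have := hf i τ
        omega
      have h4 : ¬ 0 < t a := by
        have h5 : 0 < (if f i (th t) = 1 then (1 : ℝ) else -1) * t a := ha t
        have h6 : (if f i (th t) = 1 then (1 : ℝ) else -1) = -1 := if_neg h7
        rw [h6] at h5
        linarith
      rw [if_neg h4]
      have h8 : conj (ev D t x) = τ' x := by rw [ht]; rfl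
      rw [h8]
      exact key L hL x c

end J
end CMT
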