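import Pool.Agent.Lib.CMT.B.W

/-!
# PROJECT CMT, part J1: geometry at the indefinite place

`hv z e = e + zh (zh, e) / s2` (orthogonal to `zh`), `VV z e = κ H (hv z e)`,
`BB z u v = (u, hv z v)`.
-/

set_option autoImplicit false

namespace CMT.J

open Matrix ComplexConjugate CMT.B

noncomputable section

/-- The projection to the orthogonal complement of `zh`. -/
def hv (h : Fin 3 → ℝ) (z : ℂ × ℂ) (e : Fin 3 → ℂ) : Fin 3 → ℂ :=
  e + (bil h (zh z) e / s2 h z) • zh z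

/-- The coordinates of type `(1,0)` of `hv z e`. -/
def VV (κ : ℂ) (h : Fin 3 → ℝ) (z : ℂ × ℂ) (e : Fin 3 → ℂ) : Fin 3 → ℂ :=
  fun l => κ * (h l * hv h z e l)

/-- The form `(u, hv z v)`. -/
def BB (h : Fin 3 → ℝ) (z : ℂ × ℂ) (u v : Fin 3 → ℂ) : ℂ :=
  bil h u v + bil h u (zh z) * bil h (zh z) v / s2 h z

theorem bil_comm (h : Fin 3 → ℝ) (u v : Fin 3 → ℂ) : bil h u v = bil h v u := by
  unfold bil
  exact Finset.sum_congr rfl fun i _ => by ring

theorem bil_add (h : Fin 3 → ℝ) (u v w : Fin 3 → ℂ) : bil h u (v + w) = bil h u v + bil h u w := by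
  unfold bil
  rw [← Finset.sum_add_distrib]
  refine Finset.sum_congr rfl fun i _ => ?_
  rw [Pi.add_apply]
  ring

theorem bil_smul (h : Fin 3 → ℝ) (c : ℂ) (u v : Fin 3 → ℂ) : bil h u (c • v) = c * bil h u v := by
  unfold bil
  rw [Finset.mul_sum]
  refine Finset.sum_congr rfl fun i _ => ?_
  rw [Pi.smul_apply, smul_eq_mul]
  ring

theorem bil_sub (h : Fin 3 → ℝ) (u v w : Fin 3 → ℂ) : bil h u (v - w) = bil h u v - bil h u w := by
  unfold bil
  rw [← Finset.sum_sub_distrib]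
  refine Finset.sum_congr rfl fun i _ => ?_
  rw [Pi.sub_apply]
  ring

theorem bil_zh (h : Fin 3 → ℝ) (z : ℂ × ℂ) : bil h (zh z) (zh z) = - s2 h z := by
  simp only [bil, s2, Fin.sum_univ_three, zh_zero, zh_one, zh_two]
  ring

theorem bil_hv_zh {h : Fin 3 → ℝ} {z : ℂ × ℂ} (hs : s2 h z ≠ 0) (e : Fin 3 → ℂ) :
    bil h (zh z) (hv h z e) = 0 := by
  unfold hv
  rw [bil_add, bil_smul, bil_zh]
  field_simp
  ring

theorem bil_hv {h : Fin 3 → ℝ} {z : ℂ × ℂ} (u v : Fin 3 → ℂ) :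
    bil h u (hv h z v) = BB h z u v := by
  unfold hv BB
  rw [bil_add, bil_smul]
  ring

theorem BB_comm (h : Fin 3 → ℝ) (z : ℂ × ℂ) (u v : Fin 3 → ℂ) : BB h z u v = BB h z v u := by
  unfold BB
  rw [bil_comm h u v, bil_comm h u (zh z), bil_comm h (zh z) v]
  ring

theorem BB_add (h : Fin 3 → ℝ) (z : ℂ × ℂ) (u v w : Fin 3 → ℂ) :
    BB h z u (v + w) = BB h z u v + BB h z u w := by
  unfold BB
  rw [bil_add, bil_add]
  ring

theorem BB_smul (h : Fin 3 → ℝ) (z : ℂ × ℂ) (c : ℂ) (u v : Fin 3 → ℂ) :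
    BB h z u (c • v) = c * BB h z u v := by
  unfold BB
  rw [bil_smul, bil_smul]
  ring

theorem BB_zh {h : Fin 3 → ℝ} {z : ℂ × ℂ} (hs : s2 h z ≠ 0) (u : Fin 3 → ℂ) :
    BB h z u (zh z) = 0 := by
  unfold BB
  rw [bil_zh]
  field_simp
  ring

theorem hv_add (h : Fin 3 → ℝ) (z : ℂ × ℂ) (u v : Fin 3 → ℂ) :
    hv h z (u + v) = hv h z u + hv h z v := by
  unfold hv
  rw [bil_add, add_div, add_smul]
  abel

theorem hv_smul (h : Fin 3 → ℝ) (z : ℂ × ℂ) (c : ℂ) (v : Fin 3 → ℂ) :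
    hv h z (c • v) = c • hv h z v := by
  unfold hv
  rw [bil_smul, smul_add, smul_smul, mul_div_assoc]

theorem hv_zh {h : Fin 3 → ℝ} {z : ℂ × ℂ} (hs : s2 h z ≠ 0) : hv h z (zh z) = 0 := by
  unfold hv
  rw [bil_zh, neg_div, div_self hs, neg_smul, one_smul, add_neg_cancel]

theorem VV_add (κ : ℂ) (h : Fin 3 → ℝ) (z : ℂ × ℂ) (u v : Fin 3 → ℂ) :
    VV κ h z (u + v) = VV κ h z u + VV κ h z v := by
  funext l
  unfold VV
  rw [hv_add, Pi.add_apply, Pi.add_apply]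
  ring

theorem VV_smul (κ : ℂ) (h : Fin 3 → ℝ) (z : ℂ × ℂ) (c : ℂ) (v : Fin 3 → ℂ) :
    VV κ h z (c • v) = c • VV κ h z v := by
  funext l
  unfold VV
  rw [hv_smul, Pi.smul_apply, Pi.smul_apply, smul_eq_mul, smul_eq_mul]
  ring

theorem VV_zh (κ : ℂ) {h : Fin 3 → ℝ} {z : ℂ × ℂ} (hs : s2 h z ≠ 0) : VV κ h z (zh z) = 0 := by
  funext l
  unfold VV
  rw [hv_zh hs]
  simp

/-- The linear part of `Wz`. -/
theorem Wz_lin (κ : ℂ) (h : Fin 3 → ℝ) (z : ℂ × ℂ) (v : Fin 3 → ℂ) :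
    (2 : ℂ) • VV κ h z v = Wz κ h z v - Complex.I • Wz κ h z (Complex.I • v) := by
  have e1 : bil h (zh z) (fun l => conj (Complex.I * v l)) =
      -Complex.I * bil h (zh z) (fun l => conj (v l)) := by
    unfold bil
    rw [Finset.mul_sum]
    refine Finset.sum_congr rfl fun i _ => ?_
    show (h i : ℂ) * zh z i * conj (Complex.I * v i) = -Complex.I * (h i * zh z i * conj (v i))
    rw [map_mul, Complex.conj_I]
    ring
  funext l
  simp only [Pi.smul_apply, Pi.sub_apply, smul_eq_mul, VV, Wz, hv, Pi.add_apply, bil_smul, e1]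
  have hI := Complex.I_mul_I
  generalize bil h (zh z) v = P
  generalize bil h (zh z) (fun l => conj (v l)) = Q
  linear_combination (κ * ((h l : ℂ) * v l + h l * zh z l * P / s2 h z)
    - κ * (h l * zh z l * Q / s2 h z)) * hI

theorem NNm_VV {κ : ℂ} (hκ : κ ≠ 0) {h : Fin 3 → ℝ} (h0 : 0 < h 0) (h1 : 0 < h 1) (h2 : h 2 < 0)
    {g : Matrix (Fin 3) (Fin 3) ℂ} (hg : IsU h g) {z : ℂ × ℂ} (hz : z ∈ ball h)
    (v : Fin 3 → ℂ) :
    NNm κ h g z *ᵥ VV κ h z v = VV κ h (CMT.B.act g z) (g *ᵥ v) := by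
  have e1 := Wz_act hκ h0 h1 h2 hg hz v
  have e2 := Wz_act hκ h0 h1 h2 hg hz (Complex.I • v)
  have e3 : (2 : ℂ) • (NNm κ h g z *ᵥ VV κ h z v) = (2 : ℂ) • VV κ h (CMT.B.act g z) (g *ᵥ v) := by
    rw [← Matrix.mulVec_smul, Wz_lin, Wz_lin, Matrix.mulVec_sub, Matrix.mulVec_smul, ← e1, ← e2,
      Matrix.mulVec_smul]
  exact smul_right_injective _ (two_ne_zero' ℂ) e3

/-- The bilinear form and the complex conjugate matrix. -/
theorem bil_conj {h : Fin 3 → ℝ} {g : Matrix (Fin 3) (Fin 3) ℂ} (hg : IsU h g)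
    (u v : Fin 3 → ℂ) : bil h (g *ᵥ u) (g.map conj *ᵥ v) = bil h u v := by
  have e := isU_sesq hg u (fun i => conj (v i))
  have e1 : ∀ i, conj ((g *ᵥ fun i => conj (v i)) i) = (g.map conj *ᵥ v) i := by
    intro i
    simp only [Matrix.mulVec, dotProduct, map_sum, map_mul, Complex.conj_conj, Matrix.map_apply]
  unfold bil
  simp only [e1, Complex.conj_conj] at e
  exact e

/-- The quadratic term. -/
theorem quad_term {κ : ℂ} {h : Fin 3 → ℝ} (h0 : 0 < h 0) (h1 : 0 < h 1)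
    {g : Matrix (Fin 3) (Fin 3) ℂ} (hg : IsU h g) {z : ℂ × ℂ} (hz : z ∈ ball h)
    (u v : Fin 3 → ℂ) :
    ∑ i, VV κ h (CMT.B.act g z) (g *ᵥ u) i * ((g - g.map conj) *ᵥ hv h z v) i =
      κ * (BB h (CMT.B.act g z) (g *ᵥ u) (g *ᵥ v) - BB h z u v) := by
  have hs := s2_ne_zero h0 h1 hz
  have hs' := s2_ne_zero h0 h1 (act_mem h0 h1 hg hz)
  have hj := jj_ne_zero h0 h1 hg hz
  set z' := CMT.B.act g z with hz'
  have e0 : ∑ i, VV κ h z' (g *ᵥ u) i * ((g - g.map conj) *ᵥ hv h z v) i =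
      κ * (bil h (hv h z' (g *ᵥ u)) (g *ᵥ hv h z v) - bil h (hv h z' (g *ᵥ u)) (g.map conj *ᵥ hv h z v)) := by
    rw [← bil_sub, ← Matrix.sub_mulVec]
    unfold bil VV
    rw [Finset.mul_sum]
    exact Finset.sum_congr rfl fun i _ => by ring
  rw [e0]
  congr 2
  · -- (hv (g u), g hv v) = BB (g u) (g v)
    have e1 : g *ᵥ hv h z v = g *ᵥ v + (bil h (zh z) v / s2 h z * jj g z) • zh z' := by
      unfold hv
      rw [Matrix.mulVec_add, Matrix.mulVec_smul, mulVec_zh hj, smul_smul]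
    rw [e1, bil_add, bil_smul, bil_comm h _ (zh z'), bil_hv_zh hs', mul_zero, add_zero, bil_comm,
      bil_hv, BB_comm]
  · have e2 : bil h (zh z') (g.map conj *ᵥ hv h z v) = 0 := by
      have e3 : jj g z * bil h (zh z') (g.map conj *ᵥ hv h z v) = 0 := by
        rw [bil_comm, ← bil_smul, ← mulVec_zh hj, bil_comm, bil_conj hg, bil_hv_zh hs]
      exact (mul_eq_zero.1 e3).resolve_left hj
    unfold hv at e2 ⊢
    rw [bil_comm, bil_add, bil_smul, bil_comm h _ (zh z'), e2, mul_zero, add_zero, bil_comm,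
      bil_conj hg]
    exact bil_hv u v

end

end CMT.J
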