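import Pool.Agent.Lib.CMT.J.Iface

/-!
# PROJECT CMT, part J1: the uniform statement S_VI3
-/

set_option autoImplicit false

open scoped BigOperators ComplexConjugate
open Matrix NumberField

noncomputable section

namespace CMT.J

/-- **S_VI3** (helper1): on a congruence subgroup the scalar theta forms and the vector valued theta
forms of level `N` are multiplied by the same root of unity, a priori depending on the point. -/
def S_VI3 : Prop :=
  ∀ (F : Type) [Field F] [NumberField F] [IsTotallyReal F] (D : Dat F) (a : F), 0 < D.t0 a →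
    ∀ (N : ℕ), 0 < N → ∀ t : F →+* ℝ, ∃ n k : ℕ, 0 < n ∧ 0 < k ∧
      ∀ g ∈ Gam D n, ∀ z ∈ Ball D, ∃ c : ℂ, c ^ k = 1 ∧ ∀ (φ : (Fin 3 → F) → ℂ), SB N φ →
        pull1 D g z (om D a φ (act D g z)) = (c * (om D a φ z).1, c * (om D a φ z).2) ∧
        ∀ i, pull1 D g z (vf D a t φ (act D g z) i) =
          (c * ∑ l, Rt D a t g i l * (vf D a t φ z l).1,
            c * ∑ l, Rt D a t g i l * (vf D a t φ z l).2)

end CMT.J
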