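import Pool.Agent.Lib.CMT.J.Quad
import Pool.Agent.Lib.CMT.J.Geo
import Pool.Agent.Lib.CMT.J.VI3Def

/-!
# PROJECT CMT, part J1: the vector valued forms as second moments
-/

set_option autoImplicit false

open scoped BigOperators ComplexConjugate
open Matrix NumberField

noncomputable section

namespace CMT.J

open CMT.B

variable {F : Type} [Field F] [NumberField F]

/-- The matrix `g` at `t` if `0 < t a`, otherwise its complex conjugate. -/
def SS (D : Dat F) (a : F) (t : F →+* ℝ) (g : SG D) : Matrix (Fin 3) (Fin 3) ℂ :=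
  if 0 < t a then mt D t g else (mt D t g).map conj

/-- The direction of the component `i` of the vector form. -/
def u3 (D : Dat F) (a : F) (t : F →+* ℝ) (z : ℂ × ℂ) (i : Fin 3) : Fin 3 → ℂ :=
  if t = D.t0 then VV (ka D a) (hh D) z (Pi.single i (((hh D i : ℝ) : ℂ)⁻¹)) else Pi.single i 1

/-- The direction of `dz_k`. -/
def e3 (D : Dat F) (a : F) (z : ℂ × ℂ) (k : Fin 3) : Fin 3 → ℂ :=
  VV (ka D a) (hh D) z (Pi.single k 1)

theorem VV_sum (κ : ℂ) (h : Fin 3 → ℝ) (z : ℂ × ℂ) (c : Fin 3 → ℂ) (f : Fin 3 → Fin 3 → ℂ) :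
    VV κ h z (∑ l, c l • f l) = ∑ l, c l • VV κ h z (f l) := by
  rw [Fin.sum_univ_three, Fin.sum_univ_three, VV_add, VV_add, VV_smul, VV_smul, VV_smul]

theorem hh_ne (D : Dat F) (i : Fin 3) : ((hh D i : ℝ) : ℂ) ≠ 0 := by
  have := ht_ne D D.t0 i
  exact_mod_cast this

theorem hh_two_neg (D : Dat F) : hh D 2 < 0 := by
  rw [hh_two]
  exact neg_neg_of_pos D.bet_pos

theorem ka_ne (D : Dat F) {a : F} (ha : 0 < D.t0 a) : ka D a ≠ 0 := by
  have h1 : 0 < Real.sqrt (D.t0 D.del) := Real.sqrt_pos.2 (D.del_pos _)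
  have h2 : (D.t0 a / Real.sqrt (D.t0 D.del)) ≠ 0 := (div_pos ha h1).ne'
  exact mul_ne_zero Complex.I_ne_zero (by exact_mod_cast h2)

theorem s2_ne (D : Dat F) {z : ℂ × ℂ} (hz : z ∈ Ball D) : s2 (hh D) z ≠ 0 := by
  rw [IThreeAux.s2_eq_mm]
  exact IThreeAux.mm_ne D hz

/-- The action on the directions of the components. -/
theorem col_u3 (D : Dat F) {a : F} (ha : 0 < D.t0 a) (t : F →+* ℝ) {g : SG D} (hg : IsIso D g)
    {z : ℂ × ℂ} (hz : z ∈ Ball D) (i : Fin 3) :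
    NNt D a g z t *ᵥ u3 D a t z i =
      ∑ l, ((CMT.B.ht D t l : ℂ) * SS D a t g l i * ((CMT.B.ht D t i : ℝ) : ℂ)⁻¹) •
        u3 D a t (CMT.act D g z) l := by
  by_cases h : t = D.t0
  · subst h
    have hz' : z ∈ CMT.B.ball (hh D) := by rw [← CMT.B.Ball_eq]; exact hz
    have e1 : NNt D a g z D.t0 = NNm (ka D a) (hh D) (mt D D.t0 g) z := by simp [NNt]
    have e2 : SS D a D.t0 g = mt D D.t0 g := by
      unfold SS
      rw [if_pos ha]
    unfold u3
    simp only [if_true]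
    rw [e1, e2, NNm_VV (ka_ne D ha) (hh_zero_pos D) (hh_one_pos D) (hh_two_neg D) (mt_t0_isU D hg)
      hz', ← act_eq, ← VV_sum]
    congr 1
    funext m
    rw [Finset.sum_apply]
    have e4 : ∀ l, ((((CMT.B.ht D D.t0 l : ℝ) : ℂ) * mt D D.t0 g l i *
        ((CMT.B.ht D D.t0 i : ℝ) : ℂ)⁻¹) •
        (Pi.single l (((hh D l : ℝ) : ℂ)⁻¹) : Fin 3 → ℂ)) m =
        if m = l then mt D D.t0 g m i * ((hh D i : ℝ) : ℂ)⁻¹ else 0 := by
      intro l
      rw [Pi.smul_apply, smul_eq_mul, Pi.single_apply]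
      split_ifs with h
      · subst h
        have := hh_ne D m
        show ((hh D m : ℝ) : ℂ) * mt D D.t0 g m i * ((hh D i : ℝ) : ℂ)⁻¹ * ((hh D m : ℝ) : ℂ)⁻¹ = _
        field_simp
      · rw [mul_zero]
    rw [Finset.sum_congr rfl fun l _ => e4 l, Finset.sum_ite_eq, if_pos (Finset.mem_univ m),
      Matrix.mulVec_single]
    rfl
  · unfold u3
    simp only [if_neg h]
    funext m
    rw [Finset.sum_apply]
    have e4 : ∀ l, ((((CMT.B.ht D t l : ℝ) : ℂ) * SS D a t g l i *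
        ((CMT.B.ht D t i : ℝ) : ℂ)⁻¹) • (Pi.single l 1 : Fin 3 → ℂ)) m =
        if m = l then ((CMT.B.ht D t m : ℝ) : ℂ) * SS D a t g m i *
          ((CMT.B.ht D t i : ℝ) : ℂ)⁻¹ else 0 := by
      intro l
      rw [Pi.smul_apply, smul_eq_mul, Pi.single_apply]
      split_ifs with h
      · subst h
        rw [mul_one]
      · rw [mul_zero]
    rw [Finset.sum_congr rfl fun l _ => e4 l, Finset.sum_ite_eq, if_pos (Finset.mem_univ m),
      Matrix.mulVec_single_one]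
    unfold NNt SS
    rw [if_neg h]
    split_ifs with h2
    · simp [Matrix.col]
    · simp [Matrix.col]

/-- The action on the directions of `dz_1`, `dz_2`. -/
theorem col_e3 (D : Dat F) {a : F} (ha : 0 < D.t0 a) {g : SG D} (hg : IsIso D g)
    {z : ℂ × ℂ} (hz : z ∈ Ball D) :
    NNt D a g z D.t0 *ᵥ e3 D a z 0 =
      MM (mt D D.t0 g) z 0 0 • e3 D a (CMT.act D g z) 0 +
        MM (mt D D.t0 g) z 1 0 • e3 D a (CMT.act D g z) 1 ∧
    NNt D a g z D.t0 *ᵥ e3 D a z 1 =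
      MM (mt D D.t0 g) z 0 1 • e3 D a (CMT.act D g z) 0 +
        MM (mt D D.t0 g) z 1 1 • e3 D a (CMT.act D g z) 1 := by
  have hz' : z ∈ CMT.B.ball (hh D) := by rw [← CMT.B.Ball_eq]; exact hz
  have hgz : CMT.act D g z ∈ Ball D := act_mem_Ball D hg hz
  have e1 : NNt D a g z D.t0 = NNm (ka D a) (hh D) (mt D D.t0 g) z := by simp [NNt]
  have hs := s2_ne D hgz
  unfold e3
  rw [e1, NNm_VV (ka_ne D ha) (hh_zero_pos D) (hh_one_pos D) (hh_two_neg D) (mt_t0_isU D hg)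
      hz', NNm_VV (ka_ne D ha) (hh_zero_pos D) (hh_one_pos D) (hh_two_neg D) (mt_t0_isU D hg)
      hz', ← act_eq]
  have e2 : ∀ k : Fin 3, ∀ p q : ℂ,
      p = mt D D.t0 g 0 k - (CMT.act D g z).1 * mt D D.t0 g 2 k →
      q = mt D D.t0 g 1 k - (CMT.act D g z).2 * mt D D.t0 g 2 k →
      mt D D.t0 g *ᵥ (Pi.single k 1) = p • (Pi.single 0 1 : Fin 3 → ℂ) + q • Pi.single 1 1 +
        mt D D.t0 g 2 k • zh (CMT.act D g z) := by
    intro k p q hp hq
    rw [Matrix.mulVec_single_one]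
    funext m
    fin_cases m
    · simp [Matrix.col, hp, zh]
      ring
    · simp [Matrix.col, hq, zh]
      ring
    · simp [Matrix.col, zh]
  constructor
  · rw [e2 0 (MM (mt D D.t0 g) z 0 0) (MM (mt D D.t0 g) z 1 0) rfl rfl, VV_add, VV_add, VV_smul,
      VV_smul, VV_smul, VV_zh _ hs, smul_zero, add_zero]
  · rw [e2 1 (MM (mt D D.t0 g) z 0 1) (MM (mt D D.t0 g) z 1 1) rfl rfl, VV_add, VV_add, VV_smul,
      VV_smul, VV_smul, VV_zh _ hs, smul_zero, add_zero]

theorem pr_u3 (D : Dat F) (a : F) {z : ℂ × ℂ} (hz : z ∈ Ball D) (x : Fin 3 → F) (i : Fin 3) :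
    pr x (at_ D.t0 (VV (ka D a) (hh D) z (Pi.single i (((hh D i : ℝ) : ℂ)⁻¹)))) =
      ka D a * Xv (D.t0 D.bet) (rx D.t0 x) z i := by
  have hs := s2_ne D hz
  have hm := IThreeAux.mm_ne D hz
  have hi := hh_ne D i
  have e1 : bil (hh D) (zh z) (Pi.single i (((hh D i : ℝ) : ℂ)⁻¹)) = zh z i := by
    unfold bil
    rw [Finset.sum_eq_single i]
    · rw [Pi.single_eq_same]
      field_simp
    · intro l _ hl
      rw [Pi.single_eq_of_ne hl, mul_zero]
    · intro h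
      exact absurd (Finset.mem_univ _) h
  rw [pr_at]
  unfold VV hv Xv
  rw [e1]
  have e2 : ∀ l, ((D.t0 (x l) : ℝ) : ℂ) * (ka D a * (((hh D l : ℝ) : ℂ) *
      ((Pi.single i (((hh D i : ℝ) : ℂ)⁻¹) : Fin 3 → ℂ) + (zh z i / s2 (hh D) z) • zh z) l)) =
      (if l = i then ka D a * ((D.t0 (x i) : ℝ) : ℂ) else 0) +
        ka D a * (zh z i / s2 (hh D) z) * (((D.t0 (x l) : ℝ) : ℂ) * (hh D l * zh z l)) := by
    intro l
    rw [Pi.add_apply, Pi.smul_apply, smul_eq_mul, Pi.single_apply]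
    split_ifs with h
    · subst h
      field_simp
    · ring
  rw [Finset.sum_congr rfl fun l _ => e2 l, Finset.sum_add_distrib, Finset.sum_ite_eq',
    if_pos (Finset.mem_univ i), ← Finset.mul_sum]
  have e3' : ∑ l, ((D.t0 (x l) : ℝ) : ℂ) * (hh D l * zh z l) = ll (D.t0 D.bet) (rx D.t0 x) z := by
    rw [Fin.sum_univ_three]
    unfold ll rx
    rw [hh_zero, hh_one, hh_two, zh_zero, zh_one, zh_two]
    push_cast
    ring
  rw [e3', IThreeAux.s2_eq_mm, hat_eq]
  unfold rx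
  ring

theorem VV_single (D : Dat F) (a : F) (z : ℂ × ℂ) :
    VV (ka D a) (hh D) z (Pi.single 0 1) = (fun i => Nm (ka D a) (hh D) z i 0) ∧
    VV (ka D a) (hh D) z (Pi.single 1 1) = (fun i => Nm (ka D a) (hh D) z i 1) := by
  have e1 : ∀ k : Fin 3, bil (hh D) (zh z) (Pi.single k 1) = hh D k * zh z k := by
    intro k
    unfold bil
    rw [Finset.sum_eq_single k]
    · rw [Pi.single_eq_same, mul_one]
    · intro l _ hl
      rw [Pi.single_eq_of_ne hl, mul_zero]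
    · intro h
      exact absurd (Finset.mem_univ _) h
  constructor
  · funext i
    unfold VV hv Nm
    rw [e1]
    fin_cases i
    · simp [zh]
      left
      ring
    · simp [zh]
      left
      ring
    · simp [zh]
      left
      ring
  · funext i
    unfold VV hv Nm
    rw [e1]
    fin_cases i
    · simp [zh]
      left
      ring
    · simp [zh]
      left
      ring
    · simp [zh]
      left
      ring

theorem pr_e3 (D : Dat F) (a : F) {z : ℂ × ℂ} (hz : z ∈ Ball D) (x : Fin 3 → F) :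
    pr x (at_ D.t0 (e3 D a z 0)) =
      (ka D a * ss (D.t0 D.bet) z) * (du (D.t0 D.bet) (rx D.t0 x) z).1 ∧
    pr x (at_ D.t0 (e3 D a z 1)) =
      (ka D a * ss (D.t0 D.bet) z) * (du (D.t0 D.bet) (rx D.t0 x) z).2 := by
  constructor
  · rw [pr_at, IThreeAux.dot0 D a hz]
    unfold e3
    rw [(VV_single D a z).1]
    rfl
  · rw [pr_at, IThreeAux.dot1 D a hz]
    unfold e3
    rw [(VV_single D a z).2]
    rfl

theorem BB_Me (D : Dat F) (z : ℂ × ℂ) (i : Fin 3) :
    BB (hh D) z (Pi.single i (((hh D i : ℝ) : ℂ)⁻¹)) (Pi.single 0 1) = Me (D.t0 D.bet) z i 0 ∧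
    BB (hh D) z (Pi.single i (((hh D i : ℝ) : ℂ)⁻¹)) (Pi.single 1 1) = Me (D.t0 D.bet) z i 1 := by
  have hi := hh_ne D i
  have e1 : ∀ k : Fin 3, bil (hh D) (zh z) (Pi.single k 1) = hh D k * zh z k := by
    intro k
    unfold bil
    rw [Finset.sum_eq_single k]
    · rw [Pi.single_eq_same, mul_one]
    · intro l _ hl
      rw [Pi.single_eq_of_ne hl, mul_zero]
    · intro h
      exact absurd (Finset.mem_univ _) h
  have e2 : ∀ v : Fin 3 → ℂ, bil (hh D) (Pi.single i (((hh D i : ℝ) : ℂ)⁻¹)) v = v i := by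
    intro v
    unfold bil
    rw [Finset.sum_eq_single i]
    · rw [Pi.single_eq_same]
      field_simp
    · intro l _ hl
      rw [Pi.single_eq_of_ne hl, mul_zero, zero_mul]
    · intro h
      exact absurd (Finset.mem_univ _) h
  unfold BB Me
  rw [e2, e2, e2, e1, e1, IThreeAux.s2_eq_mm, hat_eq, Pi.single_apply, Pi.single_apply, hh_zero,
    hh_one]
  push_cast
  rw [one_mul, one_mul]
  exact ⟨rfl, rfl⟩

/-- The constant. -/
theorem cst (D : Dat F) {a : F} (ha : 0 < D.t0 a) :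
    (2 * Real.pi * Complex.I) ^ 2 * ka D a ^ 2 * ((4 * cc D a : ℝ) : ℂ)⁻¹ =
      -(Real.pi * Complex.I * ka D a) := by
  have h1 : 0 < Real.sqrt (D.t0 D.del) := Real.sqrt_pos.2 (D.del_pos _)
  have h2 : ((Real.sqrt (D.t0 D.del) : ℝ) : ℂ) ≠ 0 := by exact_mod_cast h1.ne'
  have h3 : ((D.t0 a : ℝ) : ℂ) ≠ 0 := by exact_mod_cast ha.ne'
  have h4 : ((Real.pi : ℝ) : ℂ) ≠ 0 := by exact_mod_cast Real.pi_ne_zero
  unfold cc kap ka
  rw [abs_of_pos ha]
  push_cast
  have hI := Complex.I_sq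
  field_simp
  rw [Complex.I_sq]
  ring

end CMT.J
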