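import Pool.Agent.Lib.CMT.J.Spec
import Pool.Agent.Lib.CMT.J5.Lin

/-!
# PROJECT CMT, part J : `S_Expan` (helper36)
-/

noncomputable section

namespace CMT
namespace J

theorem thmExpan : S_Expan := by
  intro F _ _ D H _ hH p hp
  obtain ⟨r, κ, lam, pr, h1, h2, h3, h4, h5⟩ := J5.expand D hH p hp
  exact ⟨r, κ, lam, pr, h4, fun j g => (h5 j g).symm, h1, h2, h3⟩

end J
end CMT
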