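import Pool.Agent.Lib.CMT.J.Spec
import Pool.Agent.Lib.CMT.B.Br

/-!
# PROJECT CMT, part J: the fixed vector (`S_FixR`) and the semilinear map (`S_SemiL`)
-/

open scoped BigOperators ComplexConjugate
open MeasureTheory Matrix

noncomputable section

namespace CMT
namespace J

namespace FixR

variable {F : Type} [Field F] [NumberField F]

/-- the vector `v` at the place `t` -/
def vC (D : Dat F) (t : F →+* ℝ) (k : Fin 2) (ρ : F) (i : Fin 3) : ℂ :=
  ((t (vv D k ρ i) : ℝ) : ℂ)

theorem fix_t (D : Dat F) (k : Fin 2) (ρ : F) (g : SG D) (hf : Fixv D k ρ g) (t : F →+* ℝ) :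
    mt D t g *ᵥ vC D t k ρ = vC D t k ρ := by
  funext i
  have h := congrArg (ev D t) (congrFun hf i)
  have e : ∀ x : F, ev D t (algebraMap F (KD D) x) = ((t x : ℝ) : ℂ) := fun x =>
    B.ev_algebraMap D t x
  rw [e] at h
  simp only [Matrix.mulVec, dotProduct, map_sum, map_mul, e] at h
  exact h

theorem conj_form (D : Dat F) (k : Fin 2) (ρ : F) (g : SG D) (hg : IsIso D g)
    (hf : Fixv D k ρ g) (t : F →+* ℝ) (l : Fin 3) :
    ∑ i, ((ht D t i * t (vv D k ρ i) : ℝ) : ℂ) * conj (mt D t g i l)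
        = ((ht D t l * t (vv D k ρ l) : ℝ) : ℂ) := by
  have hU : (mt D t g)ᴴ * Matrix.diagonal (fun i => ((ht D t i : ℝ) : ℂ)) * mt D t g =
      Matrix.diagonal (fun i => ((ht D t i : ℝ) : ℂ)) := B.mt_isU D t hg
  have h1 := congrArg (fun N : Matrix (Fin 3) (Fin 3) ℂ => (N *ᵥ vC D t k ρ) l) hU
  simp only [← Matrix.mulVec_mulVec] at h1
  rw [fix_t D k ρ g hf t] at h1
  rw [Matrix.mulVec_diagonal] at h1
  have h2 : ((mt D t g)ᴴ *ᵥ (Matrix.diagonal (fun i => ((ht D t i : ℝ) : ℂ)) *ᵥ
      vC D t k ρ)) l = ∑ i, ((ht D t i * t (vv D k ρ i) : ℝ) : ℂ) * conj (mt D t g i l) := by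
    simp only [Matrix.mulVec, dotProduct, Matrix.conjTranspose_apply]
    refine Finset.sum_congr rfl (fun i _ => ?_)
    have h3 : ∑ j, Matrix.diagonal (fun i => ((ht D t i : ℝ) : ℂ)) i j * vC D t k ρ j =
        ((ht D t i : ℝ) : ℂ) * vC D t k ρ i := by
      have := Matrix.mulVec_diagonal (fun i => ((ht D t i : ℝ) : ℂ)) (vC D t k ρ) i
      simpa [Matrix.mulVec, dotProduct] using this
    rw [h3]
    show conj (mt D t g i l) * _ = _
    rw [vC]
    push_cast
    ring
  rw [h2] at h1
  rw [h1, vC]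
  push_cast
  ring

end FixR

theorem tFixR : S_FixR := by
  intro F _ _ D k ρ g hg hf t l
  have h2 := FixR.conj_form D k ρ g hg hf t l
  refine ⟨?_, h2⟩
  have h3 := congrArg conj h2
  simpa only [map_sum, map_mul, Complex.conj_conj, Complex.conj_ofReal] using h3

theorem tSemiL : S_SemiL := by
  intro F _ _ D a t l hl
  have e : ∀ (s : F →+* ℝ) (x : F), ev D s (algebraMap F (KD D) x) = ((s x : ℝ) : ℂ) := fun s x =>
    B.ev_algebraMap D s x
  refine ⟨fun g c i => ?_, fun k ρ i c => ?_⟩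
  · have key : ∀ (x : KD D) (c : ℂ),
        l ((if 0 < t a then conj (ev D t x) else ev D t x) * c) = conj (ev D D.t0 x) * l c := by
      intro x c
      have h1 := hl (cj D x) c
      rw [B.ev_cj, B.ev_cj] at h1
      rw [← h1]
      congr 2
      split_ifs
      · rfl
      · rw [Complex.conj_conj]
    simp only [Matrix.mulVec, dotProduct, map_sum, Matrix.map_apply]
    refine Finset.sum_congr rfl (fun j _ => ?_)
    have h2 := key (g.1 i j) (c j)
    have h3 : rT D a t g i j = if 0 < t a then conj (ev D t (g.1 i j)) else ev D t (g.1 i j) := by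
      simp only [rT]
      split_ifs <;> rfl
    rw [h3, h2]
    rfl
  · have h1 : ∀ (x : F) (c : ℂ), l (((t x : ℝ) : ℂ) * c) = ((D.t0 x : ℝ) : ℂ) * l c := by
      intro x c
      have h2 := hl (algebraMap F (KD D) x) c
      rw [e, e, Complex.conj_ofReal, ite_self] at h2
      exact h2
    have h3 : ∀ s : F →+* ℝ, ht D s i * s (vv D k ρ i) = s (![1, 1, -D.bet] i * vv D k ρ i) := by
      intro s
      rw [map_mul]
      congr 1
      fin_cases i
      · exact (map_one s).symm
      · exact (map_one s).symm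
      · exact (map_neg s D.bet).symm
    rw [h3, h3, h1]

end J
end CMT
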