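import Pool.Agent.Lib.CMT.Iface

/-!
# PROJECT CMT, part J : the CM type of the theta 1-forms, and THEOREM T2 (helper37)

Note 4367 on MP_640417_ag.  Interfaces.

* `vf D a t ψ z i` : the vector valued theta 1-form at the place `t` (component `i`, coefficients of
  `dz₁, dz₂`).  For `t ≠ t0`: `∑_x ψ(x) t(x_i) exp(-E_x) du_x`.  For `t = t0`:
  `∑_x ψ(x) exp(-E_x) (X_x du_x - (1/(4c)) (M dz)/ss)`, `X_x = x + ẑ (x,ẑ)/mm`,
  `M v = v + ẑ (v,ẑ)/mm`, `c = κ_{t0} |t0 a|`.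
* `Rt D a t g` : the matrix through which it transforms: the complex conjugate of `g` at `t` if
  `0 < t a`, otherwise `g` at `t`.
* `S_VInv`, `S_VPrim` (J1) : equivariance, primitives.
* `S_H1`, `S_H2` (J3) : Hodge decomposition of `Hom(G,ℂ)`, and: every cocycle for the action of
  `conj g_{t0}` on `ℂ³` is the period cocycle of a holomorphic map.
* `S_Curve` (J2) : on the curves `z_k = t0 ρ` the scalar form is `(vector form, v)`.
* `S_StabCpt`, `S_FG` (J4) : cocompactness of the stabiliser on the curve; `G` finitely generated.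
* `S_CP` (J5) : THEOREM (C').
* `T2` : the target.
-/

open scoped BigOperators ComplexConjugate
open MeasureTheory Matrix

noncomputable section

namespace CMT
namespace J

variable {F : Type} [Field F] [NumberField F]

/-- The constant `c = κ_{t0} |t0 a|`. -/
def cc (D : Dat F) (a : F) : ℝ := kap D D.t0 * |D.t0 a|

/-- `X_x = x + ẑ (x,ẑ)/mm` (component `i`). -/
def Xv (b : ℝ) (x : Fin 3 → ℝ) (z : ℂ × ℂ) (i : Fin 3) : ℂ :=
  (x i : ℂ) + hat z i * ll b x z / mm b z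

/-- `M e_k = e_k + ẑ (e_k,ẑ)/mm`, `k = 0, 1` (component `i`): `(e_k,ẑ) = z_k`. -/
def Me (b : ℝ) (z : ℂ × ℂ) (i k : Fin 3) : ℂ :=
  (if i = k then 1 else 0) + hat z i * hat z k / mm b z

/-- One term of the vector valued theta form at the place `t`, without `ψ`: component `i`,
coefficient of `dz₁`. -/
def vt1 (D : Dat F) (a : F) (t : F →+* ℝ) (x : Fin 3 → F) (z : ℂ × ℂ) (i : Fin 3) : ℂ :=
  if t = D.t0 then
    tm1 D a x z * (Xv (D.t0 D.bet) (rx D.t0 x) z i * (du (D.t0 D.bet) (rx D.t0 x) z).1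
      - ((4 * cc D a : ℝ) : ℂ)⁻¹ * (Me (D.t0 D.bet) z i 0 / ss (D.t0 D.bet) z))
  else tm1 D a x z * (((t (x i) : ℝ) : ℂ) * (du (D.t0 D.bet) (rx D.t0 x) z).1)

/-- The coefficient of `dz₂`. -/
def vt2 (D : Dat F) (a : F) (t : F →+* ℝ) (x : Fin 3 → F) (z : ℂ × ℂ) (i : Fin 3) : ℂ :=
  if t = D.t0 then
    tm1 D a x z * (Xv (D.t0 D.bet) (rx D.t0 x) z i * (du (D.t0 D.bet) (rx D.t0 x) z).2
      - ((4 * cc D a : ℝ) : ℂ)⁻¹ * (Me (D.t0 D.bet) z i 1 / ss (D.t0 D.bet) z))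
  else tm1 D a x z * (((t (x i) : ℝ) : ℂ) * (du (D.t0 D.bet) (rx D.t0 x) z).2)

/-- The vector valued theta form at the place `t`. -/
def vf (D : Dat F) (a : F) (t : F →+* ℝ) (ψ : (Fin 3 → F) → ℂ) (z : ℂ × ℂ) (i : Fin 3) : ℂ × ℂ :=
  (∑' x : Fin 3 → F, ψ x * vt1 D a t x z i, ∑' x : Fin 3 → F, ψ x * vt2 D a t x z i)

/-- The matrix through which the vector valued form at `t` transforms. -/
def Rt (D : Dat F) (a : F) (t : F →+* ℝ) (g : SG D) : Matrix (Fin 3) (Fin 3) ℂ :=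
  if 0 < t a then (mt D t g).map conj else mt D t g

/-- The diagonal entries of the form at the place `t`. -/
def ht (D : Dat F) (t : F →+* ℝ) : Fin 3 → ℝ := ![1, 1, -(t D.bet)]

/-- Absolute convergence of the vector valued forms (helper34, J1). -/
def S_VSum : Prop :=
  ∀ (F : Type) [Field F] [NumberField F] [NumberField.IsTotallyReal F] (D : Dat F) (a : F),
    0 < D.t0 a → ∀ (t : F →+* ℝ) (ψ : (Fin 3 → F) → ℂ), IsSB ψ → ∀ z ∈ Ball D, ∀ i,
      (Summable fun x => ‖ψ x * vt1 D a t x z i‖) ∧ (Summable fun x => ‖ψ x * vt2 D a t x z i‖)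

/-- Equivariance of the vector valued forms under an arithmetic group (J1). -/
def S_VInv : Prop :=
  ∀ (F : Type) [Field F] [NumberField F] [NumberField.IsTotallyReal F] (D : Dat F) (a : F),
    0 < D.t0 a → ∀ (t : F →+* ℝ) (ψ : (Fin 3 → F) → ℂ), IsSB ψ →
      ∃ G : Subgroup (SG D), IsArith D G ∧ ∀ g ∈ G, ∀ z ∈ Ball D, ∀ i,
        pull1 D g z (vf D a t ψ (act D g z) i) =
          (∑ l, Rt D a t g i l * (vf D a t ψ z l).1, ∑ l, Rt D a t g i l * (vf D a t ψ z l).2)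

/-- The vector valued forms are holomorphic and closed (J1). -/
def S_VPrim : Prop :=
  ∀ (F : Type) [Field F] [NumberField F] [NumberField.IsTotallyReal F] (D : Dat F) (a : F),
    0 < D.t0 a → ∀ (t : F →+* ℝ) (ψ : (Fin 3 → F) → ℂ), IsSB ψ →
      ∃ f : ℂ × ℂ → Fin 3 → ℂ, ∀ z ∈ Ball D, ∀ i,
        HasFDerivAt (fun z => f z i) ((vf D a t ψ z i).1 • ContinuousLinearMap.fst ℂ ℂ ℂ +
          (vf D a t ψ z i).2 • ContinuousLinearMap.snd ℂ ℂ ℂ) z

/-- **(H1)** (J3): every homomorphism `G → ℂ` is the period map of `p + conj q`, `p, q`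
holomorphic. -/
def S_H1 : Prop :=
  ∀ (F : Type) [Field F] [NumberField F] [NumberField.IsTotallyReal F]
    (_ : 2 ≤ Module.finrank ℚ F) (D : Dat F) (G : Subgroup (SG D)), IsArith D G →
    ∀ c : G → ℂ, (∀ g g' : G, c (g * g') = c g + c g') →
      ∃ p q : ℂ × ℂ → ℂ, DifferentiableOn ℂ p (Ball D) ∧ DifferentiableOn ℂ q (Ball D) ∧
        ∀ g : G, ∀ z ∈ Ball D,
          p (act D g.1 z) + conj (q (act D g.1 z)) = p z + conj (q z) + c g

/-- **(H2)** (J3): every cocycle for the action of `conj g_{t0}` on `ℂ³` is the period cocycle of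
a holomorphic map. -/
def S_H2 : Prop :=
  ∀ (F : Type) [Field F] [NumberField F] [NumberField.IsTotallyReal F]
    (_ : 2 ≤ Module.finrank ℚ F) (D : Dat F) (G : Subgroup (SG D)), IsArith D G →
    ∀ c : G → Fin 3 → ℂ,
      (∀ g g' : G, c (g * g') = c g + (mt D D.t0 g.1).map conj *ᵥ c g') →
      ∃ f : ℂ × ℂ → Fin 3 → ℂ, (∀ i, DifferentiableOn ℂ (fun z => f z i) (Ball D)) ∧
        ∀ g : G, ∀ z ∈ Ball D, f (act D g.1 z) = (mt D D.t0 g.1).map conj *ᵥ f z + c g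

/-- The coordinate of index `k : Fin 2`. -/
def pk (k : Fin 2) (z : ℂ × ℂ) : ℂ := if k = 0 then z.1 else z.2

/-- The vector `v`: `(v,ẑ) = β (z_k - ρ)`: `v = (β,0,ρ)` for `k = 0`, `v = (0,β,ρ)` for `k = 1`. -/
def vv (D : Dat F) (k : Fin 2) (ρ : F) : Fin 3 → F :=
  if k = 0 then ![D.bet, 0, ρ] else ![0, D.bet, ρ]

/-- The curve `z_k = t0 ρ` in the ball. -/
def Cv (D : Dat F) (k : Fin 2) (ρ : F) : Set (ℂ × ℂ) := {z | z ∈ Ball D ∧ pk k z = ((D.t0 ρ : ℝ) : ℂ)}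

/-- `g` fixes the vector `v`. -/
def Fixv (D : Dat F) (k : Fin 2) (ρ : F) (g : SG D) : Prop :=
  g.1 *ᵥ (fun i => algebraMap F (KD D) (vv D k ρ i)) = fun i => algebraMap F (KD D) (vv D k ρ i)

/-- **(J2)** On the curve `z_k = t0 ρ` the scalar theta form is the product of a vector valued
form at ANY place `t` with `v` (coefficient of the other variable). -/
def S_Curve : Prop :=
  ∀ (F : Type) [Field F] [NumberField F] [NumberField.IsTotallyReal F] (D : Dat F) (a : F),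
    0 < D.t0 a → ∀ (t : F →+* ℝ) (φ : (Fin 3 → F) → ℂ), IsSB φ → ∀ (k : Fin 2) (ρ : F),
      (D.t0 ρ) ^ 2 < D.t0 D.bet → ∃ ψ : (Fin 3 → F) → ℂ, IsSB ψ ∧ ∀ z ∈ Cv D k ρ,
        (if k = 0 then (om D a φ z).2 else (om D a φ z).1) =
          ∑ i, ((ht D t i * t (vv D k ρ i) : ℝ) : ℂ) *
            (if k = 0 then (vf D a t ψ z i).2 else (vf D a t ψ z i).1)

/-- **(J4)** the stabiliser of `v` preserves the curve and is cocompact on it. -/
def S_StabCpt : Prop :=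
  ∀ (F : Type) [Field F] [NumberField F] [NumberField.IsTotallyReal F]
    (_ : 2 ≤ Module.finrank ℚ F) (D : Dat F) (G : Subgroup (SG D)), IsArith D G →
    ∀ (k : Fin 2) (ρ : F), (D.t0 ρ) ^ 2 < D.t0 D.bet →
      (∀ g ∈ G, Fixv D k ρ g → ∀ z ∈ Cv D k ρ, act D g z ∈ Cv D k ρ) ∧
      ∃ C : Set (ℂ × ℂ), IsCompact C ∧ C ⊆ Cv D k ρ ∧
        ∀ z ∈ Cv D k ρ, ∃ g ∈ G, Fixv D k ρ g ∧ act D g z ∈ C

/-- **(J4)** arithmetic groups are finitely generated. -/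
def S_FG : Prop :=
  ∀ (F : Type) [Field F] [NumberField F] [NumberField.IsTotallyReal F]
    (_ : 2 ≤ Module.finrank ℚ F) (D : Dat F) (G : Subgroup (SG D)), IsArith D G → G.FG

/-- **(J4)** the intersection of two arithmetic groups is arithmetic. -/
def S_Inter : Prop :=
  ∀ (F : Type) [Field F] [NumberField F] (D : Dat F) (G G' : Subgroup (SG D)),
    IsArith D G → IsArith D G' → IsArith D (G ⊓ G')

/-- **(J5) THEOREM (C').**  Let `P` be a primitive of `ω_{a,φ}` with periods `p : G → ℂ`, let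
`τ` be the embedding of `K` over the place `t` with `τ = ev` if `0 < t a`, `τ = conj ev` if
`t a < 0`, and `l : ℂ → ℂ` additive with `l (τ(x) c) = ev_{t0}(x) l(c)`.  Then `l ∘ p` is the
period map of a holomorphic function. -/
def S_CP : Prop :=
  ∀ (F : Type) [Field F] [NumberField F] [NumberField.IsTotallyReal F]
    (_ : 2 ≤ Module.finrank ℚ F) (D : Dat F) (a : F), 0 < D.t0 a →
    ∀ φ : (Fin 3 → F) → ℂ, IsSB φ → ∀ G : Subgroup (SG D), IsArith D G →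
    ∀ P : ℂ × ℂ → ℂ,
    (∀ z ∈ Ball D, HasFDerivAt P ((om D a φ z).1 • ContinuousLinearMap.fst ℂ ℂ ℂ +
      (om D a φ z).2 • ContinuousLinearMap.snd ℂ ℂ ℂ) z) →
    ∀ p : G → ℂ, (∀ g : G, ∀ z ∈ Ball D, P (act D g.1 z) = P z + p g) →
    ∀ (t : F →+* ℝ) (l : ℂ →+ ℂ),
    (∀ (x : KD D) (c : ℂ),
      l ((if 0 < t a then ev D t x else conj (ev D t x)) * c) = ev D D.t0 x * l c) →
    ∃ Q : ℂ × ℂ → ℂ, DifferentiableOn ℂ Q (Ball D) ∧
      ∀ g : G, ∀ z ∈ Ball D, Q (act D g.1 z) = Q z + l (p g)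

/-- Complex conjugate of an embedding. -/
def cjt (D : Dat F) (τ : KD D →+* ℂ) : KD D →+* ℂ := (starRingEnd ℂ).comp τ

/-- The coefficients of `dz₁, dz₂` in the differential of a holomorphic function. -/
def grad (w : ℂ × ℂ → ℂ) (z : ℂ × ℂ) : ℂ × ℂ := (fderiv ℂ w z (1, 0), fderiv ℂ w z (0, 1))

/-- **THEOREM T2.**  Let `K = F(δ)` be a CM field, Galois over `ℚ`, `[F:ℚ] ≥ 2`, and `f₀,…,f₃`
CM types of `K` (functions with values `0, 1`) with `f₀ + f₁ = f₂ + f₃`, containing the embedding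
`τ₀ = ev t0`.  Then there are a cocompact arithmetic group `G` acting freely on the ball,
homomorphisms `λ_i : G → R = O_F + O_F δ` and holomorphic maps `w_i = (w_{i,τ})_{τ ∈ f_i}` on the
ball with `w_{i,τ}(g z) = w_{i,τ}(z) + τ(λ_i(g))`, i.e. holomorphic maps of the compact surface
`G\Ball` to the complex tori `ℂ^{f_i}/f_i(R)`, such that
`∫_{G\Ball} dw_{0,τ₀} ∧ dw_{1,τ₀} ∧ conj (dw_{2,τ₀} ∧ dw_{3,τ₀}) ≠ 0`. -/
def T2 : Prop :=
  ∀ (F : Type) [Field F] [NumberField F] [NumberField.IsTotallyReal F]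
    (_ : 2 ≤ Module.finrank ℚ F) (D : Dat F)
    (_ : ∀ τ : KD D →+* ℂ, ∃ s : KD D ≃+* KD D, τ = (ev D D.t0).comp (s : KD D →+* KD D))
    (f : Fin 4 → (KD D →+* ℂ) → ℕ) (_ : ∀ i τ, f i τ + f i (cjt D τ) = 1)
    (_ : ∀ i, f i (ev D D.t0) = 1) (_ : ∀ τ, f 0 τ + f 1 τ = f 2 τ + f 3 τ),
    ∃ (G : Subgroup (SG D)) (lam : Fin 4 → G → KD D)
      (w : Fin 4 → (KD D →+* ℂ) → ℂ × ℂ → ℂ),
      IsArith D G ∧
      (∀ g ∈ G, ∀ z ∈ Ball D, act D g z ∈ Ball D) ∧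
      (∀ g ∈ G, ∀ z ∈ Ball D, act D g z = z → g = 1) ∧
      (∀ C : Set (ℂ × ℂ), IsCompact C → C ⊆ Ball D →
        {g : SG D | g ∈ G ∧ ∃ z ∈ C, act D g z ∈ C}.Finite) ∧
      (∃ C : Set (ℂ × ℂ), IsCompact C ∧ C ⊆ Ball D ∧ ∀ z ∈ Ball D, ∃ g ∈ G, act D g z ∈ C) ∧
      (∀ i g, lam i g ∈ RR D) ∧ (∀ i (g g' : G), lam i (g * g') = lam i g + lam i g') ∧
      (∀ i τ, f i τ = 1 → DifferentiableOn ℂ (w i τ) (Ball D)) ∧
      (∀ i τ, f i τ = 1 → ∀ g : G, ∀ z ∈ Ball D,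
        w i τ (act D g.1 z) = w i τ z + τ (lam i g)) ∧
      (∃ χ, IsWeight D G χ) ∧
      ∀ χ, IsWeight D G χ →
        ∫ z, ((χ z : ℝ) : ℂ) *
          (wedge (grad (w 0 (ev D D.t0)) z) (grad (w 1 (ev D D.t0)) z) *
            conj (wedge (grad (w 2 (ev D D.t0)) z) (grad (w 3 (ev D D.t0)) z))) ≠ 0

end J
end CMT
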