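import Pool.Agent.Lib.CMT.Iface

/-!
# PROJECT CMT, part J1 : vector valued theta forms (interface)

For a place `t` and `ψ` Schwartz-Bruhat: the `ℂ³`-valued 1-form `∑ ψ(x) t(x) exp(-E_x) du_x`
(`omN`).  For `t ≠ t0` it is multiplied by the matrix `rT` under an arithmetic group; for `t = t0`
this is true after adding the exact form `d(μ ẑ)`, `μ = - θ_ψ/(4 c ss)`,
`θ_ψ = ∑ ψ(x) exp(-E_x)`, `c = kap D t0 * t0 a`.

`S_J1` states this for the primitives: `f = f0 + μ ẑ`, `f (g z) = rT(g) f(z) + c(g)`.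

PROOF.  Siegel theta functions (part B: `th`, `S_A3`, `S_Rel`): differentiate
`th(Z', NN w) = c exp(-πi (NN w).(be w)) th(Z, w)` twice at `w = 0`, in a direction `N_z e_k`
(`k = 0, 1`) at `t0` and a direction `u` at the place `t`.
`t ≠ t0`: `NN` and `be` are block diagonal over the places, the correction vanishes.
`t = t0`, directions `N_z e_k, N_z e_l` (`k, l ≤ 1`): with `(x,y)` the bilinear form of
`diag(1,1,-b)`, `m = -(ẑ,ẑ)`, `v^ = v + ẑ (ẑ,v)/m`, `e_k' = e_k + h(e_k,ẑ) ẑ/H` one has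
`N_z e_k = κ H e_k^ = W_z(e_k')`, `NN N_z e_k = κ H (g e_k')^` (the hat at `gz`),
`be = (Δ/a) B H⁻¹`, `i√Δ B = (g - ḡ)/2`, and the correction is
`(NN N_z e_k).(be N_z e_l) = (κ/2) ((g e_k')^, (g - ḡ) e_l^)
  = (κ/2) { ((g e_k')^, (g e_l')^) - (e_k^, e_l^) }`
because `(g e_k')^ ⊥ gẑ`, `ḡ e_l^ ⊥ gẑ`, `(g x, ḡ y) = (x, y)`.  This is exactly the change of the
term `(1/4c) s⁻¹ (M dz)`: `X_x = x + ẑ (x,ẑ)/m`, `X_x,i = ss du_x,i` (`i ≤ 1`), `(X_x, ẑ) = 0`,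
`M e_l = e_l^`.
The scalar `c` is the one of `om`: it is `1` on the group of `S_Inv1` where `om φ ≠ 0`, then use
the identity theorem on complex lines.
The forms: `d(f0 + μẑ)_i = ∑ ψ(x) exp(-E_x) [X_x,i du_x - (1/4c) ss⁻¹ (M dz)_i]`.
-/

open scoped BigOperators ComplexConjugate
open MeasureTheory

noncomputable section

namespace CMT

variable {F : Type} [Field F] [NumberField F]

/-- The `i`-th component of the vector valued theta form `∑ ψ(x) t(x) exp(-E_x) du_x`. -/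
def omN (D : Dat F) (a : F) (t : F →+* ℝ) (ψ : (Fin 3 → F) → ℂ) (z : ℂ × ℂ) (i : Fin 3) : ℂ × ℂ :=
  (∑' x : Fin 3 → F, ψ x * tm1 D a x z * ((t (x i) : ℝ) : ℂ) * (du (D.t0 D.bet) (rx D.t0 x) z).1,
   ∑' x : Fin 3 → F, ψ x * tm1 D a x z * ((t (x i) : ℝ) : ℂ) * (du (D.t0 D.bet) (rx D.t0 x) z).2)

open Classical in
/-- The matrix of `g` at the place `t` if `t a < 0`, its complex conjugate if `t a > 0`. -/
def rT (D : Dat F) (a : F) (t : F →+* ℝ) (g : SG D) : Matrix (Fin 3) (Fin 3) ℂ :=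
  if 0 < t a then (mt D t g).map (starRingEnd ℂ) else mt D t g

/-- The theta function. -/
def tht (D : Dat F) (a : F) (ψ : (Fin 3 → F) → ℂ) (z : ℂ × ℂ) : ℂ :=
  ∑' x : Fin 3 → F, ψ x * tm1 D a x z

/-- Primitives of the vector valued theta forms and their period cocycles. -/
def S_J1 : Prop :=
  ∀ (F : Type) [Field F] [NumberField F] [NumberField.IsTotallyReal F] (D : Dat F) (a : F),
    0 < D.t0 a → ∀ (t : F →+* ℝ) (ψ : (Fin 3 → F) → ℂ), IsSB ψ →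
    ∃ (G : Subgroup (SG D)) (f0 : ℂ × ℂ → Fin 3 → ℂ) (μ : ℂ × ℂ → ℂ) (c : SG D → Fin 3 → ℂ),
      IsArith D G ∧
      (∀ z ∈ Ball D, ∀ i, HasFDerivAt (fun w => f0 w i)
        ((omN D a t ψ z i).1 • ContinuousLinearMap.fst ℂ ℂ ℂ +
          (omN D a t ψ z i).2 • ContinuousLinearMap.snd ℂ ℂ ℂ) z) ∧
      (t ≠ D.t0 → ∀ z, μ z = 0) ∧
      ∀ g ∈ G, ∀ z ∈ Ball D,
        f0 (act D g z) + μ (act D g z) • hat (act D g z) =
          (rT D a t g).mulVec (f0 z + μ z • hat z) + c g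

end CMT
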