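import Pool.Agent.Lib.CMT.J.Iface
import Pool.Agent.Lib.CMT.J.Cpv
import Pool.Agent.Lib.CMT.J.Fg

/-!
PROJECT CMT, part J4 (helper45): `S_FG`, `S_Inter`, `S_StabCpt`.
-/

namespace CMT.J

open Matrix ComplexConjugate NumberField CMT.B CMT.Cpt

variable {F : Type} [Field F] [NumberField F]

/-- **(J4)** arithmetic groups are finitely generated. -/
theorem s_FG : S_FG := by
  intro F _ _ _ hF D G hG
  exact (Group.fg_iff_subgroup_fg G).1 (fg_arith hF D G hG)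

/-- **(J4)** the intersection of two arithmetic groups is arithmetic. -/
theorem s_Inter : S_Inter := by
  intro F _ _ D G G' hG hG'
  exact ⟨inf_le_left.trans hG.1, Subgroup.relIndex_inf_ne_zero hG.2 hG'.2⟩

/-- The equation of the curve. -/
lemma zv_vv (D : Dat F) (k : Fin 2) (ρ : F) (z : ℂ × ℂ) :
    zv (D.t0 D.bet) z (evv D D.t0 fun i => algebraMap F (KD D) (vv D k ρ i)) =
      ((D.t0 D.bet : ℝ) : ℂ) * (pk k z - ((D.t0 ρ : ℝ) : ℂ)) := by
  have h : ∀ i, evv D D.t0 (fun i => algebraMap F (KD D) (vv D k ρ i)) i =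
      ((D.t0 (vv D k ρ i) : ℝ) : ℂ) := fun i => ev_algebraMap D D.t0 _
  unfold zv
  simp only [h, Complex.conj_ofReal]
  fin_cases k
  · simp [vv, pk]
    ring
  · simp [vv, pk]
    ring

lemma zv_vv_iff (D : Dat F) (k : Fin 2) (ρ : F) (z : ℂ × ℂ) :
    zv (D.t0 D.bet) z (evv D D.t0 fun i => algebraMap F (KD D) (vv D k ρ i)) = 0 ↔
      pk k z = ((D.t0 ρ : ℝ) : ℂ) := by
  have hb : ((D.t0 D.bet : ℝ) : ℂ) ≠ 0 := Complex.ofReal_ne_zero.2 D.bet_pos.ne'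
  rw [zv_vv, mul_eq_zero, or_iff_right hb, sub_eq_zero]

/-- The stabiliser of `v` preserves the curve. -/
theorem act_mem_Cv (D : Dat F) (k : Fin 2) (ρ : F) {g : SG D} (hg : IsIso D g)
    (hv : Fixv D k ρ g) {z : ℂ × ℂ} (hz : z ∈ Cv D k ρ) : CMT.act D g z ∈ Cv D k ρ := by
  refine ⟨act_mem_Ball D hg hz.1, ?_⟩
  rw [← zv_vv_iff]
  have h1 := zv_mulVec D hg hz.1 fun i => algebraMap F (KD D) (vv D k ρ i)
  unfold Fixv at hv
  rw [hv] at h1
  rw [h1, (zv_vv_iff D k ρ z).2 hz.2, mul_zero]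

lemma continuous_pk (k : Fin 2) : Continuous (pk k) := by
  unfold pk
  split_ifs
  · exact continuous_fst
  · exact continuous_snd

/-- **(J4)** the stabiliser of `v` preserves the curve and is cocompact on it. -/
theorem s_StabCpt : S_StabCpt := by
  intro F _ _ _ hF D G hG k ρ hρ
  have h1 : G ≤ Gam D 1 := hG.1.trans (CMT.D.Gam_le_one D 3)
  refine ⟨fun g hg hv z hz => act_mem_Cv D k ρ (h1 hg).1 hv hz, ?_⟩
  obtain ⟨C, hC, hCB, H⟩ := cpv D G h1 (CMT.s_Cpt F hF D G h1 hG.2)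
    fun i => algebraMap F (KD D) (vv D k ρ i)
  refine ⟨C ∩ pk k ⁻¹' {((D.t0 ρ : ℝ) : ℂ)}, ?_, ?_, ?_⟩
  · exact hC.inter_right (isClosed_singleton.preimage (continuous_pk k))
  · rintro z ⟨hz, hz'⟩
    exact ⟨hCB hz, hz'⟩
  · intro z hz
    obtain ⟨g, hg, hgv, hgz⟩ := H z hz.1 ((zv_vv_iff D k ρ z).2 hz.2)
    exact ⟨g, hg, hgv, hgz, (act_mem_Cv D k ρ (h1 hg).1 hgv hz).2⟩

end CMT.J
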