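import Pool.Agent.Lib.CMT.J.Spec

/-!
# PROJECT CMT, part J : two functions with the same derivative along the curve (`S_LineC`)
-/

set_option autoImplicit false

open scoped BigOperators ComplexConjugate
open Matrix

noncomputable section

namespace CMT
namespace J

namespace LineC

/-- The parametrization of the curve. -/
def emb (k : Fin 2) (r s : ℂ) : ℂ × ℂ := if k = 0 then (r, s) else (s, r)

/-- The other coordinate. -/
def oth (k : Fin 2) (z : ℂ × ℂ) : ℂ := if k = 0 then z.2 else z.1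

theorem emb_oth (k : Fin 2) (z : ℂ × ℂ) : emb k (pk k z) (oth k z) = z := by
  unfold pk emb oth
  split_ifs <;> rfl

theorem pk_emb (k : Fin 2) (r s : ℂ) : pk k (emb k r s) = r := by
  unfold pk emb
  split_ifs <;> rfl

/-- The tangent vector. -/
def tan (k : Fin 2) : ℂ × ℂ := if k = 0 then (0, 1) else (1, 0)

theorem emb_deriv (k : Fin 2) (r s : ℂ) : HasDerivAt (emb k r) (tan k) s := by
  by_cases h : k = 0
  · have h1 : emb k r = fun s => (r, s) := by funext s; unfold emb; rw [if_pos h]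
    have h2 : tan k = (0, 1) := by unfold tan; rw [if_pos h]
    rw [h1, h2]
    exact (hasDerivAt_const s r).prodMk (hasDerivAt_id s)
  · have h1 : emb k r = fun s => (s, r) := by funext s; unfold emb; rw [if_neg h]
    have h2 : tan k = (1, 0) := by unfold tan; rw [if_neg h]
    rw [h1, h2]
    exact (hasDerivAt_id s).prodMk (hasDerivAt_const s r)

theorem lin_tan (k : Fin 2) (x y : ℂ) :
    (x • ContinuousLinearMap.fst ℂ ℂ ℂ + y • ContinuousLinearMap.snd ℂ ℂ ℂ) (tan k) =
      if k = 0 then y else x := by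
  unfold tan
  split_ifs <;> simp

theorem emb_mem_iff (b : ℝ) (k : Fin 2) (r s : ℂ) :
    emb k r s ∈ {z : ℂ × ℂ | ‖z.1‖ ^ 2 + ‖z.2‖ ^ 2 < b} ↔ ‖s‖ ^ 2 < b - ‖r‖ ^ 2 := by
  unfold emb
  split_ifs
  · show ‖r‖ ^ 2 + ‖s‖ ^ 2 < b ↔ _
    constructor <;> intro h <;> linarith
  · show ‖s‖ ^ 2 + ‖r‖ ^ 2 < b ↔ _
    constructor <;> intro h <;> linarith

end LineC

open LineC in
theorem tLineC : S_LineC := by
  intro F _ _ D k ρ A B a1 a2 b1 b2 hA hB hab z hz z' hz'
  set r : ℂ := ((D.t0 ρ : ℝ) : ℂ) with hr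
  set U : Set ℂ := {s | emb k r s ∈ Ball D} with hU
  have hUb : U = Metric.ball 0 (Real.sqrt (D.t0 D.bet - ‖r‖ ^ 2)) := by
    ext s
    rw [mem_ball_zero_iff, Real.lt_sqrt (norm_nonneg s)]
    exact emb_mem_iff (D.t0 D.bet) k r s
  have hUo : IsOpen U := by
    rw [hUb]
    exact Metric.isOpen_ball
  have hUc : IsPreconnected U := by
    rw [hUb]
    exact (convex_ball _ _).isPreconnected
  have hmem : ∀ w ∈ Cv D k ρ, oth k w ∈ U ∧ emb k r (oth k w) = w := by
    intro w hw
    have h1 : emb k r (oth k w) = w := by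
      rw [hr, ← hw.2]
      exact emb_oth k w
    refine ⟨?_, h1⟩
    show emb k r (oth k w) ∈ Ball D
    rw [h1]
    exact hw.1
  have hder : ∀ s ∈ U, HasDerivAt (fun s => A (emb k r s) - B (emb k r s)) 0 s := by
    intro s hs
    have h1 := (hA _ hs).comp_hasDerivAt s (emb_deriv k r s)
    have h2 := (hB _ hs).comp_hasDerivAt s (emb_deriv k r s)
    rw [lin_tan] at h1 h2
    have h3 := h1.sub h2
    have h4 := hab (emb k r s) ⟨hs, pk_emb k r s⟩
    rw [h4, sub_self] at h3
    exact h3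
  have hconst : ∀ s ∈ U, ∀ s' ∈ U, A (emb k r s) - B (emb k r s) = A (emb k r s') - B (emb k r s') :=
    fun s hs s' hs' => hUo.is_const_of_deriv_eq_zero hUc
      (fun x hx => (hder x hx).differentiableAt.differentiableWithinAt)
      (fun x hx => (hder x hx).deriv) hs hs'
  obtain ⟨h1, h2⟩ := hmem z hz
  obtain ⟨h3, h4⟩ := hmem z' hz'
  have h5 := hconst _ h1 _ h3
  rw [h2, h4] at h5
  exact h5

end J
end CMT
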