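import Pool.Agent.Lib.CMT.J.Spec

/-!
# PROJECT CMT, part J : the maximum principle on the curve (`S_MaxC`)
-/

set_option autoImplicit false

open scoped BigOperators ComplexConjugate
open Matrix

noncomputable section

namespace CMT
namespace J

/-- A holomorphic function whose real part has a maximum is constant. -/
theorem const_of_re_max {U : Set ℂ} (ho : IsOpen U) (hc : IsPreconnected U) {H : ℂ → ℂ}
    (hd : DifferentiableOn ℂ H U) {c : ℂ} (hcU : c ∈ U) (hm : ∀ s ∈ U, (H s).re ≤ (H c).re) :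
    ∀ s ∈ U, H s = H c := by
  have hde : DifferentiableOn ℂ (fun s => Complex.exp (H s)) U := hd.cexp
  have hmax : IsMaxOn (norm ∘ fun s => Complex.exp (H s)) U c := by
    intro s hs
    show ‖Complex.exp (H s)‖ ≤ ‖Complex.exp (H c)‖
    rw [Complex.norm_exp, Complex.norm_exp]
    exact Real.exp_le_exp.2 (hm s hs)
  have heq := Complex.eqOn_of_isPreconnected_of_isMaxOn_norm hc ho hde hcU hmax
  intro s hs
  refine ho.is_const_of_deriv_eq_zero hc hd ?_ hs hcU
  intro w hw
  have h1 : HasDerivAt H (deriv H w) w := ((hd w hw).differentiableAt (ho.mem_nhds hw)).hasDerivAt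
  have h2 : HasDerivAt (fun s => Complex.exp (H s)) (Complex.exp (H w) * deriv H w) w := h1.cexp
  have h3 : HasDerivAt (fun s => Complex.exp (H s)) 0 w := by
    have h4 : (fun s => Complex.exp (H s)) =ᶠ[nhds w] fun _ => Complex.exp (H c) :=
      Filter.eventually_of_mem (ho.mem_nhds hw) fun s hs => heq hs
    exact (hasDerivAt_const w (Complex.exp (H c))).congr_of_eventuallyEq h4
  have h5 := h2.unique h3
  exact (mul_eq_zero.1 h5).resolve_left (Complex.exp_ne_zero _)

/-- The parametrization of the curve. -/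
def cemb (k : Fin 2) (r s : ℂ) : ℂ × ℂ := if k = 0 then (r, s) else (s, r)

theorem pk_cemb (k : Fin 2) (r s : ℂ) : pk k (cemb k r s) = r := by
  unfold pk cemb
  split_ifs <;> rfl

/-- The other coordinate. -/
def ok (k : Fin 2) (z : ℂ × ℂ) : ℂ := if k = 0 then z.2 else z.1

theorem cemb_ok (k : Fin 2) (z : ℂ × ℂ) : cemb k (pk k z) (ok k z) = z := by
  unfold pk cemb ok
  split_ifs <;> rfl

theorem cemb_diff (k : Fin 2) (r : ℂ) : Differentiable ℂ (cemb k r) := by
  unfold cemb
  split_ifs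
  · exact (differentiable_const r).prodMk differentiable_id
  · exact differentiable_id.prodMk (differentiable_const r)

theorem cemb_mem_iff (b : ℝ) (k : Fin 2) (r s : ℂ) :
    cemb k r s ∈ {z : ℂ × ℂ | ‖z.1‖ ^ 2 + ‖z.2‖ ^ 2 < b} ↔ ‖s‖ ^ 2 < b - ‖r‖ ^ 2 := by
  unfold cemb
  split_ifs
  · show ‖r‖ ^ 2 + ‖s‖ ^ 2 < b ↔ _
    constructor <;> intro h <;> linarith
  · show ‖s‖ ^ 2 + ‖r‖ ^ 2 < b ↔ _
    constructor <;> intro h <;> linarith

theorem tMaxC : S_MaxC := by
  intro F _ _ D k ρ G h q hh hq hinv hcpt z hz z' hz'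
  obtain ⟨C, hC, hCs, hCg⟩ := hcpt
  set r : ℂ := ((D.t0 ρ : ℝ) : ℂ) with hr
  set U : Set ℂ := {s | cemb k r s ∈ Ball D} with hU
  have hUeq : U = {s : ℂ | ‖s‖ ^ 2 < D.t0 D.bet - ‖r‖ ^ 2} := by
    ext s
    exact cemb_mem_iff (D.t0 D.bet) k r s
  have hUo : IsOpen U := by
    rw [hUeq]
    exact isOpen_lt (by fun_prop) continuous_const
  have hUb : U = Metric.ball 0 (Real.sqrt (D.t0 D.bet - ‖r‖ ^ 2)) := by
    rw [hUeq]
    ext s
    rw [mem_ball_zero_iff, Real.lt_sqrt (norm_nonneg s)]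
    rfl
  have hUc : IsPreconnected U := by
    rw [hUb]
    exact (convex_ball _ _).isPreconnected
  have hmem : ∀ w ∈ Cv D k ρ, ok k w ∈ U ∧ cemb k r (ok k w) = w := by
    intro w hw
    have h1 : cemb k r (ok k w) = w := by
      rw [hr, ← hw.2]
      exact cemb_ok k w
    refine ⟨?_, h1⟩
    show cemb k r (ok k w) ∈ Ball D
    rw [h1]
    exact hw.1
  have hcv : ∀ s ∈ U, cemb k r s ∈ Cv D k ρ := fun s hs => ⟨hs, pk_cemb k r s⟩
  have hhU : DifferentiableOn ℂ (fun s => h (cemb k r s)) U :=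
    hh.comp (cemb_diff k r).differentiableOn fun s hs => hs
  have hqU : DifferentiableOn ℂ (fun s => q (cemb k r s)) U :=
    hq.comp (cemb_diff k r).differentiableOn fun s hs => hs
  have hCne : C.Nonempty := by
    obtain ⟨g, _, hg⟩ := hCg z hz
    exact ⟨_, hg⟩
  have hhC : ContinuousOn h C := hh.continuousOn.mono fun w hw => (hCs hw).1
  have hqC : ContinuousOn q C := hq.continuousOn.mono fun w hw => (hCs hw).1
  -- the general step: a real linear function of `h + conj q`
  have step : ∀ (H : ℂ × ℂ → ℂ), ContinuousOn H C → DifferentiableOn ℂ (fun s => H (cemb k r s)) U →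
      (∀ g ∈ G, ∀ w ∈ Cv D k ρ, (H (act D g w)).re = (H w).re) →
      ∃ c : ℂ, ∀ w ∈ Cv D k ρ, H w = c := by
    intro H hHC hHU hHinv
    obtain ⟨w₀, hw₀, hmax⟩ := hC.exists_isMaxOn hCne
      (Complex.continuous_re.comp_continuousOn hHC)
    obtain ⟨hs₀, he₀⟩ := hmem w₀ (hCs hw₀)
    have hc := const_of_re_max hUo hUc hHU hs₀ (by
      intro s hs
      obtain ⟨g, hg, hgC⟩ := hCg _ (hcv s hs)
      show (H (cemb k r s)).re ≤ (H (cemb k r (ok k w₀))).re
      rw [he₀, ← hHinv g hg _ (hcv s hs)]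
      exact hmax hgC)
    refine ⟨H w₀, fun w hw => ?_⟩
    obtain ⟨hs, he⟩ := hmem w hw
    have h1 := hc _ hs
    simp only [he, he₀] at h1
    exact h1
  obtain ⟨c₁, hc₁⟩ := step (fun w => h w + q w) (hhC.add hqC) (hhU.add hqU) (by
    intro g hg w hw
    have h1 := congrArg Complex.re (hinv g hg w hw).2
    rw [Complex.add_re, Complex.add_re, Complex.conj_re, Complex.conj_re] at h1
    show (h _ + q _).re = (h w + q w).re
    rw [Complex.add_re, Complex.add_re]
    exact h1)
  obtain ⟨c₂, hc₂⟩ := step (fun w => -Complex.I * (h w - q w))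
    (continuousOn_const.mul (hhC.sub hqC)) ((hhU.sub hqU).const_mul _) (by
    intro g hg w hw
    have h1 := congrArg Complex.im (hinv g hg w hw).2
    rw [Complex.add_im, Complex.add_im, Complex.conj_im, Complex.conj_im] at h1
    show (-Complex.I * (h _ - q _)).re = (-Complex.I * (h w - q w)).re
    simp only [Complex.mul_re, Complex.neg_re, Complex.neg_im, Complex.I_re, Complex.I_im,
      Complex.sub_im, Complex.sub_re]
    linarith)
  have key : ∀ w ∈ Cv D k ρ, q w = (c₁ - Complex.I * c₂) / 2 := by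
    intro w hw
    have h1 := hc₁ w hw
    have h2 := hc₂ w hw
    rw [← h1, ← h2]
    linear_combination -(h w - q w) / 2 * Complex.I_sq
  rw [key z hz, key z' hz']

end J
end CMT
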