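import Mathlib

/-!
# PROJECT CMT, part J3 (helper26): pluriharmonic functions on a star shaped domain of `ℂ²`

`u` of class `C²` with `D²u(e,f) + D²u(ie,if) = 0` is the sum of a holomorphic function and the conjugate of one.
-/

open scoped ComplexConjugate Topology
open MeasureTheory Set Complex

noncomputable section

namespace CMT
namespace J

/-- The derivative is complex linear: the derivative over `ℂ`. -/
theorem plu_hol {a : ℂ × ℂ → ℂ} {z : ℂ × ℂ} (ha : DifferentiableAt ℝ a z)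
    (hI : ∀ e : ℂ × ℂ, fderiv ℝ a z (I • e) = I * fderiv ℝ a z e) :
    ∃ L : ℂ × ℂ →L[ℂ] ℂ, (∀ e, L e = fderiv ℝ a z e) ∧ HasFDerivAt a L z := by
  have hL : ∀ (c : ℂ) (e : ℂ × ℂ), fderiv ℝ a z (c • e) = c * fderiv ℝ a z e := by
    intro c e
    have h1 : c • e = c.re • e + c.im • (I • e) := by
      conv_lhs => rw [← Complex.re_add_im c]
      rw [add_smul, mul_smul]
      rfl
    rw [h1, map_add, map_smul, map_smul, hI]
    conv_rhs => rw [← Complex.re_add_im c]
    simp only [Complex.real_smul]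
    ring
  refine ⟨{ toFun := fun e => fderiv ℝ a z e
            map_add' := fun x y => map_add _ x y
            map_smul' := fun c e => by
              rw [hL, RingHom.id_apply, smul_eq_mul]
            cont := (fderiv ℝ a z).continuous }, fun e => rfl, ?_⟩
  exact hasFDerivAt_of_restrictScalars ℝ ha.hasFDerivAt (by ext <;> rfl)

/-- Star shaped with respect to `0`. -/
def Star (Ω : Set (ℂ × ℂ)) : Prop := ∀ z ∈ Ω, ∀ s ∈ Icc (0 : ℝ) 1, s • z ∈ Ω

theorem star_ball (b : ℝ) : Star {z : ℂ × ℂ | ‖z.1‖ ^ 2 + ‖z.2‖ ^ 2 < b} := by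
  intro z hz s hs
  have hz' : ‖z.1‖ ^ 2 + ‖z.2‖ ^ 2 < b := hz
  show ‖(s • z).1‖ ^ 2 + ‖(s • z).2‖ ^ 2 < b
  have h : ∀ w : ℂ, ‖s • w‖ ^ 2 ≤ ‖w‖ ^ 2 := by
    intro w
    rw [norm_smul, Real.norm_of_nonneg hs.1]
    exact pow_le_pow_left₀ (mul_nonneg hs.1 (norm_nonneg w))
      (mul_le_of_le_one_left (norm_nonneg w) hs.2) 2
  have h1 := h z.1
  have h2 := h z.2
  rw [Prod.smul_fst, Prod.smul_snd]
  linarith

theorem isOpen_ball' (b : ℝ) : IsOpen {z : ℂ × ℂ | ‖z.1‖ ^ 2 + ‖z.2‖ ^ 2 < b} :=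
  isOpen_lt (by fun_prop) continuous_const

/-- The average over the segment from `0` of a holomorphic function is holomorphic. -/
theorem plu_par {Ω : Set (ℂ × ℂ)} (hΩ : IsOpen Ω) (hs : Star Ω) {a : ℂ × ℂ → ℂ}
    (ha : ContDiffOn ℝ 1 a Ω)
    (hI : ∀ z ∈ Ω, ∀ e : ℂ × ℂ, fderiv ℝ a z (I • e) = I * fderiv ℝ a z e) :
    DifferentiableOn ℂ (fun z => ∫ s in Ioc (0 : ℝ) 1, a (s • z)) Ω := by
  have hd : ∀ z ∈ Ω, HasFDerivAt a (fderiv ℝ a z) z := fun z hz =>
    ((ha.differentiableOn one_ne_zero).differentiableAt (hΩ.mem_nhds hz)).hasFDerivAt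
  have hc : ContinuousOn (fderiv ℝ a) Ω := ha.continuousOn_fderiv_of_isOpen hΩ le_rfl
  intro z0 hz0
  obtain ⟨r, hr, hball⟩ := Metric.nhds_basis_closedBall.mem_iff.1 (hΩ.mem_nhds hz0)
  have hmap : ∀ p ∈ Icc (0 : ℝ) 1 ×ˢ Metric.closedBall z0 r, p.1 • p.2 ∈ Ω := fun p hp =>
    hs p.2 (hball hp.2) p.1 hp.1
  have hcont : ContinuousOn (fun p : ℝ × (ℂ × ℂ) => fderiv ℝ a (p.1 • p.2))
      (Icc (0 : ℝ) 1 ×ˢ Metric.closedBall z0 r) :=
    hc.comp (by fun_prop) hmap
  obtain ⟨B, hB⟩ := (isCompact_Icc.prod (isCompact_closedBall z0 r)).exists_bound_of_continuousOn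
    hcont
  have hcz : ∀ z ∈ Ω, ContinuousOn (fun s : ℝ => a (s • z)) (Icc 0 1) := fun z hz =>
    ha.continuousOn.comp (by fun_prop) fun s hs' => hs z hz s hs'
  have hfz : ContinuousOn (fun s : ℝ => s • fderiv ℝ a (s • z0)) (Icc 0 1) :=
    continuousOn_id.smul (hc.comp (by fun_prop) fun s hs' => hs z0 hz0 s hs')
  have hint : IntegrableOn (fun s : ℝ => s • fderiv ℝ a (s • z0)) (Ioc 0 1) :=
    (hfz.integrableOn_Icc).mono_set Ioc_subset_Icc_self
  have hmain : HasFDerivAt (fun z => ∫ s in Ioc (0 : ℝ) 1, a (s • z))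
      (∫ s in Ioc (0 : ℝ) 1, s • fderiv ℝ a (s • z0)) z0 := by
    refine hasFDerivAt_integral_of_dominated_of_fderiv_le (bound := fun _ => |B|)
      (F' := fun z s => s • fderiv ℝ a (s • z)) (Metric.closedBall_mem_nhds z0 hr) ?_ ?_ ?_ ?_ ?_ ?_
    · filter_upwards [hΩ.mem_nhds hz0] with z hz
      exact ((hcz z hz).mono Ioc_subset_Icc_self).aestronglyMeasurable measurableSet_Ioc
    · exact ((hcz z0 hz0).integrableOn_Icc).mono_set Ioc_subset_Icc_self
    · exact hint.aestronglyMeasurable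
    · refine (ae_restrict_iff' measurableSet_Ioc).2 (Filter.Eventually.of_forall ?_)
      intro s hs' z hz
      have h1 := hB (s, z) ⟨Ioc_subset_Icc_self hs', hz⟩
      rw [norm_smul, Real.norm_of_nonneg hs'.1.le]
      refine (mul_le_of_le_one_left (norm_nonneg _) hs'.2).trans (h1.trans (le_abs_self B))
    · exact integrable_const _
    · refine (ae_restrict_iff' measurableSet_Ioc).2 (Filter.Eventually.of_forall ?_)
      intro s hs' z hz
      have h1 := hd (s • z) (hs z (hball hz) s (Ioc_subset_Icc_self hs'))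
      have h2 : HasFDerivAt (fun z : ℂ × ℂ => s • z) (s • ContinuousLinearMap.id ℝ (ℂ × ℂ)) z :=
        (hasFDerivAt_id z).const_smul s
      have h3 := h1.comp z h2
      have e : (fderiv ℝ a (s • z)).comp (s • ContinuousLinearMap.id ℝ (ℂ × ℂ)) =
          s • fderiv ℝ a (s • z) := by
        rw [ContinuousLinearMap.comp_smul, ContinuousLinearMap.comp_id]
      rw [← e]
      exact h3
  obtain ⟨L, -, hL⟩ := plu_hol hmain.differentiableAt (fun e => by
    rw [hmain.fderiv, ContinuousLinearMap.integral_apply hint, ContinuousLinearMap.integral_apply hint,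
      ← integral_const_mul]
    refine setIntegral_congr_fun measurableSet_Ioc fun s hs' => ?_
    simp only [smul_apply, Complex.real_smul]
    rw [hI _ (hs z0 hz0 s (Ioc_subset_Icc_self hs'))]
    ring)
  exact hL.differentiableAt.differentiableWithinAt

/-- **Pluriharmonic functions.** -/
theorem plu {Ω : Set (ℂ × ℂ)} (hΩ : IsOpen Ω) (hs : Star Ω) {u : ℂ × ℂ → ℂ}
    (hu : ContDiffOn ℝ 2 u Ω)
    (hL : ∀ z ∈ Ω, ∀ e f : ℂ × ℂ,
      fderiv ℝ (fderiv ℝ u) z e f + fderiv ℝ (fderiv ℝ u) z (I • e) (I • f) = 0) :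
    ∃ p q : ℂ × ℂ → ℂ, DifferentiableOn ℂ p Ω ∧ DifferentiableOn ℂ q Ω ∧
      ∀ z ∈ Ω, u z = p z + conj (q z) := by
  have hu1 : ContDiffOn ℝ 1 (fderiv ℝ u) Ω := hu.fderiv_of_isOpen hΩ (by norm_num)
  have hud : ∀ z ∈ Ω, HasFDerivAt u (fderiv ℝ u z) z := fun z hz =>
    ((hu.differentiableOn two_ne_zero).differentiableAt (hΩ.mem_nhds hz)).hasFDerivAt
  have hdd : ∀ z ∈ Ω, HasFDerivAt (fderiv ℝ u) (fderiv ℝ (fderiv ℝ u) z) z := fun z hz =>
    ((hu1.differentiableOn one_ne_zero).differentiableAt (hΩ.mem_nhds hz)).hasFDerivAt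
  have hL2 : ∀ z ∈ Ω, ∀ e f : ℂ × ℂ,
      fderiv ℝ (fderiv ℝ u) z (I • e) f = fderiv ℝ (fderiv ℝ u) z e (I • f) := by
    intro z hz e f
    have h := hL z hz e (I • f)
    rw [smul_smul, Complex.I_mul_I, neg_one_smul, map_neg] at h
    linear_combination -h
  -- the derivatives
  have hgen : ∀ (c : ℂ) (f : ℂ × ℂ), ContDiffOn ℝ 1
      (fun w => (1 / 2 : ℂ) * (fderiv ℝ u w f + c * fderiv ℝ u w (I • f))) Ω := by
    intro c f
    exact contDiffOn_const.mul ((hu1.clm_apply contDiffOn_const).add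
      (contDiffOn_const.mul (hu1.clm_apply contDiffOn_const)))
  have hfd : ∀ (c : ℂ) (f : ℂ × ℂ), ∀ z ∈ Ω, ∀ e,
      fderiv ℝ (fun w => (1 / 2 : ℂ) * (fderiv ℝ u w f + c * fderiv ℝ u w (I • f))) z e =
        (1 / 2 : ℂ) * (fderiv ℝ (fderiv ℝ u) z e f + c * fderiv ℝ (fderiv ℝ u) z e (I • f)) := by
    intro c f z hz e
    have h1 : ∀ f : ℂ × ℂ, HasFDerivAt (fun w => fderiv ℝ u w f)
        ((ContinuousLinearMap.apply ℝ ℂ f).comp (fderiv ℝ (fderiv ℝ u) z)) z := fun f =>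
      (ContinuousLinearMap.apply ℝ ℂ f).hasFDerivAt.comp z (hdd z hz)
    have h2 := (((h1 f).add ((h1 (I • f)).const_mul c)).const_mul (1 / 2 : ℂ))
    have h3 : fderiv ℝ (fun w => (1 / 2 : ℂ) * (fderiv ℝ u w f + c * fderiv ℝ u w (I • f))) z = _ :=
      h2.fderiv
    rw [h3]
    simp
    ring
  have hhol : ∀ f : ℂ × ℂ, DifferentiableOn ℂ
      (fun z => ∫ s in Ioc (0 : ℝ) 1,
        (1 / 2 : ℂ) * (fderiv ℝ u (s • z) f + (-I) * fderiv ℝ u (s • z) (I • f))) Ω := by
    intro f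
    refine plu_par hΩ hs (hgen (-I) f) fun z hz e => ?_
    rw [hfd _ _ z hz, hfd _ _ z hz, hL2 z hz e f]
    have h := hL z hz e f
    have h3 : fderiv ℝ (fderiv ℝ u) z (I • e) (I • f) = -fderiv ℝ (fderiv ℝ u) z e f := by
      linear_combination h
    rw [h3]
    linear_combination ((1 / 2 : ℂ) * fderiv ℝ (fderiv ℝ u) z e (I • f)) * Complex.I_sq
  have hanti : ∀ f : ℂ × ℂ, DifferentiableOn ℂ
      (fun z => ∫ s in Ioc (0 : ℝ) 1,
        conj ((1 / 2 : ℂ) * (fderiv ℝ u (s • z) f + I * fderiv ℝ u (s • z) (I • f)))) Ω := by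
    intro f
    refine plu_par (a := fun w => conj ((1 / 2 : ℂ) * (fderiv ℝ u w f + I * fderiv ℝ u w (I • f))))
      hΩ hs (Complex.conjCLE.contDiff.comp_contDiffOn (hgen I f)) fun z hz e => ?_
    have hd : HasFDerivAt (fun w => (1 / 2 : ℂ) * (fderiv ℝ u w f + I * fderiv ℝ u w (I • f)))
        (fderiv ℝ (fun w => (1 / 2 : ℂ) * (fderiv ℝ u w f + I * fderiv ℝ u w (I • f))) z) z :=
      (((hgen I f).differentiableOn one_ne_zero).differentiableAt (hΩ.mem_nhds hz)).hasFDerivAt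
    have hd2 := (Complex.conjCLE.toContinuousLinearMap.hasFDerivAt.comp z hd)
    have hd3 : fderiv ℝ (fun w => conj ((1 / 2 : ℂ) * (fderiv ℝ u w f + I * fderiv ℝ u w (I • f)))) z =
        Complex.conjCLE.toContinuousLinearMap.comp
          (fderiv ℝ (fun w => (1 / 2 : ℂ) * (fderiv ℝ u w f + I * fderiv ℝ u w (I • f))) z) :=
      hd2.fderiv
    rw [hd3]
    simp only [ContinuousLinearMap.comp_apply]
    rw [hfd _ _ z hz, hfd _ _ z hz, hL2 z hz e f]
    have h := hL z hz e f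
    have h3 : fderiv ℝ (fderiv ℝ u) z (I • e) (I • f) = -fderiv ℝ (fderiv ℝ u) z e f := by
      linear_combination h
    rw [h3]
    show conj ((1 / 2 : ℂ) * (fderiv ℝ (fderiv ℝ u) z e (I • f) + I * -fderiv ℝ (fderiv ℝ u) z e f)) =
      I * conj ((1 / 2 : ℂ) * (fderiv ℝ (fderiv ℝ u) z e f + I * fderiv ℝ (fderiv ℝ u) z e (I • f)))
    simp only [map_mul, map_add, map_neg, Complex.conj_I]
    linear_combination (conj (1 / 2 : ℂ) * conj (fderiv ℝ (fderiv ℝ u) z e (I • f))) * Complex.I_sq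
  -- continuity on segments
  have hseg : ∀ (a : ℂ × ℂ → ℂ), ContinuousOn a Ω → ∀ z ∈ Ω,
      IntegrableOn (fun s : ℝ => a (s • z)) (Ioc 0 1) := by
    intro a ha z hz
    have h1 : ContinuousOn (fun s : ℝ => a (s • z)) (Icc 0 1) :=
      ha.comp (by fun_prop) fun s hs' => hs z hz s hs'
    exact h1.integrableOn_Icc.mono_set Ioc_subset_Icc_self
  set e1 : ℂ × ℂ := (1, 0) with he1
  set e2 : ℂ × ℂ := (0, 1) with he2
  set a : ℂ × ℂ → ℂ × ℂ → ℂ := fun f w =>
    (1 / 2 : ℂ) * (fderiv ℝ u w f + (-I) * fderiv ℝ u w (I • f)) with ha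
  set c : ℂ × ℂ → ℂ × ℂ → ℂ := fun f w =>
    conj ((1 / 2 : ℂ) * (fderiv ℝ u w f + I * fderiv ℝ u w (I • f))) with hc
  refine ⟨fun z => z.1 * (∫ s in Ioc (0 : ℝ) 1, a e1 (s • z)) +
      z.2 * (∫ s in Ioc (0 : ℝ) 1, a e2 (s • z)) + u 0,
    fun z => z.1 * (∫ s in Ioc (0 : ℝ) 1, c e1 (s • z)) +
      z.2 * (∫ s in Ioc (0 : ℝ) 1, c e2 (s • z)), ?_, ?_, ?_⟩
  · exact ((differentiable_fst.differentiableOn.mul (hhol e1)).add
      (differentiable_snd.differentiableOn.mul (hhol e2))).add (differentiableOn_const _)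
  · exact (differentiable_fst.differentiableOn.mul (hanti e1)).add
      (differentiable_snd.differentiableOn.mul (hanti e2))
  intro z hz
  have hca : ∀ f, ContinuousOn (a f) Ω := fun f => (hgen (-I) f).continuousOn
  have hcc : ∀ f, ContinuousOn (c f) Ω := fun f =>
    Complex.continuous_conj.comp_continuousOn (hgen I f).continuousOn
  -- the derivative along the segment
  have hdec : ∀ w, fderiv ℝ u w z = z.1 * a e1 w + z.2 * a e2 w +
      conj (z.1 * c e1 w + z.2 * c e2 w) := by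
    intro w
    have h1 : z = z.1.re • e1 + z.1.im • (I • e1) + (z.2.re • e2 + z.2.im • (I • e2)) := by
      apply Prod.ext
      · simp [he1, he2, mul_comm Complex.I, Complex.re_add_im]
      · simp [he1, he2, mul_comm Complex.I, Complex.re_add_im]
    have h2 : fderiv ℝ u w z = (z.1.re : ℂ) * fderiv ℝ u w e1 + (z.1.im : ℂ) * fderiv ℝ u w (I • e1) +
        ((z.2.re : ℂ) * fderiv ℝ u w e2 + (z.2.im : ℂ) * fderiv ℝ u w (I • e2)) := by
      conv_lhs => rw [h1]
      simp only [map_add, map_smul, Complex.real_smul]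
    rw [h2]
    simp only [ha, hc, map_add, map_mul, Complex.conj_conj]
    have h3 : ∀ w : ℂ, conj w = w.re - w.im * I := fun w => by
      apply Complex.ext <;> simp
    have h4 : ∀ (w A B : ℂ), (w.re : ℂ) * A + (w.im : ℂ) * B =
        w * ((1 / 2 : ℂ) * (A + (-I) * B)) + conj w * ((1 / 2 : ℂ) * (A + I * B)) := by
      intro w A B
      rw [h3 w]
      conv_rhs => rw [← Complex.re_add_im w]
      simp only [Complex.add_re, Complex.add_im, Complex.ofReal_re, Complex.ofReal_im, Complex.mul_re,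
        Complex.mul_im, Complex.I_re, Complex.I_im, mul_zero, mul_one, sub_self, add_zero, zero_add]
      linear_combination ((w.im : ℂ) * B) * Complex.I_sq
    rw [h4, h4]
    ring
  have hftc : ∫ s in (0 : ℝ)..1, fderiv ℝ u (s • z) z = u ((1 : ℝ) • z) - u ((0 : ℝ) • z) := by
    refine intervalIntegral.integral_eq_sub_of_hasDerivAt (f := fun s : ℝ => u (s • z)) ?_ ?_
    · intro s hs'
      rw [uIcc_of_le zero_le_one] at hs'
      have h1 := (hud (s • z) (hs z hz s hs')).comp_hasDerivAt s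
        ((hasDerivAt_id s).smul_const z)
      rw [one_smul] at h1
      exact h1
    · rw [intervalIntegrable_iff_integrableOn_Ioc_of_le zero_le_one]
      have h1 : ContinuousOn (fun s : ℝ => fderiv ℝ u (s • z) z) (Icc 0 1) :=
        (hu1.continuousOn.comp (by fun_prop) fun s hs' => hs z hz s hs').clm_apply continuousOn_const
      exact h1.integrableOn_Icc.mono_set Ioc_subset_Icc_self
  rw [one_smul, zero_smul, intervalIntegral.integral_of_le zero_le_one] at hftc
  have hI1 := hseg (a e1) (hca e1) z hz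
  have hI2 := hseg (a e2) (hca e2) z hz
  have hI3 := hseg (c e1) (hcc e1) z hz
  have hI4 := hseg (c e2) (hcc e2) z hz
  have hsum : ∫ s in Ioc (0 : ℝ) 1, fderiv ℝ u (s • z) z =
      z.1 * (∫ s in Ioc (0 : ℝ) 1, a e1 (s • z)) + z.2 * (∫ s in Ioc (0 : ℝ) 1, a e2 (s • z)) +
      conj (z.1 * (∫ s in Ioc (0 : ℝ) 1, c e1 (s • z)) +
        z.2 * (∫ s in Ioc (0 : ℝ) 1, c e2 (s • z))) := by
    rw [← integral_const_mul, ← integral_const_mul, ← integral_const_mul, ← integral_const_mul,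
      ← integral_add (hI1.const_mul _) (hI2.const_mul _),
      ← integral_add (hI3.const_mul _) (hI4.const_mul _), ← integral_conj, ← integral_add]
    · exact integral_congr_ae (Filter.Eventually.of_forall fun s => hdec (s • z))
    · exact (hI1.const_mul _).add (hI2.const_mul _)
    · exact Complex.conjCLE.toContinuousLinearMap.integrable_comp
        ((hI3.const_mul _).add (hI4.const_mul _))
  rw [hsum] at hftc
  linear_combination -hftc

end J
end CMT
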