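import Pool.Agent.Lib.CMT.J.DerTwo
import Pool.Agent.Lib.CMT.C.Om
import Pool.Agent.Lib.CMT.B.Rei
import Pool.Agent.Lib.CMT.B.Phz
import Pool.Agent.Lib.CMT.B.ExpS
import Pool.Agent.Lib.CMT.B.Hz
import Pool.Agent.Lib.CMT.B.Card

/-!
# PROJECT CMT, part J1: the moments of the theta series

`pr x v = Σ_t Σ_i t(x_i) v_t i`; `Tb z v v' = Σ_x φ(x) exp(-E_x) pr x v pr x v'`,
`th0 z = Σ_x φ(x) exp(-E_x)`.
-/

set_option autoImplicit false

open scoped BigOperators ComplexConjugate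
open Matrix NumberField

noncomputable section

namespace CMT.J

open CMT.B

variable {F : Type} [Field F] [NumberField F]

/-- The pairing with a vector of `∏_t ℂ³`. -/
def pr (x : Fin 3 → F) (v : (F →+* ℝ) → Fin 3 → ℂ) : ℂ :=
  ∑ t : F →+* ℝ, ∑ i, ((t (x i) : ℝ) : ℂ) * v t i

theorem pr_add (x : Fin 3 → F) (v w : (F →+* ℝ) → Fin 3 → ℂ) :
    pr x (v + w) = pr x v + pr x w := by
  unfold pr
  rw [← Finset.sum_add_distrib]
  refine Finset.sum_congr rfl fun t _ => ?_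
  rw [← Finset.sum_add_distrib]
  refine Finset.sum_congr rfl fun i _ => ?_
  show _ * (v t i + w t i) = _
  ring

theorem pr_smul (x : Fin 3 → F) (c : ℂ) (v : (F →+* ℝ) → Fin 3 → ℂ) :
    pr x (c • v) = c * pr x v := by
  unfold pr
  rw [Finset.mul_sum]
  refine Finset.sum_congr rfl fun t _ => ?_
  rw [Finset.mul_sum]
  refine Finset.sum_congr rfl fun i _ => ?_
  show _ * (c * v t i) = _
  ring

/-- A vector supported at one place. -/
def at_ (t : F →+* ℝ) (u : Fin 3 → ℂ) : (F →+* ℝ) → Fin 3 → ℂ :=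
  fun s => if s = t then u else 0

theorem at_same (t : F →+* ℝ) (u : Fin 3 → ℂ) : at_ t u t = u := by
  unfold at_
  rw [if_pos rfl]

theorem at_ne {s t : F →+* ℝ} (h : s ≠ t) (u : Fin 3 → ℂ) : at_ t u s = 0 := by
  unfold at_
  rw [if_neg h]

theorem pr_at (x : Fin 3 → F) (t : F →+* ℝ) (u : Fin 3 → ℂ) :
    pr x (at_ t u) = ∑ i, ((t (x i) : ℝ) : ℂ) * u i := by
  unfold pr
  rw [Finset.sum_eq_single t]
  · rw [at_same]
  · intro s _ hs
    rw [at_ne hs]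
    exact Finset.sum_eq_zero fun i _ => mul_zero _
  · intro h
    exact absurd (Finset.mem_univ _) h

theorem norm_pr_le (v : (F →+* ℝ) → Fin 3 → ℂ) :
    ∃ C : ℝ, 0 ≤ C ∧ ∀ x : Fin 3 → F, ‖pr x v‖ ≤ C * (1 + nrm x) := by
  refine ⟨∑ t : F →+* ℝ, ∑ i, ‖v t i‖, by positivity, fun x => ?_⟩
  unfold pr
  refine (norm_sum_le _ _).trans ?_
  rw [Finset.sum_mul]
  refine Finset.sum_le_sum fun t _ => ?_
  refine (norm_sum_le _ _).trans ?_
  rw [Finset.sum_mul]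
  refine Finset.sum_le_sum fun i _ => ?_
  rw [norm_mul, Complex.norm_real, Real.norm_eq_abs, mul_comm]
  refine mul_le_mul_of_nonneg_left ?_ (norm_nonneg _)
  have h1 := sq_le_nrm x t i
  have h2 : |t (x i)| ≤ 1 + (t (x i)) ^ 2 := by
    rw [← sq_abs]
    nlinarith [sq_nonneg (|t (x i)| - 1), abs_nonneg (t (x i))]
  linarith

section sums

variable [IsTotallyReal F] (D : Dat F) {a : F} (ha : a ≠ 0) {N : ℕ} (hN : 0 < N)
  {φ : (Fin 3 → F) → ℂ} (hφ : SB N φ) {z : ℂ × ℂ} (hz : z ∈ Ball D)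

include ha hN hφ hz

theorem sum_gen (k : ℕ) (f : (Fin 3 → F) → ℂ) (C : ℝ)
    (hf : ∀ x, ‖f x‖ ≤ C * (1 + nrm x) ^ k) :
    Summable fun x : Fin 3 → F => ‖φ x * tm1 D a x z * f x‖ := by
  obtain ⟨ρ, hρ0, hρ1, hzρ⟩ := exists_rho_of_mem D.bet_pos hz
  obtain ⟨c, hc, h1⟩ := norm_tm1_le D ha hρ0.le hρ1
  have hs := (hφ.summable hN k c hc).mul_left C
  refine hs.of_nonneg_of_le (fun _ => norm_nonneg _) fun x => ?_
  rw [norm_mul, norm_mul]
  calc ‖φ x‖ * ‖tm1 D a x z‖ * ‖f x‖ ≤ ‖φ x‖ * Real.exp (-c * nrm x) * (C * (1 + nrm x) ^ k) := by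
        refine mul_le_mul (mul_le_mul_of_nonneg_left (h1 z hzρ x) (norm_nonneg _)) (hf x)
          (norm_nonneg _) (by positivity)
    _ = _ := by ring

theorem sum_two (v w : (F →+* ℝ) → Fin 3 → ℂ) :
    Summable fun x : Fin 3 → F => φ x * tm1 D a x z * (pr x v * pr x w) := by
  obtain ⟨C, hC, h1⟩ := norm_pr_le v
  obtain ⟨C', hC', h2⟩ := norm_pr_le w
  refine (sum_gen D ha hN hφ hz 2 (fun x => pr x v * pr x w) (C * C') fun x => ?_).of_norm
  have h3 : 0 ≤ nrm x := nrm_nonneg x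
  show ‖pr x v * pr x w‖ ≤ _
  rw [norm_mul]
  calc ‖pr x v‖ * ‖pr x w‖ ≤ (C * (1 + nrm x)) * (C' * (1 + nrm x)) :=
        mul_le_mul (h1 x) (h2 x) (norm_nonneg _) (by positivity)
    _ = _ := by ring

theorem sum_zero : Summable fun x : Fin 3 → F => φ x * tm1 D a x z := by
  have h := (sum_gen D ha hN hφ hz 0 (fun _ => 1) 1 fun x => by simp).of_norm
  simpa using h

end sums

/-- The second moments. -/
def Tb (D : Dat F) (a : F) (φ : (Fin 3 → F) → ℂ) (z : ℂ × ℂ) (v w : (F →+* ℝ) → Fin 3 → ℂ) : ℂ :=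
  ∑' x : Fin 3 → F, φ x * tm1 D a x z * (pr x v * pr x w)

/-- The theta series. -/
def th0 (D : Dat F) (a : F) (φ : (Fin 3 → F) → ℂ) (z : ℂ × ℂ) : ℂ :=
  ∑' x : Fin 3 → F, φ x * tm1 D a x z

theorem Tb_comm (D : Dat F) (a : F) (φ : (Fin 3 → F) → ℂ) (z : ℂ × ℂ)
    (v w : (F →+* ℝ) → Fin 3 → ℂ) : Tb D a φ z v w = Tb D a φ z w v := by
  unfold Tb
  exact tsum_congr fun x => by ring

section bil

variable [IsTotallyReal F] (D : Dat F) {a : F} (ha : a ≠ 0) {N : ℕ} (hN : 0 < N)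
  {φ : (Fin 3 → F) → ℂ} (hφ : SB N φ) {z : ℂ × ℂ} (hz : z ∈ Ball D)

include ha hN hφ hz

theorem Tb_add (v w w' : (F →+* ℝ) → Fin 3 → ℂ) :
    Tb D a φ z v (w + w') = Tb D a φ z v w + Tb D a φ z v w' := by
  unfold Tb
  rw [← (sum_two D ha hN hφ hz v w).tsum_add (sum_two D ha hN hφ hz v w')]
  refine tsum_congr fun x => ?_
  rw [pr_add]
  ring

theorem Tb_smul (v w : (F →+* ℝ) → Fin 3 → ℂ) (c : ℂ) :
    Tb D a φ z v (c • w) = c * Tb D a φ z v w := by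
  unfold Tb
  rw [← tsum_mul_left]
  refine tsum_congr fun x => ?_
  rw [pr_smul]
  ring

theorem Tb_diag (v w : (F →+* ℝ) → Fin 3 → ℂ) :
    Tb D a φ z (v + w) (v + w) = Tb D a φ z v v + 2 * Tb D a φ z v w + Tb D a φ z w w := by
  rw [Tb_add D ha hN hφ hz, Tb_comm D a φ z (v + w) v, Tb_comm D a φ z (v + w) w,
    Tb_add D ha hN hφ hz, Tb_add D ha hN hφ hz, Tb_comm D a φ z w v]
  ring

end bil

theorem qq_pr (N : ℕ) (v : (F →+* ℝ) → Fin 3 → ℂ) (m : Ix F → ℤ) :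
    qq N (Ew v) m = 2 * Real.pi * Complex.I * pr (xm N m) v := by
  have h : (∑ p, (m p : ℂ) * Ew v p) / N = pr (xm N m) v := by
    unfold pr Ew
    simp_rw [Finset.mul_sum]
    rw [Finset.sum_comm, Finset.sum_div]
    refine Finset.sum_congr rfl fun t _ => ?_
    rw [Fintype.sum_prod_type, Finset.sum_div]
    refine Finset.sum_congr rfl fun i _ => ?_
    have h : (t (xm N m i) : ℝ) = (N : ℝ)⁻¹ * ∑ j, ((m (i, j) : ℤ) : ℝ) * t (eb F j) := by
      unfold xm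
      rw [map_mul, map_inv₀, map_natCast, map_sum]
      congr 1
      refine Finset.sum_congr rfl fun j _ => ?_
      rw [map_mul, map_intCast]
    rw [h, Complex.ofReal_mul, Complex.ofReal_sum, Complex.ofReal_inv, Complex.ofReal_natCast,
      div_eq_inv_mul, mul_assoc, Finset.sum_mul]
    congr 1
    refine Finset.sum_congr rfl fun j _ => ?_
    rw [Complex.ofReal_mul, Complex.ofReal_intCast]
    ring
  unfold qq
  rw [mul_div_assoc, h]

section der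

variable [IsTotallyReal F] (D : Dat F) {a : F} (ha : 0 < D.t0 a) {N : ℕ} (hN : 0 < N)
  {φ : (Fin 3 → F) → ℂ} (hφ : SB N φ) {z : ℂ × ℂ} (hz : z ∈ Ball D)

include ha hN hφ hz

theorem th_zero : th N (phZ N φ) (ZZ D a z) 0 = th0 D a φ z := by
  unfold th0 th
  rw [(pRei F N hN).2.2 (fun x => φ x * tm1 D a x z)
      (fun x hx => hφ.1 x (left_ne_zero_of_mul hx))]
  refine tsum_congr fun m => ?_
  rw [pPhz F N hN φ hφ m, pExp F D a ha N hN z hz m]
  unfold tm1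
  simp

theorem der_two (v : (F →+* ℝ) → Fin 3 → ℂ) :
    ∃ f1 : ℂ → ℂ, (∀ τ : ℂ, ‖τ‖ < 1 →
      HasDerivAt (fun τ : ℂ => th N (phZ N φ) (ZZ D a z) (τ • Ew v)) (f1 τ) τ) ∧
      HasDerivAt f1 ((2 * Real.pi * Complex.I) ^ 2 * Tb D a φ z v v) 0 := by
  obtain ⟨hsym, hpos⟩ := pHz pCard F D a ha z hz
  obtain ⟨f1, h1, h2⟩ := derTwo hN hsym hpos (phZ N φ) (Ew v)
  refine ⟨f1, h1, ?_⟩
  refine h2.congr_deriv ?_
  unfold Tb
  rw [(pRei F N hN).2.2 (fun x => φ x * tm1 D a x z * (pr x v * pr x v))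
      (fun x hx => hφ.1 x (left_ne_zero_of_mul (left_ne_zero_of_mul hx))), ← tsum_mul_left]
  refine tsum_congr fun m => ?_
  rw [pPhz F N hN φ hφ m, pExp F D a ha N hN z hz m, qq_pr]
  unfold tm1
  ring

end der

/-- Second derivatives of two functions related by a Gaussian factor. -/
theorem second {G G' f1 f1' : ℂ → ℂ} {A A' c p q : ℂ}
    (h1 : ∀ τ : ℂ, ‖τ‖ < 1 → HasDerivAt G (f1 τ) τ) (h2 : HasDerivAt f1 A 0)
    (h1' : ∀ τ : ℂ, ‖τ‖ < 1 → HasDerivAt G' (f1' τ) τ) (h2' : HasDerivAt f1' A' 0)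
    (he : ∀ τ : ℂ, G' τ = c * Complex.exp (-(p * (τ ^ 2 * q))) * G τ) :
    A' = c * (A - 2 * p * q * G 0) := by
  have hexp : ∀ τ : ℂ, HasDerivAt (fun τ : ℂ => c * Complex.exp (-(p * (τ ^ 2 * q))))
      (c * Complex.exp (-(p * (τ ^ 2 * q))) * (-(2 * p * q * τ))) τ := by
    intro τ
    have e1 : HasDerivAt (fun τ : ℂ => -(p * (τ ^ 2 * q))) (-(2 * p * q * τ)) τ := by
      have e2 := (((hasDerivAt_pow 2 τ).mul_const q).const_mul p).fun_neg
      refine e2.congr_deriv ?_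
      push_cast
      ring
    refine (e1.cexp.const_mul c).congr_deriv ?_
    ring
  have hf : ∀ τ : ℂ, ‖τ‖ < 1 → f1' τ = c * Complex.exp (-(p * (τ ^ 2 * q))) * (-(2 * p * q * τ)) * G τ
      + c * Complex.exp (-(p * (τ ^ 2 * q))) * f1 τ := by
    intro τ hτ
    have k1 := (hexp τ).mul (h1 τ hτ)
    have k2 : HasDerivAt G' (c * Complex.exp (-(p * (τ ^ 2 * q))) * (-(2 * p * q * τ)) * G τ
        + c * Complex.exp (-(p * (τ ^ 2 * q))) * f1 τ) τ := by
      have e : G' = fun τ : ℂ => c * Complex.exp (-(p * (τ ^ 2 * q))) * G τ := funext he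
      rw [e]
      exact k1
    exact (h1' τ hτ).unique k2
  have k3 : HasDerivAt (fun τ : ℂ => c * Complex.exp (-(p * (τ ^ 2 * q))) * (-(2 * p * q * τ)) * G τ
      + c * Complex.exp (-(p * (τ ^ 2 * q))) * f1 τ) (c * (A - 2 * p * q * G 0)) 0 := by
    have m1 : HasDerivAt (fun τ : ℂ => -(2 * p * q * τ)) (-(2 * p * q)) 0 := by
      have := ((hasDerivAt_id (0 : ℂ)).const_mul (2 * p * q)).fun_neg
      simpa using this
    have m2 := ((hexp 0).mul m1).mul (h1 0 (by simp))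
    have m3 := (hexp 0).mul h2
    refine (m2.add m3).congr_deriv ?_
    simp
    ring
  have k4 : HasDerivAt f1' (c * (A - 2 * p * q * G 0)) 0 := by
    refine k3.congr_of_eventuallyEq ?_
    have : Metric.ball (0 : ℂ) 1 ∈ nhds (0 : ℂ) := Metric.ball_mem_nhds _ one_pos
    filter_upwards [this] with τ hτ
    exact hf τ (by simpa using hτ)
  exact h2'.unique k4

end CMT.J
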