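import Pool.Agent.Lib.CMT.B.Rel
import Pool.Agent.Lib.CMT.B.Loc
import Pool.Agent.Lib.CMT.B.Lat
import Pool.Agent.Lib.CMT.B.CXY
import Pool.Agent.Lib.CMT.B.EwS
import Pool.Agent.Lib.CMT.B.EXs
import Pool.Agent.Lib.CMT.B.TrS
import Pool.Agent.Lib.CMT.B.Card
import Pool.Agent.Lib.CMT.B.Hz
import Pool.Agent.Lib.CMT.A.A3F

/-!
# PROJECT CMT, part J1: the transformation of the theta series under `g`, all data at once

`v = (x, y)`, `x, y ∈ F³`; `X = cX x`, `W = Ew (Wt D a z x y)`.  With the matrices of `S_Rel`,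
`Θ(τ) = exp (π i τ² X ⬝ W) th (Z, τ W)` is multiplied by the scalar `c` when `(z, v)` is replaced by
`(g z, g v)`.
-/

set_option autoImplicit false

open scoped BigOperators
open Matrix NumberField

noncomputable section

namespace CMT.J

open CMT.B CMT.B.RelAux

/-- The integral matrices attached to `g`. -/
def LatRel {F : Type} [Field F] [NumberField F] (D : Dat F) (a : F) (g : SG D)
    (al be ga de : Matrix (Ix F) (Ix F) ℤ) : Prop :=
  ∀ x y : Fin 3 → F,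
    cX (gx D g x y) = al.map (Int.cast : ℤ → ℚ) *ᵥ cX x + be.map (Int.cast : ℤ → ℚ) *ᵥ cY D a y ∧
    cY D a (gy D g x y)
      = ga.map (Int.cast : ℤ → ℚ) *ᵥ cX x + de.map (Int.cast : ℤ → ℚ) *ᵥ cY D a y

theorem relX (F : Type) [Field F] [NumberField F] [IsTotallyReal F] (D : Dat F) (a : F)
    (ha : 0 < D.t0 a) (M : ℕ) (hM : 0 < M) :
    ∃ n : ℕ, 0 < n ∧ ∀ g ∈ Gam D n, ∃ al be ga de : Matrix (Ix F) (Ix F) ℤ,
      fromBlocks al be ga de ∈ symplecticGroup (Ix F) ℤ ∧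
      (∃ G : Matrix (Ix F ⊕ Ix F) (Ix F ⊕ Ix F) ℤ, fromBlocks al be ga de = 1 + (M : ℤ) • G) ∧
      LatRel D a g al be ga de ∧
      ∀ z ∈ Ball D, ∃ NN : Matrix (Ix F) (Ix F) ℂ,
        ZZ D a (CMT.act D g z) * be.map (Int.cast : ℤ → ℂ) + de.map (Int.cast : ℤ → ℂ) = NN ∧
        ZZ D a (CMT.act D g z) * al.map (Int.cast : ℤ → ℂ) + ga.map (Int.cast : ℤ → ℂ)
          = NN * ZZ D a z ∧
        NN.det * (num D g z 2 ^ 2 * mm (D.t0 D.bet) (CMT.act D g z)) = mm (D.t0 D.bet) z ∧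
        ∀ w, NN *ᵥ Ew w = Ew fun t => NNt D a g z t *ᵥ w t := by
  have hLoc := pLoc
  have hDet := pDet
  have hEX := pEX pTr
  have hEw := pEw pCard
  have hcXY := pcXY
  have hLat := pLat pcXY
  have ha0 : a ≠ 0 := by
    rintro rfl
    simp at ha
  obtain ⟨n, hn, hg'⟩ := hLat F D a ha0 M hM
  refine ⟨n, hn, fun g hg => ?_⟩
  obtain ⟨al, be, ga, de, hsp, hG, hrel⟩ := hg' g hg
  refine ⟨al, be, ga, de, hsp, hG, hrel, fun z hz => ?_⟩
  obtain ⟨NN, hNN, hdet⟩ := hEw F (NNt D a g z)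
  obtain ⟨hXs, hYs⟩ := hcXY F D a ha0
  have main : ∀ x y : Fin 3 → F,
      ZZ D a (CMT.act D g z) *ᵥ (al.map (Int.cast : ℤ → ℂ) *ᵥ (fun p => ((cX x p : ℚ) : ℂ))
          + be.map (Int.cast : ℤ → ℂ) *ᵥ (fun p => ((cY D a y p : ℚ) : ℂ)))
        + (ga.map (Int.cast : ℤ → ℂ) *ᵥ (fun p => ((cX x p : ℚ) : ℂ))
          + de.map (Int.cast : ℤ → ℂ) *ᵥ (fun p => ((cY D a y p : ℚ) : ℂ)))
      = NN *ᵥ (ZZ D a z *ᵥ (fun p => ((cX x p : ℚ) : ℂ)) + fun p => ((cY D a y p : ℚ) : ℂ)) := by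
    intro x y
    have e1 := hEX F D a (CMT.act D g z) (gx D g x y) (gy D g x y)
    have e2 := hEX F D a z x y
    have e3 : (fun t => NNt D a g z t *ᵥ Wt D a z x y t)
        = Wt D a (CMT.act D g z) (gx D g x y) (gy D g x y) := by
      funext t
      exact (hLoc F D a ha g hg.1 z hz x y t).symm
    have e4 := hNN (Wt D a z x y)
    rw [e3, ← e1, ← e2] at e4
    have e5 : (fun q => ((cX (gx D g x y) q : ℚ) : ℂ))
        = al.map (Int.cast : ℤ → ℂ) *ᵥ (fun p => ((cX x p : ℚ) : ℂ))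
          + be.map (Int.cast : ℤ → ℂ) *ᵥ (fun p => ((cY D a y p : ℚ) : ℂ)) := by
      rw [(hrel x y).1, ← cast_mulVec, ← cast_mulVec]
      funext p
      simp
    have e6 : (fun q => ((cY D a (gy D g x y) q : ℚ) : ℂ))
        = ga.map (Int.cast : ℤ → ℂ) *ᵥ (fun p => ((cX x p : ℚ) : ℂ))
          + de.map (Int.cast : ℤ → ℂ) *ᵥ (fun p => ((cY D a y p : ℚ) : ℂ)) := by
      rw [(hrel x y).2, ← cast_mulVec, ← cast_mulVec]
      funext p
      simp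
    have e7 : (fun p => (Zb (Zt D a z) *ᵥ fun q => ((cX x q : ℚ) : ℂ)) p + ((cY D a y p : ℚ) : ℂ))
        = ZZ D a z *ᵥ (fun p => ((cX x p : ℚ) : ℂ)) + fun p => ((cY D a y p : ℚ) : ℂ) := rfl
    have e8 : (fun p => (Zb (Zt D a (CMT.act D g z)) *ᵥ fun q => ((cX (gx D g x y) q : ℚ) : ℂ)) p
          + ((cY D a (gy D g x y) p : ℚ) : ℂ))
        = ZZ D a (CMT.act D g z) *ᵥ (fun p => ((cX (gx D g x y) p : ℚ) : ℂ))
          + fun p => ((cY D a (gy D g x y) p : ℚ) : ℂ) := rfl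
    rw [e7, e8, e5, e6] at e4
    exact e4.symm
  have hX0 : (fun p => ((cX (0 : Fin 3 → F) p : ℚ) : ℂ)) = 0 := by
    funext p
    simp [cX]
  have hY0 : (fun p => ((cY D a (0 : Fin 3 → F) p : ℚ) : ℂ)) = 0 := by
    funext p
    simp [cY]
  have r1 : ZZ D a (CMT.act D g z) * be.map (Int.cast : ℤ → ℂ) + de.map (Int.cast : ℤ → ℂ)
      = NN := by
    apply ext_rat
    intro Y
    obtain ⟨y, rfl⟩ := hYs Y
    have := main 0 y
    rw [hX0, Matrix.mulVec_zero, Matrix.mulVec_zero, Matrix.mulVec_zero, zero_add, zero_add,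
      zero_add, Matrix.mulVec_mulVec, ← Matrix.add_mulVec] at this
    exact this
  have r2 : ZZ D a (CMT.act D g z) * al.map (Int.cast : ℤ → ℂ) + ga.map (Int.cast : ℤ → ℂ)
      = NN * ZZ D a z := by
    apply ext_rat
    intro X
    obtain ⟨x, rfl⟩ := hXs X
    have := main x 0
    rw [hY0, Matrix.mulVec_zero, Matrix.mulVec_zero, add_zero, add_zero,
      add_zero, Matrix.mulVec_mulVec, ← Matrix.add_mulVec, Matrix.mulVec_mulVec] at this
    exact this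
  refine ⟨NN, r1, r2, ?_, hNN⟩
  rw [hdet]
  exact hDet F D a ha g hg.1 z hz

/-- `(alᵀ - Z beᵀ) NN = 1`. -/
theorem symp_inv {ι : Type} [Fintype ι] [DecidableEq ι] {al be ga de : Matrix ι ι ℤ}
    (hsp : fromBlocks al be ga de ∈ symplecticGroup ι ℤ) {Z Z' NN : Matrix ι ι ℂ}
    (r1 : Z' * be.map (Int.cast : ℤ → ℂ) + de.map (Int.cast : ℤ → ℂ) = NN)
    (r2 : Z' * al.map (Int.cast : ℤ → ℂ) + ga.map (Int.cast : ℤ → ℂ) = NN * Z) :
    ((al.map (Int.cast : ℤ → ℂ))ᵀ - Z * (be.map (Int.cast : ℤ → ℂ))ᵀ) * NN = 1 := by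
  rw [_root_.mul_eq_one_comm]
  have h1 := hsp
  rw [SymplecticGroup.mem_iff, Matrix.J, Matrix.fromBlocks_transpose,
    Matrix.fromBlocks_multiply, Matrix.fromBlocks_multiply, Matrix.fromBlocks_inj] at h1
  simp only [Matrix.mul_zero, Matrix.mul_one, Matrix.mul_neg, zero_add, add_zero,
    Matrix.neg_mul] at h1
  obtain ⟨h11, h12, h21, h22⟩ := h1
  have cm : ∀ P Q : Matrix ι ι ℤ, (P * Qᵀ).map (Int.cast : ℤ → ℂ) =
      P.map (Int.cast : ℤ → ℂ) * (Q.map (Int.cast : ℤ → ℂ))ᵀ := by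
    intro P Q
    have := Matrix.map_mul (L := P) (M := Qᵀ) (f := Int.castRingHom ℂ)
    exact this
  have k1 : be.map (Int.cast : ℤ → ℂ) * (al.map (Int.cast : ℤ → ℂ))ᵀ =
      al.map (Int.cast : ℤ → ℂ) * (be.map (Int.cast : ℤ → ℂ))ᵀ := by
    rw [← cm, ← cm]
    congr 1
    have : be * alᵀ - al * beᵀ = 0 := by rw [sub_eq_add_neg]; exact h11
    exact sub_eq_zero.mp this
  have k2 : de.map (Int.cast : ℤ → ℂ) * (al.map (Int.cast : ℤ → ℂ))ᵀ -
      ga.map (Int.cast : ℤ → ℂ) * (be.map (Int.cast : ℤ → ℂ))ᵀ = 1 := by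
    rw [← cm, ← cm]
    have h3 : de * alᵀ - ga * beᵀ = 1 := by rw [sub_eq_add_neg]; exact h21
    have h4 : (de * alᵀ - ga * beᵀ).map (Int.cast : ℤ → ℂ) = 1 := by
      rw [h3]
      exact Matrix.map_one _ Int.cast_zero Int.cast_one
    rw [← h4]
    ext i j
    simp
  rw [Matrix.mul_sub, ← Matrix.mul_assoc, ← r2, ← r1, Matrix.add_mul, Matrix.add_mul,
    Matrix.mul_assoc, Matrix.mul_assoc, k1, ← k2]
  abel

end CMT.J
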