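import Pool.Agent.Lib.CMT.J.Pr
import Pool.Agent.Lib.CMT.J.RelX
import Pool.Agent.Lib.CMT.B.DerS
import Pool.Agent.Lib.CMT.B.DerTh
import Pool.Agent.Lib.CMT.B.IThree

/-!
# PROJECT CMT, part J1: the second moments of the theta series under an isometry
-/

set_option autoImplicit false

open scoped BigOperators ComplexConjugate
open Matrix NumberField

noncomputable section

namespace CMT.J

open CMT.B

variable {F : Type} [Field F] [NumberField F]

/-- The local matrices of `be`. -/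
def bb (D : Dat F) (a : F) (g : SG D) (t : F →+* ℝ) : Matrix (Fin 3) (Fin 3) ℂ :=
  Matrix.of fun i l => ((t D.del / t a * (t (gB D g i l) / CMT.B.ht D t l) : ℝ) : ℂ)

/-- The local form of the bilinear form of the functional equation. -/
def Qb (D : Dat F) (a : F) (g : SG D) (z : ℂ × ℂ) (v w : (F →+* ℝ) → Fin 3 → ℂ) : ℂ :=
  ∑ t : F →+* ℝ, ∑ i, (NNt D a g z t *ᵥ v t) i * (bb D a g t *ᵥ w t) i

private theorem repr_eq (t : F →+* ℝ) (x : F) :
    ∑ j, ((t (eb F j) : ℝ) : ℂ) * (((eb F).repr x j : ℚ) : ℂ) = ((t x : ℝ) : ℂ) := by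
  have h1 : t x = ∑ j, t (eb F j) * (((eb F).repr x j : ℚ) : ℝ) := by
    have h2 := congrArg t ((eb F).sum_repr x)
    rw [← h2, map_sum]
    refine Finset.sum_congr rfl (fun j _ => ?_)
    rw [Rat.smul_def, map_mul, map_ratCast, mul_comm]
  rw [h1, Complex.ofReal_sum]
  refine Finset.sum_congr rfl (fun j _ => ?_)
  rw [Complex.ofReal_mul, Complex.ofReal_ratCast]

theorem Ew_dot_cX (v : (F →+* ℝ) → Fin 3 → ℂ) (x : Fin 3 → F) :
    (Ew v) ⬝ᵥ (fun p => ((cX x p : ℚ) : ℂ)) = pr x v := by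
  unfold pr Ew
  rw [dotProduct]
  simp_rw [Finset.sum_mul]
  rw [Finset.sum_comm]
  refine Finset.sum_congr rfl fun t _ => ?_
  rw [Fintype.sum_prod_type]
  refine Finset.sum_congr rfl fun i _ => ?_
  rw [← repr_eq t (x i), Finset.sum_mul]
  refine Finset.sum_congr rfl fun j _ => ?_
  show ((t (eb F j) : ℝ) : ℂ) * v t i * (((eb F).repr (x i) j : ℚ) : ℂ) = _
  ring

theorem Ew_lin {ι : Type} [Fintype ι] (c : ι → ℂ) (f : ι → (F →+* ℝ) → Fin 3 → ℂ) :
    Ew (∑ p, c p • f p) = ∑ p, c p • Ew (f p) := by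
  funext q
  rw [Finset.sum_apply]
  unfold Ew
  simp only [Pi.smul_apply, smul_eq_mul, Finset.mul_sum]
  rw [Finset.sum_comm]
  refine Finset.sum_congr rfl fun t _ => ?_
  rw [Finset.sum_apply, Finset.sum_apply, Finset.mul_sum]
  refine Finset.sum_congr rfl fun p _ => ?_
  simp only [Pi.smul_apply, smul_eq_mul]
  ring

theorem Ew_inj [IsTotallyReal F] {v w : (F →+* ℝ) → Fin 3 → ℂ}
    (h : (Ew v : Ix F → ℂ) = Ew w) : v = w := by
  funext t i
  have h1 := (pCard F).2 (fun t => v t i - w t i) (fun j => by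
    have h2 := congrFun h (i, j)
    unfold Ew at h2
    simp only at h2
    simp only [mul_sub]
    rw [Finset.sum_sub_distrib]
    exact sub_eq_zero.2 h2)
  exact sub_eq_zero.1 (congrFun h1 t)

/-- The vector of `∏_t ℂ³` attached to `y`. -/
def wy (D : Dat F) (a : F) (y : Fin 3 → F) : (F →+* ℝ) → Fin 3 → ℂ :=
  fun t i => -((t a * (CMT.B.ht D t i * t (y i)) : ℝ) : ℂ)

theorem Ew_wy [IsTotallyReal F] (D : Dat F) (a : F) (y : Fin 3 → F) :
    Ew (wy D a y) = fun p => ((cY D a y p : ℚ) : ℂ) := by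
  have h := pEX pTr F D a (0, 0) 0 y
  have hX0 : (fun q => ((cX (0 : Fin 3 → F) q : ℚ) : ℂ)) = 0 := by
    funext p
    simp [cX]
  have hW : Wt D a (0, 0) 0 y = wy D a y := by
    funext t i
    unfold Wt wy
    have : (fun l => ((t ((0 : Fin 3 → F) l) : ℝ) : ℂ)) = 0 := by
      funext l
      simp
    rw [this, Matrix.mulVec_zero]
    simp
  rw [hX0, Matrix.mulVec_zero, hW] at h
  rw [← h]
  funext p
  simp

theorem ht_ne (D : Dat F) (t : F →+* ℝ) (i : Fin 3) : CMT.B.ht D t i ≠ 0 := by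
  fin_cases i
  · exact one_ne_zero
  · exact one_ne_zero
  · exact neg_ne_zero.2 (bet_ne D t)

theorem exists_wy [IsTotallyReal F] (D : Dat F) {a : F} (ha : a ≠ 0)
    (w : (F →+* ℝ) → Fin 3 → ℂ) :
    ∃ y : Ix F → Fin 3 → F, w = ∑ p, (Ew w p) • wy D a (y p) := by
  obtain ⟨_, hY⟩ := pcXY F D a ha
  choose y hy using fun p : Ix F => hY (Pi.single p 1)
  refine ⟨y, Ew_inj ?_⟩
  rw [Ew_lin]
  funext q
  rw [Finset.sum_apply]
  have h1 : ∀ p : Ix F, (Ew w p • Ew (wy D a (y p)) : Ix F → ℂ) q =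
      if q = p then Ew w p else 0 := by
    intro p
    rw [Ew_wy, hy]
    simp only [Pi.smul_apply, smul_eq_mul, Pi.single_apply]
    split_ifs <;> simp
  rw [Finset.sum_congr rfl fun p _ => h1 p, Finset.sum_ite_eq, if_pos (Finset.mem_univ q)]

theorem be_Ew [IsTotallyReal F] (D : Dat F) {a : F} (ha : a ≠ 0) {g : SG D}
    {al be ga de : Matrix (Ix F) (Ix F) ℤ} (hL : LatRel D a g al be ga de)
    (v w : (F →+* ℝ) → Fin 3 → ℂ) :
    (Ew v) ⬝ᵥ (be.map (Int.cast : ℤ → ℂ) *ᵥ Ew w) =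
      ∑ t : F →+* ℝ, ∑ i, v t i * (bb D a g t *ᵥ w t) i := by
  have hta : ∀ t : F →+* ℝ, t a ≠ 0 := fun t => by
    rw [Ne, map_eq_zero]
    exact ha
  -- the case of `wy`
  have key : ∀ y : Fin 3 → F, (Ew v) ⬝ᵥ (be.map (Int.cast : ℤ → ℂ) *ᵥ Ew (wy D a y)) =
      ∑ t : F →+* ℝ, ∑ i, v t i * (bb D a g t *ᵥ (wy D a y) t) i := by
    intro y
    have h1 := (hL 0 y).1
    have h0 : cX (0 : Fin 3 → F) = 0 := by
      funext p
      simp [cX]
    rw [h0, Matrix.mulVec_zero, zero_add] at h1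
    have h2 : be.map (Int.cast : ℤ → ℂ) *ᵥ Ew (wy D a y) =
        fun p => ((cX (gx D g 0 y) p : ℚ) : ℂ) := by
      rw [Ew_wy, h1, ← RelAux.cast_mulVec]
    rw [h2, Ew_dot_cX]
    unfold pr
    refine Finset.sum_congr rfl fun t _ => ?_
    refine Finset.sum_congr rfl fun i _ => ?_
    have h3 : gx D g 0 y i = -(D.del * ∑ l, gB D g i l * y l) := by
      unfold gx
      rw [Matrix.mulVec_zero, zero_sub]
      rfl
    have h4 : (t (gx D g 0 y i) : ℝ) = -(t D.del * ∑ l, t (gB D g i l) * t (y l)) := by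
      rw [h3, map_neg, map_mul, map_sum]
      congr 2
      exact Finset.sum_congr rfl fun l _ => map_mul _ _ _
    have h5 : (bb D a g t *ᵥ (wy D a y) t) i = ((t (gx D g 0 y i) : ℝ) : ℂ) := by
      rw [h4, Matrix.mulVec, dotProduct]
      push_cast
      rw [Finset.mul_sum, ← Finset.sum_neg_distrib]
      refine Finset.sum_congr rfl fun l _ => ?_
      unfold bb wy
      rw [Matrix.of_apply]
      have e1 : ((t a : ℝ) : ℂ) ≠ 0 := by exact_mod_cast hta t
      have e2 : ((CMT.B.ht D t l : ℝ) : ℂ) ≠ 0 := by exact_mod_cast ht_ne D t l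
      push_cast
      field_simp
    rw [h5]
    ring
  obtain ⟨y, hy⟩ := exists_wy D ha w
  have e1 : (Ew v) ⬝ᵥ (be.map (Int.cast : ℤ → ℂ) *ᵥ Ew w) =
      ∑ p, Ew w p * ((Ew v) ⬝ᵥ (be.map (Int.cast : ℤ → ℂ) *ᵥ Ew (wy D a (y p)))) := by
    conv_lhs => rw [hy, Ew_lin]
    rw [Matrix.mulVec_sum, dotProduct_sum]
    refine Finset.sum_congr rfl fun p _ => ?_
    rw [Matrix.mulVec_smul, dotProduct_smul, smul_eq_mul]
  have e2 : ∀ t : F →+* ℝ, bb D a g t *ᵥ w t = ∑ p, Ew w p • (bb D a g t *ᵥ (wy D a (y p)) t) := by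
    intro t
    conv_lhs => rw [hy]
    rw [Finset.sum_apply, Matrix.mulVec_sum]
    refine Finset.sum_congr rfl fun p _ => ?_
    rw [Pi.smul_apply, Matrix.mulVec_smul]
  rw [e1, Finset.sum_congr rfl fun p _ => by rw [key (y p)]]
  simp_rw [e2, Finset.sum_apply, Finset.mul_sum]
  rw [Finset.sum_comm]
  refine Finset.sum_congr rfl fun t _ => ?_
  rw [Finset.sum_comm]
  refine Finset.sum_congr rfl fun i _ => ?_
  refine Finset.sum_congr rfl fun p _ => ?_
  simp only [Pi.smul_apply, smul_eq_mul]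
  ring

/-- The action of `NNt` on vectors. -/
def NA (D : Dat F) (a : F) (g : SG D) (z : ℂ × ℂ) (v : (F →+* ℝ) → Fin 3 → ℂ) :
    (F →+* ℝ) → Fin 3 → ℂ := fun t => NNt D a g z t *ᵥ v t

theorem NA_add (D : Dat F) (a : F) (g : SG D) (z : ℂ × ℂ) (v w : (F →+* ℝ) → Fin 3 → ℂ) :
    NA D a g z (v + w) = NA D a g z v + NA D a g z w := by
  funext t
  show NNt D a g z t *ᵥ (v t + w t) = _
  rw [Matrix.mulVec_add]
  rfl

theorem Qb_add_left (D : Dat F) (a : F) (g : SG D) (z : ℂ × ℂ)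
    (v v' w : (F →+* ℝ) → Fin 3 → ℂ) :
    Qb D a g z (v + v') w = Qb D a g z v w + Qb D a g z v' w := by
  unfold Qb
  rw [← Finset.sum_add_distrib]
  refine Finset.sum_congr rfl fun t _ => ?_
  rw [← Finset.sum_add_distrib]
  refine Finset.sum_congr rfl fun i _ => ?_
  rw [Pi.add_apply, Matrix.mulVec_add, Pi.add_apply]
  ring

theorem Qb_add_right (D : Dat F) (a : F) (g : SG D) (z : ℂ × ℂ)
    (v w w' : (F →+* ℝ) → Fin 3 → ℂ) :
    Qb D a g z v (w + w') = Qb D a g z v w + Qb D a g z v w' := by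
  unfold Qb
  rw [← Finset.sum_add_distrib]
  refine Finset.sum_congr rfl fun t _ => ?_
  rw [← Finset.sum_add_distrib]
  refine Finset.sum_congr rfl fun i _ => ?_
  rw [Pi.add_apply, Matrix.mulVec_add, Pi.add_apply]
  ring

/-- **The second moments under an isometry.** -/
theorem quad (F : Type) [Field F] [NumberField F] [IsTotallyReal F] (D : Dat F) (a : F)
    (ha : 0 < D.t0 a) (N : ℕ) (hN : 0 < N) :
    ∃ n k : ℕ, 0 < n ∧ 0 < k ∧ ∀ g ∈ Gam D n, ∀ z ∈ Ball D, ∃ c d : ℂ, (c ^ 2 * d) ^ k = 1 ∧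
      d * (num D g z 2 ^ 2 * mm (D.t0 D.bet) (CMT.act D g z)) = mm (D.t0 D.bet) z ∧
      ∀ φ : (Fin 3 → F) → ℂ, SB N φ →
        th0 D a φ (CMT.act D g z) = c * th0 D a φ z ∧
        (∀ u : Fin 3 → ℂ,
          Du D a φ (CMT.act D g z) (NNt D a g z D.t0 *ᵥ u) = c * Du D a φ z u) ∧
        ∀ v w : (F →+* ℝ) → Fin 3 → ℂ,
          (2 * Real.pi * Complex.I) ^ 2 * Tb D a φ (CMT.act D g z) (NA D a g z v) (NA D a g z w)
            = c * ((2 * Real.pi * Complex.I) ^ 2 * Tb D a φ z v w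
              - Real.pi * Complex.I * (Qb D a g z v w + Qb D a g z w v) * th0 D a φ z) := by
  have ha0 : a ≠ 0 := by
    rintro rfl
    simp at ha
  obtain ⟨M, k, hM, hk, hA⟩ := _root_.Pool.Agent.CMT.A.tA3 (Ix F) N hN
  obtain ⟨n, hn, hR⟩ := relX F D a ha M hM
  refine ⟨n, k, hn, hk, fun g hg z hz => ?_⟩
  obtain ⟨al, be, ga, de, hsp, hG, hL, hz'⟩ := hR g hg
  obtain ⟨NN, r1, r2, r3, r4⟩ := hz' z hz
  have hgz : CMT.act D g z ∈ Ball D := act_mem_Ball D hg.1 hz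
  obtain ⟨s1, p1⟩ := pHz pCard F D a ha z hz
  obtain ⟨s2', p2⟩ := pHz pCard F D a ha _ hgz
  obtain ⟨c, hc, hth⟩ := hA al be ga de hsp hG _ _ NN s1 s2' p1 p2 r1 r2
  refine ⟨c, NN.det, hc, r3, fun φ hφ => ?_⟩
  have hzero : th0 D a φ (CMT.act D g z) = c * th0 D a φ z := by
    have h := hth (phZ N φ) 0
    rw [Matrix.mulVec_zero, th_zero D ha hN hφ hgz, th_zero D ha hN hφ hz] at h
    simpa using h
  have hDer := pDer pRei pPhz pExp pDerTh (pHz pCard)
  have key : ∀ u : Fin 3 → ℂ,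
      Du D a φ (CMT.act D g z) (NNt D a g z D.t0 *ᵥ u) = c * Du D a φ z u := by
    intro u
    have d1 := hDer F D a ha N hN φ hφ _ hgz (NNt D a g z D.t0 *ᵥ u)
    have d2 := hDer F D a ha N hN φ hφ z hz u
    set w1 : Ix F → ℂ := Ew fun t => if t = D.t0 then u else 0 with hw1
    set q1 : ℂ := (NN *ᵥ w1) ⬝ᵥ (be.map (Int.cast : ℤ → ℂ) *ᵥ w1) with hq1
    have e1 : (fun τ : ℂ => th N (phZ N φ) (ZZ D a (CMT.act D g z))
        (Ew fun t => if t = D.t0 then τ • (NNt D a g z D.t0 *ᵥ u) else 0))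
        = fun τ : ℂ => c * Complex.exp (-(Real.pi * Complex.I * (τ ^ 2 * q1))) *
          th N (phZ N φ) (ZZ D a z) (Ew fun t => if t = D.t0 then τ • u else 0) := by
      funext τ
      have e2 : (Ew fun t => if t = D.t0 then τ • (NNt D a g z D.t0 *ᵥ u) else 0)
          = NN *ᵥ (Ew fun t => if t = D.t0 then τ • u else 0) := by
        rw [r4]
        congr 1
        funext t
        split_ifs with ht
        · rw [ht, Matrix.mulVec_smul]
        · rw [Matrix.mulVec_zero]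
      rw [e2, hth]
      congr 3
      rw [IThreeAux.Ew_smul, Matrix.mulVec_smul, Matrix.mulVec_smul, smul_dotProduct,
        dotProduct_smul, smul_eq_mul, smul_eq_mul]
      ring
    rw [e1] at d1
    have d3 : HasDerivAt (fun τ : ℂ => c * Complex.exp (-(Real.pi * Complex.I * (τ ^ 2 * q1))))
        0 0 := by
      exact IThreeAux.expd _ _ _
    have d4 := d3.mul d2
    have d5 := d1.unique d4
    rw [zero_mul, zero_add] at d5
    have e5 : c * Complex.exp (-(Real.pi * Complex.I * ((0 : ℂ) ^ 2 * q1))) = c := by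
      simp
    rw [e5] at d5
    have h2pi : (2 * Real.pi * Complex.I : ℂ) ≠ 0 := Complex.two_pi_I_ne_zero
    apply mul_left_cancel₀ h2pi
    rw [d5]
    ring
  refine ⟨hzero, key, ?_⟩
  have hNA : ∀ v : (F →+* ℝ) → Fin 3 → ℂ, NN *ᵥ Ew v = Ew (NA D a g z v) := r4
  have diag : ∀ v : (F →+* ℝ) → Fin 3 → ℂ,
      (2 * Real.pi * Complex.I) ^ 2 * Tb D a φ (CMT.act D g z) (NA D a g z v) (NA D a g z v)
        = c * ((2 * Real.pi * Complex.I) ^ 2 * Tb D a φ z v v
          - 2 * (Real.pi * Complex.I) * Qb D a g z v v * th0 D a φ z) := by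
    intro v
    obtain ⟨f1, h1, h2⟩ := der_two D ha hN hφ hz v
    obtain ⟨f1', h1', h2'⟩ := der_two D ha hN hφ hgz (NA D a g z v)
    have hq : (NN *ᵥ Ew v) ⬝ᵥ (be.map (Int.cast : ℤ → ℂ) *ᵥ Ew v) = Qb D a g z v v := by
      rw [hNA, be_Ew D ha0 hL]
      rfl
    have h3 := second h1 h2 h1' h2' (c := c) (p := Real.pi * Complex.I) (q := Qb D a g z v v)
      (fun τ => by
        show th N (phZ N φ) (ZZ D a (CMT.act D g z)) (τ • Ew (NA D a g z v)) = _
        rw [← hNA, ← Matrix.mulVec_smul, hth]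
        congr 3
        rw [Matrix.mulVec_smul, Matrix.mulVec_smul, smul_dotProduct, dotProduct_smul, hq,
          smul_eq_mul, smul_eq_mul]
        ring)
    rw [h3]
    congr 2
    congr 1
    show th N (phZ N φ) (ZZ D a z) ((0 : ℂ) • Ew v) = _
    rw [zero_smul, th_zero D ha hN hφ hz]
  intro v w
  have e1 := diag (v + w)
  have e2 := diag v
  have e3 := diag w
  rw [NA_add, Tb_diag D ha0 hN hφ hgz, Tb_diag D ha0 hN hφ hz, Qb_add_left, Qb_add_right,
    Qb_add_right] at e1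
  linear_combination (1 / 2) * e1 - (1 / 2) * e2 - (1 / 2) * e3

end CMT.J
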