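import Pool.Agent.Lib.CMT.J.Iface
import Pool.Agent.Lib.CMT.J.J1Def

/-!
# PROJECT CMT, part J : specification of J2, J5 and T2 (helper37)

Proofs in the docstrings.  J1 = `CMT.S_J1` (J/J1Def.lean), J3 = `S_H1`, `S_H2` (J/Iface.lean),
J4 = `S_StabCpt`, `S_FG`, `S_Inter`.
-/

open scoped BigOperators ComplexConjugate
open MeasureTheory Matrix

noncomputable section

namespace CMT
namespace J

variable {F : Type} [Field F] [NumberField F]

/-! ## J2 : restriction to the curves -/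

/-- **(J2)** On the curve `z_k = t0 ρ` the scalar theta form equals `(omN_ψ, v)_t`, for ANY place
`t` (coefficient of the other variable). -/
def S_CurveN : Prop :=
  ∀ (F : Type) [Field F] [NumberField F] [NumberField.IsTotallyReal F] (D : Dat F) (a : F),
    0 < D.t0 a → ∀ (t : F →+* ℝ) (φ : (Fin 3 → F) → ℂ), IsSB φ → ∀ (k : Fin 2) (ρ : F),
      (D.t0 ρ) ^ 2 < D.t0 D.bet → ∃ ψ : (Fin 3 → F) → ℂ, IsSB ψ ∧ ∀ z ∈ Cv D k ρ,
        (if k = 0 then (om D a φ z).2 else (om D a φ z).1) =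
          ∑ i, ((ht D t i * t (vv D k ρ i) : ℝ) : ℂ) *
            (if k = 0 then (omN D a t ψ z i).2 else (omN D a t ψ z i).1)

/-- The substitution `x = s e_j + x' (ρ e_k + e_2) + y v`, `j` the other index, `p = (s, x', y)`:
`x_j = s`, `x_k = ρ x' + β y`, `x_2 = x' + ρ y`. -/
def Lx (D : Dat F) (k : Fin 2) (ρ : F) (p : Fin 3 → F) : Fin 3 → F :=
  if k = 0 then ![ρ * p 1 + D.bet * p 2, p 0, p 1 + ρ * p 2]
  else ![p 0, ρ * p 1 + D.bet * p 2, p 1 + ρ * p 2]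

/-- The inverse substitution: `s = x_j`, `x' = (β x_2 - ρ x_k)/(β - ρ²)`,
`y = (x_k - ρ x_2)/(β - ρ²)`. -/
def Lx' (D : Dat F) (k : Fin 2) (ρ : F) (x : Fin 3 → F) : Fin 3 → F :=
  if k = 0 then ![x 1, (D.bet * x 2 - ρ * x 0) / (D.bet - ρ ^ 2),
    (x 0 - ρ * x 2) / (D.bet - ρ ^ 2)]
  else ![x 0, (D.bet * x 2 - ρ * x 1) / (D.bet - ρ ^ 2), (x 1 - ρ * x 2) / (D.bet - ρ ^ 2)]

/-- **S_LxSB**.  `β - ρ² ≠ 0` (positive at `t0`).  Inverse maps: `field_simp; ring`.  SB: the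
entries of `Lx` (or `Lx'`) are finitely many elements of `F`; choose `q > 0` with `q * entry`
integral for the entries of BOTH matrices (`CMT.E: exists_nat_mul_integral`).  If `φ` has level `n`
then `φ ∘ Lx` has level `n q`: support: `n x` integral, `x = Lx p`, `p = Lx' x`, so `n q p`
integral; period: `Lx (p + n q u) = Lx p + n (q Lx u)`, `q Lx u` integral.  Compare
`CMT/E/SBn.lean` (`SB2.comp_gl2`). -/
def S_LxSB : Prop :=
  ∀ (F : Type) [Field F] [NumberField F] (D : Dat F) (k : Fin 2) (ρ : F),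
    (D.t0 ρ) ^ 2 < D.t0 D.bet →
    (∀ p, Lx' D k ρ (Lx D k ρ p) = p) ∧ (∀ x, Lx D k ρ (Lx' D k ρ x) = x) ∧
    ∀ φ : (Fin 3 → F) → ℂ, IsSB φ →
      IsSB (fun p => φ (Lx D k ρ p)) ∧ IsSB (fun x => φ (Lx' D k ρ x))

/-- Schwartz-Bruhat functions on `F`. -/
def IsSB1 (B : F → ℂ) : Prop :=
  ∃ n : ℕ, 0 < n ∧ (∀ y, B y ≠ 0 → IsIntegral ℤ ((n : F) * y)) ∧
    ∀ y u : F, IsIntegral ℤ u → B (y + (n : F) * u) = B y

/-- Schwartz-Bruhat functions on `F²`. -/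
def IsSBp (A : F → F → ℂ) : Prop :=
  ∃ n : ℕ, 0 < n ∧
    (∀ x y, A x y ≠ 0 → IsIntegral ℤ ((n : F) * x) ∧ IsIntegral ℤ ((n : F) * y)) ∧
    ∀ x y u v : F, IsIntegral ℤ u → IsIntegral ℤ v → A (x + (n : F) * u) (y + (n : F) * v) = A x y

/-- **S_Split3**: a Schwartz-Bruhat function on `F³` is a finite sum of products, and products are
Schwartz-Bruhat.
Proof.  Level `n`.  The set `(1/n)O / nO` is finite: representatives `y_1,…,y_m` of the classes of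
the `y` with `n y` integral (`exists_reps` in `CMT/E/SBn.lean`).  `A_j x x' = φ (x,x',y_j)`,
`B_j y = 1` if `y - y_j ∈ n O`, else `0`.  Product: level `n n'`. -/
def S_Split3 : Prop :=
  ∀ (F : Type) [Field F] [NumberField F],
    (∀ φ : (Fin 3 → F) → ℂ, IsSB φ → ∃ (m : ℕ) (A : Fin m → F → F → ℂ) (B : Fin m → F → ℂ),
      (∀ j, IsSBp (A j)) ∧ (∀ j, IsSB1 (B j)) ∧ ∀ p, φ p = ∑ j, A j (p 0) (p 1) * B j (p 2)) ∧
    (∀ (A : F → F → ℂ) (B : F → ℂ), IsSBp A → IsSB1 B →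
      IsSB (fun p : Fin 3 → F => A (p 0) (p 1) * B (p 2))) ∧
    (∀ (A : F → F → ℂ) (c : ℂ), IsSBp A → IsSBp (fun x y => c * A x y)) ∧
    ∀ (m : ℕ) (φ : Fin m → (Fin 3 → F) → ℂ), (∀ j, IsSB (φ j)) → IsSB (fun p => ∑ j, φ j p)

/-- The Gaussian in the `y`-variable: `g(y) = exp (- ∑_t κ_t |t a| t(w) (t y)²)` (all places). -/
def gE (D : Dat F) (a w y : F) : ℂ :=
  ((Real.exp (-∑ t : F →+* ℝ, kap D t * (|t a| * (t w * t y ^ 2))) : ℝ) : ℂ)

/-- `w = (v,v) = β (β - ρ²)`, totally positive if `(t0 ρ)² < t0 β`. -/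
def wv (D : Dat F) (ρ : F) : F := D.bet * (D.bet - ρ ^ 2)

/-- The factor in the other two variables: the term of `tm1 * du` at `x = Lx (s, x', 0)`. -/
def hE (D : Dat F) (a : F) (k : Fin 2) (ρ s x' : F) (z : ℂ × ℂ) : ℂ :=
  tm1 D a (Lx D k ρ ![s, x', 0]) z *
    (if k = 0 then (du (D.t0 D.bet) (rx D.t0 (Lx D k ρ ![s, x', 0])) z).2
      else (du (D.t0 D.bet) (rx D.t0 (Lx D k ρ ![s, x', 0])) z).1)

/-- **S_TermC**: the terms on the curve.
Proof.  For `z` on the curve (`pk k z = t0 ρ`), `x = Lx p`: `qf (t β) x x = s² + (ρ²-β) x'² + w y²`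
at every `t` (`ring`: `x_k² - β x_2² = (ρx'+βy)² - β(x'+ρy)² = (ρ²-β)x'² + (β²-βρ²) y²`), and at
`t0`: `ll x z = s z_j + x' (ρ z_k - b) + y β (z_k - ρ) = ll (Lx (s,x',0)) z`; so `uu`, and
`du.1`/`du.2` in the direction of the OTHER variable `j` (`du_j = (x_j mm + ll z_j)/(mm ss)`,
`x_j = s`) do not depend on `y`, and `e1`, `e0` split: `e1 D a x + e0 D a x z =
(the same at (s,x',0)) + ∑_t κ_t |t a| t w (t y)²` (`Finset.add_sum_erase`).  `Complex.exp_add`.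
Last formula: `∑_i h_i v_i x_i = β x_k - β ρ x_2 = β (β - ρ²) y`.
First: `t w > 0`: at `t0`: `β > 0`, `β - ρ² > 0`; at `t ≠ t0`: `β < 0`, `β - ρ² < 0`. -/
def S_TermC : Prop :=
  ∀ (F : Type) [Field F] [NumberField F] (D : Dat F) (a : F) (k : Fin 2) (ρ : F),
    (D.t0 ρ) ^ 2 < D.t0 D.bet →
    (∀ t : F →+* ℝ, 0 < t (wv D ρ)) ∧
    (∀ (p : Fin 3 → F), ∀ z ∈ Cv D k ρ,
      tm1 D a (Lx D k ρ p) z *
        (if k = 0 then (du (D.t0 D.bet) (rx D.t0 (Lx D k ρ p)) z).2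
          else (du (D.t0 D.bet) (rx D.t0 (Lx D k ρ p)) z).1)
        = gE D a (wv D ρ) (p 2) * hE D a k ρ (p 0) (p 1) z) ∧
    ∀ (t : F →+* ℝ) (p : Fin 3 → F),
      ∑ i, ht D t i * t (vv D k ρ i) * t (Lx D k ρ p i) = t (wv D ρ) * t (p 2)

/-- **S_Gt**: for a suitable `B` the weighted Gaussian sum is not zero.
Proof.  `B_N` = characteristic function of `1 + N O_F`, `N → ∞`:
`∑_{u ∈ O} t(1+Nu) g(1+Nu) → t(1) g(1) ≠ 0` by dominated convergence, as in `CMT/NV/Tend.lean`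
(`tendsto_tsum_single`), `CMT/NV/Lat.lean`; `κ_t |t a| t w > 0` at all places.
(`N` large: if `u ≠ 0` then some `|t u| ≥ 1`.) -/
def S_Gt : Prop :=
  ∀ (F : Type) [Field F] [NumberField F] [NumberField.IsTotallyReal F] (D : Dat F) (a w : F),
    a ≠ 0 → (∀ t : F →+* ℝ, 0 < t w) → ∀ t : F →+* ℝ, ∃ B : F → ℂ, IsSB1 B ∧
      ∑' y : F, B y * (((t y : ℝ) : ℂ) * gE D a w y) ≠ 0

/-- Absolute convergence of the naive vector valued forms (from part C, or J1).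
Proof: as `S_SumOm` with a weight `|t x_i|` of linear growth, `C/Om.lean` (`norm_omterm_le`,
`SB.summable` with exponent one more). -/
def S_NSum : Prop :=
  ∀ (F : Type) [Field F] [NumberField F] [NumberField.IsTotallyReal F] (D : Dat F) (a : F),
    a ≠ 0 → ∀ (t : F →+* ℝ) (ψ : (Fin 3 → F) → ℂ), IsSB ψ → ∀ z ∈ Ball D, ∀ i,
      (Summable fun x => ‖ψ x * tm1 D a x z * ((t (x i) : ℝ) : ℂ) *
        (du (D.t0 D.bet) (rx D.t0 x) z).1‖) ∧
      (Summable fun x => ‖ψ x * tm1 D a x z * ((t (x i) : ℝ) : ℂ) *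
        (du (D.t0 D.bet) (rx D.t0 x) z).2‖)

/-- **S_CurveN** from `S_LxSB`, `S_Split3`, `S_TermC`, `S_Gt`, `S_NSum`, `S_SumOm`.
Proof.  `φ₁ = φ ∘ Lx = ∑_j A_j ⊗ B_j`.  Fix `z` on the curve.  Reindex `∑_x` by the bijection
`p ↦ Lx p` (`Equiv.tsum_eq`).  For each `j` the function `(A_j ⊗ B_j) ∘ Lx'` is SB, so by `S_SumOm`
the family `A_j(p0,p1) B_j(p2) g(p2) h(p0,p1)` is summable over `p : Fin 3 → F ≃ (F × F) × F`;
`Summable.tsum_prod` gives `∑ = G(B_j) T(A_j)`, `G(B) = ∑' y, B y g(y)`,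
`T(A) = ∑' q, A q.1 q.2 h(q.1,q.2,z)`.  Hence `om (coefficient) = ∑_j G(B_j) T(A_j)`.
Choose `B₀` by `S_Gt` (`w = wv D ρ`), `γ = ∑' y, B₀ y t(y) g(y) ≠ 0`, and
`ψ₁(p) = ∑_j (G(B_j)/(t(w) γ)) A_j(p0,p1) B₀(p2)`, `ψ = ψ₁ ∘ Lx'`.
The right side is `∑_i h_i v_i ∑'_x ψ(x) tm1 t(x_i) du_j = ∑'_x ψ(x) tm1 du_j (∑_i h_i v_i t(x_i))`
(`S_NSum`, `Summable.tsum_finsetSum`), reindexed and by `S_TermC`
`= ∑'_p ψ₁(p) g(p2) h(p0,p1) t(w) t(p2) = ∑_j (G(B_j)/γ) T(A_j) γ`. -/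
def S_CurveN_red : Prop := S_LxSB ∧ S_Split3 ∧ S_TermC ∧ S_Gt ∧ S_NSum ∧ S_SumOm → S_CurveN

/-! ## J5 : THEOREM (C') -/

/-- **S_FixR**: `v` is real and fixed, the form is invariant.
Proof.  At the place `t` let `M = mt D t g`; `IsIso` gives `Mᴴ H M = H`, `H = diag (ht D t)`
(`CMT.B.Br: mt_isU`), `M v = v` (`v = (t (vv i))_i` real, apply `ev D t` to `Fixv`).  Then
`vᵀ H M = (M v)ᴴ H M = vᴴ Mᴴ H M = vᵀ H`, i.e. `∑_i h_i v_i M_il = h_l v_l`; the conjugate matrix: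
take complex conjugates. -/
def S_FixR : Prop :=
  ∀ (F : Type) [Field F] [NumberField F] (D : Dat F) (k : Fin 2) (ρ : F) (g : SG D),
    IsIso D g → Fixv D k ρ g → ∀ (t : F →+* ℝ) (l : Fin 3),
      ∑ i, ((ht D t i * t (vv D k ρ i) : ℝ) : ℂ) * mt D t g i l
        = ((ht D t l * t (vv D k ρ l) : ℝ) : ℂ) ∧
      ∑ i, ((ht D t i * t (vv D k ρ i) : ℝ) : ℂ) * conj (mt D t g i l)
        = ((ht D t l * t (vv D k ρ l) : ℝ) : ℂ)

/-- **S_LineC**: two functions with the same derivative along the curve differ by a constant.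
Proof.  The curve is `{(s, r)}` or `{(r, s)}` with `s` in the disc `|s|² < b - r²` (convex);
`s ↦ A - B` has derivative `0` (`HasFDerivAt.comp_hasDerivAt`), so it is constant
(`IsOpen.is_const_of_deriv_eq_zero` or `Convex.is_const_of_fderivWithin_eq_zero`). -/
def S_LineC : Prop :=
  ∀ (F : Type) [Field F] [NumberField F] (D : Dat F) (k : Fin 2) (ρ : F) (A B : ℂ × ℂ → ℂ)
    (a1 a2 b1 b2 : ℂ × ℂ → ℂ),
    (∀ z ∈ Ball D, HasFDerivAt A (a1 z • ContinuousLinearMap.fst ℂ ℂ ℂ +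
      a2 z • ContinuousLinearMap.snd ℂ ℂ ℂ) z) →
    (∀ z ∈ Ball D, HasFDerivAt B (b1 z • ContinuousLinearMap.fst ℂ ℂ ℂ +
      b2 z • ContinuousLinearMap.snd ℂ ℂ ℂ) z) →
    (∀ z ∈ Cv D k ρ, (if k = 0 then a2 z else a1 z) = (if k = 0 then b2 z else b1 z)) →
    ∀ z ∈ Cv D k ρ, ∀ z' ∈ Cv D k ρ, A z - B z = A z' - B z'

/-- **S_MaxC**: a cocompact-invariant function `h + conj q` on the curve has `q` constant.
Proof.  `H₊ = h + q`, `H₋ = h - q` on the disc of the curve.  `Re H₊ = Re (h + conj q)` and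
`Im H₋ = Im (h + conj q)` are invariant, so `‖exp H₊‖ = exp (Re H₊)` and
`‖exp (-i H₋)‖ = exp (Im H₋)` attain their maximum over the curve on the compact set `C`
(if the curve is nonempty).  Maximum modulus
(`Complex.eqOn_of_isPreconnected_of_isMaxOn_norm`) on the disc: `exp H₊` is constant, so `H₊` has
derivative `0` and is constant; same for `H₋`; `q = (H₊ - H₋)/2`. -/
def S_MaxC : Prop :=
  ∀ (F : Type) [Field F] [NumberField F] (D : Dat F) (k : Fin 2) (ρ : F) (G : Set (SG D))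
    (h q : ℂ × ℂ → ℂ), DifferentiableOn ℂ h (Ball D) → DifferentiableOn ℂ q (Ball D) →
    (∀ g ∈ G, ∀ z ∈ Cv D k ρ, act D g z ∈ Cv D k ρ ∧
      h (act D g z) + conj (q (act D g z)) = h z + conj (q z)) →
    (∃ C : Set (ℂ × ℂ), IsCompact C ∧ C ⊆ Cv D k ρ ∧ ∀ z ∈ Cv D k ρ, ∃ g ∈ G, act D g z ∈ C) →
    ∀ z ∈ Cv D k ρ, ∀ z' ∈ Cv D k ρ, q z = q z'

/-- **S_DensC**: a holomorphic function which is constant on all the curves is constant.
Proof.  `∂₁ q (z₁, z₂) = 0` if `z₂ = t0 ρ`.  Fix `z₁` with `|z₁|² < b`; `z₂ ↦ ∂₁ q (z₁, z₂)`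
(`fderiv ℂ q _ (1,0)`, holomorphic: `DifferentiableOn.fderiv` / analytic) on the disc
`|z₂|² < b - |z₁|²` vanishes at the points `t0 ρ`, which accumulate at `0` (`F` is dense in `ℝ`:
`ℚ ⊆ t0 F`), so it is `0` (`AnalyticOnNhd.eqOn_zero_of_preconnected_of_frequently_eq_zero`).
Same for `∂₂`.  So `fderiv ℂ q = 0` on the ball, which is open and convex. -/
def S_DensC : Prop :=
  ∀ (F : Type) [Field F] [NumberField F] (D : Dat F) (q : ℂ × ℂ → ℂ),
    DifferentiableOn ℂ q (Ball D) →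
    (∀ (k : Fin 2) (ρ : F), (D.t0 ρ) ^ 2 < D.t0 D.bet →
      ∀ z ∈ Cv D k ρ, ∀ z' ∈ Cv D k ρ, q z = q z') →
    ∀ z ∈ Ball D, ∀ z' ∈ Ball D, q z = q z'

/-- **S_SemiL**: what `l` does.
Proof.  If `0 < t a`: `ev D t (cj x) = conj (ev D t x)`, so the hypothesis at `cj x` gives
`l (conj (ev D t x) * c) = conj (ev D t0 x) * l c`, which is the first formula for
`rT = conj (mt)`.  If not: the hypothesis at `cj x` gives `l (ev D t x * c) = conj (ev t0 x) l c`,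
`rT = mt`.  Second formula: `x = algebraMap (h_i v_i)` is real: `ev D t x = t (..)`, with
`h_i = 1, 1, -β`, `ht D t i = t (h_i)`. -/
def S_SemiL : Prop :=
  ∀ (F : Type) [Field F] [NumberField F] (D : Dat F) (a : F) (t : F →+* ℝ) (l : ℂ →+ ℂ),
    (∀ (x : KD D) (c : ℂ),
      l ((if 0 < t a then ev D t x else conj (ev D t x)) * c) = ev D D.t0 x * l c) →
    (∀ (g : SG D) (c : Fin 3 → ℂ) (i : Fin 3),
      l ((rT D a t g).mulVec c i) = ((mt D D.t0 g).map conj *ᵥ fun j => l (c j)) i) ∧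
    ∀ (k : Fin 2) (ρ : F) (i : Fin 3) (c : ℂ),
      l (((ht D t i * t (vv D k ρ i) : ℝ) : ℂ) * c)
        = ((ht D D.t0 i * D.t0 (vv D k ρ i) : ℝ) : ℂ) * l c

/-- **S_CP** (THEOREM C') from the parts.
Proof.  `p (g g') = p g + p g'` (evaluate at `0`, `S_Act`).  By `S_H1` for `l ∘ p`: holomorphic
`p₁, q` with `p₁ + conj q` having the periods `l (p g)`.  CLAIM: `q` is constant on every curve
`Cv D k ρ` (`(t0 ρ)² < t0 β`); then by `S_DensC` it is constant and `Q = p₁` works.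
Proof of the claim.  `ψ` by `S_CurveN` (for the place `t`), then `G', f0, μ, c` by `S_J1`,
`f = f0 + μ • hat`, `G'' = G ⊓ G'` (`S_Inter`).  Put `v_i = vv D k ρ i`, `(x)_t = ∑ ht_i t(v_i) x_i`.
(1) For `z ∈ Cv`: `(f z)_t = (f0 z)_t`: `μ z = 0` if `t ≠ t0`, and for `t = t0`
`∑ ht_i t0(v_i) hat z i = t0 β (z_k - t0 ρ) = 0`.
(2) `P` and `z ↦ (f0 z)_t` have the same derivative along the curve (`S_CurveN`), so by `S_LineC`
`P z - (f0 z)_t` is constant on the curve.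
(3) for `g ∈ G''` with `Fixv`: `g` preserves the curve (`S_StabCpt`), so
`p g = P (g z) - P z = (f (g z))_t - (f z)_t = (rT(g) f z)_t + (c g)_t - (f z)_t = (c g)_t`
(`S_FixR`; `rT` is `mt` or its conjugate).
(4) `c (g g') = c g + rT(g) c g'` for `g, g' ∈ G''` (evaluate at `0`; `rT (g g') = rT g * rT g'`).
(5) `c₂ g = (l (c g i))_i` on `G''` satisfies the cocycle rule of `S_H2` (`S_SemiL`); `S_H2` for
`G''` gives `f₂` holomorphic.
(6) for `g ∈ G''` with `Fixv`: `l (p g) = (c₂ g)_{t0}` (`S_SemiL`, second formula), and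
`(f₂ (g z))_{t0} = (f₂ z)_{t0} + (c₂ g)_{t0}` (`S_FixR`, conjugate matrix).
(7) `h = p₁ - (f₂)_{t0}`: `h + conj q` is invariant under `{g ∈ G'' | Fixv g}` on the curve;
`S_StabCpt` for `G''` and `S_MaxC`: `q` is constant on the curve. -/
def S_CP_red : Prop :=
  S_Act ∧ S_J1 ∧ S_CurveN ∧ S_H1 ∧ S_H2 ∧ S_StabCpt ∧ S_Inter ∧ S_FixR ∧ S_LineC ∧ S_MaxC ∧
    S_DensC ∧ S_SemiL → S_CP

/-! ## T2 -/

/-- **S_Emb**: the embeddings of `K`.
Proof.  `F` is totally real: `τ ∘ algebraMap : F → ℂ` is `ofReal ∘ t`.  `δ = ⟨0,1⟩`,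
`τ(δ)² = τ(-Δ) = - t Δ`, so `τ(δ) = ± i √(t Δ)` (`sq_eq_sq_iff_eq_or_eq_neg`), and
`x = algebraMap x.re + δ * algebraMap x.im`.  `ev D t (cj x) = conj (ev D t x)`.
`ev D t = ev D t'`: restrict to `F`.  `ev D t ≠ cjt (ev D t')`: restrict to `F`: `t = t'`, then at
`δ`: `i √ = - i √`, impossible.  Injective: `ev D t x = 0` gives real part `t x.re = 0` and
imaginary part `√(tΔ) t x.im = 0`. -/
def S_Emb : Prop :=
  ∀ (F : Type) [Field F] [NumberField F] [NumberField.IsTotallyReal F] (D : Dat F),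
    (∀ τ : KD D →+* ℂ, ∃ t : F →+* ℝ, τ = ev D t ∨ τ = cjt D (ev D t)) ∧
    (∀ (τ : KD D →+* ℂ) (x : KD D), conj (τ x) = τ (cj D x)) ∧
    (∀ t t' : F →+* ℝ, ev D t = ev D t' → t = t') ∧
    (∀ t t' : F →+* ℝ, ev D t ≠ cjt D (ev D t')) ∧
    ∀ t : F →+* ℝ, Function.Injective (ev D t)

/-- **S_Expan**: expansion of a period map over `K` (`ℂ` is a `K`-vector space through
`τ₀ = ev D t0`).
Proof.  `KD D` is a field: `QuadraticAlgebra` has a `Field` instance from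
`Fact (∀ r, r ^ 2 ≠ -Δ + 0 * r)` (apply `t0`: `t0 Δ > 0`).  Let `V ⊆ ℂ` be the `K`-span of `p(H)`:
it is spanned by the images of finitely many generators of `H` (`p` is additive:
`Subgroup.closure_induction`), so finite dimensional; basis `κ'_j` of `V`, `L'_j : ℂ → K` linear
extending the coordinate functionals (`LinearMap.exists_extend`), `λ'_j = L'_j ∘ p`.
`λ'_j(H)` is generated by finitely many elements of `K`, and every `x ∈ K` has a multiple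
`m x ∈ R`, `0 < m` (`re`, `im` : `IsIntegral` after multiplication, `exists_integral_multiple` or
`exists_nat_mul_integral`): one `m > 0` for all; `λ_j = m λ'_j`, `L_j = m L'_j`,
`κ_j = κ'_j / m`. -/
def S_Expan : Prop :=
  ∀ (F : Type) [Field F] [NumberField F] (D : Dat F) (H : Type) [Group H] [Group.FG H]
    (p : H → ℂ), (∀ g g', p (g * g') = p g + p g') →
    ∃ (m : ℕ) (κ : Fin m → ℂ) (lam : Fin m → H → KD D) (L : Fin m → ℂ →+ KD D),
      (∀ j (x : KD D) (c : ℂ), L j (ev D D.t0 x * c) = x * L j c) ∧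
      (∀ j g, lam j g = L j (p g)) ∧ (∀ j g, lam j g ∈ RR D) ∧
      (∀ j g g', lam j (g * g') = lam j g + lam j g') ∧
      ∀ g, p g = ∑ j, κ j * ev D D.t0 (lam j g)

/-- **S_Const**: an invariant holomorphic function on the ball is constant.
Proof.  `‖Q‖` attains its maximum over the ball on the compact set;
`Complex.eqOn_of_isPreconnected_of_isMaxOn_norm` (works on `ℂ × ℂ`; the ball is open, convex). -/
def S_Const : Prop :=
  ∀ (F : Type) [Field F] [NumberField F] (D : Dat F) (G : Set (SG D)) (Q : ℂ × ℂ → ℂ),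
    DifferentiableOn ℂ Q (Ball D) → (∀ g ∈ G, ∀ z ∈ Ball D, Q (act D g z) = Q z) →
    (∃ C : Set (ℂ × ℂ), IsCompact C ∧ C ⊆ Ball D ∧ ∀ z ∈ Ball D, ∃ g ∈ G, act D g z ∈ C) →
    ∀ z ∈ Ball D, ∀ z' ∈ Ball D, Q z = Q z'

/-- **S_Signs**: the sign patterns of the types and the condition of `S_CP`.
For a type `f` with `f τ + f (cjt τ) = 1` and `K` Galois there are signs `e t = ± 1` such that:
if `e` has the signs of `a` then for every `τ` with `f τ = 1` and every `τ₀`-semilinear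
`L : ℂ →+ K` the additive map `l = τ ∘ L` satisfies the hypothesis of `S_CP` for some place `t`.
Proof.  By `hG` choose `s_t : K ≃+* K` with `ev D t = τ₀ ∘ s_t` (unique: `τ₀` injective), and put
`e t = 1` if `f (τ₀ ∘ s_t⁻¹) = 1`, else `-1`.  `e t0 = 1` (`s_{t0} = 1`).
Given `τ = τ₀ ∘ s`, put `τ' = τ₀ ∘ s⁻¹`.  `l (τ' x * c) = τ (L (τ₀ (s⁻¹ x) c)) = τ (s⁻¹ x * L c)
= τ₀ x * l c`.  By `S_Emb` `τ' = ev D t` or `τ' = cjt (ev D t)`.
Case 1: `s_t = s⁻¹`, `f (τ₀ ∘ s_t⁻¹) = f τ = 1`, `e t = 1`, so `0 < t a`: the `if` is `ev D t x = τ' x`.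
Case 2: `ev D t = cjt τ' = τ₀ ∘ cj ∘ s⁻¹` (`S_Emb`, second part), `s_t = cj s⁻¹`, `s_t⁻¹ = s cj`,
`τ₀ ∘ s ∘ cj = τ ∘ cj = cjt τ`, `f (cjt τ) = 0`, so `e t = -1`, `t a < 0`: the `if` is
`conj (ev D t x) = τ' x`.
The sum relation: `f₀ + f₁ = f₂ + f₃` implies `e₀ + e₁ = e₂ + e₃` (`e = 2 f (..) - 1`). -/
def S_Signs : Prop :=
  ∀ (F : Type) [Field F] [NumberField F] [NumberField.IsTotallyReal F] (D : Dat F)
    (_ : ∀ τ : KD D →+* ℂ, ∃ s : KD D ≃+* KD D, τ = (ev D D.t0).comp (s : KD D →+* KD D))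
    (f : Fin 4 → (KD D →+* ℂ) → ℕ) (_ : ∀ i τ, f i τ + f i (cjt D τ) = 1)
    (_ : ∀ i, f i (ev D D.t0) = 1) (_ : ∀ τ, f 0 τ + f 1 τ = f 2 τ + f 3 τ),
    ∃ e : Fin 4 → (F →+* ℝ) → ℝ, (∀ i t, e i t = 1 ∨ e i t = -1) ∧ (∀ i, e i D.t0 = 1) ∧
      (∀ t, e 0 t + e 1 t = e 2 t + e 3 t) ∧
      ∀ (i : Fin 4) (a : F), (∀ t, 0 < e i t * t a) → ∀ τ : KD D →+* ℂ, f i τ = 1 →
        ∃ t : F →+* ℝ, ∀ L : ℂ →+ KD D,
          (∀ (x : KD D) (c : ℂ), L (ev D D.t0 x * c) = x * L c) →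
          ∀ (x : KD D) (c : ℂ),
            τ (L ((if 0 < t a then ev D t x else conj (ev D t x)) * c)) = ev D D.t0 x * τ (L c)

/-- **S_GradInv**: the differential of a function with constant periods is invariant.
Proof.  Chain rule for `act D g` (its derivative is the matrix in `pull1`:
`CMT/B/Ball.lean`, `CMT/B/Hol.lean`), `w (act D g z) = w z + const`. -/
def S_GradInv : Prop :=
  ∀ (F : Type) [Field F] [NumberField F] (D : Dat F) (g : SG D), IsIso D g →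
    ∀ (w : ℂ × ℂ → ℂ) (c : ℂ), DifferentiableOn ℂ w (Ball D) →
      (∀ z ∈ Ball D, w (act D g z) = w z + c) →
      ∀ z ∈ Ball D, pull1 D g z (grad w (act D g z)) = grad w z

/-- **T2** from the parts.
Proof.  Signs `e` by `S_Signs`; `T1` gives `a_i, φ_i, G` and everything about `G`, primitives
`P_i` of `om_i`.  Periods `p_i g` = `P_i (g z) - P_i z` (constant: `S_GradInv`-type argument: the
difference has derivative `0` by `IsInv1`).  `G` is finitely generated (`S_FG`).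
`S_Expan` for `p_i`: `κ_ij, λ_ij, L_ij`.  For `f_i τ = 1` and every `j`: `S_CP` with
`l = τ ∘ L_ij` (hypothesis: `S_Signs`) gives `w_ij τ` holomorphic with periods
`τ (L_ij (p_i g)) = τ (λ_ij g)`.
`P_i - ∑_j κ_ij w_ij(τ₀)` is invariant, so constant (`S_Const`), so
`om_i = ∑_j κ_ij grad (w_ij τ₀)` on the ball.
Take a weight `χ₀`.  The nonzero integral of `T1` is
`∑_{j,k,l,m} κ κ conj(κ κ) ∫ χ₀ wedge(grad w_0j, grad w_1k) conj(wedge(grad w_2l, grad w_3m))`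
(integrable: continuous on the compact support), so for some `(j,k,l,m)` the integral is not `0`;
put `w_0 = w_0j`, ….  For another weight `χ`: `S_Unf` with `G' = G` (`relIndex = 1`) applied to
`f = wedge .. * conj (wedge ..)`, which is `IsDens` by `S_GradInv` (`wedge (pull1 p) (pull1 q) =
pull2 (wedge p q)`, Jacobian `num 2 ^ (-3)`) and continuous. -/
def T2_red : Prop :=
  T1 ∧ S_CP ∧ S_FG ∧ S_Expan ∧ S_Const ∧ S_Signs ∧ S_GradInv ∧ S_Unf ∧ S_Act → T2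

end J
end CMT
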