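import Pool.Agent.Lib.CMT.B.W

/-!
# PROJECT CMT, part J1: the algebra of the vector valued form at the place `t0` (helper91)

`P_z = 1 + zh (H zh)ᵀ / s2` (bilinear projection, `P zh = 0`), `M_z = H P_z`.
`NNm_Mz`: `NNm g z * M_z = M_{gz} * g`.
`pairing`: `(M_{gz} g)ᵀ * ((g - conj g) * P_z) = gᵀ M_{gz} g - M_z`.
-/

set_option autoImplicit false

namespace CMT.J

open CMT.B Matrix ComplexConjugate

noncomputable section

/-- `P_z = 1 + zh (H zh)ᵀ / s2`. -/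
def Pz (h : Fin 3 → ℝ) (z : ℂ × ℂ) : Matrix (Fin 3) (Fin 3) ℂ :=
  1 + (s2 h z)⁻¹ • vecMulVec (zh z) (HM h *ᵥ zh z)

/-- `M_z = H P_z = H + (H zh) (H zh)ᵀ / s2`. -/
def Mz (h : Fin 3 → ℝ) (z : ℂ × ℂ) : Matrix (Fin 3) (Fin 3) ℂ :=
  HM h + (s2 h z)⁻¹ • vecMulVec (HM h *ᵥ zh z) (HM h *ᵥ zh z)

/-- `S_z`: `M_z κ = Nm_z S_z`. -/
def Sz (z : ℂ × ℂ) : Matrix (Fin 3) (Fin 3) ℂ := !![1, 0, -z.1; 0, 1, -z.2; 0, 0, 0]

theorem Mz_apply (h : Fin 3 → ℝ) (z : ℂ × ℂ) (i l : Fin 3) :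
    Mz h z i l = (if i = l then (h i : ℂ) else 0)
      + (s2 h z)⁻¹ * ((h i * zh z i) * (h l * zh z l)) := by
  simp only [Mz, HM, Matrix.add_apply, Matrix.smul_apply, smul_eq_mul, vecMulVec_apply,
    mulVec_diagonal, diagonal_apply]

theorem Pz_apply (h : Fin 3 → ℝ) (z : ℂ × ℂ) (i l : Fin 3) :
    Pz h z i l = (if i = l then 1 else 0) + (s2 h z)⁻¹ * (zh z i * (h l * zh z l)) := by
  simp only [Pz, HM, Matrix.add_apply, Matrix.smul_apply, smul_eq_mul, vecMulVec_apply,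
    mulVec_diagonal, Matrix.one_apply]

theorem HM_mul_Pz (h : Fin 3 → ℝ) (z : ℂ × ℂ) : HM h * Pz h z = Mz h z := by
  rw [Pz, Mz, Matrix.mul_add, Matrix.mul_one, Matrix.mul_smul, mul_vecMulVec]

theorem Mz_transpose (h : Fin 3 → ℝ) (z : ℂ × ℂ) : (Mz h z)ᵀ = Mz h z := by
  ext i l
  rw [transpose_apply, Mz_apply, Mz_apply]
  by_cases hil : i = l
  · subst hil; rfl
  · rw [if_neg hil, if_neg (Ne.symm hil)]
    ring

theorem dot_zh (h : Fin 3 → ℝ) (z : ℂ × ℂ) : (HM h *ᵥ zh z) ⬝ᵥ zh z = - s2 h z := by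
  simp [HM, mulVec_diagonal, dotProduct, Fin.sum_univ_three, zh, s2]
  ring

theorem Mz_zh (h : Fin 3 → ℝ) {z : ℂ × ℂ} (hs : s2 h z ≠ 0) : Mz h z *ᵥ zh z = 0 := by
  rw [Mz, Matrix.add_mulVec, Matrix.smul_mulVec, vecMulVec_mulVec, dot_zh]
  funext i
  simp only [Pi.add_apply, Pi.smul_apply, MulOpposite.smul_eq_mul_unop, MulOpposite.unop_op,
    smul_eq_mul, Pi.zero_apply]
  field_simp
  ring

theorem Nm_Sz (κ : ℂ) (h : Fin 3 → ℝ) {z : ℂ × ℂ} (hs : s2 h z ≠ 0) :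
    Nm κ h z * Sz z = κ • Mz h z := by
  have hs' : s2 h z = - (h 0 * z.1 ^ 2 + h 1 * z.2 ^ 2 + h 2) := rfl
  ext i l
  rw [Matrix.smul_apply, Mz_apply, Matrix.mul_apply, Fin.sum_univ_three, smul_eq_mul]
  fin_cases i <;> fin_cases l <;>
    simp [Nm, Sz, zh, -mul_eq_mul_left_iff, -mul_eq_mul_right_iff] <;>
    first
      | done
      | (field_simp; done)
      | (ring_nf; done)
      | (field_simp; rw [hs']; ring)

theorem Rm_Sz (g : Matrix (Fin 3) (Fin 3) ℂ) {z : ℂ × ℂ} (hj : jj g z ≠ 0) :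
    Rm g z * Sz z = Sz (act g z) * g := by
  have e := mulVec_zh hj
  have e0 := congrFun e 0
  have e1 := congrFun e 1
  have e2 := congrFun e 2
  simp only [Matrix.mulVec, dotProduct, Fin.sum_univ_three, zh, Pi.smul_apply, smul_eq_mul,
    Matrix.cons_val_zero, Matrix.cons_val_one, Matrix.cons_val, mul_one] at e0 e1 e2
  ext i l
  rw [Matrix.mul_apply, Matrix.mul_apply, Fin.sum_univ_three, Fin.sum_univ_three]
  fin_cases i <;> fin_cases l <;> simp [Rm, Sz, MM]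
  · ring
  · ring
  · linear_combination (-1 : ℂ) * e0 + (act g z).1 * e2
  · ring
  · ring
  · linear_combination (-1 : ℂ) * e1 + (act g z).2 * e2

/-- `NNm g z * M_z = M_{gz} * g`. -/
theorem NNm_Mz {κ : ℂ} (hκ : κ ≠ 0) {h : Fin 3 → ℝ} (hh : (h 0 * h 1 * h 2 : ℝ) ≠ 0)
    {g : Matrix (Fin 3) (Fin 3) ℂ} {z : ℂ × ℂ} (hs : s2 h z ≠ 0) (hs' : s2 h (act g z) ≠ 0)
    (hj : jj g z ≠ 0) :
    NNm κ h g z * Mz h z = Mz h (act g z) * g := by
  have e : κ • (NNm κ h g z * Mz h z) = κ • (Mz h (act g z) * g) := by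
    rw [← Matrix.mul_smul, ← Nm_Sz κ h hs, ← Matrix.mul_assoc, NNm_mul hκ hh g hs,
      Matrix.mul_assoc, Rm_Sz g hj, ← Matrix.mul_assoc, Nm_Sz κ h hs', Matrix.smul_mul]
  exact smul_right_injective _ hκ e

theorem isU_conj {h : Fin 3 → ℝ} {g : Matrix (Fin 3) (Fin 3) ℂ} (hg : IsU h g) :
    gᵀ * HM h * g.map conj = HM h := by
  have e := congrArg (fun A : Matrix (Fin 3) (Fin 3) ℂ => A.map (starRingEnd ℂ)) hg
  simp only [Matrix.map_mul] at e
  have e1 : (gᴴ).map (starRingEnd ℂ) = gᵀ := by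
    ext i j
    simp [conjTranspose_apply]
  have e2 : (HM h).map (starRingEnd ℂ) = HM h := by
    ext i j
    simp only [HM, Matrix.map_apply, diagonal_apply]
    split_ifs
    · exact Complex.conj_ofReal _
    · exact map_zero _
  rw [e1, e2] at e
  exact e

theorem zh_HM_Pz (h : Fin 3 → ℝ) {z : ℂ × ℂ} (hs : s2 h z ≠ 0) :
    (zh z) ᵥ* (HM h * Pz h z) = 0 := by
  rw [HM_mul_Pz, ← Mz_transpose, Matrix.vecMul_transpose, Mz_zh h hs]

/-- The pairing. -/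
theorem pairing {h : Fin 3 → ℝ} {g : Matrix (Fin 3) (Fin 3) ℂ} (hg : IsU h g) {z : ℂ × ℂ}
    (hs : s2 h z ≠ 0) (hs' : s2 h (act g z) ≠ 0) (hj : jj g z ≠ 0) :
    (Mz h (act g z) * g)ᵀ * ((g - g.map conj) * Pz h z)
      = gᵀ * Mz h (act g z) * g - Mz h z := by
  have hc := isU_conj hg
  -- the first term
  have t1 : (Mz h (act g z) * g)ᵀ * (g * Pz h z) = gᵀ * Mz h (act g z) * g := by
    have e1 : Mz h (act g z) * (g * Pz h z) = Mz h (act g z) * g := by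
      rw [Pz, Matrix.mul_add, Matrix.mul_add, Matrix.mul_one, Matrix.mul_smul, Matrix.mul_smul,
        mul_vecMulVec, mul_vecMulVec, mulVec_zh hj, Matrix.mulVec_smul, Mz_zh h hs']
      simp
    rw [Matrix.transpose_mul, Mz_transpose, Matrix.mul_assoc, e1, Matrix.mul_assoc]
  -- the second term
  have t2 : (Mz h (act g z) * g)ᵀ * (g.map conj * Pz h z) = Mz h z := by
    rw [Matrix.transpose_mul, Mz_transpose, Mz, Matrix.mul_add, Matrix.add_mul,
      Matrix.mul_smul, Matrix.smul_mul]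
    have e1 : gᵀ * HM h * (g.map conj * Pz h z) = Mz h z := by
      rw [← Matrix.mul_assoc, hc, HM_mul_Pz]
    have e2 : gᵀ * vecMulVec (HM h *ᵥ zh (act g z)) (HM h *ᵥ zh (act g z)) *
        (g.map conj * Pz h z) = 0 := by
      rw [mul_vecMulVec, vecMulVec_mul]
      have e3 : (HM h *ᵥ zh (act g z)) ᵥ* (g.map conj * Pz h z) = 0 := by
        have e4 : jj g z • ((HM h *ᵥ zh (act g z)) ᵥ* (g.map conj * Pz h z)) = 0 := by
          rw [← Matrix.smul_vecMul, ← Matrix.mulVec_smul, ← mulVec_zh hj, Matrix.mulVec_mulVec]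
          have e5 : (HM h * g) *ᵥ zh z = zh z ᵥ* (gᵀ * HM h) := by
            rw [← Matrix.vecMul_transpose, Matrix.transpose_mul]
            congr 2
            exact diagonal_transpose _
          rw [e5, Matrix.vecMul_vecMul, ← Matrix.mul_assoc, hc, zh_HM_Pz h hs]
        exact (smul_eq_zero.1 e4).resolve_left hj
      rw [e3]
      ext i j
      simp [vecMulVec_apply]
    rw [e1, e2, smul_zero, add_zero]
  rw [Matrix.sub_mul, Matrix.mul_sub, t1, t2]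

end

end CMT.J
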