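import Pool.Agent.Lib.CMT.J.Expan
import Pool.Agent.Lib.CMT.J.EmbS
import Pool.Agent.Lib.CMT.J5.Per

/-!
# PROJECT CMT, part J : THEOREM T2 from T1, S_CP and the parts (helper36)
-/

open scoped BigOperators ComplexConjugate
open MeasureTheory

noncomputable section

namespace CMT
namespace J

open J5

theorem thmT2_red : T2_red := by
  rintro ⟨hT1, hCP, hFG, hExp, hConst, hSigns, hGI, -, hAct⟩
  intro F _ _ _ hF D hG f hf hf0 hsum
  obtain ⟨e, he1, he0, hes, hsg⟩ := hSigns F D hG f hf hf0 hsum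
  obtain ⟨a, φ, G, hae, hφ, hGa, hmem, hfree, hpd, hcpt, hinv, hprim, ⟨χ0, hχ0⟩, hint⟩ :=
    hT1 F hF D e he1 he0 hes
  have hG1 : G ≤ Gam D 1 := hGa.1.trans (CMT.D.Gam_le_one D 3)
  have hiso : ∀ g ∈ G, IsIso D g := fun g hg => (hG1 hg).1
  have ha0 : ∀ i, 0 < D.t0 (a i) := by
    intro i
    have h := hae i D.t0
    rwa [he0 i, one_mul] at h
  choose P hP using hprim
  have hP' : ∀ i, ∀ z ∈ Ball D, HasFDerivAt (P i) (lf (om D (a i) (φ i) z)) z := hP
  -- the periods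
  have hper : ∀ i (g : G), ∃ c, ∀ z ∈ Ball D, P i (act D g.1 z) = P i z + c := fun i g =>
    exists_per D (hiso g.1 g.2) (hP' i) (fun z hz => hinv i g.1 g.2 z hz)
  choose p hp using hper
  have h0B : (0 : ℂ × ℂ) ∈ Ball D := J.zero_mem_Ball D
  have hadd : ∀ i (g h : G), p i (g * h) = p i g + p i h := by
    intro i g h
    have h1 := hp i (g * h) 0 h0B
    have h2 := hp i g (act D h.1 0) (hmem _ h.2 _ h0B)
    have h3 := hp i h 0 h0B
    have h4 : act D ((g * h : G) : SG D) 0 = act D g.1 (act D h.1 0) :=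
      CMT.B.act_mul_Ball D g.1 (hiso h.1 h.2) h0B
    rw [h4, h2, h3] at h1
    linear_combination -h1
  have hfg : Group.FG G := (Group.fg_iff_subgroup_fg G).2 (hFG F hF D G hGa)
  -- expansion
  choose m κ lam L hL hlam hlamR hlamA hpe using fun i => hExp F D G (p i) (hadd i)
  -- the holomorphic functions
  have hQ : ∀ i (j : Fin (m i)) (τ : KD D →+* ℂ), f i τ = 1 → ∃ Q : ℂ × ℂ → ℂ,
      DifferentiableOn ℂ Q (Ball D) ∧
      ∀ g : G, ∀ z ∈ Ball D, Q (act D g.1 z) = Q z + τ (lam i j g) := by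
    intro i j τ hτ
    obtain ⟨t, ht⟩ := hsg i (a i) (hae i) τ hτ
    obtain ⟨Q, hQ1, hQ2⟩ := hCP F hF D (a i) (ha0 i) (φ i) (hφ i) G hGa (P i) (hP i) (p i) (hp i) t
      ((τ : KD D →+ ℂ).comp (L i j)) (ht (L i j) (hL i j))
    refine ⟨Q, hQ1, fun g z hz => ?_⟩
    rw [hQ2 g z hz, hlam i j g]
    rfl
  have hQ' : ∀ i (j : Fin (m i)) (τ : KD D →+* ℂ), ∃ Q : ℂ × ℂ → ℂ, f i τ = 1 →
      (DifferentiableOn ℂ Q (Ball D) ∧
      ∀ g : G, ∀ z ∈ Ball D, Q (act D g.1 z) = Q z + τ (lam i j g)) := by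
    intro i j τ
    by_cases h : f i τ = 1
    · obtain ⟨Q, hQ1⟩ := hQ i j τ h
      exact ⟨Q, fun _ => hQ1⟩
    · exact ⟨0, fun h' => absurd h' h⟩
  choose w hw using hQ'
  -- the expansion of the forms
  have hq : ∀ i (j : Fin (m i)), ContinuousOn (grad (w i j (ev D D.t0))) (Ball D) := fun i j =>
    continuousOn_grad D (hw i j (ev D D.t0) (hf0 i)).1
  have hA : ∀ i, ∀ z ∈ Ball D, om D (a i) (φ i) z = ∑ j, κ i j • grad (w i j (ev D D.t0)) z := by
    intro i z hz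
    -- the invariant function
    let U : ℂ × ℂ → ℂ := fun z => P i z - ∑ j, κ i j * w i j (ev D D.t0) z
    have hU : ∀ z ∈ Ball D, HasFDerivAt U
        (lf (om D (a i) (φ i) z) - ∑ j, κ i j • lf (grad (w i j (ev D D.t0)) z)) z := by
      intro z hz
      refine (hP' i z hz).sub (HasFDerivAt.fun_sum fun j _ => ?_)
      exact (hasFDerivAt_grad D (hw i j (ev D D.t0) (hf0 i)).1 hz).const_mul (κ i j)
    have hUd : DifferentiableOn ℂ U (Ball D) := fun z hz =>
      (hU z hz).differentiableAt.differentiableWithinAt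
    have hUi : ∀ g ∈ (G : Set (SG D)), ∀ z ∈ Ball D, U (act D g z) = U z := by
      intro g hg z hz
      show P i (act D g z) - ∑ j, κ i j * w i j (ev D D.t0) (act D g z) =
        P i z - ∑ j, κ i j * w i j (ev D D.t0) z
      have h1 := hp i ⟨g, hg⟩ z hz
      have h2 : ∀ j, w i j (ev D D.t0) (act D g z) =
          w i j (ev D D.t0) z + ev D D.t0 (lam i j ⟨g, hg⟩) := fun j =>
        (hw i j (ev D D.t0) (hf0 i)).2 ⟨g, hg⟩ z hz
      rw [h1, hpe i ⟨g, hg⟩]
      simp only [h2, mul_add, Finset.sum_add_distrib]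
      ring
    have hUc := hConst F D (G : Set (SG D)) U hUd hUi hcpt
    have h3 : HasFDerivAt U (0 : (ℂ × ℂ) →L[ℂ] ℂ) z := by
      refine (hasFDerivAt_const (U z) z).congr_of_eventuallyEq ?_
      filter_upwards [(CMT.D.isOpen_Ball D).mem_nhds hz] with y hy
      exact hUc y hy z hz
    have h4 := (hU z hz).unique h3
    have h5 := sub_eq_zero.1 h4
    apply lf_inj
    rw [h5]
    refine ContinuousLinearMap.ext fun v => ?_
    rw [ContinuousLinearMap.sum_apply, lf_apply, Prod.fst_sum, Prod.snd_sum, Finset.sum_mul,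
      Finset.sum_mul, ← Finset.sum_add_distrib]
    refine Finset.sum_congr rfl fun j _ => ?_
    show κ i j • lf (grad (w i j (ev D D.t0)) z) v = _
    rw [lf_apply, Prod.smul_fst, Prod.smul_snd, smul_eq_mul, smul_eq_mul, smul_eq_mul]
    ring
  have hAc : ∀ i, ContinuousOn (om D (a i) (φ i)) (Ball D) := by
    intro i
    have h1 : ContinuousOn (fun z => ∑ j, κ i j • grad (w i j (ev D D.t0)) z) (Ball D) :=
      continuousOn_finset_sum _ fun j _ => (hq i j).const_smul (κ i j)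
    exact h1.congr fun z hz => hA i z hz
  obtain ⟨j, hj⟩ := I4_pick4 D hχ0 m κ (fun i j => grad (w i j (ev D D.t0)))
    (fun i => om D (a i) (φ i)) hq hAc hA (hint χ0 hχ0)
  refine ⟨G, fun i => lam i (j i), fun i => w i (j i), hGa, hmem, hfree, hpd, hcpt,
    fun i g => hlamR i (j i) g, fun i g g' => hlamA i (j i) g g',
    fun i τ hτ => (hw i (j i) τ hτ).1, fun i τ hτ => (hw i (j i) τ hτ).2, ⟨χ0, hχ0⟩, ?_⟩
  intro χ hχ
  have hginv : ∀ i, IsInv1 D G (grad (w i (j i) (ev D D.t0))) := by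
    intro i g hg z hz
    exact hGI F D g (hiso g hg) (w i (j i) (ev D D.t0)) (ev D D.t0 (lam i (j i) ⟨g, hg⟩))
      (hw i (j i) (ev D D.t0) (hf0 i)).1
      (fun z hz => (hw i (j i) (ev D D.t0) (hf0 i)).2 ⟨g, hg⟩ z hz) z hz
  have hd := Pool.Agent.CMT.G.dens_of_inv D hG1 hginv
  have hc : ContinuousOn (fun z => wedge (grad (w 0 (j 0) (ev D D.t0)) z)
      (grad (w 1 (j 1) (ev D D.t0)) z) *
        conj (wedge (grad (w 2 (j 2) (ev D D.t0)) z) (grad (w 3 (j 3) (ev D D.t0)) z)))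
      (Ball D) :=
    (Pool.Agent.CMT.G.continuousOn_wedge (hq 0 (j 0)) (hq 1 (j 1))).mul
      (Complex.continuous_conj.comp_continuousOn
        (Pool.Agent.CMT.G.continuousOn_wedge (hq 2 (j 2)) (hq 3 (j 3))))
  have h6 := Pool.Agent.CMT.G.int_indep D hG1 hc hd hχ hχ0
  rw [h6]
  exact hj

end J
end CMT
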