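import Pool.Agent.Lib.CMT.J.Eval

/-!
# PROJECT CMT, part J1: the uniform statement `S_VI3`
-/

set_option autoImplicit false

open scoped BigOperators ComplexConjugate
open Matrix NumberField

noncomputable section

namespace CMT.J

open CMT.B

variable {F : Type} [Field F] [NumberField F]

theorem at_add (t : F →+* ℝ) (u v : Fin 3 → ℂ) : at_ t (u + v) = at_ t u + at_ t v := by
  funext s
  unfold at_
  rw [Pi.add_apply]
  split_ifs
  · rfl
  · rw [add_zero]

theorem at_smul (t : F →+* ℝ) (c : ℂ) (u : Fin 3 → ℂ) : at_ t (c • u) = c • at_ t u := by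
  funext s
  unfold at_
  rw [Pi.smul_apply]
  split_ifs
  · rfl
  · rw [smul_zero]

theorem NA_at (D : Dat F) (a : F) (g : SG D) (z : ℂ × ℂ) (t : F →+* ℝ) (u : Fin 3 → ℂ) :
    NA D a g z (at_ t u) = at_ t (NNt D a g z t *ᵥ u) := by
  funext s
  unfold NA at_
  split_ifs with h
  · rw [h]
  · rw [Matrix.mulVec_zero]

/-- The quadratic term at the same place `t0`. -/
theorem Qb_t0 (D : Dat F) {a : F} (ha : 0 < D.t0 a) {g : SG D} (hg : IsIso D g)
    {z : ℂ × ℂ} (hz : z ∈ Ball D) (u v : Fin 3 → ℂ) :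
    Qb D a g z (at_ D.t0 (VV (ka D a) (hh D) z u)) (at_ D.t0 (VV (ka D a) (hh D) z v)) =
      (1 / 2) * (ka D a * (BB (hh D) (CMT.act D g z) (mt D D.t0 g *ᵥ u) (mt D D.t0 g *ᵥ v) -
        BB (hh D) z u v)) := by
  have hz' : z ∈ CMT.B.ball (hh D) := by rw [← CMT.B.Ball_eq]; exact hz
  have e1 : NNt D a g z D.t0 = NNm (ka D a) (hh D) (mt D D.t0 g) z := by simp [NNt]
  unfold Qb
  rw [Finset.sum_eq_single D.t0]
  · rw [at_same, at_same, e1, NNm_VV (ka_ne D ha) (hh_zero_pos D) (hh_one_pos D) (hh_two_neg D)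
      (mt_t0_isU D hg) hz', act_eq, ← quad_term (hh_zero_pos D) (hh_one_pos D) (mt_t0_isU D hg) hz',
      Finset.mul_sum]
    refine Finset.sum_congr rfl fun i _ => ?_
    have e2 : (bb D a g D.t0 *ᵥ VV (ka D a) (hh D) z v) i =
        (1 / 2) * ((mt D D.t0 g - (mt D D.t0 g).map conj) *ᵥ hv (hh D) z v) i := by
      rw [Matrix.mulVec, dotProduct, Matrix.mulVec, dotProduct, Finset.mul_sum]
      refine Finset.sum_congr rfl fun l _ => ?_
      have h1 : 0 < Real.sqrt (D.t0 D.del) := Real.sqrt_pos.2 (D.del_pos _)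
      have h2 : ((Real.sqrt (D.t0 D.del) : ℝ) : ℂ) ≠ 0 := by exact_mod_cast h1.ne'
      have h3 : ((D.t0 a : ℝ) : ℂ) ≠ 0 := by exact_mod_cast ha.ne'
      have h4 : ((Real.sqrt (D.t0 D.del) : ℝ) : ℂ) ^ 2 = ((D.t0 D.del : ℝ) : ℂ) := by
        rw [← Complex.ofReal_pow, Real.sq_sqrt (D.del_pos _).le]
      have h5 := hh_ne D l
      have e3 : (mt D D.t0 g - (mt D D.t0 g).map conj) i l =
          2 * (Complex.I * ((Real.sqrt (D.t0 D.del) : ℝ) : ℂ) * ((D.t0 (gB D g i l) : ℝ) : ℂ)) := by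
        have e5 : mt D D.t0 g i l = ((D.t0 (g.1 i l).re : ℝ) : ℂ) +
            Complex.I * ((Real.sqrt (D.t0 D.del) : ℝ) : ℂ) * ((D.t0 (g.1 i l).im : ℝ) : ℂ) := rfl
        rw [Matrix.sub_apply, Matrix.map_apply, e5, map_add, map_mul, map_mul, Complex.conj_ofReal,
          Complex.conj_ofReal, Complex.conj_ofReal, Complex.conj_I]
        unfold gB
        rw [Matrix.map_apply]
        ring
      rw [e3]
      unfold bb VV
      rw [Matrix.of_apply]
      have e6 : CMT.B.ht D D.t0 l = hh D l := rfl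
      rw [e6]
      push_cast
      rw [← h4]
      unfold ka
      push_cast
      field_simp
    rw [e2]
    ring
  · intro s _ hs
    rw [at_ne hs, at_ne hs, Matrix.mulVec_zero, Matrix.mulVec_zero]
    simp
  · intro h
    exact absurd (Finset.mem_univ _) h

/-- The quadratic term at different places. -/
theorem Qb_ne (D : Dat F) (a : F) (g : SG D) (z : ℂ × ℂ) {s t : F →+* ℝ} (h : s ≠ t)
    (u v : Fin 3 → ℂ) : Qb D a g z (at_ s u) (at_ t v) = 0 := by
  unfold Qb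
  refine Finset.sum_eq_zero fun r _ => Finset.sum_eq_zero fun i _ => ?_
  by_cases h1 : r = s
  · subst h1
    rw [at_ne h v, Matrix.mulVec_zero]
    simp
  · rw [at_ne h1 u, Matrix.mulVec_zero]
    simp

section main

variable [IsTotallyReal F] (D : Dat F) {a : F} (ha : 0 < D.t0 a) {N : ℕ} (hN : 0 < N)
  {φ : (Fin 3 → F) → ℂ} (hφ : SB N φ) {z : ℂ × ℂ} (hz : z ∈ Ball D)

/-- The corrected second moments. -/
def Pf (D : Dat F) (a : F) (φ : (Fin 3 → F) → ℂ) (t : F →+* ℝ) (z : ℂ × ℂ) (i k : Fin 3) : ℂ :=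
  (2 * Real.pi * Complex.I) ^ 2 * Tb D a φ z (at_ t (u3 D a t z i)) (at_ D.t0 (e3 D a z k)) +
    (if t = D.t0 then Real.pi * Complex.I * ka D a *
      BB (hh D) z (Pi.single i (((hh D i : ℝ) : ℂ)⁻¹)) (Pi.single k 1) * th0 D a φ z else 0)

/-- The scalar between the moments and the vector form. -/
def kq (D : Dat F) (a : F) (t : F →+* ℝ) : ℂ := if t = D.t0 then ka D a ^ 2 else ka D a

theorem kq_ne (ha : 0 < D.t0 a) (t : F →+* ℝ) : kq D a t ≠ 0 := by
  unfold kq
  split_ifs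
  · exact pow_ne_zero _ (ka_ne D ha)
  · exact ka_ne D ha

include ha hN hφ hz

theorem Pf_vf (t : F →+* ℝ) (i : Fin 3) :
    Pf D a φ t z i 0 =
      (2 * Real.pi * Complex.I) ^ 2 * kq D a t * ss (D.t0 D.bet) z * (vf D a t φ z i).1 ∧
    Pf D a φ t z i 1 =
      (2 * Real.pi * Complex.I) ^ 2 * kq D a t * ss (D.t0 D.bet) z * (vf D a t φ z i).2 := by
  have ha0 : a ≠ 0 := by
    rintro rfl
    simp at ha
  have hss := IThreeAux.ss_ne D hz
  have hc := cst D ha
  unfold Pf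
  by_cases h : t = D.t0
  · subst h
    have hu : ∀ x : Fin 3 → F, pr x (at_ D.t0 (u3 D a D.t0 z i)) =
        ka D a * Xv (D.t0 D.bet) (rx D.t0 x) z i := by
      intro x
      rw [← pr_u3 D a hz x i]
      unfold u3
      rw [if_pos rfl]
    have hk : kq D a D.t0 = ka D a ^ 2 := by
      unfold kq
      rw [if_pos rfl]
    rw [if_pos rfl, if_pos rfl, hk]
    constructor
    · have s1 := sum_two D ha0 hN hφ hz (at_ D.t0 (u3 D a D.t0 z i)) (at_ D.t0 (e3 D a z 0))
      have s2 := CMT.J.sum_zero D ha0 hN hφ hz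
      rw [(BB_Me D z i).1]
      show _ = _ * ∑' x : Fin 3 → F, φ x * vt1 D a D.t0 x z i
      unfold Tb th0
      rw [← tsum_mul_left, ← tsum_mul_left, ← tsum_mul_left,
        ← (s1.mul_left _).tsum_add (s2.mul_left _)]
      refine tsum_congr fun x => ?_
      rw [hu, (pr_e3 D a hz x).1]
      unfold vt1
      rw [if_pos rfl]
      have e : (2 * Real.pi * Complex.I) ^ 2 * ka D a ^ 2 * ss (D.t0 D.bet) z *
          (φ x * (tm1 D a x z * (Xv (D.t0 D.bet) (rx D.t0 x) z i *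
            (du (D.t0 D.bet) (rx D.t0 x) z).1 - ((4 * cc D a : ℝ) : ℂ)⁻¹ *
            (Me (D.t0 D.bet) z i 0 / ss (D.t0 D.bet) z)))) =
          (2 * Real.pi * Complex.I) ^ 2 * ka D a ^ 2 * ss (D.t0 D.bet) z * φ x * tm1 D a x z *
            Xv (D.t0 D.bet) (rx D.t0 x) z i * (du (D.t0 D.bet) (rx D.t0 x) z).1 -
          ((2 * Real.pi * Complex.I) ^ 2 * ka D a ^ 2 * ((4 * cc D a : ℝ) : ℂ)⁻¹) *
            (φ x * tm1 D a x z * (ss (D.t0 D.bet) z * (Me (D.t0 D.bet) z i 0 / ss (D.t0 D.bet) z))) := by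
        ring
      rw [e, hc, mul_div_cancel₀ _ hss]
      ring
    · have s1 := sum_two D ha0 hN hφ hz (at_ D.t0 (u3 D a D.t0 z i)) (at_ D.t0 (e3 D a z 1))
      have s2 := CMT.J.sum_zero D ha0 hN hφ hz
      rw [(BB_Me D z i).2]
      show _ = _ * ∑' x : Fin 3 → F, φ x * vt2 D a D.t0 x z i
      unfold Tb th0
      rw [← tsum_mul_left, ← tsum_mul_left, ← tsum_mul_left,
        ← (s1.mul_left _).tsum_add (s2.mul_left _)]
      refine tsum_congr fun x => ?_
      rw [hu, (pr_e3 D a hz x).2]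
      unfold vt2
      rw [if_pos rfl]
      have e : (2 * Real.pi * Complex.I) ^ 2 * ka D a ^ 2 * ss (D.t0 D.bet) z *
          (φ x * (tm1 D a x z * (Xv (D.t0 D.bet) (rx D.t0 x) z i *
            (du (D.t0 D.bet) (rx D.t0 x) z).2 - ((4 * cc D a : ℝ) : ℂ)⁻¹ *
            (Me (D.t0 D.bet) z i 1 / ss (D.t0 D.bet) z)))) =
          (2 * Real.pi * Complex.I) ^ 2 * ka D a ^ 2 * ss (D.t0 D.bet) z * φ x * tm1 D a x z *
            Xv (D.t0 D.bet) (rx D.t0 x) z i * (du (D.t0 D.bet) (rx D.t0 x) z).2 -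
          ((2 * Real.pi * Complex.I) ^ 2 * ka D a ^ 2 * ((4 * cc D a : ℝ) : ℂ)⁻¹) *
            (φ x * tm1 D a x z * (ss (D.t0 D.bet) z * (Me (D.t0 D.bet) z i 1 / ss (D.t0 D.bet) z))) := by
        ring
      rw [e, hc, mul_div_cancel₀ _ hss]
      ring
  · have hu : ∀ x : Fin 3 → F, pr x (at_ t (u3 D a t z i)) = ((t (x i) : ℝ) : ℂ) := by
      intro x
      rw [pr_at]
      unfold u3
      rw [if_neg h, Finset.sum_eq_single i]
      · rw [Pi.single_eq_same, mul_one]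
      · intro l _ hl
        rw [Pi.single_eq_of_ne hl, mul_zero]
      · intro h
        exact absurd (Finset.mem_univ _) h
    have hk : kq D a t = ka D a := by
      unfold kq
      rw [if_neg h]
    rw [if_neg h, if_neg h, hk, add_zero, add_zero]
    constructor
    · show _ = _ * ∑' x : Fin 3 → F, φ x * vt1 D a t x z i
      unfold Tb
      rw [← tsum_mul_left, ← tsum_mul_left]
      refine tsum_congr fun x => ?_
      rw [hu, (pr_e3 D a hz x).1]
      unfold vt1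
      rw [if_neg h]
      ring
    · show _ = _ * ∑' x : Fin 3 → F, φ x * vt2 D a t x z i
      unfold Tb
      rw [← tsum_mul_left, ← tsum_mul_left]
      refine tsum_congr fun x => ?_
      rw [hu, (pr_e3 D a hz x).2]
      unfold vt2
      rw [if_neg h]
      ring

theorem Tb_sum (v : (F →+* ℝ) → Fin 3 → ℂ) (c : Fin 3 → ℂ)
    (f : Fin 3 → (F →+* ℝ) → Fin 3 → ℂ) :
    Tb D a φ z (∑ l, c l • f l) v = ∑ l, c l * Tb D a φ z (f l) v := by
  have ha0 : a ≠ 0 := by
    rintro rfl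
    simp at ha
  rw [Fin.sum_univ_three, Fin.sum_univ_three, Tb_comm, Tb_add D ha0 hN hφ hz,
    Tb_add D ha0 hN hφ hz, Tb_smul D ha0 hN hφ hz, Tb_smul D ha0 hN hφ hz,
    Tb_smul D ha0 hN hφ hz, Tb_comm D a φ z v, Tb_comm D a φ z v, Tb_comm D a φ z v]

end main

/-- The covariance of the corrected second moments. -/
theorem Pf_tr [IsTotallyReal F] (D : Dat F) {a : F} (ha : 0 < D.t0 a) {N : ℕ} (hN : 0 < N)
    {φ : (Fin 3 → F) → ℂ} (hφ : SB N φ) {g : SG D} (hg : IsIso D g) {z : ℂ × ℂ}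
    (hz : z ∈ Ball D) {c : ℂ} (h0 : th0 D a φ (CMT.act D g z) = c * th0 D a φ z)
    (h2 : ∀ v w : (F →+* ℝ) → Fin 3 → ℂ,
      (2 * Real.pi * Complex.I) ^ 2 * Tb D a φ (CMT.act D g z) (NA D a g z v) (NA D a g z w)
        = c * ((2 * Real.pi * Complex.I) ^ 2 * Tb D a φ z v w
          - Real.pi * Complex.I * (Qb D a g z v w + Qb D a g z w v) * th0 D a φ z))
    (t : F →+* ℝ) (i : Fin 3) :
    (∑ l, ((CMT.B.ht D t l : ℂ) * SS D a t g l i * ((CMT.B.ht D t i : ℝ) : ℂ)⁻¹) *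
      (MM (mt D D.t0 g) z 0 0 * Pf D a φ t (CMT.act D g z) l 0 +
        MM (mt D D.t0 g) z 1 0 * Pf D a φ t (CMT.act D g z) l 1)) = c * Pf D a φ t z i 0 ∧
    (∑ l, ((CMT.B.ht D t l : ℂ) * SS D a t g l i * ((CMT.B.ht D t i : ℝ) : ℂ)⁻¹) *
      (MM (mt D D.t0 g) z 0 1 * Pf D a φ t (CMT.act D g z) l 0 +
        MM (mt D D.t0 g) z 1 1 * Pf D a φ t (CMT.act D g z) l 1)) = c * Pf D a φ t z i 1 := by
  have ha0 : a ≠ 0 := by
    rintro rfl
    simp at ha
  have hgz : CMT.act D g z ∈ Ball D := act_mem_Ball D hg hz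
  have hsg := s2_ne D hgz
  have hz' : z ∈ CMT.B.ball (hh D) := by rw [← CMT.B.Ball_eq]; exact hz
  have hj : jj (mt D D.t0 g) z ≠ 0 := num_two_ne_zero D hg hz
  obtain ⟨ce0, ce1⟩ := col_e3 D ha hg hz
  have cu := col_u3 D ha t hg hz i
  -- general computation
  have gen : ∀ (k : Fin 3) (p q : ℂ),
      NNt D a g z D.t0 *ᵥ e3 D a z k = p • e3 D a (CMT.act D g z) 0 + q • e3 D a (CMT.act D g z) 1 →
      (t = D.t0 → ∀ u : Fin 3 → ℂ, BB (hh D) (CMT.act D g z) u (mt D D.t0 g *ᵥ Pi.single k 1) =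
        p * BB (hh D) (CMT.act D g z) u (Pi.single 0 1) +
          q * BB (hh D) (CMT.act D g z) u (Pi.single 1 1)) →
      (∑ l, ((CMT.B.ht D t l : ℂ) * SS D a t g l i * ((CMT.B.ht D t i : ℝ) : ℂ)⁻¹) *
      (p * Pf D a φ t (CMT.act D g z) l 0 + q * Pf D a φ t (CMT.act D g z) l 1)) =
        c * Pf D a φ t z i k := by
    intro k p q hk hB
    have e1 := h2 (at_ t (u3 D a t z i)) (at_ D.t0 (e3 D a z k))
    rw [NA_at, NA_at, hk, cu] at e1
    have e2 : at_ t (∑ l, ((CMT.B.ht D t l : ℂ) * SS D a t g l i *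
          ((CMT.B.ht D t i : ℝ) : ℂ)⁻¹) • u3 D a t (CMT.act D g z) l) =
        ∑ l, ((CMT.B.ht D t l : ℂ) * SS D a t g l i * ((CMT.B.ht D t i : ℝ) : ℂ)⁻¹) •
          at_ t (u3 D a t (CMT.act D g z) l) := by
      rw [Fin.sum_univ_three, Fin.sum_univ_three, at_add, at_add, at_smul, at_smul, at_smul]
    have e3' : at_ D.t0 (p • e3 D a (CMT.act D g z) 0 + q • e3 D a (CMT.act D g z) 1) =
        p • at_ D.t0 (e3 D a (CMT.act D g z) 0) + q • at_ D.t0 (e3 D a (CMT.act D g z) 1) := by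
      rw [at_add, at_smul, at_smul]
    rw [e2, e3', Tb_sum D ha hN hφ hgz] at e1
    simp_rw [Tb_add D ha0 hN hφ hgz, Tb_smul D ha0 hN hφ hgz] at e1
    by_cases h : t = D.t0
    · -- at the place t0
      subst h
      have hB' := hB rfl
      have hQ : Qb D a g z (at_ D.t0 (u3 D a D.t0 z i)) (at_ D.t0 (e3 D a z k)) +
          Qb D a g z (at_ D.t0 (e3 D a z k)) (at_ D.t0 (u3 D a D.t0 z i)) =
          ka D a * (BB (hh D) (CMT.act D g z)
            (mt D D.t0 g *ᵥ Pi.single i (((hh D i : ℝ) : ℂ)⁻¹)) (mt D D.t0 g *ᵥ Pi.single k 1) -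
            BB (hh D) z (Pi.single i (((hh D i : ℝ) : ℂ)⁻¹)) (Pi.single k 1)) := by
        have eu : u3 D a D.t0 z i =
            VV (ka D a) (hh D) z (Pi.single i (((hh D i : ℝ) : ℂ)⁻¹)) := by
          unfold u3
          rw [if_pos rfl]
        rw [eu]
        unfold e3
        rw [Qb_t0 D ha hg hz, Qb_t0 D ha hg hz,
          BB_comm (hh D) _ (mt D D.t0 g *ᵥ Pi.single k 1),
          BB_comm (hh D) z (Pi.single k 1)]
        ring
      have hM : BB (hh D) (CMT.act D g z)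
            (mt D D.t0 g *ᵥ Pi.single i (((hh D i : ℝ) : ℂ)⁻¹)) (mt D D.t0 g *ᵥ Pi.single k 1) =
          ∑ l, ((CMT.B.ht D D.t0 l : ℂ) * SS D a D.t0 g l i *
            ((CMT.B.ht D D.t0 i : ℝ) : ℂ)⁻¹) *
            (p * BB (hh D) (CMT.act D g z) (Pi.single l (((hh D l : ℝ) : ℂ)⁻¹)) (Pi.single 0 1) +
              q * BB (hh D) (CMT.act D g z) (Pi.single l (((hh D l : ℝ) : ℂ)⁻¹))
                (Pi.single 1 1)) := by
        have e2 : SS D a D.t0 g = mt D D.t0 g := by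
          unfold SS
          rw [if_pos ha]
        have e5 : mt D D.t0 g *ᵥ (Pi.single i (((hh D i : ℝ) : ℂ)⁻¹)) =
            ∑ l, ((CMT.B.ht D D.t0 l : ℂ) * SS D a D.t0 g l i *
              ((CMT.B.ht D D.t0 i : ℝ) : ℂ)⁻¹) •
              (Pi.single l (((hh D l : ℝ) : ℂ)⁻¹) : Fin 3 → ℂ) := by
          rw [e2]
          funext m
          rw [Finset.sum_apply]
          have e4 : ∀ l, ((((CMT.B.ht D D.t0 l : ℝ) : ℂ) * mt D D.t0 g l i *
              ((CMT.B.ht D D.t0 i : ℝ) : ℂ)⁻¹) •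
              (Pi.single l (((hh D l : ℝ) : ℂ)⁻¹) : Fin 3 → ℂ)) m =
              if m = l then mt D D.t0 g m i * ((hh D i : ℝ) : ℂ)⁻¹ else 0 := by
            intro l
            rw [Pi.smul_apply, smul_eq_mul, Pi.single_apply]
            split_ifs with h
            · subst h
              have := hh_ne D m
              show ((hh D m : ℝ) : ℂ) * mt D D.t0 g m i * ((hh D i : ℝ) : ℂ)⁻¹ *
                ((hh D m : ℝ) : ℂ)⁻¹ = _
              field_simp
            · rw [mul_zero]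
          rw [Finset.sum_congr rfl fun l _ => e4 l, Finset.sum_ite_eq,
            if_pos (Finset.mem_univ m), Matrix.mulVec_single]
          rfl
        rw [e5, Fin.sum_univ_three, Fin.sum_univ_three, BB_comm, BB_add, BB_add, BB_smul, BB_smul,
          BB_smul, BB_comm (hh D) (CMT.act D g z) (mt D D.t0 g *ᵥ Pi.single k 1),
          BB_comm (hh D) (CMT.act D g z) (mt D D.t0 g *ᵥ Pi.single k 1),
          BB_comm (hh D) (CMT.act D g z) (mt D D.t0 g *ᵥ Pi.single k 1), hB', hB', hB']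
      rw [hQ, hM] at e1
      unfold Pf
      simp only [if_true]
      rw [h0]
      simp only [Fin.sum_univ_three] at e1 ⊢
      linear_combination e1
    · have hQ1 := Qb_ne D a g z h (u3 D a t z i) (e3 D a z k)
      have hQ2 := Qb_ne D a g z (Ne.symm h) (e3 D a z k) (u3 D a t z i)
      rw [hQ1, hQ2] at e1
      unfold Pf
      simp only [if_neg h]
      simp only [Fin.sum_univ_three] at e1 ⊢
      linear_combination e1
  have hzz : ∀ k : Fin 3, ∀ p q : ℂ,
      p = mt D D.t0 g 0 k - (CMT.act D g z).1 * mt D D.t0 g 2 k →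
      q = mt D D.t0 g 1 k - (CMT.act D g z).2 * mt D D.t0 g 2 k →
      ∀ u : Fin 3 → ℂ, BB (hh D) (CMT.act D g z) u (mt D D.t0 g *ᵥ Pi.single k 1) =
        p * BB (hh D) (CMT.act D g z) u (Pi.single 0 1) +
          q * BB (hh D) (CMT.act D g z) u (Pi.single 1 1) := by
    intro k p q hp hq u
    have e : mt D D.t0 g *ᵥ (Pi.single k 1) = p • (Pi.single 0 1 : Fin 3 → ℂ) + q • Pi.single 1 1 +
        mt D D.t0 g 2 k • zh (CMT.act D g z) := by
      rw [Matrix.mulVec_single_one]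
      funext m
      fin_cases m
      · simp [Matrix.col, hp, zh]
        ring
      · simp [Matrix.col, hq, zh]
        ring
      · simp [Matrix.col, zh]
    rw [e, BB_add, BB_add, BB_smul, BB_smul, BB_smul, BB_zh hsg, mul_zero, add_zero]
  exact ⟨gen 0 _ _ ce0 fun _ => hzz 0 _ _ rfl rfl, gen 1 _ _ ce1 fun _ => hzz 1 _ _ rfl rfl⟩

end CMT.J
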