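import Pool.Agent.Lib.CMT.J.VI3Def
import Pool.Agent.Lib.CMT.J.J4
import Pool.Agent.Lib.CMT.J.VPrim
import Pool.Agent.Lib.CMT.B.MainB
import Pool.Agent.Lib.CMT.NV.NV
import Pool.Agent.Lib.CMT.E.SBn

/-!
# PROJECT CMT, part J1: equivariance of the vector valued theta forms (helper91)

`S_VInv` from the uniform statement `S_VI3` (one root of unity for the scalar and the vector
valued forms), the invariance of the scalar forms (`thmInv1`) and the existence of a scalar form
which is not zero at the centre (`NV.holds`): on complex lines through the centre the root of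
unity is constant (`pRoot`).
-/

set_option autoImplicit false

open scoped BigOperators ComplexConjugate
open Matrix NumberField

noncomputable section

namespace CMT.J

open CMT.B CMT.B.InvOneAux

variable {F : Type} [Field F] [NumberField F]

/-- The pulled back form is holomorphic. -/
theorem diff_pull_gen (D : Dat F) {ω : ℂ × ℂ → ℂ × ℂ} {g : SG D} (hg : IsIso D g) {z : ℂ × ℂ}
    (hz : z ∈ Ball D) (o1 : DifferentiableAt ℂ (fun z => (ω z).1) (act D g z))
    (o2 : DifferentiableAt ℂ (fun z => (ω z).2) (act D g z)) :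
    DifferentiableAt ℂ (fun z => (pull1 D g z (ω (act D g z))).1) z ∧
      DifferentiableAt ℂ (fun z => (pull1 D g z (ω (act D g z))).2) z := by
  have hw : num D g z 2 ≠ 0 := num_two_ne_zero D hg hz
  have hact : DifferentiableAt ℂ (fun z => CMT.act D g z) z :=
    (hasFDerivAt_act_Ball D hg hz).differentiableAt
  have p1 : DifferentiableAt ℂ (fun z => (ω (CMT.act D g z)).1) z :=
    DifferentiableAt.comp (g := fun z => (ω z).1) z o1 hact
  have p2 : DifferentiableAt ℂ (fun z => (ω (CMT.act D g z)).2) z :=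
    DifferentiableAt.comp (g := fun z => (ω z).2) z o2 hact
  have d0 := diff_num D g 0 z
  have d1 := diff_num D g 1 z
  have d2 := diff_num D g 2 z
  have d3 : DifferentiableAt ℂ (fun z => (num D g z 2 ^ 2)⁻¹) z :=
    DifferentiableAt.fun_inv (d2.fun_pow 2) (pow_ne_zero 2 hw)
  constructor
  · have h := ((p1.fun_mul ((d2.const_mul (mt D D.t0 g 0 0)).fun_sub
        (d0.mul_const (mt D D.t0 g 2 0)))).fun_add
      (p2.fun_mul ((d2.const_mul (mt D D.t0 g 1 0)).fun_sub
        (d1.mul_const (mt D D.t0 g 2 0))))).fun_mul d3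
    exact h
  · have h := ((p1.fun_mul ((d2.const_mul (mt D D.t0 g 0 1)).fun_sub
        (d0.mul_const (mt D D.t0 g 2 1)))).fun_add
      (p2.fun_mul ((d2.const_mul (mt D D.t0 g 1 1)).fun_sub
        (d1.mul_const (mt D D.t0 g 2 1))))).fun_mul d3
    exact h

/-- Pairs of holomorphic functions which agree with a second pair up to a root of unity at every
point: if the scalar is `1` at the centre for the first function, it is `1` everywhere for the
second. -/
theorem line_root (D : Dat F) {A A' B B' : ℂ × ℂ → ℂ}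
    (hA : ∀ z ∈ Ball D, DifferentiableAt ℂ A z) (hA' : ∀ z ∈ Ball D, DifferentiableAt ℂ A' z)
    (hB : ∀ z ∈ Ball D, DifferentiableAt ℂ B z) (hB' : ∀ z ∈ Ball D, DifferentiableAt ℂ B' z)
    {k : ℕ} (hk : 0 < k)
    (h : ∀ z ∈ Ball D, ∃ c : ℂ, c ^ k = 1 ∧ A' z = c * A z ∧ B' z = c * B z)
    (h0 : A 0 ≠ 0) (h1 : A' 0 = A 0) : ∀ z ∈ Ball D, B' z = B z := by
  intro z hz
  set U : Set ℂ := {τ : ℂ | τ • z ∈ Ball D} with hU
  have cont : Continuous fun τ : ℂ => τ • z := by fun_prop
  have hUo : IsOpen U := (isOpen_Ball D).preimage cont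
  have hUc : Convex ℝ U := by
    intro τ hτ σ hσ α β hα hβ hαβ
    have h1 : (α • τ + β • σ) • z = α • (τ • z) + β • (σ • z) := by
      rw [add_smul, smul_assoc, smul_assoc]
    show (α • τ + β • σ) • z ∈ Ball D
    rw [h1]
    exact convex_Ball D hτ hσ hα hβ hαβ
  have dl : ∀ τ : ℂ, DifferentiableAt ℂ (fun τ : ℂ => τ • z) τ := by
    intro τ
    fun_prop
  have dc : ∀ C : ℂ × ℂ → ℂ, (∀ z ∈ Ball D, DifferentiableAt ℂ C z) →
      DifferentiableOn ℂ (fun τ : ℂ => C (τ • z)) U := by
    intro C hC τ hτ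
    exact (DifferentiableAt.comp (g := C) τ (hC _ hτ) (dl τ)).differentiableWithinAt
  let f : Fin 2 → ℂ → ℂ := ![fun τ => A (τ • z), fun τ => B (τ • z)]
  let f' : Fin 2 → ℂ → ℂ := ![fun τ => A' (τ • z), fun τ => B' (τ • z)]
  have hf : ∀ i, DifferentiableOn ℂ (f i) U := by
    intro i
    fin_cases i
    · exact dc A hA
    · exact dc B hB
  have hf' : ∀ i, DifferentiableOn ℂ (f' i) U := by
    intro i
    fin_cases i
    · exact dc A' hA'
    · exact dc B' hB'
  have hval : ∀ τ ∈ U, ∃ c : ℂ, c ^ k = 1 ∧ ∀ i, f' i τ = c * f i τ := by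
    intro τ hτ
    obtain ⟨c, hc, e1, e2⟩ := h (τ • z) hτ
    refine ⟨c, hc, fun i => ?_⟩
    fin_cases i
    · exact e1
    · exact e2
  have h00 : (0 : ℂ) ∈ U := by
    show (0 : ℂ) • z ∈ Ball D
    rw [zero_smul]
    exact zero_mem_Ball D
  have h11 : (1 : ℂ) ∈ U := by
    show (1 : ℂ) • z ∈ Ball D
    rw [one_smul]
    exact hz
  have hB0 : B' 0 = B 0 := by
    obtain ⟨c, hc, e1, e2⟩ := h 0 (zero_mem_Ball D)
    have e3 : c = 1 := by
      have e4 : c * A 0 = 1 * A 0 := by rw [← e1, h1, one_mul]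
      exact mul_right_cancel₀ h0 e4
    rw [e2, e3, one_mul]
  have hval0 : ∀ i, f' i 0 = 1 * f i 0 := by
    intro i
    fin_cases i
    · show A' ((0 : ℂ) • z) = 1 * A ((0 : ℂ) • z)
      rw [zero_smul, h1, one_mul]
    · show B' ((0 : ℂ) • z) = 1 * B ((0 : ℂ) • z)
      rw [zero_smul, hB0, one_mul]
  have hne : f 0 0 ≠ 0 := by
    show A ((0 : ℂ) • z) ≠ 0
    rw [zero_smul]
    exact h0
  have hfin := pRoot U hUo hUc.isPreconnected f f' k hk hf hf' hval 0 0 1 h00 hne (one_pow k)
    hval0 1 h11 1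
  have g1 : B' ((1 : ℂ) • z) = 1 * B ((1 : ℂ) • z) := hfin
  rw [one_smul, one_mul] at g1
  exact g1

/-- **S_VInv** from the uniform statement. -/
theorem pVInv (hVI3 : S_VI3) : S_VInv := by
  intro F _ _ _ D a ha t ψ hψ
  have ha0 : a ≠ 0 := by
    rintro rfl
    simp at ha
  obtain ⟨N0, hN0, hS0⟩ := id hψ
  obtain ⟨φ, _, hφ, _, hw⟩ := CMT.NV.holds F D a a ha0 ha0
  obtain ⟨N1, hN1, hS1⟩ := id hφ
  have hSψ : SB (N0 * N1) ψ := hS0.mono N1
  have hSφ : SB (N0 * N1) φ := by
    rw [mul_comm]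
    exact hS1.mono N0
  obtain ⟨n, k, hn, hk, hI⟩ := hVI3 F D a ha (N0 * N1) (Nat.mul_pos hN0 hN1) t
  obtain ⟨G1, hG1, hinv⟩ := thmInv1 F D a ha φ hφ
  refine ⟨G1 ⊓ Gam D (3 * n), s_Inter F D G1 (Gam D (3 * n)) hG1
    ⟨gam_dvd D (dvd_mul_right _ _), CMT.thmIdx F D (3 * n) (by positivity)⟩, ?_⟩
  rintro g ⟨hg1, hg2⟩ z hz i
  have hgn : g ∈ Gam D n := gam_dvd D (dvd_mul_left _ _) hg2
  have hgi : IsIso D g := hgn.1
  have hact : ∀ w ∈ Ball D, act D g w ∈ Ball D := fun w hw => act_mem_Ball D hgi hw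
  have oA : ∀ w ∈ Ball D, DifferentiableAt ℂ (fun z => (om D a φ z).1) w ∧
      DifferentiableAt ℂ (fun z => (om D a φ z).2) w := fun w hw =>
    differentiableAt_om D ha0 hφ hw
  have oA' : ∀ w ∈ Ball D,
      DifferentiableAt ℂ (fun z => (pull1 D g z (om D a φ (act D g z))).1) w ∧
      DifferentiableAt ℂ (fun z => (pull1 D g z (om D a φ (act D g z))).2) w := fun w hw =>
    diff_pull_gen D hgi hw (oA _ (hact w hw)).1 (oA _ (hact w hw)).2
  have oB : ∀ w ∈ Ball D,
      DifferentiableAt ℂ (fun z => ∑ l, Rt D a t g i l * (vf D a t ψ z l).1) w ∧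
      DifferentiableAt ℂ (fun z => ∑ l, Rt D a t g i l * (vf D a t ψ z l).2) w := by
    intro w hw
    constructor
    · exact DifferentiableAt.fun_sum fun l _ => ((differentiableAt_vf D ha t hψ l hw).1).const_mul _
    · exact DifferentiableAt.fun_sum fun l _ => ((differentiableAt_vf D ha t hψ l hw).2).const_mul _
  have oB' : ∀ w ∈ Ball D,
      DifferentiableAt ℂ (fun z => (pull1 D g z (vf D a t ψ (act D g z) i)).1) w ∧
      DifferentiableAt ℂ (fun z => (pull1 D g z (vf D a t ψ (act D g z) i)).2) w := fun w hw =>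
    diff_pull_gen D (ω := fun z => vf D a t ψ z i) hgi hw
      (differentiableAt_vf D ha t hψ i (hact w hw)).1 (differentiableAt_vf D ha t hψ i (hact w hw)).2
  -- the common scalar
  have hc : ∀ w ∈ Ball D, ∃ c : ℂ, c ^ k = 1 ∧
      pull1 D g w (om D a φ (act D g w)) = (c * (om D a φ w).1, c * (om D a φ w).2) ∧
      pull1 D g w (vf D a t ψ (act D g w) i) =
          (c * ∑ l, Rt D a t g i l * (vf D a t ψ w l).1,
            c * ∑ l, Rt D a t g i l * (vf D a t ψ w l).2) := by
    intro w hw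
    obtain ⟨c, hc, h⟩ := hI g hgn w hw
    exact ⟨c, hc, (h φ hSφ).1, (h ψ hSψ).2 i⟩
  have hinv0 := hinv g hg1 0 (zero_mem_Ball D)
  have hne : (om D a φ 0).1 ≠ 0 ∨ (om D a φ 0).2 ≠ 0 := by
    by_contra hcon
    push Not at hcon
    apply hw
    rw [wedge, hcon.1, hcon.2]
    ring
  ext
  · rcases hne with hne | hne
    · exact line_root D (fun w hw => (oA w hw).1) (fun w hw => (oA' w hw).1)
        (fun w hw => (oB w hw).1) (fun w hw => (oB' w hw).1) hk
        (fun w hw => by
          obtain ⟨c, h1, h2, h3⟩ := hc w hw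
          exact ⟨c, h1, congrArg Prod.fst h2, congrArg Prod.fst h3⟩)
        hne (congrArg Prod.fst hinv0) z hz
    · exact line_root D (fun w hw => (oA w hw).2) (fun w hw => (oA' w hw).2)
        (fun w hw => (oB w hw).1) (fun w hw => (oB' w hw).1) hk
        (fun w hw => by
          obtain ⟨c, h1, h2, h3⟩ := hc w hw
          exact ⟨c, h1, congrArg Prod.snd h2, congrArg Prod.fst h3⟩)
        hne (congrArg Prod.snd hinv0) z hz
  · rcases hne with hne | hne
    · exact line_root D (fun w hw => (oA w hw).1) (fun w hw => (oA' w hw).1)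
        (fun w hw => (oB w hw).2) (fun w hw => (oB' w hw).2) hk
        (fun w hw => by
          obtain ⟨c, h1, h2, h3⟩ := hc w hw
          exact ⟨c, h1, congrArg Prod.fst h2, congrArg Prod.snd h3⟩)
        hne (congrArg Prod.fst hinv0) z hz
    · exact line_root D (fun w hw => (oA w hw).2) (fun w hw => (oA' w hw).2)
        (fun w hw => (oB w hw).2) (fun w hw => (oB' w hw).2) hk
        (fun w hw => by
          obtain ⟨c, h1, h2, h3⟩ := hc w hw
          exact ⟨c, h1, congrArg Prod.snd h2, congrArg Prod.snd h3⟩)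
        hne (congrArg Prod.snd hinv0) z hz

end CMT.J
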